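import Mathlib

/-!
# Defs : the analytic functions and the densities of the construction

MP_5a4862_nt. A Beurling zeta function with Richert's bound and zeros at the Vinogradov-Korobov distance.

`D1 z` is the Laplace transform of the uniform density on `[1, 2]`, `J1 z = (1 - D1 z) / z` is entire. `r1` is the
density with `- log (1 - D1 z) = ∫ r1 y exp (- z y) dy`. A block `P : Blk` has the ordinate `g`, the range `R`, the onset
`1 / b` and `K` harmonics; `P.H` is its entire factor and `P.m` its density.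
-/

set_option autoImplicit false

open Complex MeasureTheory Set Filter Topology

namespace VQ

/-- Laplace transform of the uniform density on `[1, 2]` -/
noncomputable def D1 (z : ℂ) : ℂ := ∫ y in (1 : ℝ)..2, Complex.exp (-z * y)

/-- `(1 - D1 z) / z`, an entire function -/
noncomputable def J1 (z : ℂ) : ℂ := ∫ y in (1 : ℝ)..2, ∫ u in (0 : ℝ)..y, Complex.exp (-z * u)

/-- `pm m` : the density of the sum of `m + 1` independent uniform variables on `[1, 2]` -/
noncomputable def pm : ℕ → ℝ → ℝ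
  | 0 => fun y => if 1 ≤ y ∧ y ≤ 2 then 1 else 0
  | (m + 1) => fun y => ∫ u in (y - 2)..(y - 1), pm m u

/-- the density of `- log (1 - D1)` -/
noncomputable def r1 (y : ℝ) : ℝ := ∑' m : ℕ, pm m y / ((m : ℝ) + 1)

/-- the parameters of a block -/
structure Blk where
  g : ℝ
  R : ℝ
  b : ℝ
  K : ℕ
  hR : 1 ≤ R
  hb : 0 < b
  hb1 : b ≤ 1 / 100
  hbR : 32 ≤ b * R
  hK : 2000 * b * R ≤ K
  hKb : (K : ℝ) * b ≤ 1 / 10
  hRb : R * b ^ 2 ≤ 1
  hg : 1024 * (K : ℝ) * Real.exp (2 * R) ≤ g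

namespace Blk

variable (P : Blk)

/-- the distance of the zero to the line `re s = 1` -/
noncomputable def lam : ℝ := 4 / (5 * P.R)

/-- the coefficient of the harmonic `k` in the density -/
noncomputable def ck (k : ℕ) (y : ℝ) : ℝ :=
  if Even k then (1 - Real.exp (-P.b * y)) / y - r1 (y / P.R) / P.R
  else -((1 - Real.exp (-P.b * y)) / y) - Real.exp (-P.b * y) * (r1 (y / P.R) / P.R)

/-- the density of the block, with respect to `exp y dy` -/
noncomputable def m (y : ℝ) : ℝ :=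
  ∑ k ∈ Finset.Icc 1 P.K, 2 * Real.cos (k * P.g * y) * Real.exp (-P.lam * (k : ℝ) ^ 2 * y) * P.ck k y

/-- the entire factor of a harmonic -/
noncomputable def Ph (k : ℕ) (z : ℂ) : ℂ :=
  if Even k then (z + P.b) * (P.R * J1 (P.R * z)) else z * (P.R * J1 (P.R * (z + P.b)))

/-- the entire factor of the block -/
noncomputable def H (s : ℂ) : ℂ :=
  ∏ k ∈ Finset.Icc 1 P.K, P.Ph k (s - 1 - Complex.I * (k * P.g) + P.lam * (k : ℂ) ^ 2) *
    P.Ph k (s - 1 + Complex.I * (k * P.g) + P.lam * (k : ℂ) ^ 2)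

end Blk

/-- the sequence of blocks is very sparse -/
structure Sparse (P : ℕ → Blk) : Prop where
  eps0 : ∀ n, 2 * ((P n).K : ℝ) * (P n).b ≤ (1 / 2) ^ (n + 3)
  eps : ∀ j n, j < n → 2 * ((P n).K : ℝ) * (P n).b * (P j).g ^ 4 ≤ (1 / 2) ^ (n + 3)
  R : ∀ n, 24 * (P n).R ≤ (P (n + 1)).R
  b : ∀ n, 1000 * (P (n + 1)).b * (P n).R ≤ 1
  g : ∀ n, 8 * ((P n).K : ℝ) * (P n).g ≤ (P (n + 1)).g
  g0 : ∀ n, 1024 * ((P n).K : ℝ) * Real.exp (2 * (P n).R) * 2 ^ n ≤ (P n).g

/-- the density of the system, with respect to `exp y dy`, where `y` is the logarithm -/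
noncomputable def dn (P : ℕ → Blk) (y : ℝ) : ℝ := (1 - Real.exp (-y)) / y + ∑' n, (P n).m y

/-- the product of the entire factors -/
noncomputable def FF (P : ℕ → Blk) (s : ℂ) : ℂ := ∏' n, (P n).H s

/-- number of generalized integers `≤ x` -/
noncomputable def gN (p : ℕ → ℝ) (x : ℝ) : ℕ :=
  Set.ncard {m : ℕ →₀ ℕ | (m.prod fun j e => p j ^ e) ≤ x}

/-- the Chebyshev function of the generalized primes: the sum of `log (p j)` over `p j ^ (e + 1) ≤ x` -/
noncomputable def gpsi (p : ℕ → ℝ) (x : ℝ) : ℝ :=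
  ∑' q : ℕ × ℕ, if p q.1 ^ (q.2 + 1) ≤ x then Real.log (p q.1) else 0

end VQ
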