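import Pool.Agent.H15.VQ.Mb

/-!
# Dsum : the density `dn` of the system

Adapt `Pool/Agent/H15/VO/Dsum.lean` (same theorems, proved) to the new constants: `32 ≤ b R`, `b ≤ 1 / 100`, so `3200 ≤ R`;
`1000 b (n+1) R n ≤ 1`; `m_large` is now `y |m y| ≤ 983/1000 exp (-(4/5) (y / R - 1))`, `m_lower` has `1/800`.

For `y > 0` let `N` be the first index with `y < R N`, `E = exp (- b N y)`, `v = y / R (N-1) ≥ 1`, `b N y ≤ v / 1000`. Block `N - 1`:
`983/1000 exp (-(4/5) (v - 1)) ≤ 983/1000 exp (- (v - 1) / 1000) ≤ 984/1000 E`. Block `N - 1 - j`, `j ≥ 1`: `y / R ≥ 24^j v`, so it contributes at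
most `exp (-(4/5) (24^j v - 1)) ≤ 1/1000 (1/2)^j E`. Blocks `> N`: `1/1000 E` (`after_le` of the old file). So
`y dn y ≥ (1 - 985/1000 - 1/1000 - 1/800) E - exp (- y) ≥ 1/100 E - exp (- y)` if `N ≥ 1` (then `y ≥ 3200`), and
`y dn y ≥ 99/100 E - exp (- y)` if `N = 0`. For `y ≤ 1` use `m_small` for all blocks: `dn y ≥ (1 - exp (- y)) / y - 1/4`.
-/

set_option autoImplicit false

open Complex MeasureTheory Set Filter Topology

namespace VQ

variable {P : ℕ → Blk}

/-- `32 ≤ b R` and `b ≤ 1 / 100` -/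
theorem R_ge' (hP : Sparse P) (n : ℕ) : 3200 * (24 : ℝ) ^ n ≤ (P n).R := by
  induction n with
  | zero =>
    have h1 := (P 0).hbR
    have h2 := (P 0).hb1
    have h3 : 0 < (P 0).R := lt_of_lt_of_le one_pos (P 0).hR
    have h4 : (P 0).b * (P 0).R ≤ 1 / 100 * (P 0).R := mul_le_mul_of_nonneg_right h2 h3.le
    rw [pow_zero]
    linarith
  | succ n ih =>
    have := hP.R n
    rw [pow_succ]
    linarith

theorem R_ge (hP : Sparse P) (n : ℕ) : (24 : ℝ) ^ n ≤ (P n).R := by
  have h1 := R_ge' hP n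
  have h2 : (0 : ℝ) < 24 ^ n := by positivity
  linarith

private theorem R_pos (n : ℕ) : 0 < (P n).R := lt_of_lt_of_le one_pos (P n).hR

private theorem R_chain (hP : Sparse P) (n j : ℕ) : (24 : ℝ) ^ j * (P n).R ≤ (P (n + j)).R := by
  induction j with
  | zero => simp
  | succ j ih =>
    have := hP.R (n + j)
    rw [pow_succ, ← Nat.add_assoc]
    linarith

private theorem R_mono (hP : Sparse P) (n j : ℕ) : (P n).R ≤ (P (n + j)).R := by
  refine le_trans ?_ (R_chain hP n j)
  have h1 : (1 : ℝ) ≤ 24 ^ j := one_le_pow₀ (by norm_num)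
  have h2 := R_pos (P := P) n
  nlinarith

/-- the first case: `y` is below the range of the block -/
private theorem abs_m_lt (hP : Sparse P) {y : ℝ} (hy : 0 < y) {n : ℕ} (h : y < (P n).R) :
    |(P n).m y| ≤ 1 / 8 * (1 / 2) ^ n := by
  refine ((P n).m_small hy h).trans ((hP.eps0 n).trans (le_of_eq ?_))
  rw [pow_add]
  norm_num
  ring

private theorem abs_m_ge {y : ℝ} (hy : 0 < y) {n : ℕ} (h : (P n).R ≤ y) :
    |(P n).m y| ≤ 1 / y := by
  have h1 := (P n).m_large h
  have h2 : Real.exp (-(4 / 5) * (y / (P n).R - 1)) ≤ 1 := by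
    rw [Real.exp_le_one_iff]
    have h3 : 1 ≤ y / (P n).R := by rwa [one_le_div (R_pos (P := P) n)]
    linarith
  rw [le_div_iff₀ hy]
  linarith

private theorem abs_m (hP : Sparse P) {y : ℝ} (hy : 0 < y) (n : ℕ) :
    |(P n).m y| ≤ 1 / 8 * (1 / 2) ^ n := by
  rcases lt_or_ge y (P n).R with h | h
  · exact abs_m_lt hP hy h
  · refine (abs_m_ge hy h).trans ?_
    have h3 : 3200 * (24 : ℝ) ^ n ≤ y := (R_ge' hP n).trans h
    have h2 : (2 : ℝ) ^ n ≤ 24 ^ n := pow_le_pow_left₀ (by norm_num) (by norm_num) n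
    have h5 : (0 : ℝ) < 2 ^ n := by positivity
    have h4 : 8 * (2 : ℝ) ^ n ≤ y := by linarith
    have h6 : 1 / y ≤ 1 / (8 * 2 ^ n) := one_div_le_one_div_of_le (by positivity) h4
    refine h6.trans (le_of_eq ?_)
    rw [one_div_pow]
    field_simp

theorem m_summable (hP : Sparse P) {y : ℝ} (hy : 0 < y) : Summable fun n => (P n).m y := by
  refine Summable.of_norm_bounded (g := fun n : ℕ => 1 / 8 * (1 / 2 : ℝ) ^ n)
    (summable_geometric_two.mul_left _) fun n => ?_
  rw [Real.norm_eq_abs]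
  exact abs_m hP hy n

private theorem tail_le (hP : Sparse P) {y : ℝ} (hy : 0 < y) (k : ℕ) :
    |∑' n, (P (n + k)).m y| ≤ 1 / 4 * (1 / 2) ^ k := by
  have hs : HasSum (fun n : ℕ => 1 / 8 * (1 / 2 : ℝ) ^ k * (1 / 2) ^ n) (1 / 8 * (1 / 2 : ℝ) ^ k * 2) :=
    hasSum_geometric_two.mul_left _
  have := tsum_of_norm_bounded hs (f := fun n => (P (n + k)).m y) fun n => by
    rw [Real.norm_eq_abs]
    refine (abs_m hP hy (n + k)).trans (le_of_eq ?_)
    rw [pow_add]
    ring
  rw [Real.norm_eq_abs] at this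
  refine this.trans (le_of_eq ?_)
  ring

private theorem sum_le (hP : Sparse P) {y : ℝ} (hy : 0 < y) : |∑' n, (P n).m y| ≤ 1 / 4 := by
  have := tail_le hP hy 0
  simpa using this

private theorem ck_meas_aux (P : Blk) (k : ℕ) : Measurable (P.ck k) := by
  have h1 : Measurable fun y : ℝ => (1 - Real.exp (-P.b * y)) / y :=
    (measurable_const.sub (Real.measurable_exp.comp (measurable_const.mul measurable_id))).div
      measurable_id
  have h2 : Measurable fun y : ℝ => r1 (y / P.R) / P.R :=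
    (r1_meas.comp (measurable_id.div_const _)).div_const _
  have h3 : Measurable fun y : ℝ => Real.exp (-P.b * y) :=
    Real.measurable_exp.comp (measurable_const.mul measurable_id)
  by_cases hk : Even k
  · have : P.ck k = fun y => (1 - Real.exp (-P.b * y)) / y - r1 (y / P.R) / P.R := by
      funext y
      simp only [Blk.ck, if_pos hk]
    rw [this]
    exact h1.sub h2
  · have : P.ck k = fun y => -((1 - Real.exp (-P.b * y)) / y) -
        Real.exp (-P.b * y) * (r1 (y / P.R) / P.R) := by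
      funext y
      simp only [Blk.ck, if_neg hk]
    rw [this]
    exact h1.neg.sub (h3.mul h2)

private theorem m_meas_aux (P : Blk) : Measurable P.m := by
  have : P.m = fun y => ∑ k ∈ Finset.Icc 1 P.K,
      2 * Real.cos (k * P.g * y) * Real.exp (-P.lam * (k : ℝ) ^ 2 * y) * P.ck k y := by
    funext y
    rfl
  rw [this]
  refine Finset.measurable_sum _ fun k _ => ?_
  refine Measurable.mul ?_ (ck_meas_aux P k)
  exact Continuous.measurable (by fun_prop)

theorem dn_meas (hP : Sparse P) : Measurable fun y : ℝ => if 0 < y then dn P y else 0 := by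
  have hF : ∀ N : ℕ, Measurable fun y : ℝ =>
      if 0 < y then (1 - Real.exp (-y)) / y + ∑ n ∈ Finset.range N, (P n).m y else 0 := by
    intro N
    refine Measurable.ite measurableSet_Ioi ?_ measurable_const
    refine Measurable.add ?_ (Finset.measurable_sum _ fun n _ => m_meas_aux (P n))
    exact (measurable_const.sub (Real.measurable_exp.comp measurable_neg)).div measurable_id
  refine measurable_of_tendsto_metrizable hF ?_
  rw [tendsto_pi_nhds]
  intro y
  by_cases hy : 0 < y
  · simp only [if_pos hy]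
    exact (m_summable hP hy).hasSum.tendsto_sum_nat.const_add _
  · simp only [if_neg hy]
    exact tendsto_const_nhds

private theorem main_le {y : ℝ} (hy : 0 < y) : (1 - Real.exp (-y)) / y ≤ 1 := by
  rw [div_le_one hy]
  have := Real.add_one_le_exp (-y)
  linarith

private theorem main_ge {y : ℝ} (hy : 0 < y) (hy1 : y ≤ 1) : 1 / 2 ≤ (1 - Real.exp (-y)) / y := by
  rw [le_div_iff₀ hy, Real.exp_neg]
  have h1 := Real.add_one_le_exp y
  have h2 : (Real.exp y)⁻¹ ≤ (y + 1)⁻¹ := inv_anti₀ (by linarith) h1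
  have h3 : (y + 1)⁻¹ ≤ 1 - 1 / 2 * y := by
    rw [inv_le_iff_one_le_mul₀ (by linarith)]
    nlinarith
  linarith

private theorem E_ge (hP : Sparse P) {y : ℝ} (n : ℕ) (h : (P n).R ≤ y) :
    Real.exp (-(y / (P n).R) / 1000) ≤ Real.exp (-(P (n + 1)).b * y) := by
  have hR := R_pos (P := P) n
  have htb : (P (n + 1)).b * y ≤ y / (P n).R / 1000 := by
    rw [div_div, le_div_iff₀ (by positivity)]
    have h1 := hP.b n
    have hy : 0 < y := lt_of_lt_of_le hR h
    nlinarith
  rw [Real.exp_le_exp]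
  linarith

/-- the block before the current one -/
private theorem before_zero (hP : Sparse P) {y : ℝ} (n : ℕ) (h : (P n).R ≤ y) :
    y * |(P n).m y| ≤ 984 / 1000 * Real.exp (-(P (n + 1)).b * y) := by
  have hR := R_pos (P := P) n
  have h1 := (P n).m_large h
  have hE := E_ge hP n h
  have hv : 1 ≤ y / (P n).R := by rwa [one_le_div hR]
  set v := y / (P n).R with hvdef
  have h2 : Real.exp (-(4 / 5) * (v - 1)) ≤ Real.exp (-v / 1000) * Real.exp (1 / 1000) := by
    rw [← Real.exp_add, Real.exp_le_exp]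
    linarith
  have h3 : Real.exp (1 / 1000) ≤ 1000 / 999 := by
    have h4 := Real.add_one_le_exp (-(1 / 1000 : ℝ))
    rw [Real.exp_neg] at h4
    have h5 := Real.exp_pos (1 / 1000 : ℝ)
    have h6 := mul_le_mul_of_nonneg_right h4 h5.le
    rw [inv_mul_cancel₀ h5.ne'] at h6
    linarith
  have hpos := Real.exp_pos (-v / 1000)
  have h7 : Real.exp (-v / 1000) * Real.exp (1 / 1000) ≤ Real.exp (-v / 1000) * (1000 / 999) :=
    mul_le_mul_of_nonneg_left h3 hpos.le
  linarith

/-- the other blocks before the current one -/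
private theorem before_succ (hP : Sparse P) {y : ℝ} (n j : ℕ) (hj : 1 ≤ j)
    (h : (P (n + j)).R ≤ y) :
    y * |(P n).m y| ≤ 1 / 1000 * Real.exp (-(P (n + j + 1)).b * y) * (1 / 2) ^ j := by
  have hRn := R_pos (P := P) n
  have hRj := R_pos (P := P) (n + j)
  have h1 := (P n).m_large ((R_mono hP n j).trans h)
  have hE := E_ge hP (n + j) h
  have ht1 : 1 ≤ y / (P (n + j)).R := by rwa [one_le_div hRj]
  have hc := R_chain hP n j
  have hj1 : (1 : ℝ) ≤ j := by exact_mod_cast hj
  have h24 : (1 : ℝ) + 23 * j ≤ 24 ^ j := by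
    have := one_add_mul_le_pow (a := (23 : ℝ)) (by norm_num) j
    norm_num at this
    linarith
  have hfr : (24 : ℝ) ^ j * (y / (P (n + j)).R) ≤ y / (P n).R := by
    rw [le_div_iff₀ hRn]
    calc (24 : ℝ) ^ j * (y / (P (n + j)).R) * (P n).R
        = (24 ^ j * (P n).R) * (y / (P (n + j)).R) := by ring
      _ ≤ (P (n + j)).R * (y / (P (n + j)).R) :=
          mul_le_mul_of_nonneg_right hc (by positivity)
      _ = y := by field_simp
  set v := y / (P (n + j)).R with hv
  have hvj : 1 * 1 ≤ (j : ℝ) * v := mul_le_mul hj1 ht1 zero_le_one (by positivity)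
  have hvj1 : (j : ℝ) * 1 ≤ j * v := mul_le_mul_of_nonneg_left ht1 (by positivity)
  have hvj2 : 1 * v ≤ (j : ℝ) * v := mul_le_mul_of_nonneg_right hj1 (by positivity)
  have hkey : v / 1000 + 10 + j ≤ 4 / 5 * (y / (P n).R - 1) := by
    have h3 : ((1 : ℝ) + 23 * j) * v ≤ 24 ^ j * v := mul_le_mul_of_nonneg_right h24 (by positivity)
    have h4 : ((1 : ℝ) + 23 * j) * v = v + 23 * (j * v) := by ring
    linarith
  have he : Real.exp (-1) ≤ 1 / 2 := by
    have := Real.exp_one_gt_d9
    rw [Real.exp_neg, inv_le_comm₀ (Real.exp_pos 1) (by norm_num)]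
    norm_num
    linarith
  have hpw : ∀ i : ℕ, Real.exp (-1) ^ i ≤ (1 / 2) ^ i := fun i =>
    pow_le_pow_left₀ (Real.exp_pos _).le he i
  have hmain : Real.exp (-(4 / 5) * (y / (P n).R - 1)) ≤
      1 / 1000 * Real.exp (-(P (n + j + 1)).b * y) * (1 / 2) ^ j := by
    calc Real.exp (-(4 / 5) * (y / (P n).R - 1))
        ≤ Real.exp (-v / 1000 + ((10 : ℕ) : ℝ) * (-1) + (j : ℝ) * (-1)) := by
          rw [Real.exp_le_exp]
          push_cast
          linarith
      _ = Real.exp (-v / 1000) * Real.exp (-1) ^ 10 * Real.exp (-1) ^ j := by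
          rw [Real.exp_add, Real.exp_add, Real.exp_nat_mul, Real.exp_nat_mul]
      _ ≤ Real.exp (-(P (n + j + 1)).b * y) * (1 / 1000) * (1 / 2) ^ j := by
          refine mul_le_mul ?_ (hpw j) (by positivity) (by positivity)
          refine mul_le_mul hE ?_ (by positivity) (by positivity)
          refine (hpw 10).trans ?_
          norm_num
      _ = _ := by ring
  have h5 := Real.exp_pos (-(4 / 5) * (y / (P n).R - 1))
  linarith

/-- the blocks after the current one -/
private theorem after_le (hP : Sparse P) {y : ℝ} (hy : 0 < y) (N : ℕ) (h : y < (P N).R) :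
    y * |∑' n, (P (n + (N + 1))).m y| ≤ 1 / 1000 * Real.exp (-(P N).b * y) := by
  have hR := R_pos (P := P) N
  have hK : (1 : ℝ) ≤ (P N).K := by nlinarith [(P N).hK, (P N).hbR]
  have hg := (P N).hg
  have hexp : 0 < Real.exp (2 * (P N).R) := Real.exp_pos _
  have hg1 : 1024 * Real.exp (2 * (P N).R) ≤ (P N).g := by nlinarith
  have hexp1 : 1 ≤ Real.exp (2 * (P N).R) := Real.one_le_exp (by positivity)
  have hgg : (1 : ℝ) ≤ (P N).g := by linarith
  have hg4 : (P N).g ≤ (P N).g ^ 4 := le_self_pow₀ hgg (by norm_num)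
  have hg4pos : 0 < (P N).g ^ 4 := by positivity
  have hterm : ∀ n : ℕ, |(P (n + (N + 1))).m y| ≤ 1 / 16 / (P N).g ^ 4 * (1 / 2) ^ n := by
    intro n
    have hlt : y < (P (n + (N + 1))).R := by
      have := R_mono hP N (n + 1)
      rw [show N + (n + 1) = n + (N + 1) by ring] at this
      linarith
    refine ((P (n + (N + 1))).m_small hy hlt).trans ?_
    have h1 := hP.eps N (n + (N + 1)) (by omega)
    have h2 : (1 / 2 : ℝ) ^ (n + (N + 1) + 3) ≤ 1 / 16 * (1 / 2) ^ n := by
      have : (1 / 2 : ℝ) ^ (n + (N + 1) + 3) = (1 / 16 * (1 / 2) ^ n) * (1 / 2) ^ N := by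
        rw [show n + (N + 1) + 3 = 4 + n + N by ring, pow_add, pow_add]
        norm_num
      rw [this]
      have h3 : (1 / 2 : ℝ) ^ N ≤ 1 := pow_le_one₀ (by norm_num) (by norm_num)
      have h4 : (0 : ℝ) ≤ 1 / 16 * (1 / 2) ^ n := by positivity
      nlinarith
    rw [div_mul_eq_mul_div, le_div_iff₀ hg4pos]
    linarith
  have hs : HasSum (fun n : ℕ => 1 / 16 / (P N).g ^ 4 * (1 / 2 : ℝ) ^ n) (1 / 16 / (P N).g ^ 4 * 2) :=
    hasSum_geometric_two.mul_left _
  have hb := tsum_of_norm_bounded hs (f := fun n => (P (n + (N + 1))).m y) fun n => by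
    rw [Real.norm_eq_abs]
    exact hterm n
  rw [Real.norm_eq_abs] at hb
  have hRe : (P N).R ≤ Real.exp (P N).R := by
    have := Real.add_one_le_exp (P N).R
    linarith
  have hby : Real.exp (-(P N).R) ≤ Real.exp (-(P N).b * y) := by
    rw [Real.exp_le_exp]
    have := (P N).hb
    have := (P N).hb1
    nlinarith
  have h5 : (P N).R ≤ Real.exp (2 * (P N).R) * Real.exp (-(P N).b * y) := by
    calc (P N).R ≤ Real.exp (P N).R := hRe
      _ = Real.exp (2 * (P N).R) * Real.exp (-(P N).R) := by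
          rw [← Real.exp_add]
          congr 1
          ring
      _ ≤ _ := mul_le_mul_of_nonneg_left hby (Real.exp_pos _).le
  calc y * |∑' n, (P (n + (N + 1))).m y| ≤ (P N).R * (1 / 16 / (P N).g ^ 4 * 2) := by
        gcongr
    _ = (P N).R / (8 * (P N).g ^ 4) := by
        field_simp
        norm_num
    _ ≤ 1 / 1000 * Real.exp (-(P N).b * y) := by
        rw [div_le_iff₀ (by positivity)]
        have hE := Real.exp_pos (-(P N).b * y)
        have h6 : Real.exp (2 * (P N).R) * 1024 ≤ (P N).g ^ 4 := by linarith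
        have h7 : Real.exp (-(P N).b * y) * (Real.exp (2 * (P N).R) * 1024) ≤
            Real.exp (-(P N).b * y) * (P N).g ^ 4 := mul_le_mul_of_nonneg_left h6 hE.le
        nlinarith

private theorem geo_le (N : ℕ) : ∑ n ∈ Finset.range N, (1 / 2 : ℝ) ^ (N - n) ≤ 1 := by
  have h1 : ∀ N : ℕ, ∑ n ∈ Finset.range N, (1 / 2 : ℝ) ^ (N - n) = 1 - (1 / 2) ^ N := by
    intro N
    induction N with
    | zero => simp
    | succ N ih =>
      rw [Finset.sum_range_succ]
      have h2 : ∑ n ∈ Finset.range N, (1 / 2 : ℝ) ^ (N + 1 - n) =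
          1 / 2 * ∑ n ∈ Finset.range N, (1 / 2 : ℝ) ^ (N - n) := by
        rw [Finset.mul_sum]
        refine Finset.sum_congr rfl fun n hn => ?_
        have hn' := Finset.mem_range.mp hn
        rw [show N + 1 - n = (N - n) + 1 by omega, pow_succ]
        ring
      rw [h2, ih, show N + 1 - N = 1 by omega, pow_succ]
      ring
  rw [h1]
  have : (0 : ℝ) < (1 / 2) ^ N := by positivity
  linarith

private theorem before_sum (hP : Sparse P) {y : ℝ} (hy : 0 < y) (N : ℕ)
    (hmin : ∀ n < N + 1, (P n).R ≤ y) :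
    |∑ n ∈ Finset.range (N + 1), y * (P n).m y| ≤ 985 / 1000 * Real.exp (-(P (N + 1)).b * y) := by
  set E := Real.exp (-(P (N + 1)).b * y) with hE
  have hEpos : 0 < E := Real.exp_pos _
  refine (Finset.abs_sum_le_sum_abs _ _).trans ?_
  rw [Finset.sum_range_succ]
  have h0 : |y * (P N).m y| ≤ 984 / 1000 * E := by
    rw [abs_mul, abs_of_pos hy]
    exact before_zero hP N (hmin N (Nat.lt_succ_self N))
  have h1 : ∀ n ∈ Finset.range N, |y * (P n).m y| ≤ 1 / 1000 * E * (1 / 2) ^ (N - n) := by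
    intro n hn
    have hn' := Finset.mem_range.mp hn
    rw [abs_mul, abs_of_pos hy]
    have hj : n + (N - n) = N := by omega
    have h2 := before_succ hP (y := y) n (N - n) (by omega) (by rw [hj]; exact hmin N (Nat.lt_succ_self N))
    rwa [hj] at h2
  have h3 := Finset.sum_le_sum h1
  rw [← Finset.mul_sum] at h3
  have h4 := geo_le N
  have h5 : 1 / 1000 * E * ∑ n ∈ Finset.range N, (1 / 2 : ℝ) ^ (N - n) ≤ 1 / 1000 * E * 1 :=
    mul_le_mul_of_nonneg_left h4 (by positivity)
  linarith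

private theorem y_dn (hP : Sparse P) {y : ℝ} (hy : 0 < y) :
    ∃ N : ℕ, (3200 ≤ y ∧ 1 / 100 * Real.exp (-(P N).b * y) - Real.exp (-y) ≤ y * dn P y) ∨
      99 / 100 * Real.exp (-(P N).b * y) - Real.exp (-y) ≤ y * dn P y := by
  have hex : ∃ N : ℕ, y < (P N).R := by
    obtain ⟨N, hN⟩ := pow_unbounded_of_one_lt y (by norm_num : (1 : ℝ) < 24)
    exact ⟨N, hN.trans_le (R_ge hP N)⟩
  classical
  obtain ⟨N, hN, hmin⟩ : ∃ N : ℕ, y < (P N).R ∧ ∀ n < N, (P n).R ≤ y :=
    ⟨Nat.find hex, Nat.find_spec hex, fun n hn => not_lt.mp (Nat.find_min hex hn)⟩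
  refine ⟨N, ?_⟩
  have haft := after_le hP hy N hN
  have hcur := (P N).m_lower hy hN
  have hsplit := (m_summable hP hy).sum_add_tsum_nat_add (N + 1)
  rw [Finset.sum_range_succ] at hsplit
  have hdn : y * dn P y = 1 - Real.exp (-y) + ∑ n ∈ Finset.range N, y * (P n).m y + y * (P N).m y +
      y * ∑' n, (P (n + (N + 1))).m y := by
    unfold dn
    rw [← hsplit, ← Finset.mul_sum]
    field_simp
    ring
  have haft' : -(1 / 1000 * Real.exp (-(P N).b * y)) ≤ y * ∑' n, (P (n + (N + 1))).m y := by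
    have h1 := neg_abs_le (∑' n, (P (n + (N + 1))).m y)
    nlinarith
  have hEpos : 0 < Real.exp (-(P N).b * y) := Real.exp_pos _
  rcases Nat.eq_zero_or_pos N with h0 | h0
  · right
    rw [hdn, h0, Finset.range_zero, Finset.sum_empty]
    rw [h0] at haft' hcur hEpos
    linarith
  · left
    obtain ⟨M, rfl⟩ : ∃ M, N = M + 1 := ⟨N - 1, by omega⟩
    have hbef := (abs_le.mp (before_sum hP hy M hmin)).1
    refine ⟨?_, ?_⟩
    · have h1 := hmin 0 (by omega)
      have h2 := R_ge' hP 0
      rw [pow_zero] at h2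
      linarith
    · rw [hdn]
      linarith

private theorem dn_low_aux (hP : Sparse P) {y : ℝ} (hy : Real.log 2 ≤ y) :
    1 / 10 ≤ Real.exp y * dn P y := by
  have hl := Real.log_two_gt_d9
  have hy0 : 0 < y := by linarith
  obtain ⟨N, hN⟩ := y_dn hP hy0
  have hb1 := (P N).hb1
  have e1 : Real.exp y * Real.exp (-(P N).b * y) = Real.exp (y - (P N).b * y) := by
    rw [← Real.exp_add]
    congr 1
    ring
  have e2 : Real.exp y * Real.exp (-y) = 1 := by
    rw [← Real.exp_add, add_neg_cancel, Real.exp_zero]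
  have h4 : (P N).b * y ≤ 1 / 100 * y := mul_le_mul_of_nonneg_right hb1 hy0.le
  have h5 : 1 / 10 * y ≤ Real.exp y * dn P y * y := by
    have h6 : Real.exp y * dn P y * y = Real.exp y * (y * dn P y) := by ring
    rw [h6]
    rcases hN with ⟨hy3, hN⟩ | hN
    · have h2 := mul_le_mul_of_nonneg_left hN (Real.exp_pos y).le
      have h7 : Real.exp y * (1 / 100 * Real.exp (-(P N).b * y) - Real.exp (-y)) =
          1 / 100 * Real.exp (y - (P N).b * y) - 1 := by
        rw [mul_sub, e2, ← e1]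
        ring
      rw [h7] at h2
      have h8 : 99 / 100 * y ≤ y - (P N).b * y := by linarith
      have h9 : 0 ≤ y - (P N).b * y := by linarith
      have h10 := Real.quadratic_le_exp_of_nonneg h9
      have h11 : (99 / 100 * y) ^ 2 ≤ (y - (P N).b * y) ^ 2 := pow_le_pow_left₀ (by positivity) h8 2
      nlinarith
    · have h2 := mul_le_mul_of_nonneg_left hN (Real.exp_pos y).le
      have h7 : Real.exp y * (99 / 100 * Real.exp (-(P N).b * y) - Real.exp (-y)) =
          99 / 100 * Real.exp (y - (P N).b * y) - 1 := by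
        rw [mul_sub, e2, ← e1]
        ring
      rw [h7] at h2
      have h3 := Real.add_one_le_exp (y - (P N).b * y)
      linarith
  exact le_of_mul_le_mul_right h5 hy0

theorem dn_nonneg (hP : Sparse P) {y : ℝ} (hy : 0 < y) : 0 ≤ dn P y := by
  rcases le_or_gt y 1 with h | h
  · have h1 := main_ge hy h
    have h2 := (abs_le.mp (sum_le hP hy)).1
    unfold dn
    linarith
  · have hl := Real.log_two_lt_d9
    have h1 := dn_low_aux hP (y := y) (by linarith)
    have h2 := Real.exp_pos y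
    by_contra hc
    push Not at hc
    nlinarith

theorem dn_le (hP : Sparse P) {y : ℝ} (hy : 0 < y) : dn P y ≤ 3 := by
  have h1 := main_le hy
  have h2 := (abs_le.mp (sum_le hP hy)).2
  unfold dn
  linarith

theorem dn_low (hP : Sparse P) {y : ℝ} (hy : Real.log 2 ≤ y) : 1 / 10 ≤ Real.exp y * dn P y :=
  dn_low_aux hP hy

private theorem abs_m_div {y : ℝ} (hy : 0 < y) (n : ℕ) :
    |(P n).m y| ≤ (2 * (P n).K * (P n).b * (P n).R + 1) / y := by
  have hb := (P n).hb
  have hR := R_pos (P := P) n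
  have hK : (0 : ℝ) ≤ (P n).K := Nat.cast_nonneg _
  have h0 : 0 ≤ 2 * ((P n).K : ℝ) * (P n).b := by positivity
  rcases lt_or_ge y (P n).R with h | h
  · refine ((P n).m_small hy h).trans ?_
    rw [le_div_iff₀ hy]
    nlinarith
  · refine (abs_m_ge hy h).trans ?_
    refine div_le_div_of_nonneg_right ?_ hy.le
    have : 0 ≤ 2 * ((P n).K : ℝ) * (P n).b * (P n).R := by positivity
    linarith

/-- `∑_{n ≥ n0} 2^(-n-3) ≤ ε`; the blocks `n < n0` contribute at most `(2 K b R + 1) / y` each -/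
theorem dn_eps (hP : Sparse P) {ε : ℝ} (hε : 0 < ε) :
    ∃ C : ℝ, 0 ≤ C ∧ ∀ y : ℝ, 1 / 2 ≤ y → dn P y ≤ ε + C / y := by
  obtain ⟨n0, hn0⟩ := exists_pow_lt_of_lt_one hε (by norm_num : (1 / 2 : ℝ) < 1)
  refine ⟨1 + ∑ n ∈ Finset.range n0, (2 * (P n).K * (P n).b * (P n).R + 1), ?_, ?_⟩
  · refine add_nonneg zero_le_one (Finset.sum_nonneg fun n _ => ?_)
    have hb := (P n).hb
    have hR := R_pos (P := P) n
    positivity
  · intro y hy
    have hy0 : 0 < y := by linarith
    have hsplit := (m_summable hP hy0).sum_add_tsum_nat_add n0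
    have h1 : (1 - Real.exp (-y)) / y ≤ 1 / y := by
      refine div_le_div_of_nonneg_right ?_ hy0.le
      have := Real.exp_pos (-y)
      linarith
    have h2 : ∑ n ∈ Finset.range n0, (P n).m y ≤
        (∑ n ∈ Finset.range n0, (2 * (P n).K * (P n).b * (P n).R + 1)) / y := by
      rw [Finset.sum_div]
      exact Finset.sum_le_sum fun n _ => (le_abs_self _).trans (abs_m_div hy0 n)
    have h3 := (abs_le.mp (tail_le hP hy0 n0)).2
    have h4 : (0 : ℝ) ≤ (1 / 2) ^ n0 := by positivity
    unfold dn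
    rw [← hsplit, add_div]
    linarith

end VQ
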