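import Pool.Agent.H15.VQ.Dsum

/-!
# DsumB : `dn y ≤ C / y` if `2 K b R` is bounded

Adapt `Pool/Agent/H15/VO/DsumB.lean` (same statement, proved) to the new constants (see `Dsum`): the blocks `n < N` contribute at
most `983/1000 + 1/1000 ≤ 1` to `y dn y`, the block `N` at most `C0`, the blocks `n > N` at most `1`, the base at most `1`.
-/

set_option autoImplicit false

open Complex MeasureTheory Set Filter Topology

namespace VQ

variable {P : ℕ → Blk}

private theorem dsumB_mono (hP : Sparse P) (j i : ℕ) : (24 : ℝ) ^ i * (P j).R ≤ (P (j + i)).R := by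
  induction i with
  | zero => simp
  | succ i ih =>
    have h1 := hP.R (j + i)
    rw [← add_assoc, pow_succ]
    nlinarith

private theorem dsumB_R (Q : Blk) : Q.R ≤ Q.g ^ 4 ∧ 0 < Q.R := by
  have hR : 1 ≤ Q.R := Q.hR
  have hK : (2 : ℝ) ≤ (Q.K : ℝ) := by
    have h1 := Q.hK
    have h2 := Q.hbR
    nlinarith
  have h1 := Q.hg
  have h2 := Real.add_one_le_exp (2 * Q.R)
  have h3 : Q.R ≤ Q.g := by nlinarith
  have h4 : 1 ≤ Q.g := by linarith
  have h5 : Q.g ≤ Q.g ^ 4 := le_self_pow₀ h4 (by norm_num)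
  exact ⟨h3.trans h5, by linarith⟩

private theorem dsumB_exp (j : ℕ) : Real.exp (-(4 / 5) * ((24 : ℝ) ^ j - 1)) ≤ (1 / 24 : ℝ) ^ j := by
  rcases Nat.eq_zero_or_pos j with rfl | hj
  · simp
  · have h1 : (24 : ℝ) ≤ 24 ^ j := by
      calc (24 : ℝ) = 24 ^ 1 := by norm_num
        _ ≤ 24 ^ j := pow_le_pow_right₀ (by norm_num) hj
    set w : ℝ := 24 ^ j with hw
    have h2 : w ≤ Real.exp (4 / 5 * (w - 1)) := by
      have h3 := Real.quadratic_le_exp_of_nonneg (x := 4 / 5 * (w - 1)) (by linarith)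
      nlinarith
    rw [one_div, inv_pow, show -(4 / 5) * (w - 1) = -(4 / 5 * (w - 1)) by ring, Real.exp_neg]
    exact inv_anti₀ (by positivity) h2

theorem dn_div (hP : Sparse P) {C0 : ℝ} (h : ∀ n, 2 * ((P n).K : ℝ) * (P n).b * (P n).R ≤ C0)
    {y : ℝ} (hy : 0 < y) : dn P y ≤ (C0 + 3) / y := by
  have hC0 : 0 ≤ C0 := by
    refine le_trans ?_ (h 0)
    have h1 := (P 0).hb
    have h2 := (P 0).hR
    positivity
  have hex : ∃ n : ℕ, y < (P n).R := by
    obtain ⟨n, hn⟩ := pow_unbounded_of_one_lt y (by norm_num : (1 : ℝ) < 24)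
    exact ⟨n, hn.trans_le (R_ge hP n)⟩
  classical
  obtain ⟨N, hN, hN'⟩ : ∃ N : ℕ, y < (P N).R ∧ ∀ n, n < N → (P n).R ≤ y :=
    ⟨Nat.find hex, Nat.find_spec hex, fun n hn => not_lt.1 (Nat.find_min hex hn)⟩
  set f1 : ℕ → ℝ := fun n => if n < N then (983 / 1000) * (1 / 24 : ℝ) ^ (N - 1 - n) else 0 with hf1
  set f2 : ℕ → ℝ := fun n => if n = N then C0 else 0 with hf2
  set f3 : ℕ → ℝ := fun n => (1 / 8) * (1 / 2 : ℝ) ^ n with hf3
  have f10 : ∀ n, 0 ≤ f1 n := by
    intro n
    simp only [hf1]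
    split_ifs
    · positivity
    · exact le_rfl
  have f20 : ∀ n, 0 ≤ f2 n := by
    intro n
    simp only [hf2]
    split_ifs
    · exact hC0
    · exact le_rfl
  have f30 : ∀ n, 0 ≤ f3 n := by
    intro n
    simp only [hf3]
    positivity
  have key : ∀ n, y * (P n).m y ≤ f1 n + f2 n + f3 n := by
    intro n
    have hab : y * (P n).m y ≤ y * |(P n).m y| := mul_le_mul_of_nonneg_left (le_abs_self _) hy.le
    have g1 := f10 n
    have g2 := f20 n
    have g3 := f30 n
    rcases lt_trichotomy n N with hn | hn | hn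
    · have h1 := (P n).m_large (hN' n hn)
      have h2 : (24 : ℝ) ^ (N - 1 - n) * (P n).R ≤ (P (N - 1)).R := by
        have := dsumB_mono hP n (N - 1 - n)
        have e : n + (N - 1 - n) = N - 1 := by omega
        rwa [e] at this
      have h3 : (P (N - 1)).R ≤ y := hN' _ (by omega)
      have hR := (dsumB_R (P n)).2
      have h4 : (24 : ℝ) ^ (N - 1 - n) ≤ y / (P n).R := by
        rw [le_div_iff₀ hR]
        exact h2.trans h3
      have h5 : Real.exp (-(4 / 5) * (y / (P n).R - 1)) ≤ (1 / 24 : ℝ) ^ (N - 1 - n) :=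
        (Real.exp_le_exp.2 (by linarith)).trans (dsumB_exp (N - 1 - n))
      have h6 : f1 n = (983 / 1000) * (1 / 24 : ℝ) ^ (N - 1 - n) := by
        simp only [hf1]
        rw [if_pos hn]
      rw [h6] at g1 ⊢
      linarith
    · have h1 := (P n).m_small hy (by rw [hn]; exact hN)
      have h2 : y * |(P n).m y| ≤ (P n).R * (2 * (P n).K * (P n).b) := by
        apply mul_le_mul _ h1 (abs_nonneg _) (dsumB_R (P n)).2.le
        rw [hn]
        exact hN.le
      have h3 := h n
      have h6 : f2 n = C0 := by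
        simp only [hf2]
        rw [if_pos hn]
      rw [h6]
      linarith
    · have hRn : (P N).R ≤ (P n).R := by
        have := dsumB_mono hP N (n - N)
        have e : N + (n - N) = n := by omega
        rw [e] at this
        have h1 : (1 : ℝ) ≤ 24 ^ (n - N) := one_le_pow₀ (by norm_num)
        have h2 := (dsumB_R (P N)).2
        nlinarith
      have h1 := (P n).m_small hy (hN.trans_le hRn)
      have h2 := hP.eps N n hn
      have h3 := (dsumB_R (P N)).1
      have hb := (P n).hb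
      have h4 : y * |(P n).m y| ≤ (P N).g ^ 4 * (2 * (P n).K * (P n).b) := by
        apply mul_le_mul (hN.le.trans h3) h1 (abs_nonneg _)
        positivity
      have h6 : f3 n = (1 / 2 : ℝ) ^ (n + 3) := by
        simp only [hf3]
        rw [pow_add]
        ring
      rw [h6]
      linarith
  have s1 : HasSum f1 (∑ n ∈ Finset.range N, f1 n) := by
    apply hasSum_sum_of_ne_finset_zero
    intro n hn
    rw [Finset.mem_range] at hn
    simp only [hf1]
    rw [if_neg hn]
  have s2 : HasSum f2 C0 := hasSum_ite_eq N C0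
  have s3 : HasSum f3 ((1 / 8) * 2) := hasSum_geometric_two.mul_left (1 / 8)
  have s1' : ∑ n ∈ Finset.range N, f1 n ≤ 103 / 100 := by
    have e1 : ∑ n ∈ Finset.range N, f1 n = ∑ n ∈ Finset.range N, (983 / 1000) * (1 / 24 : ℝ) ^ (N - 1 - n) := by
      apply Finset.sum_congr rfl
      intro n hn
      rw [Finset.mem_range] at hn
      simp only [hf1]
      rw [if_pos hn]
    rw [e1, ← Finset.mul_sum, Finset.sum_range_reflect (fun j => (1 / 24 : ℝ) ^ j) N]
    have e2 : ∑ j ∈ Finset.range N, (1 / 24 : ℝ) ^ j ≤ ∑' j : ℕ, (1 / 24 : ℝ) ^ j :=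
      (summable_geometric_of_lt_one (by norm_num) (by norm_num)).sum_le_tsum _ (fun j _ => by positivity)
    rw [tsum_geometric_of_lt_one (by norm_num) (by norm_num)] at e2
    norm_num at e2 ⊢
    linarith
  have hsum : Summable fun n => y * (P n).m y := (m_summable hP hy).mul_left y
  have hle : y * ∑' n, (P n).m y ≤ ∑ n ∈ Finset.range N, f1 n + C0 + (1 / 8) * 2 := by
    rw [← tsum_mul_left]
    exact hasSum_le key hsum.hasSum ((s1.add s2).add s3)
  rw [le_div_iff₀ hy]
  unfold dn
  rw [add_mul, div_mul_cancel₀ _ hy.ne']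
  have hexp := Real.exp_pos (-y)
  linarith [mul_comm (∑' n, (P n).m y) y]

end VQ
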