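import Pool.Agent.H15.VQ.Sel

/-!
# Es : the difference of the prime sum and the integral continues to `0 < re s`

`ej j s = exp (- s u j) - ∫_{I j} exp (- s v) dμ v` with `I j = [η j, η (j + 1)]` of `μ`-mass one, so
`‖ej j s‖ ≤ ‖s‖ (η (j + 1) - η j) exp (- σ η j) ≤ ‖s‖ exp (10 σ) ∫_{I j} exp (- σ v) dv`; the series converges locally
uniformly.
-/

set_option autoImplicit false

open Complex MeasureTheory Set Filter Topology

namespace VQ

/-- one term -/
noncomputable def ej (f : ℝ → ℝ) (η u : ℕ → ℝ) (j : ℕ) (s : ℂ) : ℂ :=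
  Complex.exp (-(s * u j)) -
    ∫ v in (η j)..(η (j + 1)), ((Real.exp v * f v : ℝ) : ℂ) * Complex.exp (-(s * v))

/-- the sum -/
noncomputable def Es (f : ℝ → ℝ) (η u : ℕ → ℝ) (s : ℂ) : ℂ := ∑' j, ej f η u j s

variable {f : ℝ → ℝ} {η u : ℕ → ℝ}

private theorem wint (hf : Dens f) (a b : ℝ) : IntervalIntegrable (fun v => Real.exp v * f v) volume a b := by
  have h1 : IntervalIntegrable f volume a b := by
    refine (intervalIntegrable_const (c := (3 : ℝ))).mono_fun' hf.meas.aestronglyMeasurable ?_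
    refine Eventually.of_forall fun x => ?_
    change ‖f x‖ ≤ 3
    rw [Real.norm_eq_abs, abs_of_nonneg (hf.nonneg x)]
    exact hf.le x
  exact h1.continuousOn_mul Real.continuous_exp.continuousOn

private theorem wcint (hf : Dens f) (a b : ℝ) (s : ℂ) :
    IntervalIntegrable (fun v : ℝ => ((Real.exp v * f v : ℝ) : ℂ) * Complex.exp (-(s * v))) volume a b := by
  have h1 : IntervalIntegrable (fun v : ℝ => ((Real.exp v * f v : ℝ) : ℂ)) volume a b :=
    ⟨(wint hf a b).1.ofReal, (wint hf a b).2.ofReal⟩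
  refine h1.mul_continuousOn (Continuous.continuousOn ?_)
  fun_prop

private theorem exp_diff {s : ℂ} (hs : 0 < s.re) {a b x y : ℝ} (hx : x ∈ Icc a b) (hy : y ∈ Icc a b) :
    ‖Complex.exp (-(s * x)) - Complex.exp (-(s * y))‖ ≤ ‖s‖ * (b - a) * Real.exp (-s.re * a) := by
  have h1 : ∀ t ∈ Icc a b, HasDerivWithinAt (fun t : ℝ => Complex.exp (-(s * t)))
      (Complex.exp (-(s * t)) * (-(s * 1))) (Icc a b) t := by
    intro t _
    have h2 : HasDerivAt (fun t : ℝ => -(s * (t : ℂ))) (-(s * 1)) t :=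
      ((hasDerivAt_id t).ofReal_comp.const_mul s).neg
    exact h2.cexp.hasDerivWithinAt
  have h2 : ∀ t ∈ Icc a b, ‖Complex.exp (-(s * t)) * (-(s * 1))‖ ≤ ‖s‖ * Real.exp (-s.re * a) := by
    intro t ht
    rw [norm_mul, norm_neg, mul_one, Complex.norm_exp, mul_comm]
    refine mul_le_mul_of_nonneg_left (Real.exp_le_exp.2 ?_) (norm_nonneg _)
    rw [Complex.neg_re, Complex.re_mul_ofReal]
    nlinarith [ht.1]
  have h3 := Convex.norm_image_sub_le_of_norm_hasDerivWithin_le h1 h2 (convex_Icc a b) hy hx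
  refine h3.trans ?_
  have h4 : ‖x - y‖ ≤ b - a := by
    rw [Real.norm_eq_abs, abs_le]
    constructor <;> linarith [hx.1, hx.2, hy.1, hy.2]
  calc ‖s‖ * Real.exp (-s.re * a) * ‖x - y‖ ≤ ‖s‖ * Real.exp (-s.re * a) * (b - a) :=
        mul_le_mul_of_nonneg_left h4 (by positivity)
    _ = ‖s‖ * (b - a) * Real.exp (-s.re * a) := by ring

theorem ej_le (hf : Dens f) (hη : IsPart f η) (hu : IsSel f η u) (j : ℕ) {s : ℂ} (hs : 0 < s.re) :
    ‖ej f η u j s‖ ≤ ‖s‖ * (η (j + 1) - η j) * Real.exp (-s.re * η j) := by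
  have hab : η j ≤ η (j + 1) := (hη.mono (Nat.lt_succ_self j)).le
  have hw := wint hf (η j) (η (j + 1))
  have hwc : IntervalIntegrable (fun v : ℝ => ((Real.exp v * f v : ℝ) : ℂ)) volume (η j) (η (j + 1)) :=
    ⟨hw.1.ofReal, hw.2.ofReal⟩
  have h1 : ∫ v in (η j)..(η (j + 1)), ((Real.exp v * f v : ℝ) : ℂ) = 1 := by
    rw [intervalIntegral.integral_ofReal, hη.mass, Complex.ofReal_one]
  have h2 : ej f η u j s = ∫ v in (η j)..(η (j + 1)), ((Real.exp v * f v : ℝ) : ℂ) *
      (Complex.exp (-(s * u j)) - Complex.exp (-(s * v))) := by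
    unfold ej
    simp only [mul_sub]
    rw [intervalIntegral.integral_sub (hwc.mul_const _) (wcint hf _ _ s), intervalIntegral.integral_mul_const, h1, one_mul]
  rw [h2]
  have h3 : ‖∫ v in (η j)..(η (j + 1)), ((Real.exp v * f v : ℝ) : ℂ) *
      (Complex.exp (-(s * u j)) - Complex.exp (-(s * v)))‖ ≤
      ∫ v in (η j)..(η (j + 1)), (Real.exp v * f v) * (‖s‖ * (η (j + 1) - η j) * Real.exp (-s.re * η j)) := by
    refine intervalIntegral.norm_integral_le_of_norm_le hab (Eventually.of_forall fun v hv => ?_) (hw.mul_const _)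
    have h4 : 0 ≤ Real.exp v * f v := mul_nonneg (Real.exp_pos _).le (hf.nonneg v)
    rw [norm_mul, Complex.norm_real, Real.norm_eq_abs, abs_of_nonneg h4]
    exact mul_le_mul_of_nonneg_left (exp_diff hs ⟨hu.ge j, hu.le j⟩ ⟨hv.1.le, hv.2⟩) h4
  rw [intervalIntegral.integral_mul_const, hη.mass, one_mul] at h3
  exact h3

private theorem dsum (hη : IsPart f η) {σ : ℝ} (hσ : 0 < σ) :
    Summable fun j => (η (j + 1) - η j) * Real.exp (-σ * η j) := by
  have hmono : ∀ j, η j < η (j + 1) := fun j => hη.mono (Nat.lt_succ_self j)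
  have h1 : ∀ j, (η (j + 1) - η j) * Real.exp (-σ * η j) ≤
      Real.exp (10 * σ) / σ * (Real.exp (-σ * η j) - Real.exp (-σ * η (j + 1))) := by
    intro j
    have h2 : Real.exp (-σ * η (j + 1)) * (σ * (η (j + 1) - η j)) ≤
        Real.exp (-σ * η j) - Real.exp (-σ * η (j + 1)) := by
      have h3 : σ * (η (j + 1) - η j) + 1 ≤ Real.exp (σ * (η (j + 1) - η j)) := Real.add_one_le_exp _
      have h4 : Real.exp (-σ * η (j + 1)) * Real.exp (σ * (η (j + 1) - η j)) = Real.exp (-σ * η j) := by
        rw [← Real.exp_add]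
        congr 1
        ring
      have h5 := mul_le_mul_of_nonneg_left h3 (Real.exp_pos (-σ * η (j + 1))).le
      rw [h4] at h5
      linarith
    have h3 : Real.exp (-σ * η j) ≤ Real.exp (10 * σ) * Real.exp (-σ * η (j + 1)) := by
      rw [← Real.exp_add]
      refine Real.exp_le_exp.2 ?_
      nlinarith [hη.gap j]
    have h4 : 0 ≤ η (j + 1) - η j := by linarith [hmono j]
    calc (η (j + 1) - η j) * Real.exp (-σ * η j)
        ≤ (η (j + 1) - η j) * (Real.exp (10 * σ) * Real.exp (-σ * η (j + 1))) :=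
          mul_le_mul_of_nonneg_left h3 h4
      _ = Real.exp (10 * σ) / σ * (Real.exp (-σ * η (j + 1)) * (σ * (η (j + 1) - η j))) := by
          field_simp
      _ ≤ _ := mul_le_mul_of_nonneg_left h2 (by positivity)
  refine summable_of_sum_range_le (c := Real.exp (10 * σ) / σ * Real.exp (-σ * η 0)) ?_ ?_
  · intro j
    have := hmono j
    exact mul_nonneg (by linarith) (Real.exp_pos _).le
  · intro n
    calc ∑ i ∈ Finset.range n, (η (i + 1) - η i) * Real.exp (-σ * η i)
        ≤ ∑ i ∈ Finset.range n, Real.exp (10 * σ) / σ * (Real.exp (-σ * η i) - Real.exp (-σ * η (i + 1))) :=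
          Finset.sum_le_sum fun i _ => h1 i
      _ = Real.exp (10 * σ) / σ * (Real.exp (-σ * η 0) - Real.exp (-σ * η n)) := by
          rw [← Finset.mul_sum, Finset.sum_range_sub']
      _ ≤ _ := by
          refine mul_le_mul_of_nonneg_left ?_ (by positivity)
          have := Real.exp_pos (-σ * η n)
          linarith

theorem ej_summable (hf : Dens f) (hη : IsPart f η) (hu : IsSel f η u) {s : ℂ} (hs : 0 < s.re) :
    Summable fun j => ‖ej f η u j s‖ := by
  refine Summable.of_nonneg_of_le (fun j => norm_nonneg _) (fun j => ej_le hf hη hu j hs) ?_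
  have h := (dsum hη hs).mul_left ‖s‖
  refine h.congr fun j => ?_
  ring

private theorem int_diff (hf : Dens f) (a b : ℝ) (s₀ : ℂ) :
    DifferentiableAt ℂ (fun s : ℂ => ∫ v in a..b, ((Real.exp v * f v : ℝ) : ℂ) * Complex.exp (-(s * v))) s₀ := by
  have hmeas : Measurable fun v : ℝ => ((Real.exp v * f v : ℝ) : ℂ) :=
    Complex.measurable_ofReal.comp (Real.measurable_exp.mul hf.meas)
  have h := intervalIntegral.hasDerivAt_integral_of_dominated_loc_of_deriv_le (𝕜 := ℂ) (μ := volume) (a := a) (b := b)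
    (F := fun (s : ℂ) (v : ℝ) => ((Real.exp v * f v : ℝ) : ℂ) * Complex.exp (-(s * v)))
    (F' := fun (s : ℂ) (v : ℝ) => ((Real.exp v * f v : ℝ) : ℂ) * (Complex.exp (-(s * v)) * (-(1 * v))))
    (x₀ := s₀) (s := Metric.ball s₀ 1)
    (bound := fun v => (Real.exp v * f v) * (Real.exp ((‖s₀‖ + 1) * |v|) * |v|))
    (Metric.ball_mem_nhds s₀ one_pos) (Eventually.of_forall fun s => ?_) (wcint hf a b s₀) ?_ ?_ ?_ ?_
  · exact h.2.differentiableAt
  · refine (hmeas.mul ?_).aestronglyMeasurable
    exact Continuous.measurable (by fun_prop)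
  · refine (hmeas.mul ?_).aestronglyMeasurable
    exact Continuous.measurable (by fun_prop)
  · refine Eventually.of_forall fun v _ s hs => ?_
    have h4 : 0 ≤ Real.exp v * f v := mul_nonneg (Real.exp_pos _).le (hf.nonneg v)
    rw [norm_mul, Complex.norm_real, Real.norm_eq_abs, abs_of_nonneg h4, norm_mul, norm_neg, one_mul, Complex.norm_real,
      Real.norm_eq_abs, Complex.norm_exp]
    refine mul_le_mul_of_nonneg_left (mul_le_mul_of_nonneg_right (Real.exp_le_exp.2 ?_) (abs_nonneg _)) h4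
    calc (-(s * (v : ℂ))).re ≤ ‖-(s * (v : ℂ))‖ := Complex.re_le_norm _
      _ = ‖s‖ * |v| := by rw [norm_neg, norm_mul, Complex.norm_real, Real.norm_eq_abs]
      _ ≤ (‖s₀‖ + 1) * |v| := by
          refine mul_le_mul_of_nonneg_right ?_ (abs_nonneg _)
          have h5 : ‖s - s₀‖ < 1 := by
            rw [← dist_eq_norm]
            exact hs
          have h6 : ‖s‖ ≤ ‖s₀‖ + ‖s - s₀‖ := by
            calc ‖s‖ = ‖s₀ + (s - s₀)‖ := by rw [add_sub_cancel]
              _ ≤ _ := norm_add_le _ _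
          linarith
  · refine (wint hf a b).mul_continuousOn (Continuous.continuousOn ?_)
    fun_prop
  · refine Eventually.of_forall fun v _ s _ => ?_
    have h2 : HasDerivAt (fun s : ℂ => -(s * (v : ℂ))) (-(1 * v)) s := ((hasDerivAt_id s).mul_const (v : ℂ)).neg
    exact h2.cexp.const_mul _

theorem Es_diff (hf : Dens f) (hη : IsPart f η) (hu : IsSel f η u) :
    DifferentiableOn ℂ (Es f η u) {s : ℂ | 0 < s.re} := by
  intro s₀ hs₀
  have hs₀' : 0 < s₀.re := hs₀
  set U : Set ℂ := {s : ℂ | s₀.re / 2 < s.re} ∩ Metric.ball s₀ 1 with hU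
  have hUo : IsOpen U := (isOpen_lt continuous_const Complex.continuous_re).inter Metric.isOpen_ball
  have hmem : s₀ ∈ U := ⟨by change s₀.re / 2 < s₀.re; linarith, Metric.mem_ball_self one_pos⟩
  have h1 : DifferentiableOn ℂ (fun s => ∑' j, ej f η u j s) U := by
    refine differentiableOn_tsum_of_summable_norm
      (u := fun j => (‖s₀‖ + 1) * ((η (j + 1) - η j) * Real.exp (-(s₀.re / 2) * η j)))
      ((dsum hη (by linarith : 0 < s₀.re / 2)).mul_left _) ?_ hUo ?_
    · intro j s _
      refine DifferentiableAt.differentiableWithinAt ?_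
      unfold ej
      refine DifferentiableAt.sub ?_ (int_diff hf _ _ s)
      fun_prop
    · intro j s hs
      have hs1 : s₀.re / 2 < s.re := hs.1
      have h2 := ej_le hf hη hu j (show 0 < s.re by linarith)
      refine h2.trans ?_
      have h5 : ‖s - s₀‖ < 1 := by
        rw [← dist_eq_norm]
        exact hs.2
      have h6 : ‖s‖ ≤ ‖s₀‖ + ‖s - s₀‖ := by
        calc ‖s‖ = ‖s₀ + (s - s₀)‖ := by rw [add_sub_cancel]
          _ ≤ _ := norm_add_le _ _
      have h7 : 0 ≤ η (j + 1) - η j := by linarith [hη.mono (Nat.lt_succ_self j)]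
      have h8 : 0 ≤ η j := by
        have := hη.ge j
        have := Real.log_pos (by norm_num : (1 : ℝ) < 2)
        linarith
      rw [mul_assoc]
      refine mul_le_mul (by linarith) (mul_le_mul_of_nonneg_left (Real.exp_le_exp.2 ?_) h7)
        (mul_nonneg h7 (Real.exp_pos _).le) (by positivity)
      nlinarith
  exact ((h1 s₀ hmem).differentiableAt (hUo.mem_nhds hmem)).differentiableWithinAt

/-- `∑ exp (- s u j) = Es s + ∫_{log 2}^∞ f v exp (- (s - 1) v) dv` -/
theorem Es_eq (hf : Dens f) (hη : IsPart f η) (hu : IsSel f η u) {s : ℂ} (hs : 1 < s.re) :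
    ∑' j, Complex.exp (-(s * u j)) =
      Es f η u s + ∫ v in Ioi (Real.log 2), (f v : ℂ) * Complex.exp (-(s - 1) * v) := by
  have hg : ∀ v : ℝ, ((Real.exp v * f v : ℝ) : ℂ) * Complex.exp (-(s * v)) =
      (f v : ℂ) * Complex.exp (-(s - 1) * v) := by
    intro v
    have h1 : Complex.exp (-(s - 1) * v) = Complex.exp v * Complex.exp (-(s * v)) := by
      rw [← Complex.exp_add]
      congr 1
      ring
    rw [h1]
    push_cast
    ring
  have hmeas : Measurable fun v : ℝ => (f v : ℂ) * Complex.exp (-(s - 1) * v) := by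
    refine (Complex.measurable_ofReal.comp hf.meas).mul ?_
    exact Continuous.measurable (by fun_prop)
  have hint : IntegrableOn (fun v : ℝ => (f v : ℂ) * Complex.exp (-(s - 1) * v)) (Ioi (Real.log 2)) := by
    have h1 : IntegrableOn (fun v : ℝ => 3 * Real.exp (-(s.re - 1) * v)) (Ioi (Real.log 2)) :=
      (exp_neg_integrableOn_Ioi (Real.log 2) (by linarith : 0 < s.re - 1)).const_mul 3
    refine Integrable.mono' h1 hmeas.aestronglyMeasurable (Eventually.of_forall fun v => ?_)
    rw [norm_mul, Complex.norm_real, Real.norm_eq_abs, abs_of_nonneg (hf.nonneg v), Complex.norm_exp]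
    have h2 : (-(s - 1) * (v : ℂ)).re = -(s.re - 1) * v := by
      rw [Complex.re_mul_ofReal, Complex.neg_re, Complex.sub_re, Complex.one_re]
    rw [h2]
    exact mul_le_mul_of_nonneg_right (hf.le v) (Real.exp_pos _).le
  have hE : Summable fun j => Complex.exp (-(s * u j)) := by
    refine Summable.of_norm ?_
    refine (hη.summable hu.ge hs).congr fun j => ?_
    rw [Complex.norm_exp, Complex.neg_re, Complex.re_mul_ofReal]
    congr 1
    ring
  have he : Summable fun j => ej f η u j s := (ej_summable hf hη hu (by linarith : 0 < s.re)).of_norm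
  have hI : HasSum (fun j => ∫ v in (η j)..(η (j + 1)), ((Real.exp v * f v : ℝ) : ℂ) * Complex.exp (-(s * v)))
      (∑' j, Complex.exp (-(s * u j)) - Es f η u s) := by
    have h1 := hE.hasSum.sub he.hasSum
    have h2 : (fun j => ∫ v in (η j)..(η (j + 1)), ((Real.exp v * f v : ℝ) : ℂ) * Complex.exp (-(s * v))) =
        fun j => Complex.exp (-(s * u j)) - ej f η u j s := by
      funext j
      unfold ej
      ring
    rw [h2]
    exact h1
  have h3 := hI.tendsto_sum_nat
  have h4 : ∀ n, ∑ j ∈ Finset.range n, ∫ v in (η j)..(η (j + 1)), ((Real.exp v * f v : ℝ) : ℂ) * Complex.exp (-(s * v)) =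
      ∫ v in (Real.log 2)..(η n), (f v : ℂ) * Complex.exp (-(s - 1) * v) := by
    intro n
    rw [intervalIntegral.sum_integral_adjacent_intervals fun k _ => wcint hf _ _ s, hη.zero]
    exact intervalIntegral.integral_congr fun v _ => hg v
  simp only [h4] at h3
  have h5 := intervalIntegral_tendsto_integral_Ioi (Real.log 2) hint hη.tendsto
  have h6 := tendsto_nhds_unique h3 h5
  rw [← h6]
  ring

end VQ
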