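import Pool.Agent.H15.VQ.Es

/-!
# EsA : partial summation for `Es`

`ej j s = exp (- σ η j) v j + r j` with `v j = exp (- i t u j) - ∫_{I j} exp (- i t v) dμ` (`s = σ + i t`) and
`‖r j‖ ≤ 2 (exp (- σ η j) - exp (- σ η (j + 1)))`, in total at most `2`. With `V N = Vs f η u N t = ∑_{j < N} v j`:
`∑_{j < N} exp (- σ η j) v j = ∑_{j < N} (exp (- σ η j) - exp (- σ η (j + 1))) V (j + 1) + exp (- σ η N) V N`, and
`exp (- σ η j) - exp (- σ η (j + 1)) = ∫_{I j} σ exp (- σ x) dx`, where `‖V (j + 1)‖ ≤ F x` for `x ∈ I j`. The last term tends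
to zero because `N ≤ 3 exp (η N)`, `σ > 1 / 2` and `IsSel.bound`.
-/

set_option autoImplicit false

open Complex MeasureTheory Set Filter Topology

namespace VQ

variable {f : ℝ → ℝ} {η u : ℕ → ℝ}

/-- one term of `Vs` -/
private noncomputable def vj (f : ℝ → ℝ) (η u : ℕ → ℝ) (t : ℝ) (j : ℕ) : ℂ :=
  Complex.exp (-(Complex.I * t * u j)) -
    ∫ v in (η j)..(η (j + 1)), ((Real.exp v * f v : ℝ) : ℂ) * Complex.exp (-(Complex.I * t * v))

private theorem Vs_eq (N : ℕ) (t : ℝ) : Vs f η u N t = ∑ j ∈ Finset.range N, vj f η u t j := rfl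

private theorem wint (hη : IsPart f η) (j : ℕ) :
    IntervalIntegrable (fun v => Real.exp v * f v) volume (η j) (η (j + 1)) := by
  apply intervalIntegral.intervalIntegrable_of_integral_ne_zero
  rw [hη.mass]
  exact one_ne_zero

private theorem cint (hη : IsPart f η) (j : ℕ) {g : ℝ → ℂ} (hg : Continuous g) :
    IntervalIntegrable (fun v => ((Real.exp v * f v : ℝ) : ℂ) * g v) volume (η j) (η (j + 1)) := by
  have h1 : IntervalIntegrable (fun v => ((Real.exp v * f v : ℝ) : ℂ)) volume (η j) (η (j + 1)) := by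
    have h2 := wint hη j
    exact ⟨h2.1.ofReal, h2.2.ofReal⟩
  exact h1.mul_continuousOn hg.continuousOn

private theorem exp_split (s : ℂ) (v : ℝ) :
    Complex.exp (-(s * v)) = ((Real.exp (-s.re * v) : ℝ) : ℂ) * Complex.exp (-(Complex.I * s.im * v)) := by
  rw [Complex.ofReal_exp, ← Complex.exp_add]
  congr 1
  conv_lhs => rw [← Complex.re_add_im s]
  push_cast
  ring

private theorem norm_e (t v : ℝ) : ‖Complex.exp (-(Complex.I * t * v))‖ = 1 := by
  rw [Complex.norm_exp]
  simp

private theorem exp_between {σ a b v : ℝ} (hσ : 0 ≤ σ) (h1 : a ≤ v) (h2 : v ≤ b) :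
    |Real.exp (-σ * v) - Real.exp (-σ * a)| ≤ Real.exp (-σ * a) - Real.exp (-σ * b) := by
  have h3 : Real.exp (-σ * v) ≤ Real.exp (-σ * a) := Real.exp_le_exp.2 (by nlinarith)
  have h4 : Real.exp (-σ * b) ≤ Real.exp (-σ * v) := Real.exp_le_exp.2 (by nlinarith)
  rw [abs_of_nonpos (by linarith)]
  linarith

private theorem rj_le (hf : Dens f) (hη : IsPart f η) (hu : IsSel f η u) (j : ℕ) {s : ℂ}
    (hs : 0 < s.re) :
    ‖ej f η u j s - ((Real.exp (-s.re * η j) : ℝ) : ℂ) * vj f η u s.im j‖ ≤
      2 * (Real.exp (-s.re * η j) - Real.exp (-s.re * η (j + 1))) := by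
  have hjj : η j ≤ η (j + 1) := (hη.mono (Nat.lt_succ_self j)).le
  set a : ℝ := Real.exp (-s.re * η j) with ha
  set b : ℝ := Real.exp (-s.re * η (j + 1)) with hb
  have c1 : Continuous fun v : ℝ => Complex.exp (-(s * v)) := by fun_prop
  have c2 : Continuous fun v : ℝ => (a : ℂ) * Complex.exp (-(Complex.I * s.im * v)) := by fun_prop
  have e1 : ej f η u j s - (a : ℂ) * vj f η u s.im j =
      ((Real.exp (-s.re * u j) - a : ℝ) : ℂ) * Complex.exp (-(Complex.I * s.im * u j)) -
      ∫ v in (η j)..(η (j + 1)), ((Real.exp v * f v : ℝ) : ℂ) *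
        (((Real.exp (-s.re * v) - a : ℝ) : ℂ) * Complex.exp (-(Complex.I * s.im * v))) := by
    have h1 : (∫ v in (η j)..(η (j + 1)), ((Real.exp v * f v : ℝ) : ℂ) *
        (((Real.exp (-s.re * v) - a : ℝ) : ℂ) * Complex.exp (-(Complex.I * s.im * v)))) =
        (∫ v in (η j)..(η (j + 1)), ((Real.exp v * f v : ℝ) : ℂ) * Complex.exp (-(s * v))) -
        ∫ v in (η j)..(η (j + 1)), ((Real.exp v * f v : ℝ) : ℂ) *
          ((a : ℂ) * Complex.exp (-(Complex.I * s.im * v))) := by
      rw [← intervalIntegral.integral_sub (cint hη j c1) (cint hη j c2)]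
      apply intervalIntegral.integral_congr
      intro v _
      simp only
      rw [exp_split s v]
      push_cast
      ring
    have h2 : (∫ v in (η j)..(η (j + 1)), ((Real.exp v * f v : ℝ) : ℂ) *
          ((a : ℂ) * Complex.exp (-(Complex.I * s.im * v)))) =
        (a : ℂ) * ∫ v in (η j)..(η (j + 1)), ((Real.exp v * f v : ℝ) : ℂ) *
          Complex.exp (-(Complex.I * s.im * v)) := by
      rw [← intervalIntegral.integral_const_mul]
      apply intervalIntegral.integral_congr
      intro v _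
      simp only
      ring
    rw [h1, h2, ej, vj, exp_split s (u j)]
    push_cast
    ring
  rw [e1]
  have hab : 0 ≤ a - b := by
    have := exp_between hs.le le_rfl hjj
    rw [sub_self, abs_zero] at this
    exact this
  have n1 : ‖((Real.exp (-s.re * u j) - a : ℝ) : ℂ) * Complex.exp (-(Complex.I * s.im * u j))‖ ≤
      a - b := by
    rw [norm_mul, norm_e, mul_one, Complex.norm_real, Real.norm_eq_abs]
    exact exp_between hs.le (hu.ge j) (hu.le j)
  have n2 : ‖∫ v in (η j)..(η (j + 1)), ((Real.exp v * f v : ℝ) : ℂ) *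
        (((Real.exp (-s.re * v) - a : ℝ) : ℂ) * Complex.exp (-(Complex.I * s.im * v)))‖ ≤ a - b := by
    have h3 : (∫ v in (η j)..(η (j + 1)), (a - b) * (Real.exp v * f v)) = a - b := by
      rw [intervalIntegral.integral_const_mul, hη.mass, mul_one]
    rw [← h3]
    apply intervalIntegral.norm_integral_le_of_norm_le hjj _ ((wint hη j).const_mul _)
    filter_upwards with v hv
    rw [norm_mul, norm_mul, norm_e, mul_one, Complex.norm_real, Complex.norm_real,
      Real.norm_eq_abs, Real.norm_eq_abs,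
      abs_of_nonneg (mul_nonneg (Real.exp_pos v).le (hf.nonneg v)), mul_comm]
    exact mul_le_mul_of_nonneg_right (exp_between hs.le hv.1.le hv.2)
      (mul_nonneg (Real.exp_pos v).le (hf.nonneg v))
  calc _ ≤ _ := norm_sub_le _ _
    _ ≤ (a - b) + (a - b) := add_le_add n1 n2
    _ = 2 * (a - b) := by ring

/-- Abel summation -/
private theorem abel (a : ℕ → ℝ) (v : ℕ → ℂ) (N : ℕ) :
    ∑ j ∈ Finset.range N, (a j : ℂ) * v j =
      ∑ j ∈ Finset.range N, ((a j - a (j + 1) : ℝ) : ℂ) * (∑ i ∈ Finset.range (j + 1), v i) +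
        (a N : ℂ) * ∑ i ∈ Finset.range N, v i := by
  induction N with
  | zero => simp
  | succ N ih =>
    rw [Finset.sum_range_succ, ih, Finset.sum_range_succ (fun j => ((a j - a (j + 1) : ℝ) : ℂ) *
      (∑ i ∈ Finset.range (j + 1), v i)), Finset.sum_range_succ v N]
    push_cast
    ring

private theorem last_tendsto (hη : IsPart f η) (hu : IsSel f η u) {σ t : ℝ} (hσ : 1 / 2 < σ) :
    Tendsto (fun N : ℕ => Real.exp (-σ * η N) * ‖Vs f η u N t‖) atTop (𝓝 0) := by
  obtain ⟨C, hC0, hC⟩ := hu.bound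
  have key : Tendsto (fun N : ℕ => (3 : ℝ) ^ σ * C *
      Real.sqrt ((N : ℝ) ^ (1 - 2 * σ) * (Real.log (N + 2) + Real.log (|t| + 3)))) atTop (𝓝 0) := by
    have hp : 0 < 2 * σ - 1 := by linarith
    have h1 : Tendsto (fun N : ℕ => (N : ℝ) ^ (1 - 2 * σ) *
        (Real.log (N + 2) + Real.log (|t| + 3))) atTop (𝓝 0) := by
      have h2 : Tendsto (fun x : ℝ => x ^ (1 - 2 * σ) * (Real.log (x + 2) + Real.log (|t| + 3)))
          atTop (𝓝 0) := by
        have h3 : Tendsto (fun x : ℝ => x ^ (-(2 * σ - 1)) * Real.log (|t| + 3)) atTop (𝓝 0) := by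
          have := (tendsto_rpow_neg_atTop hp).mul_const (Real.log (|t| + 3))
          rwa [zero_mul] at this
        have h4 : Tendsto (fun x : ℝ => x ^ (-(2 * σ - 1)) * Real.log (x + 2)) atTop (𝓝 0) := by
          have h5 : (fun x : ℝ => Real.log x) =o[atTop] fun x => x ^ (2 * σ - 1) :=
            isLittleO_log_rpow_atTop hp
          have h6 : Tendsto (fun x : ℝ => Real.log x / x ^ (2 * σ - 1)) atTop (𝓝 0) :=
            h5.tendsto_div_nhds_zero
          have h7 : Tendsto (fun x : ℝ => Real.log 2 / x ^ (2 * σ - 1)) atTop (𝓝 0) :=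
            tendsto_const_nhds.div_atTop (tendsto_rpow_atTop hp)
          have h8 := h7.add h6
          rw [add_zero] at h8
          refine squeeze_zero' ?_ ?_ h8
          · filter_upwards [eventually_ge_atTop 2] with x hx
            exact mul_nonneg (Real.rpow_nonneg (by linarith) _) (Real.log_nonneg (by linarith))
          · filter_upwards [eventually_ge_atTop 2] with x hx
            have hx0 : 0 < x := by linarith
            have h9 : Real.log (x + 2) ≤ Real.log 2 + Real.log x := by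
              rw [← Real.log_mul (by norm_num) hx0.ne']
              exact Real.log_le_log (by linarith) (by linarith)
            have h10 : x ^ (-(2 * σ - 1)) = 1 / x ^ (2 * σ - 1) := by
              rw [Real.rpow_neg hx0.le, one_div]
            rw [h10, ← add_div, one_div_mul_eq_div]
            exact div_le_div_of_nonneg_right h9 (Real.rpow_nonneg hx0.le _)
        have h11 := h4.add h3
        rw [add_zero] at h11
        refine h11.congr (fun x => ?_)
        rw [show 1 - 2 * σ = -(2 * σ - 1) by ring]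
        ring
      exact h2.comp tendsto_natCast_atTop_atTop
    have h12 := ((Real.continuous_sqrt.tendsto 0).comp h1).const_mul ((3 : ℝ) ^ σ * C)
    rw [Real.sqrt_zero, mul_zero] at h12
    exact h12
  refine squeeze_zero' (Eventually.of_forall fun N => mul_nonneg (Real.exp_pos _).le (norm_nonneg _))
    ?_ key
  filter_upwards [eventually_ge_atTop 1] with N hN
  have hN0 : (0 : ℝ) < N := by exact_mod_cast hN
  have h1 : Real.exp (-σ * η N) ≤ (3 : ℝ) ^ σ * (N : ℝ) ^ (-σ) := by
    have h2 := hη.count N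
    have h3 : Real.exp (-η N) ≤ 3 / N := by
      rw [Real.exp_neg, inv_eq_one_div, div_le_div_iff₀ (Real.exp_pos _) hN0]
      linarith
    have h4 : Real.exp (-σ * η N) = Real.exp (-η N) ^ σ := by
      rw [← Real.exp_mul]
      congr 1
      ring
    rw [h4]
    calc Real.exp (-η N) ^ σ ≤ (3 / (N : ℝ)) ^ σ :=
          Real.rpow_le_rpow (Real.exp_pos _).le h3 (by linarith)
      _ = (3 : ℝ) ^ σ * (N : ℝ) ^ (-σ) := by
          rw [Real.div_rpow (by norm_num) hN0.le, Real.rpow_neg hN0.le, div_eq_mul_inv]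
  have h5 : (N : ℝ) ^ (-σ) * Real.sqrt (N * (Real.log (N + 2) + Real.log (|t| + 3))) =
      Real.sqrt ((N : ℝ) ^ (1 - 2 * σ) * (Real.log (N + 2) + Real.log (|t| + 3))) := by
    have h6 : (N : ℝ) ^ (1 - 2 * σ) = ((N : ℝ) ^ (-σ)) ^ 2 * N := by
      rw [← Real.rpow_natCast, ← Real.rpow_mul hN0.le]
      conv_rhs => rw [← Real.rpow_one (N : ℝ), ← Real.rpow_mul hN0.le, ← Real.rpow_add hN0]
      congr 1
      push_cast
      ring
    rw [h6, mul_assoc, Real.sqrt_mul (sq_nonneg _), Real.sqrt_sq (Real.rpow_nonneg hN0.le _)]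
  calc Real.exp (-σ * η N) * ‖Vs f η u N t‖ ≤ ((3 : ℝ) ^ σ * (N : ℝ) ^ (-σ)) *
        (C * Real.sqrt (N * (Real.log (N + 2) + Real.log (|t| + 3)))) :=
        mul_le_mul h1 (hC N t) (norm_nonneg _) (by positivity)
    _ = (3 : ℝ) ^ σ * C * ((N : ℝ) ^ (-σ) *
        Real.sqrt (N * (Real.log (N + 2) + Real.log (|t| + 3)))) := by ring
    _ = _ := by rw [h5]

theorem Es_abel (hf : Dens f) (hη : IsPart f η) (hu : IsSel f η u) {s : ℂ} (hs : 1 / 2 < s.re)
    {F : ℝ → ℝ} (hF0 : ∀ x, 0 ≤ F x)
    (hF : ∀ (N : ℕ) (x : ℝ), η N ≤ x → ‖Vs f η u (N + 1) s.im‖ ≤ F x)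
    (hi : IntegrableOn (fun x => Real.exp (-s.re * x) * F x) (Ioi (Real.log 2))) :
    ‖Es f η u s‖ ≤ 2 + s.re * ∫ x in Ioi (Real.log 2), Real.exp (-s.re * x) * F x := by
  have hs0 : 0 < s.re := by linarith
  have hsum := ej_summable hf hη hu hs0
  have htend : Tendsto (fun N => ∑ j ∈ Finset.range N, ej f η u j s) atTop (𝓝 (Es f η u s)) :=
    hsum.of_norm.hasSum.tendsto_sum_nat
  have hlast := last_tendsto (t := s.im) hη hu hs
  have hlim := (tendsto_const_nhds (x := 2 + s.re * ∫ x in Ioi (Real.log 2),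
    Real.exp (-s.re * x) * F x)).add hlast
  rw [add_zero] at hlim
  refine le_of_tendsto_of_tendsto' htend.norm hlim (fun N => ?_)
  set a : ℕ → ℝ := fun j => Real.exp (-s.re * η j) with ha
  have hmono : ∀ j, η j ≤ η (j + 1) := fun j => (hη.mono (Nat.lt_succ_self j)).le
  have ha1 : ∀ j, a (j + 1) ≤ a j := by
    intro j
    have := hmono j
    exact Real.exp_le_exp.2 (by nlinarith)
  -- the remainders
  have hr : ‖∑ j ∈ Finset.range N, (ej f η u j s - (a j : ℂ) * vj f η u s.im j)‖ ≤ 2 := by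
    calc _ ≤ ∑ j ∈ Finset.range N, ‖ej f η u j s - (a j : ℂ) * vj f η u s.im j‖ := norm_sum_le _ _
      _ ≤ ∑ j ∈ Finset.range N, 2 * (a j - a (j + 1)) :=
          Finset.sum_le_sum fun j _ => rj_le hf hη hu j hs0
      _ = 2 * (a 0 - a N) := by rw [← Finset.mul_sum, Finset.sum_range_sub']
      _ ≤ 2 := by
          have h1 : a 0 ≤ 1 := by
            change Real.exp (-s.re * η 0) ≤ 1
            rw [hη.zero, Real.exp_le_one_iff]
            have := Real.log_nonneg (show (1 : ℝ) ≤ 2 by norm_num)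
            nlinarith
          have h2 : 0 ≤ a N := (Real.exp_pos _).le
          linarith
  -- one interval
  have hsub : ∀ j, Ioc (η j) (η (j + 1)) ⊆ Ioi (Real.log 2) := fun j x hx =>
    lt_of_le_of_lt (hη.ge j) hx.1
  have hone : ∀ j, (a j - a (j + 1)) * ‖Vs f η u (j + 1) s.im‖ ≤
      ∫ x in (η j)..(η (j + 1)), s.re * (Real.exp (-s.re * x) * F x) := by
    intro j
    have h1 : (∫ x in (η j)..(η (j + 1)), s.re * (Real.exp (-s.re * x) *
        ‖Vs f η u (j + 1) s.im‖)) = (a j - a (j + 1)) * ‖Vs f η u (j + 1) s.im‖ := by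
      have h2 : ∀ x ∈ Set.uIcc (η j) (η (j + 1)),
          HasDerivAt (fun x => -Real.exp (-s.re * x) * ‖Vs f η u (j + 1) s.im‖)
            (s.re * (Real.exp (-s.re * x) * ‖Vs f η u (j + 1) s.im‖)) x := by
        intro x _
        have h3 : HasDerivAt (fun x : ℝ => -s.re * x) (-s.re) x := by
          simpa using (hasDerivAt_id x).const_mul (-s.re)
        have h4 := (h3.exp.neg).mul_const ‖Vs f η u (j + 1) s.im‖
        refine h4.congr_deriv ?_
        ring
      rw [intervalIntegral.integral_eq_sub_of_hasDerivAt h2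
        (Continuous.intervalIntegrable (by fun_prop) _ _)]
      simp only [ha]
      ring
    rw [← h1]
    apply intervalIntegral.integral_mono_on (hmono j)
    · exact Continuous.intervalIntegrable (by fun_prop) _ _
    · rw [intervalIntegrable_iff_integrableOn_Ioc_of_le (hmono j)]
      exact (hi.mono_set (hsub j)).const_mul _
    · intro x hx
      exact mul_le_mul_of_nonneg_left (mul_le_mul_of_nonneg_left (hF j x hx.1)
        (Real.exp_pos _).le) hs0.le
  have hint : ∀ j, IntervalIntegrable (fun x => s.re * (Real.exp (-s.re * x) * F x)) volume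
      (η j) (η (j + 1)) := by
    intro j
    rw [intervalIntegrable_iff_integrableOn_Ioc_of_le (hmono j)]
    exact (hi.mono_set (hsub j)).const_mul _
  have hall : ∑ j ∈ Finset.range N, (a j - a (j + 1)) * ‖Vs f η u (j + 1) s.im‖ ≤
      s.re * ∫ x in Ioi (Real.log 2), Real.exp (-s.re * x) * F x := by
    calc _ ≤ ∑ j ∈ Finset.range N, ∫ x in (η j)..(η (j + 1)),
          s.re * (Real.exp (-s.re * x) * F x) := Finset.sum_le_sum fun j _ => hone j
      _ = ∫ x in (η 0)..(η N), s.re * (Real.exp (-s.re * x) * F x) :=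
          intervalIntegral.sum_integral_adjacent_intervals fun j _ => hint j
      _ = ∫ x in Ioc (η 0) (η N), s.re * (Real.exp (-s.re * x) * F x) :=
          intervalIntegral.integral_of_le (hη.mono.monotone (Nat.zero_le N))
      _ ≤ ∫ x in Ioi (Real.log 2), s.re * (Real.exp (-s.re * x) * F x) := by
          apply setIntegral_mono_set (hi.const_mul _)
          · filter_upwards with x
            exact mul_nonneg hs0.le (mul_nonneg (Real.exp_pos _).le (hF0 x))
          · apply HasSubset.Subset.eventuallyLE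
            intro x hx
            rw [hη.zero] at hx
            exact hx.1
      _ = _ := integral_const_mul _ _
  have hmain : ‖∑ j ∈ Finset.range N, (a j : ℂ) * vj f η u s.im j‖ ≤
      s.re * (∫ x in Ioi (Real.log 2), Real.exp (-s.re * x) * F x) +
        a N * ‖Vs f η u N s.im‖ := by
    rw [abel]
    refine (norm_add_le _ _).trans (add_le_add ?_ ?_)
    · refine (norm_sum_le _ _).trans (le_trans (Finset.sum_le_sum fun j _ => ?_) hall)
      rw [norm_mul, Complex.norm_real, Real.norm_eq_abs, abs_of_nonneg (sub_nonneg.2 (ha1 j))]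
      exact le_rfl
    · rw [norm_mul, Complex.norm_real, Real.norm_eq_abs, abs_of_nonneg (Real.exp_pos _).le]
      exact le_rfl
  have hsplit : ∑ j ∈ Finset.range N, ej f η u j s =
      ∑ j ∈ Finset.range N, (ej f η u j s - (a j : ℂ) * vj f η u s.im j) +
        ∑ j ∈ Finset.range N, (a j : ℂ) * vj f η u s.im j := by
    rw [← Finset.sum_add_distrib]
    exact Finset.sum_congr rfl fun j _ => by ring
  calc ‖∑ j ∈ Finset.range N, ej f η u j s‖ ≤ _ := by
        rw [hsplit]
        exact norm_add_le _ _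
    _ ≤ 2 + (s.re * (∫ x in Ioi (Real.log 2), Real.exp (-s.re * x) * F x) +
        a N * ‖Vs f η u N s.im‖) := add_le_add hr hmain
    _ = _ := by ring

end VQ
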