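import Pool.Agent.H15.VQ.Defs
import Pool.Agent.H15.VQ.Diri

/-!
# Gint : the generalized integers with `p j = exp (u j)`

`hasSum_finsupp` with `z j = exp (- s u j)`; `((∏ exp (u j) ^ e : ℝ) : ℂ) ^ (- s) = ∏ exp (- s u j) ^ e`.
-/

set_option autoImplicit false

open Complex MeasureTheory Set Filter Topology

namespace VQ

variable {u : ℕ → ℝ}

private theorem prod_eq (m : ℕ →₀ ℕ) : (m.prod fun j e => Real.exp (u j) ^ e) = Real.exp (m.sum fun j e => (e : ℝ) * u j) := by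
  rw [Finsupp.prod, Finsupp.sum, Real.exp_sum]
  refine Finset.prod_congr rfl fun j _ => ?_
  rw [← Real.exp_nat_mul]

theorem gint_ge_one (hu : ∀ j, 0 ≤ u j) (m : ℕ →₀ ℕ) : 1 ≤ m.prod fun j e => Real.exp (u j) ^ e := by
  rw [prod_eq]
  refine Real.one_le_exp (Finset.sum_nonneg fun j _ => ?_)
  exact mul_nonneg (Nat.cast_nonneg _) (hu j)

theorem gint_cpow (m : ℕ →₀ ℕ) (s : ℂ) :
    ((m.prod fun j e => Real.exp (u j) ^ e : ℝ) : ℂ) ^ (-s) =
      m.prod fun j e => Complex.exp (-(s * u j)) ^ e := by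
  have h0 : ((Real.exp (m.sum fun j e => (e : ℝ) * u j) : ℝ) : ℂ) ≠ 0 := by
    exact_mod_cast (Real.exp_pos _).ne'
  rw [prod_eq, Complex.cpow_def_of_ne_zero h0, ← Complex.ofReal_log (Real.exp_pos _).le, Real.log_exp, Finsupp.prod,
    Finsupp.sum, Complex.ofReal_sum, Finset.sum_mul, Complex.exp_sum]
  refine Finset.prod_congr rfl fun j _ => ?_
  rw [← Complex.exp_nat_mul]
  congr 1
  push_cast
  ring

private theorem norm_z (u : ℕ → ℝ) (s : ℂ) (j : ℕ) : ‖Complex.exp (-(s * u j))‖ = Real.exp (-s.re * u j) := by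
  rw [Complex.norm_exp]
  congr 1
  simp

private theorem norm_lt (hu : ∀ j, Real.log 2 ≤ u j) {s : ℂ} (h : 1 < s.re) (j : ℕ) : ‖Complex.exp (-(s * u j))‖ < 1 := by
  rw [norm_z, Real.exp_lt_one_iff]
  have h1 : 0 < u j := lt_of_lt_of_le (Real.log_pos one_lt_two) (hu j)
  nlinarith

theorem gint_summable (hu : ∀ j, Real.log 2 ≤ u j)
    (hs : ∀ σ : ℝ, 1 < σ → Summable fun j => Real.exp (-σ * u j)) {c : ℝ} (hc : 1 < c) :
    Summable fun m : ℕ →₀ ℕ => (m.prod fun j e => Real.exp (u j) ^ e) ^ (-c) := by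
  have hre : ((c : ℂ)).re = c := Complex.ofReal_re c
  have h1 : ∀ j, ‖Complex.exp (-((c : ℂ) * u j))‖ < 1 := fun j => norm_lt hu (by rw [hre]; exact hc) j
  have h2 : Summable fun j => ‖Complex.exp (-((c : ℂ) * u j))‖ := by
    refine (hs c hc).congr fun j => ?_
    rw [norm_z, hre]
  refine (hasSum_finsupp h1 h2).1.congr fun m => ?_
  have hpos : 0 < m.prod fun j e => Real.exp (u j) ^ e := by
    rw [prod_eq]
    exact Real.exp_pos _
  rw [← gint_cpow, Complex.norm_cpow_eq_rpow_re_of_pos hpos, Complex.neg_re, hre]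

theorem gint_hasSum (hu : ∀ j, Real.log 2 ≤ u j)
    (hs : ∀ σ : ℝ, 1 < σ → Summable fun j => Real.exp (-σ * u j)) {s Z : ℂ} (h : 1 < s.re)
    (hZ : HasProd (fun j => (1 - Complex.exp (-(s * u j)))⁻¹) Z) :
    HasSum (fun m : ℕ →₀ ℕ => ((m.prod fun j e => Real.exp (u j) ^ e : ℝ) : ℂ) ^ (-s)) Z := by
  have h1 : ∀ j, ‖Complex.exp (-(s * u j))‖ < 1 := fun j => norm_lt hu h j
  have h2 : Summable fun j => ‖Complex.exp (-(s * u j))‖ := by
    refine (hs s.re h).congr fun j => ?_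
    rw [norm_z]
  have h3 := (hasSum_finsupp h1 h2).2
  rw [hZ.tprod_eq] at h3
  have h4 : (fun m : ℕ →₀ ℕ => ((m.prod fun j e => Real.exp (u j) ^ e : ℝ) : ℂ) ^ (-s)) =
      fun m : ℕ →₀ ℕ => m.prod fun j e => Complex.exp (-(s * u j)) ^ e := funext fun m => gint_cpow m s
  rw [h4]
  exact h3

end VQ
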