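import Mathlib

/-!
# Vk : the real inequalities for the growth function at the Vinogradov-Korobov scale

`wV B t = (321/200) B^(2/3) (log log t)^(1/3) (log t)^(2/3)`. With `ℓ = log t`, `L = log log t > 0` (`t ≥ 3`).
-/

set_option autoImplicit false

open Set Filter Topology

namespace VQ

/-- the growth function -/
noncomputable def wV (B t : ℝ) : ℝ :=
  321 / 200 * B ^ (2 / 3 : ℝ) * Real.log (Real.log t) ^ (1 / 3 : ℝ) * Real.log t ^ (2 / 3 : ℝ)

private theorem log_three_gt : 1 < Real.log 3 := by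
  have h := Real.exp_one_lt_d9
  rw [Real.lt_log_iff_exp_lt (by norm_num)]
  linarith

private theorem one_lt_log {t : ℝ} (ht : 3 ≤ t) : 1 < Real.log t :=
  log_three_gt.trans_le (Real.log_le_log (by norm_num) ht)

private theorem loglog_pos {t : ℝ} (ht : 3 ≤ t) : 0 < Real.log (Real.log t) := Real.log_pos (one_lt_log ht)

private theorem rpow_third_cube {x : ℝ} (hx : 0 ≤ x) : (x ^ (1 / 3 : ℝ)) ^ 3 = x := by
  rw [← Real.rpow_natCast, ← Real.rpow_mul hx]
  norm_num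

private theorem rpow_two_third_cube {x : ℝ} (hx : 0 ≤ x) : (x ^ (2 / 3 : ℝ)) ^ 3 = x ^ 2 := by
  rw [← Real.rpow_natCast, ← Real.rpow_mul hx, ← Real.rpow_natCast]
  norm_num

private theorem wV_pos {B : ℝ} (hB : 0 < B) {t : ℝ} (ht : 3 ≤ t) : 0 < wV B t := by
  have h1 := one_lt_log ht
  have h2 := loglog_pos ht
  unfold wV
  have h3 : 0 < Real.log t := by linarith
  have h4 := Real.rpow_pos_of_pos hB (2 / 3)
  have h5 := Real.rpow_pos_of_pos h2 (1 / 3)
  have h6 := Real.rpow_pos_of_pos h3 (2 / 3)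
  positivity

private theorem wV_cube {B : ℝ} (hB : 0 < B) {t : ℝ} (ht : 3 ≤ t) :
    wV B t ^ 3 = (321 / 200) ^ 3 * B ^ 2 * Real.log (Real.log t) * Real.log t ^ 2 := by
  have h1 := one_lt_log ht
  have h2 := loglog_pos ht
  unfold wV
  rw [mul_pow, mul_pow, mul_pow, rpow_two_third_cube hB.le, rpow_third_cube h2.le, rpow_two_third_cube (by linarith)]

/-- the logarithms at `γ / 2` -/
private theorem ev_half {θ : ℝ} (h0 : 0 < θ) (h1 : θ < 1) : ∀ᶠ γ : ℝ in atTop, 3 ≤ γ / 2 ∧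
    θ * Real.log γ ≤ Real.log (γ / 2) ∧ θ * Real.log (Real.log γ) ≤ Real.log (Real.log (γ / 2)) := by
  have hl : Tendsto (fun γ : ℝ => Real.log γ) atTop atTop := Real.tendsto_log_atTop
  have hll : Tendsto (fun γ : ℝ => Real.log (Real.log γ)) atTop atTop := Real.tendsto_log_atTop.comp hl
  filter_upwards [eventually_ge_atTop (6 : ℝ), hl.eventually_ge_atTop (Real.log 2 / (1 - θ)),
    hll.eventually_ge_atTop (-Real.log θ / (1 - θ))] with γ h6 ha hb
  have hθ : 0 < 1 - θ := by linarith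
  have e1 : Real.log (γ / 2) = Real.log γ - Real.log 2 := Real.log_div (by linarith) (by norm_num)
  rw [div_le_iff₀ hθ] at ha hb
  have h2 : θ * Real.log γ ≤ Real.log (γ / 2) := by
    rw [e1]
    linarith
  refine ⟨by linarith, h2, ?_⟩
  have h3 : 1 < Real.log γ := one_lt_log (by linarith)
  have h4 : Real.log (θ * Real.log γ) ≤ Real.log (Real.log (γ / 2)) := Real.log_le_log (by positivity) h2
  rw [Real.log_mul h0.ne' (by linarith)] at h4
  linarith

theorem wV_mono {B : ℝ} (hB : 0 < B) : MonotoneOn (wV B) (Ici 3) := by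
  intro x hx y hy hxy
  have h1 := one_lt_log hx
  have h2 := loglog_pos hx
  have h3 : Real.log x ≤ Real.log y := Real.log_le_log (by linarith [show (3 : ℝ) ≤ x from hx]) hxy
  have h4 : Real.log (Real.log x) ≤ Real.log (Real.log y) := Real.log_le_log (by linarith) h3
  have h5 : Real.log (Real.log x) ^ (1 / 3 : ℝ) ≤ Real.log (Real.log y) ^ (1 / 3 : ℝ) :=
    Real.rpow_le_rpow h2.le h4 (by norm_num)
  have h6 : Real.log x ^ (2 / 3 : ℝ) ≤ Real.log y ^ (2 / 3 : ℝ) := Real.rpow_le_rpow (by linarith) h3 (by norm_num)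
  have h7 := Real.rpow_pos_of_pos hB (2 / 3)
  have h8 : 0 ≤ Real.log x ^ (2 / 3 : ℝ) := Real.rpow_nonneg (by linarith) _
  have h9 : 0 ≤ Real.log (Real.log y) ^ (1 / 3 : ℝ) := Real.rpow_nonneg (h2.le.trans h4) _
  unfold wV
  exact mul_le_mul (mul_le_mul_of_nonneg_left h5 (by positivity)) h6 h8 (by positivity)

theorem wV_tendsto {B : ℝ} (hB : 0 < B) : Tendsto (wV B) atTop atTop := by
  have hl : Tendsto (fun γ : ℝ => Real.log γ) atTop atTop := Real.tendsto_log_atTop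
  have hll : Tendsto (fun γ : ℝ => Real.log (Real.log γ)) atTop atTop := Real.tendsto_log_atTop.comp hl
  have h1 : Tendsto (fun γ : ℝ => Real.log (Real.log γ) ^ (1 / 3 : ℝ)) atTop atTop :=
    (tendsto_rpow_atTop (by norm_num : (0 : ℝ) < 1 / 3)).comp hll
  have h2 : Tendsto (fun γ : ℝ => Real.log γ ^ (2 / 3 : ℝ)) atTop atTop :=
    (tendsto_rpow_atTop (by norm_num : (0 : ℝ) < 2 / 3)).comp hl
  have h7 := Real.rpow_pos_of_pos hB (2 / 3)
  have h3 : 0 < 321 / 200 * B ^ (2 / 3 : ℝ) := by positivity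
  exact (h1.const_mul_atTop h3).atTop_mul_atTop₀ h2

theorem wV_small (B : ℝ) : Tendsto (fun t => wV B t / Real.log t) atTop (𝓝 0) := by
  have hl : Tendsto (fun γ : ℝ => Real.log γ) atTop atTop := Real.tendsto_log_atTop
  have h1 : Tendsto (fun x : ℝ => Real.log x / x) atTop (𝓝 0) := Real.isLittleO_log_id_atTop.tendsto_div_nhds_zero
  have h2 : Tendsto (fun t : ℝ => Real.log (Real.log t) / Real.log t) atTop (𝓝 0) := h1.comp hl
  have h3 : Tendsto (fun t : ℝ => (Real.log (Real.log t) / Real.log t) ^ (1 / 3 : ℝ)) atTop (𝓝 0) := by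
    have h := h2.rpow_const (p := (1 / 3 : ℝ)) (Or.inr (by norm_num))
    rwa [Real.zero_rpow (by norm_num)] at h
  have h4 := h3.const_mul (321 / 200 * B ^ (2 / 3 : ℝ))
  rw [mul_zero] at h4
  refine h4.congr' ?_
  filter_upwards [eventually_ge_atTop (3 : ℝ)] with t ht
  have h5 := one_lt_log ht
  have h6 := loglog_pos ht
  have h7 : 0 < Real.log t := by linarith
  unfold wV
  rw [Real.div_rpow h6.le h7.le, mul_div_assoc]
  have h8 : Real.log t ^ (2 / 3 : ℝ) / Real.log t = 1 / Real.log t ^ (1 / 3 : ℝ) := by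
    have h9 : Real.log t = Real.log t ^ (2 / 3 : ℝ) * Real.log t ^ (1 / 3 : ℝ) := by
      rw [← Real.rpow_add h7]
      norm_num
    have h10 : 0 < Real.log t ^ (2 / 3 : ℝ) := Real.rpow_pos_of_pos h7 _
    have h11 : 0 < Real.log t ^ (1 / 3 : ℝ) := Real.rpow_pos_of_pos h7 _
    rw [div_eq_div_iff h7.ne' h11.ne', one_mul]
    exact h9.symm
  rw [h8]
  ring

/-- Young's inequality `q X Y ≤ (49/50) B X^(3/2) + (16/25) Y^3`, `q = (321/200) B^(2/3)`, with `X = a ℓ^(2/3)`, `Y = L^(1/3)`: the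
best constant is `((3/2)(49/50))^(2/3) (48/25)^(1/3) = 1.6069... > 1.605` -/
theorem wV_young {B : ℝ} (hB : 0 < B) {t : ℝ} (ht : 3 ≤ t) {a : ℝ} (ha : 0 ≤ a) :
    wV B t * a ≤ 49 / 50 * B * a ^ (3 / 2 : ℝ) * Real.log t + 16 / 25 * Real.log (Real.log t) := by
  have h1 := one_lt_log ht
  have h2 := loglog_pos ht
  have h3 : 0 < Real.log t := by linarith
  set b := B ^ (1 / 3 : ℝ) with hb
  set y := Real.log (Real.log t) ^ (1 / 3 : ℝ) with hy
  set k := Real.log t ^ (1 / 3 : ℝ) with hk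
  set r := a ^ (1 / 2 : ℝ) with hr
  have hb0 : 0 ≤ b := Real.rpow_nonneg hB.le _
  have hy0 : 0 ≤ y := Real.rpow_nonneg h2.le _
  have hk0 : 0 ≤ k := Real.rpow_nonneg h3.le _
  have hr0 : 0 ≤ r := Real.rpow_nonneg ha _
  have eB : b ^ 3 = B := rpow_third_cube hB.le
  have eL : y ^ 3 = Real.log (Real.log t) := rpow_third_cube h2.le
  have el : k ^ 3 = Real.log t := rpow_third_cube h3.le
  have ea : r ^ 2 = a := by
    rw [hr, ← Real.rpow_natCast, ← Real.rpow_mul ha]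
    norm_num
  have ea3 : r ^ 3 = a ^ (3 / 2 : ℝ) := by
    rw [hr, ← Real.rpow_natCast, ← Real.rpow_mul ha]
    norm_num
  have eB2 : B ^ (2 / 3 : ℝ) = b ^ 2 := by
    rw [hb, ← Real.rpow_natCast, ← Real.rpow_mul hB.le]
    norm_num
  have el2 : Real.log t ^ (2 / 3 : ℝ) = k ^ 2 := by
    rw [hk, ← Real.rpow_natCast, ← Real.rpow_mul h3.le]
    norm_num
  have e1 : wV B t * a = 321 / 200 * (b * k * r) ^ 2 * y := by
    unfold wV
    rw [eB2, el2, ← hy, ← ea]
    ring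
  have e2 : 49 / 50 * B * a ^ (3 / 2 : ℝ) * Real.log t = 49 / 50 * (b * k * r) ^ 3 := by
    rw [← ea3, ← el, ← eB]
    ring
  rw [e1, e2, ← eL]
  have hu : 0 ≤ b * k * r := by positivity
  set u := b * k * r
  have h5 : 0 ≤ (u - 107 / 98 * y) ^ 2 * (49 / 50 * u + 107 / 200 * y) := by positivity
  have h6 : 0 ≤ y ^ 3 := by positivity
  nlinarith [h5, h6]

/-- If `a L ≤ 1` then `ℓ^a ≤ e`, and `A e log (2 + L) ≤ L / 50 + A'`. If `a L > 1`, `ℓ^a0 log (2 + L)` is smaller than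
`(B/50) ℓ L^(-3/2)` for large `ℓ`. -/
theorem wV_small_part {B : ℝ} (hB : 0 < B) {A a0 : ℝ} (hA : 0 ≤ A) (ha0 : a0 < 1) :
    ∃ A' : ℝ, ∀ t : ℝ, 3 ≤ t → ∀ a : ℝ, 0 ≤ a → a ≤ a0 →
      A * Real.log t ^ a * Real.log (2 + Real.log (Real.log t)) ≤
        1 / 50 * B * a ^ (3 / 2 : ℝ) * Real.log t + 1 / 50 * Real.log (Real.log t) + A' := by
  -- the case of large `l`
  have hs : 0 < 1 - a0 := by linarith
  have ho : ∀ᶠ l : ℝ in atTop, A * (8 * Real.log l ^ (3 : ℝ)) * l ^ a0 ≤ 1 / 50 * B * l := by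
    have h1 := isLittleO_log_rpow_rpow_atTop (3 : ℝ) hs
    have h2 := h1.def (c := B / (400 * (A + 1))) (by positivity)
    filter_upwards [h2, eventually_ge_atTop (1 : ℝ)] with l hl h3
    have h4 : 0 ≤ Real.log l := Real.log_nonneg h3
    have h5 : 0 < l := by linarith
    rw [Real.norm_of_nonneg (Real.rpow_nonneg h4 _), Real.norm_of_nonneg (Real.rpow_nonneg h5.le _)] at hl
    have h6 : l ^ (1 - a0) * l ^ a0 = l := by
      rw [← Real.rpow_add h5]
      norm_num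
    have h7 : 0 ≤ l ^ a0 := Real.rpow_nonneg h5.le _
    calc A * (8 * Real.log l ^ (3 : ℝ)) * l ^ a0 ≤ A * (8 * (B / (400 * (A + 1)) * l ^ (1 - a0))) * l ^ a0 := by
          refine mul_le_mul_of_nonneg_right (mul_le_mul_of_nonneg_left ?_ hA) h7
          linarith
      _ = (A / (A + 1)) * (1 / 50 * B * (l ^ (1 - a0) * l ^ a0)) := by
          field_simp
          ring
      _ = (A / (A + 1)) * (1 / 50 * B * l) := by rw [h6]
      _ ≤ 1 * (1 / 50 * B * l) := by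
          refine mul_le_mul_of_nonneg_right ?_ (by positivity)
          rw [div_le_one (by linarith)]
          linarith
      _ = 1 / 50 * B * l := one_mul _
  obtain ⟨l0, hl0⟩ := Filter.eventually_atTop.1 (ho.and (eventually_ge_atTop (Real.exp 1)))
  set l1 := max l0 (Real.exp 1) with hl1
  set κ := 50 * A * Real.exp 1 + 1 with hκ
  have hκ1 : 1 ≤ κ := by
    have : 0 ≤ 50 * A * Real.exp 1 := by positivity
    linarith
  have hA1 : 0 ≤ 1 / 25 + A * Real.exp 1 * Real.log κ := by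
    have := Real.log_nonneg hκ1
    positivity
  have hl1e : Real.exp 1 ≤ l1 := le_max_right _ _
  have hl1one : 1 ≤ l1 := (by have := Real.add_one_le_exp (1 : ℝ); linarith : (1 : ℝ) ≤ Real.exp 1).trans hl1e
  have hA2 : 0 ≤ A * l1 ^ |a0| * Real.log (2 + Real.log l1) := by
    have h1 : 0 ≤ Real.log l1 := Real.log_nonneg hl1one
    have h2 : 0 ≤ Real.log (2 + Real.log l1) := Real.log_nonneg (by linarith)
    positivity
  refine ⟨(1 / 25 + A * Real.exp 1 * Real.log κ) + A * l1 ^ |a0| * Real.log (2 + Real.log l1), ?_⟩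
  intro t ht a ha haa
  have h1 := one_lt_log ht
  have h2 := loglog_pos ht
  set l := Real.log t with hl
  set L := Real.log l with hL
  have h3 : 0 < l := by linarith
  have hB0 : 0 ≤ 1 / 50 * B * a ^ (3 / 2 : ℝ) * l := by
    have := Real.rpow_nonneg ha (3 / 2)
    positivity
  have hlog : 0 ≤ Real.log (2 + L) := Real.log_nonneg (by linarith)
  have hla : 0 ≤ l ^ a := Real.rpow_nonneg h3.le _
  by_cases hc : a * L ≤ 1
  · -- small `a`
    have e1 : l ^ a ≤ Real.exp 1 := by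
      rw [Real.rpow_def_of_pos h3]
      exact Real.exp_le_exp.2 (by rw [← hL]; linarith)
    have e2 : Real.log (2 + L) ≤ (2 + L) / κ + Real.log κ := by
      have h4 : Real.log ((2 + L) / κ) ≤ (2 + L) / κ - 1 := Real.log_le_sub_one_of_pos (by positivity)
      rw [Real.log_div (by linarith) (by linarith)] at h4
      linarith
    have e3 : A * l ^ a * Real.log (2 + L) ≤ A * Real.exp 1 * ((2 + L) / κ + Real.log κ) :=
      mul_le_mul (mul_le_mul_of_nonneg_left e1 hA) e2 hlog (by positivity)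
    have e4 : A * Real.exp 1 * ((2 + L) / κ) ≤ (2 + L) / 50 := by
      rw [← mul_div_assoc, div_le_div_iff₀ (by linarith) (by norm_num), hκ]
      nlinarith [show 0 ≤ A * Real.exp 1 by positivity]
    have e5 : A * Real.exp 1 * ((2 + L) / κ + Real.log κ) = A * Real.exp 1 * ((2 + L) / κ) + A * Real.exp 1 * Real.log κ := by
      ring
    linarith
  · -- large `a`
    rw [not_le] at hc
    have ha1 : 0 < a := by
      rcases ha.eq_or_lt with h | h
      · rw [← h] at hc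
        linarith
      · exact h
    have ha00 : 0 ≤ a0 := ha.trans haa
    by_cases hbig : l1 ≤ l
    · have e1 := (hl0 l ((le_max_left _ _).trans hbig)).1
      have e2 : Real.exp 1 ≤ l := hl1e.trans hbig
      have e3 : 1 ≤ L := by
        rw [hL, Real.le_log_iff_exp_le h3]
        exact e2
      -- `log (2 + L) ≤ 1 + L ≤ 2 L`
      have e4 : Real.log (2 + L) ≤ 2 * L := by
        have := Real.log_le_sub_one_of_pos (show 0 < 2 + L by linarith)
        linarith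
      have e5 : l ^ a ≤ l ^ a0 := Real.rpow_le_rpow_of_exponent_le h1.le haa
      -- `a ^ (3 / 2) ≥ L ^ (- 3 / 2)`
      have e6 : 1 ≤ a ^ (3 / 2 : ℝ) * L ^ (3 / 2 : ℝ) := by
        rw [← Real.mul_rpow ha h2.le]
        exact Real.one_le_rpow hc.le (by norm_num)
      have e7 : L ^ (3 / 2 : ℝ) ≤ L ^ (2 : ℝ) := Real.rpow_le_rpow_of_exponent_le e3 (by norm_num)
      have e8 : L ^ (3 : ℝ) = L ^ (2 : ℝ) * L := by
        rw [← Real.rpow_add_one (by linarith : L ≠ 0)]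
        norm_num
      have e9 : 0 ≤ L ^ (2 : ℝ) := Real.rpow_nonneg h2.le _
      have e10 : 0 ≤ l ^ a0 := Real.rpow_nonneg h3.le _
      have e11 : 0 ≤ a ^ (3 / 2 : ℝ) := Real.rpow_nonneg ha _
      have e12 : 0 ≤ L ^ (3 / 2 : ℝ) := Real.rpow_nonneg h2.le _
      have e13 : A * l ^ a * Real.log (2 + L) ≤ A * l ^ a0 * (2 * L) :=
        mul_le_mul (mul_le_mul_of_nonneg_left e5 hA) e4 hlog (by positivity)
      -- multiply by `a ^ (3 / 2) * L ^ (3 / 2) ≥ 1`
      have e14 : A * l ^ a0 * (2 * L) ≤ (A * l ^ a0 * (2 * L)) * (a ^ (3 / 2 : ℝ) * L ^ (3 / 2 : ℝ)) :=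
        le_mul_of_one_le_right (by positivity) e6
      have e15 : (A * l ^ a0 * (2 * L)) * (a ^ (3 / 2 : ℝ) * L ^ (3 / 2 : ℝ)) ≤
          (A * (8 * L ^ (3 : ℝ)) * l ^ a0) * a ^ (3 / 2 : ℝ) := by
        rw [e8]
        have e16 : A * l ^ a0 * (2 * L) * (a ^ (3 / 2 : ℝ) * L ^ (3 / 2 : ℝ)) =
            (A * l ^ a0 * L * a ^ (3 / 2 : ℝ)) * (2 * L ^ (3 / 2 : ℝ)) := by ring
        have e17 : A * (8 * (L ^ (2 : ℝ) * L)) * l ^ a0 * a ^ (3 / 2 : ℝ) =
            (A * l ^ a0 * L * a ^ (3 / 2 : ℝ)) * (8 * L ^ (2 : ℝ)) := by ring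
        rw [e16, e17]
        refine mul_le_mul_of_nonneg_left (by linarith) (by positivity)
      have e18 : (A * (8 * L ^ (3 : ℝ)) * l ^ a0) * a ^ (3 / 2 : ℝ) ≤ (1 / 50 * B * l) * a ^ (3 / 2 : ℝ) :=
        mul_le_mul_of_nonneg_right e1 e11
      have e19 : (1 / 50 * B * l) * a ^ (3 / 2 : ℝ) = 1 / 50 * B * a ^ (3 / 2 : ℝ) * l := by ring
      linarith
    · rw [not_le] at hbig
      have e1 : l ^ a ≤ l1 ^ |a0| := by
        rw [abs_of_nonneg ha00]
        exact (Real.rpow_le_rpow h3.le hbig.le ha).trans (Real.rpow_le_rpow_of_exponent_le hl1one haa)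
      have e2 : Real.log (2 + L) ≤ Real.log (2 + Real.log l1) :=
        Real.log_le_log (by linarith) (by
          have : L ≤ Real.log l1 := Real.log_le_log h3 hbig.le
          linarith)
      have e3 : A * l ^ a * Real.log (2 + L) ≤ A * l1 ^ |a0| * Real.log (2 + Real.log l1) :=
        mul_le_mul (mul_le_mul_of_nonneg_left e1 hA) e2 hlog (by positivity)
      linarith

/-- `16 / (321/200) = 9.968...`, and `log (γ / 2) / log γ → 1`, `log log (γ / 2) / log log γ → 1` -/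
theorem wV_zero {B : ℝ} (hB : 0 < B) :
    ∃ X : ℝ, ∀ γ : ℝ, X ≤ γ → 8 / (5 * wV B (γ / 2)) ≤
      B ^ (-(2 / 3) : ℝ) / (Real.log γ ^ (2 / 3 : ℝ) * Real.log (Real.log γ) ^ (1 / 3 : ℝ)) := by
  obtain ⟨X, hX⟩ := Filter.eventually_atTop.1 (ev_half (θ := 998 / 1000) (by norm_num) (by norm_num))
  refine ⟨X, fun γ hγ => ?_⟩
  obtain ⟨h3, h4, h5⟩ := hX γ hγ
  have h6 : 3 ≤ γ := by linarith
  have p1 := wV_pos hB h3
  have p2 := wV_pos hB h6
  have q1 := one_lt_log h6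
  have q2 := loglog_pos h6
  have q3 : 0 < Real.log γ := by linarith
  have hBp := Real.rpow_pos_of_pos hB (2 / 3)
  have r1 := Real.rpow_pos_of_pos q3 (2 / 3)
  have r2 := Real.rpow_pos_of_pos q2 (1 / 3)
  have e1 : B ^ (-(2 / 3) : ℝ) / (Real.log γ ^ (2 / 3 : ℝ) * Real.log (Real.log γ) ^ (1 / 3 : ℝ)) =
      (321 / 200) / wV B γ := by
    unfold wV
    rw [Real.rpow_neg hB.le]
    field_simp
  rw [e1, div_le_div_iff₀ (by positivity) p2]
  -- cubes
  have h7 : (8 * wV B γ) ^ 3 ≤ (321 / 200 * 5 * wV B (γ / 2)) ^ 3 := by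
    rw [mul_pow, mul_pow, wV_cube hB h3, wV_cube hB h6]
    have h8 : (998 / 1000) ^ 3 * (Real.log (Real.log γ) * Real.log γ ^ 2) ≤
        Real.log (Real.log (γ / 2)) * Real.log (γ / 2) ^ 2 := by
      have h9 : (998 / 1000 * Real.log γ) ^ 2 ≤ Real.log (γ / 2) ^ 2 := pow_le_pow_left₀ (by positivity) h4 2
      have h10 : (998 / 1000 * Real.log (Real.log γ)) * (998 / 1000 * Real.log γ) ^ 2 ≤
          Real.log (Real.log (γ / 2)) * Real.log (γ / 2) ^ 2 :=
        mul_le_mul h5 h9 (by positivity) (le_trans (by positivity) h5)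
      refine le_trans (le_of_eq ?_) h10
      ring
    have h11 : 0 ≤ Real.log (Real.log γ) * Real.log γ ^ 2 := by positivity
    have h12 : 0 ≤ B ^ 2 := by positivity
    have h13 : B ^ 2 * ((998 / 1000) ^ 3 * (Real.log (Real.log γ) * Real.log γ ^ 2)) ≤
        B ^ 2 * (Real.log (Real.log (γ / 2)) * Real.log (γ / 2) ^ 2) := mul_le_mul_of_nonneg_left h8 h12
    have h14 : 0 ≤ B ^ 2 * (Real.log (Real.log γ) * Real.log γ ^ 2) := mul_nonneg h12 h11
    nlinarith [h13, h14]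
  have h15 := le_of_pow_le_pow_left₀ (by norm_num) (by positivity) h7
  linarith

/-- `y^(3/5) ≥ (321/320)^(3/5) B^(2/5) L^(1/5) ℓ (1 - o(1))`, `log y ≤ 2 L`, and `(12/5) (321/320)^(3/5) 2^(-1/5) = 2.09...` -/
theorem wV_psi {B : ℝ} (hB : 0 < B) :
    ∃ X : ℝ, ∀ γ : ℝ, X ≤ γ → ∀ y : ℝ, 5 * Real.log γ * wV B (γ / 2) / 8 ≤ y →
      y ≤ 5 * Real.log γ * wV B (γ / 2) / 8 + 1 →
      2 * Real.log γ + 2 ≤ 12 / 5 * B ^ (-(2 / 5) : ℝ) * y ^ (3 / 5 : ℝ) * Real.log y ^ (-(1 / 5) : ℝ) := by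
  have hl : Tendsto (fun γ : ℝ => Real.log γ) atTop atTop := Real.tendsto_log_atTop
  have hsm := (wV_small B).eventually (gt_mem_nhds (show (0 : ℝ) < 1 by norm_num))
  have hw2 : Tendsto (fun γ : ℝ => wV B (γ / 2)) atTop atTop :=
    (wV_tendsto hB).comp (tendsto_id.atTop_div_const (by norm_num))
  obtain ⟨X, hX⟩ := Filter.eventually_atTop.1 ((ev_half (θ := 98 / 100) (by norm_num) (by norm_num)).and
    ((hl.eventually_ge_atTop 40).and (hsm.and (hw2.eventually_ge_atTop 16))))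
  refine ⟨X, fun γ hγ y hy1 hy2 => ?_⟩
  obtain ⟨⟨h3, h4, h5⟩, h10, hs, hw⟩ := hX γ hγ
  have h6 : 3 ≤ γ := by linarith
  have p1 := wV_pos hB h3
  have q2 := loglog_pos h6
  have q3 : 0 < Real.log γ := by linarith
  set l := Real.log γ with hldef
  set L := Real.log l with hLdef
  -- the size of `y`
  have hy10 : 10 ≤ y := by
    have : l * 16 ≤ l * wV B (γ / 2) := mul_le_mul_of_nonneg_left hw q3.le
    linarith
  have hyl : y ≤ l ^ 2 := by
    have h7 : wV B (γ / 2) ≤ wV B γ := wV_mono hB (show (3 : ℝ) ≤ γ / 2 from h3) (show (3 : ℝ) ≤ γ from h6) (by linarith)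
    have h8 : wV B γ < l := by
      rw [div_lt_one q3] at hs
      exact hs
    have h9 : l * wV B (γ / 2) ≤ l * l := mul_le_mul_of_nonneg_left (h7.trans h8.le) q3.le
    nlinarith
  have hlogy : Real.log y ≤ 2 * L := by
    have h7 := Real.log_le_log (by linarith) hyl
    rw [Real.log_pow] at h7
    exact_mod_cast h7
  have hlogy0 : 0 < Real.log y := Real.log_pos (by linarith)
  have hy0 : 0 < y := by linarith
  -- fifth powers
  set N := 12 / 5 * B ^ (-(2 / 5) : ℝ) * y ^ (3 / 5 : ℝ) * Real.log y ^ (-(1 / 5) : ℝ) with hN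
  have hN0 : 0 ≤ N := by
    have a1 := Real.rpow_pos_of_pos hB (-(2 / 5))
    have a2 := Real.rpow_pos_of_pos hy0 (3 / 5)
    have a3 := Real.rpow_pos_of_pos hlogy0 (-(1 / 5))
    positivity
  have hN5 : N ^ 5 = (12 / 5) ^ 5 * (B ^ 2)⁻¹ * y ^ 3 * (Real.log y)⁻¹ := by
    rw [hN, mul_pow, mul_pow, mul_pow]
    have a1 : (B ^ (-(2 / 5) : ℝ)) ^ 5 = (B ^ 2)⁻¹ := by
      rw [← Real.rpow_natCast, ← Real.rpow_mul hB.le, ← Real.rpow_natCast, ← Real.rpow_neg hB.le]
      norm_num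
    have a2 : (y ^ (3 / 5 : ℝ)) ^ 5 = y ^ 3 := by
      rw [← Real.rpow_natCast, ← Real.rpow_mul hy0.le, ← Real.rpow_natCast]
      norm_num
    have a3 : (Real.log y ^ (-(1 / 5) : ℝ)) ^ 5 = (Real.log y)⁻¹ := by
      rw [← Real.rpow_natCast, ← Real.rpow_mul hlogy0.le, ← Real.rpow_neg_one]
      norm_num
    rw [a1, a2, a3]
  have hWy : (5 * l * wV B (γ / 2) / 8) ^ 3 ≤ y ^ 3 := pow_le_pow_left₀ (by positivity) hy1 3
  have hW : (5 * l * wV B (γ / 2) / 8) ^ 3 =
      5 ^ 3 * (l ^ 3 * ((321 / 200) ^ 3 * B ^ 2 * Real.log (Real.log (γ / 2)) * Real.log (γ / 2) ^ 2)) / 8 ^ 3 := by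
    rw [div_pow, mul_pow, mul_pow, wV_cube hB h3, mul_assoc]
  have h8 : (98 / 100) ^ 3 * (L * l ^ 2) ≤ Real.log (Real.log (γ / 2)) * Real.log (γ / 2) ^ 2 := by
    have h9 : (98 / 100 * l) ^ 2 ≤ Real.log (γ / 2) ^ 2 := pow_le_pow_left₀ (by positivity) h4 2
    have h10 : (98 / 100 * L) * (98 / 100 * l) ^ 2 ≤ Real.log (Real.log (γ / 2)) * Real.log (γ / 2) ^ 2 :=
      mul_le_mul h5 h9 (by positivity) (le_trans (by positivity) h5)
    refine le_trans (le_of_eq ?_) h10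
    ring
  have hmain : (41 / 20 * l) ^ 5 ≤ N ^ 5 := by
    rw [hN5]
    have b1 : (41 / 20 * l) ^ 5 * (B ^ 2 * Real.log y) ≤ (12 / 5) ^ 5 * y ^ 3 := by
      have c1 : (41 / 20 * l) ^ 5 * (B ^ 2 * Real.log y) ≤ (41 / 20 * l) ^ 5 * (B ^ 2 * (2 * L)) :=
        mul_le_mul_of_nonneg_left (mul_le_mul_of_nonneg_left hlogy (by positivity)) (by positivity)
      have c2 : (12 / 5) ^ 5 * (5 ^ 3 * (l ^ 3 * ((321 / 200) ^ 3 * B ^ 2 * ((98 / 100) ^ 3 * (L * l ^ 2)))) / 8 ^ 3) ≤ (12 / 5) ^ 5 * y ^ 3 := by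
        refine mul_le_mul_of_nonneg_left ?_ (by norm_num)
        refine le_trans ?_ hWy
        rw [hW]
        refine div_le_div_of_nonneg_right ?_ (by norm_num)
        refine mul_le_mul_of_nonneg_left ?_ (by positivity)
        refine mul_le_mul_of_nonneg_left ?_ (by positivity)
        rw [mul_assoc ((321 / 200) ^ 3 * B ^ 2) (Real.log (Real.log (γ / 2)))]
        exact mul_le_mul_of_nonneg_left h8 (by positivity)
      refine c1.trans (le_trans ?_ c2)
      have c3 : 0 ≤ B ^ 2 * L * l ^ 5 := by positivity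
      have c4 : (41 / 20 * l) ^ 5 * (B ^ 2 * (2 * L)) = (41 / 20) ^ 5 * 2 * (B ^ 2 * L * l ^ 5) := by ring
      have c5 : (12 / 5) ^ 5 * (5 ^ 3 * (l ^ 3 * ((321 / 200) ^ 3 * B ^ 2 * ((98 / 100) ^ 3 * (L * l ^ 2)))) / 8 ^ 3) =
          ((12 / 5) ^ 5 * (321 / 200) ^ 3 * (98 / 100) ^ 3 * 5 ^ 3 / 8 ^ 3) * (B ^ 2 * L * l ^ 5) := by ring
      rw [c4, c5]
      refine mul_le_mul_of_nonneg_right ?_ c3
      norm_num
    have b2 : 0 < B ^ 2 * Real.log y := by positivity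
    have b3 : (12 / 5) ^ 5 * (B ^ 2)⁻¹ * y ^ 3 * (Real.log y)⁻¹ = (12 / 5) ^ 5 * y ^ 3 / (B ^ 2 * Real.log y) := by
      have b4 : B ^ 2 ≠ 0 := by positivity
      have b5 : Real.log y ≠ 0 := hlogy0.ne'
      field_simp
    rw [b3, le_div_iff₀ b2]
    exact b1
  have hfin : 41 / 20 * l ≤ N := le_of_pow_le_pow_left₀ (by norm_num) hN0 hmain
  linarith

end VQ
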