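import Pool.Agent.H15.VQ.BlkH

/-!
# Fprod : the product `FF` of the factors of the blocks

`‖H n s - 1‖ ≤ 64 K n exp (2 R n) / g n ≤ (1/16) 2^(-n)` unless `g n / 2 ≤ |s.im| ≤ 2 K n g n` (`H_far`, `Sparse.g0`), and
these windows are disjoint (`Sparse.g`); the product of the other factors is at most `exp (1/8) ≤ 2`.
-/

set_option autoImplicit false

open Complex MeasureTheory Set Filter Topology

namespace VQ

variable {P : ℕ → Blk}

private theorem one_le_K (B : Blk) : (1 : ℝ) ≤ B.K := by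
  have h1 := B.hK
  have h2 := B.hbR
  nlinarith

private theorem one_le_exp (B : Blk) : (1 : ℝ) ≤ Real.exp (2 * B.R) := by
  have h1 := B.hR
  exact Real.one_le_exp (by linarith)

theorem g_ge (hP : Sparse P) (n : ℕ) : 1024 * (2 : ℝ) ^ n ≤ (P n).g := by
  have h1 := hP.g0 n
  have h2 := one_le_K (P n)
  have h3 := one_le_exp (P n)
  have h4 : (1 : ℝ) ≤ ((P n).K : ℝ) * Real.exp (2 * (P n).R) := by nlinarith
  have h5 : (0 : ℝ) < 2 ^ n := by positivity
  nlinarith [mul_le_mul_of_nonneg_right h4 h5.le]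

private theorem g_pos (hP : Sparse P) (n : ℕ) : 0 < (P n).g :=
  lt_of_lt_of_le (by positivity) (g_ge hP n)

private theorem err_le (hP : Sparse P) (n : ℕ) :
    64 * ((P n).K : ℝ) * Real.exp (2 * (P n).R) / (P n).g ≤ 1 / 16 * (1 / 2) ^ n := by
  rw [div_le_iff₀ (g_pos hP n)]
  have h1 := hP.g0 n
  have h2 : (1 / 2 : ℝ) ^ n * 2 ^ n = 1 := by
    rw [← mul_pow]; norm_num
  have h3 : (0 : ℝ) < (1 / 2) ^ n := by positivity
  have h4 := mul_le_mul_of_nonneg_left h1 h3.le
  have h5 : (1 / 2 : ℝ) ^ n * (1024 * ((P n).K : ℝ) * Real.exp (2 * (P n).R) * 2 ^ n) =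
      1024 * ((P n).K : ℝ) * Real.exp (2 * (P n).R) := by
    linear_combination (1024 * ((P n).K : ℝ) * Real.exp (2 * (P n).R)) * h2
  rw [h5] at h4
  linarith

/-- far from the window of the block -/
private theorem far_le (hP : Sparse P) (n : ℕ) {s : ℂ} (hs : 0 ≤ s.re)
    (ht : |s.im| ≤ (P n).g / 2 ∨ 2 * ((P n).K : ℝ) * (P n).g ≤ |s.im|) :
    ‖(P n).H s - 1‖ ≤ 1 / 16 * (1 / 2) ^ n :=
  ((P n).H_far hs ht).trans (err_le hP n)

private theorem ev_far (hP : Sparse P) (T : ℝ) :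
    ∀ᶠ n in atTop, ∀ s ∈ {s : ℂ | 0 ≤ s.re ∧ |s.im| ≤ T}, ‖(P n).H s - 1‖ ≤ 1 / 16 * (1 / 2) ^ n := by
  have h1 : Tendsto (fun n : ℕ => (2 : ℝ) ^ n) atTop atTop := tendsto_pow_atTop_atTop_of_one_lt one_lt_two
  filter_upwards [h1.eventually_ge_atTop T] with n hn s hs
  refine far_le hP n hs.1 (Or.inl (hs.2.trans ?_))
  have h2 := g_ge hP n
  have h3 : (0 : ℝ) < 2 ^ n := by positivity
  linarith

private theorem summable_u : Summable fun n : ℕ => (1 / 16 : ℝ) * (1 / 2) ^ n :=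
  (summable_geometric_of_lt_one (by norm_num) (by norm_num)).mul_left _

private theorem sum_u_le (S : Finset ℕ) : ∑ n ∈ S, (1 / 16 : ℝ) * (1 / 2) ^ n ≤ 1 / 8 := by
  refine (summable_u.sum_le_tsum S (fun n _ => by positivity)).trans (le_of_eq ?_)
  rw [tsum_mul_left, tsum_geometric_of_lt_one (by norm_num) (by norm_num)]
  norm_num

private theorem summable_norm (hP : Sparse P) {s : ℂ} (hs : 0 ≤ s.re) :
    Summable fun n => ‖(P n).H s - 1‖ := by
  refine Summable.of_norm_bounded_eventually_nat summable_u ?_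
  filter_upwards [ev_far hP |s.im|] with n hn
  rw [norm_norm]
  exact hn s ⟨hs, le_rfl⟩

private theorem FF_eq (s : ℂ) : FF P s = ∏' n, (1 + ((P n).H s - 1)) := by
  unfold FF
  exact tprod_congr fun n => by ring

private theorem hasProd_FF (hP : Sparse P) {s : ℂ} (hs : 0 ≤ s.re) :
    Tendsto (fun S : Finset ℕ => ∏ n ∈ S, (1 + ((P n).H s - 1))) atTop (𝓝 (FF P s)) := by
  rw [FF_eq]
  exact (multipliable_one_add_of_summable (summable_norm hP hs)).hasProd

theorem FF_diff (hP : Sparse P) : DifferentiableOn ℂ (FF P) {s : ℂ | 0 < s.re} := by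
  intro s hs
  have hs' : 0 < s.re := hs
  set U : Set ℂ := {z : ℂ | 0 < z.re ∧ |z.im| < |s.im| + 1} with hU
  have hUo : IsOpen U := by
    rw [hU]
    exact (isOpen_lt continuous_const Complex.continuous_re).inter
      (isOpen_lt (continuous_abs.comp Complex.continuous_im) continuous_const)
  have hsU : s ∈ U := ⟨hs', by linarith⟩
  have h1 : HasProdLocallyUniformlyOn (fun n z => 1 + ((P n).H z - 1))
      (fun z => ∏' n, (1 + ((P n).H z - 1))) U := by
    refine Summable.hasProdLocallyUniformlyOn_nat_one_add hUo summable_u ?_ fun n => ?_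
    · filter_upwards [ev_far hP (|s.im| + 1)] with n hn z hz
      exact hn z ⟨hz.1.le, hz.2.le⟩
    · exact ((P n).H_diff.continuous.sub continuous_const).continuousOn
  have h2 : TendstoLocallyUniformlyOn (fun (S : Finset ℕ) z => ∏ n ∈ S, (1 + ((P n).H z - 1)))
      (fun z => ∏' n, (1 + ((P n).H z - 1))) atTop U := h1
  have h3 : DifferentiableOn ℂ (fun z => ∏' n, (1 + ((P n).H z - 1))) U := by
    refine h2.differentiableOn (Filter.Eventually.of_forall fun S => ?_) hUo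
    refine DifferentiableOn.fun_finsetProd fun n _ => ?_
    exact ((differentiable_const _).add ((P n).H_diff.sub (differentiable_const _))).differentiableOn
  have h4 : FF P = fun z => ∏' n, (1 + ((P n).H z - 1)) := by
    funext z
    exact FF_eq z
  rw [h4]
  exact (h3.differentiableAt (hUo.mem_nhds hsU)).differentiableWithinAt

theorem FF_zero (hP : Sparse P) (n : ℕ) (hn : 16 ≤ (P n).R) :
    FF P (1 - (P n).lam + Complex.I * (P n).g) = 0 := by
  unfold FF
  exact tprod_of_exists_eq_zero ⟨n, (P n).H_zero⟩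

private theorem exp_eighth : Real.exp (1 / 8) ≤ 8 / 7 := by
  have h1 := Real.add_one_le_exp (-(1 / 8) : ℝ)
  rw [Real.exp_neg] at h1
  have h2 : 0 < Real.exp (1 / 8) := Real.exp_pos _
  have h3 : (7 / 8 : ℝ) ≤ (Real.exp (1 / 8))⁻¹ := by linarith
  rw [le_inv_comm₀ (by norm_num) h2] at h3
  refine h3.trans (le_of_eq (by norm_num))

private theorem prod_sub_le {s : ℂ} (S : Finset ℕ)
    (hS : ∀ n ∈ S, ‖(P n).H s - 1‖ ≤ 1 / 16 * (1 / 2) ^ n) :
    ‖∏ n ∈ S, (1 + ((P n).H s - 1)) - 1‖ ≤ 1 / 7 := by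
  refine (Finset.norm_prod_one_add_sub_one_le S _).trans ?_
  have h1 : Real.exp (∑ n ∈ S, ‖(P n).H s - 1‖) ≤ Real.exp (1 / 8) :=
    Real.exp_le_exp.2 ((Finset.sum_le_sum hS).trans (sum_u_le S))
  linarith [exp_eighth]

private theorem prod_norm_le {s : ℂ} (S : Finset ℕ)
    (hS : ∀ n ∈ S, ‖(P n).H s - 1‖ ≤ 1 / 16 * (1 / 2) ^ n) :
    ‖∏ n ∈ S, (1 + ((P n).H s - 1))‖ ≤ 2 := by
  have h1 := prod_sub_le S hS
  have h2 : ‖∏ n ∈ S, (1 + ((P n).H s - 1))‖ ≤ ‖∏ n ∈ S, (1 + ((P n).H s - 1)) - 1‖ + ‖(1 : ℂ)‖ := by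
    have := norm_add_le (∏ n ∈ S, (1 + ((P n).H s - 1)) - 1) (1 : ℂ)
    rwa [sub_add_cancel] at this
  rw [norm_one] at h2
  linarith

/-- the windows increase -/
private theorem win_lt (hP : Sparse P) {m n : ℕ} (hmn : m < n) :
    2 * ((P m).K : ℝ) * (P m).g ≤ (P n).g / 2 := by
  have hmono : Monotone fun n => (P n).g := by
    refine monotone_nat_of_le_succ fun k => ?_
    have h1 := hP.g k
    have h2 := one_le_K (P k)
    have h3 := g_pos hP k
    nlinarith [mul_le_mul_of_nonneg_right h2 h3.le]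
  have h1 := hP.g m
  have h2 : (P (m + 1)).g ≤ (P n).g := hmono hmn
  have h3 : 0 ≤ ((P m).K : ℝ) * (P m).g := mul_nonneg (by positivity) (g_pos hP m).le
  linarith

theorem FF_bound (hP : Sparse P) {s : ℂ} (hs : 0 ≤ s.re) :
    ‖FF P s‖ ≤ 2 ∨ ∃ n : ℕ, (P n).g / 2 ≤ |s.im| ∧ ∀ a : ℝ, 0 ≤ a → 1 - a ≤ s.re →
      ‖FF P s‖ ≤ 16 * ((P n).b * (P n).R) * Real.exp (2 * (P n).R * a) := by
  classical
  by_cases hfar : ∀ n, |s.im| ≤ (P n).g / 2 ∨ 2 * ((P n).K : ℝ) * (P n).g ≤ |s.im|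
  · left
    refine le_of_tendsto (hasProd_FF hP hs).norm (Filter.Eventually.of_forall fun S => ?_)
    exact prod_norm_le S fun n _ => far_le hP n hs (hfar n)
  · right
    push Not at hfar
    obtain ⟨n, hn1, hn2⟩ := hfar
    refine ⟨n, hn1.le, fun a ha has => ?_⟩
    have hoth : ∀ m, m ≠ n → ‖(P m).H s - 1‖ ≤ 1 / 16 * (1 / 2) ^ m := by
      intro m hm
      apply far_le hP m hs
      rcases lt_or_gt_of_ne hm with h | h
      · right
        exact (win_lt hP h).trans hn1.le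
      · left
        exact hn2.le.trans (win_lt hP h)
    have hbR := (P n).hbR
    have hexp : (1 : ℝ) ≤ Real.exp (2 * (P n).R * a) := by
      apply Real.one_le_exp
      have := (P n).hR
      positivity
    refine le_of_tendsto (hasProd_FF hP hs).norm (Filter.Eventually.of_forall fun S => ?_)
    by_cases hnS : n ∈ S
    · rw [← Finset.mul_prod_erase S _ hnS, norm_mul]
      have h1 : ‖∏ m ∈ S.erase n, (1 + ((P m).H s - 1))‖ ≤ 2 :=
        prod_norm_le _ fun m hm => hoth m (Finset.ne_of_mem_erase hm)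
      have h2 : ‖1 + ((P n).H s - 1)‖ ≤ 8 * ((P n).b * (P n).R) * Real.exp (2 * (P n).R * a) := by
        rw [add_sub_cancel]
        exact (P n).H_near hs ha has
      calc ‖1 + ((P n).H s - 1)‖ * ‖∏ m ∈ S.erase n, (1 + ((P m).H s - 1))‖
          ≤ (8 * ((P n).b * (P n).R) * Real.exp (2 * (P n).R * a)) * 2 :=
            mul_le_mul h2 h1 (norm_nonneg _) ((norm_nonneg _).trans h2)
        _ = _ := by ring
    · have h1 : ‖∏ m ∈ S, (1 + ((P m).H s - 1))‖ ≤ 2 :=
        prod_norm_le _ fun m hm => hoth m (fun h => hnS (h ▸ hm))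
      have h2 : (1 : ℝ) ≤ ((P n).b * (P n).R) * Real.exp (2 * (P n).R * a) := by nlinarith
      linarith

theorem FF_one (hP : Sparse P) : FF P 1 ≠ 0 := by
  have h0 : (0 : ℝ) ≤ (1 : ℂ).re := by simp
  have hfar : ∀ n, ‖(P n).H 1 - 1‖ ≤ 1 / 16 * (1 / 2) ^ n := by
    intro n
    apply far_le hP n h0
    left
    have := g_pos hP n
    simp only [Complex.one_im, abs_zero]
    positivity
  have h1 : ‖FF P 1 - 1‖ ≤ 1 / 7 := by
    have h2 := ((hasProd_FF hP h0).sub_const 1).norm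
    exact le_of_tendsto h2 (Filter.Eventually.of_forall fun S => prod_sub_le S fun n _ => hfar n)
  intro h
  rw [h, zero_sub, norm_neg, norm_one] at h1
  norm_num at h1

end VQ
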