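import Mathlib

/-!
# Qs : the contribution of the higher powers of the generalized primes

`p j = exp (u j) ≥ 2`. `‖exp (- s u j)‖ ≤ 2^(-1/2)`, `‖- log (1 - z) - z‖ ≤ C ‖z‖²` (`Complex.norm_log_one_add_sub_self_le`).
-/

set_option autoImplicit false

open Complex MeasureTheory Set Filter Topology

namespace VQ

/-- the sum of `- log (1 - p^(-s)) - p^(-s)` -/
noncomputable def Qs (u : ℕ → ℝ) (s : ℂ) : ℂ :=
  ∑' j, (-Complex.log (1 - Complex.exp (-(s * u j))) - Complex.exp (-(s * u j)))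

variable {u : ℕ → ℝ}

private theorem qs_norm_exp (x : ℝ) (s : ℂ) :
    ‖Complex.exp (-(s * x))‖ = Real.exp (-s.re * x) := by
  rw [Complex.norm_exp]
  congr 1
  simp [Complex.mul_re]

private theorem qs_half_lt : Real.exp (-(1 / 2) * Real.log 2) < 1 := by
  rw [Real.exp_lt_one_iff]
  have := Real.log_pos (one_lt_two)
  nlinarith

private theorem qs_norm_le {x : ℝ} (hx : Real.log 2 ≤ x) {s : ℂ} (h : 1 / 2 ≤ s.re) :
    ‖Complex.exp (-(s * x))‖ ≤ Real.exp (-(1 / 2) * Real.log 2) := by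
  rw [qs_norm_exp]
  apply Real.exp_le_exp.mpr
  have := Real.log_pos (one_lt_two)
  nlinarith

private theorem qs_norm_lt {x : ℝ} (hx : Real.log 2 ≤ x) {s : ℂ} (h : 1 / 2 ≤ s.re) :
    ‖Complex.exp (-(s * x))‖ < 1 := lt_of_le_of_lt (qs_norm_le hx h) qs_half_lt

private theorem qs_term {x : ℝ} (hx : Real.log 2 ≤ x) {s : ℂ} {θ : ℝ} (hθ : 1 / 2 ≤ θ)
    (h : θ ≤ s.re) :
    ‖-Complex.log (1 - Complex.exp (-(s * x))) - Complex.exp (-(s * x))‖
      ≤ (1 - Real.exp (-(1 / 2) * Real.log 2))⁻¹ * Real.exp (-(2 * θ) * x) := by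
  set w := Complex.exp (-(s * x)) with hw
  have h1 : ‖-w‖ < 1 := by rw [norm_neg]; exact qs_norm_lt hx (hθ.trans h)
  have h2 := Complex.norm_log_one_add_sub_self_le h1
  have h3 : -Complex.log (1 - w) - w = -(Complex.log (1 + -w) - -w) := by
    rw [← sub_eq_add_neg]; ring
  rw [h3, norm_neg]
  refine h2.trans ?_
  rw [norm_neg]
  have h4 : ‖w‖ ≤ Real.exp (-(1 / 2) * Real.log 2) := qs_norm_le hx (hθ.trans h)
  have h5 : ‖w‖ ≤ Real.exp (-θ * x) := by
    rw [hw, qs_norm_exp]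
    apply Real.exp_le_exp.mpr
    have := Real.log_pos (one_lt_two)
    nlinarith
  have h6 : ‖w‖ ^ 2 ≤ Real.exp (-(2 * θ) * x) := by
    calc ‖w‖ ^ 2 ≤ (Real.exp (-θ * x)) ^ 2 := by gcongr
      _ = Real.exp (-(2 * θ) * x) := by
        rw [← Real.exp_nat_mul]; congr 1; push_cast; ring
  have h7 : 0 < 1 - Real.exp (-(1 / 2) * Real.log 2) := sub_pos.mpr qs_half_lt
  have h8 : (1 - ‖w‖)⁻¹ ≤ (1 - Real.exp (-(1 / 2) * Real.log 2))⁻¹ := by
    apply inv_anti₀ h7
    linarith
  have h9 : 0 ≤ (1 - ‖w‖)⁻¹ := by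
    apply inv_nonneg.mpr
    have := qs_half_lt
    linarith
  calc ‖w‖ ^ 2 * (1 - ‖w‖)⁻¹ / 2 ≤ ‖w‖ ^ 2 * (1 - ‖w‖)⁻¹ := by
        have : 0 ≤ ‖w‖ ^ 2 * (1 - ‖w‖)⁻¹ := by positivity
        linarith
    _ ≤ Real.exp (-(2 * θ) * x) * (1 - Real.exp (-(1 / 2) * Real.log 2))⁻¹ := by
        gcongr
    _ = _ := mul_comm _ _

private theorem qs_summable_major
    (hs : ∀ σ : ℝ, 1 < σ → Summable fun j => Real.exp (-σ * u j)) {θ : ℝ} (hθ : 1 / 2 < θ) :
    Summable fun j => (1 - Real.exp (-(1 / 2) * Real.log 2))⁻¹ * Real.exp (-(2 * θ) * u j) :=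
  (hs (2 * θ) (by linarith)).mul_left _

theorem Qs_diff (hu : ∀ j, Real.log 2 ≤ u j)
    (hs : ∀ σ : ℝ, 1 < σ → Summable fun j => Real.exp (-σ * u j)) :
    DifferentiableOn ℂ (Qs u) {s : ℂ | 1 / 2 < s.re} := by
  intro s hs'
  simp only [mem_ofPred_eq] at hs'
  set θ : ℝ := (1 / 2 + s.re) / 2 with hθdef
  have hθ : 1 / 2 < θ := by rw [hθdef]; linarith
  have hθ2 : θ < s.re := by rw [hθdef]; linarith
  have hopen : IsOpen {z : ℂ | θ < z.re} := isOpen_lt continuous_const Complex.continuous_re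
  have hd : DifferentiableOn ℂ (fun z : ℂ => ∑' j, (-Complex.log (1 - Complex.exp (-(z * u j)))
      - Complex.exp (-(z * u j)))) {z : ℂ | θ < z.re} := by
    refine differentiableOn_tsum_of_summable_norm (qs_summable_major hs hθ) ?_ hopen ?_
    · intro j
      have he : DifferentiableOn ℂ (fun z : ℂ => Complex.exp (-(z * u j))) {z : ℂ | θ < z.re} := by
        fun_prop
      refine DifferentiableOn.sub (DifferentiableOn.neg (DifferentiableOn.clog ?_ ?_)) he
      · exact DifferentiableOn.sub (differentiableOn_const _) he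
      · intro z hz
        simp only [mem_ofPred_eq] at hz
        have h1 : ‖-Complex.exp (-(z * u j))‖ < 1 := by
          rw [norm_neg]; exact qs_norm_lt (hu j) (by linarith)
        have := Complex.mem_slitPlane_of_norm_lt_one h1
        rwa [← sub_eq_add_neg] at this
    · intro j z hz
      simp only [mem_ofPred_eq] at hz
      exact qs_term (hu j) hθ.le hz.le
  exact ((hd s hθ2).differentiableAt (hopen.mem_nhds hθ2)).differentiableWithinAt

theorem Qs_bound (hu : ∀ j, Real.log 2 ≤ u j)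
    (hs : ∀ σ : ℝ, 1 < σ → Summable fun j => Real.exp (-σ * u j)) {θ : ℝ} (hθ : 1 / 2 < θ) :
    ∃ C : ℝ, 0 ≤ C ∧ ∀ s : ℂ, θ ≤ s.re → ‖Qs u s‖ ≤ C := by
  have h7 : 0 < 1 - Real.exp (-(1 / 2) * Real.log 2) := sub_pos.mpr qs_half_lt
  refine ⟨∑' j, (1 - Real.exp (-(1 / 2) * Real.log 2))⁻¹ * Real.exp (-(2 * θ) * u j),
    tsum_nonneg fun j => by positivity, ?_⟩
  intro s h
  unfold Qs
  exact tsum_of_norm_bounded (qs_summable_major hs hθ).hasSum fun j => qs_term (hu j) hθ.le h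

theorem prod_eq (hu : ∀ j, Real.log 2 ≤ u j)
    (hs : ∀ σ : ℝ, 1 < σ → Summable fun j => Real.exp (-σ * u j)) {s : ℂ} (h : 1 < s.re) :
    HasProd (fun j => (1 - Complex.exp (-(s * u j)))⁻¹)
      (Complex.exp (∑' j, Complex.exp (-(s * u j)) + Qs u s)) := by
  have hsum1 : Summable fun j => Complex.exp (-(s * u j)) := by
    apply Summable.of_norm
    refine (hs s.re h).congr fun j => ?_
    rw [qs_norm_exp]
  have hsum2 : Summable fun j => (-Complex.log (1 - Complex.exp (-(s * u j)))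
      - Complex.exp (-(s * u j))) := by
    apply Summable.of_norm_bounded (qs_summable_major hs (θ := s.re) (by linarith))
    intro j
    exact qs_term (hu j) (by linarith) le_rfl
  have h1 : HasSum (fun j => -Complex.log (1 - Complex.exp (-(s * u j))))
      (∑' j, Complex.exp (-(s * u j)) + Qs u s) := by
    have := hsum1.hasSum.add hsum2.hasSum
    refine this.congr_fun ?_ 
    intro j
    simp
  have h2 := h1.cexp
  refine h2.congr_fun ?_
  intro j
  have hne : 1 - Complex.exp (-(s * u j)) ≠ 0 := by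
    intro h0
    have h3 := qs_norm_lt (hu j) (s := s) (by linarith)
    have h4 : Complex.exp (-(s * u j)) = 1 := by linear_combination -h0
    rw [h4] at h3
    simp at h3
  show (1 - Complex.exp (-(s * u j)))⁻¹
    = Complex.exp (-Complex.log (1 - Complex.exp (-(s * u j))))
  rw [Complex.exp_neg (Complex.log _), Complex.exp_log hne]

end VQ
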