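import Pool.Agent.H15.VQ.Zs
import Pool.Agent.H15.VQ.ParW
import Pool.Agent.H15.VQ.DsumB
import Pool.Agent.H15.VQ.EsC

/-!
# ZwG : the growth of the zeta function of the system for the parameters `ParW ω`

`‖s / (s - 1)‖ ≤ 2`, `‖Ss‖ ≤ 6`, `‖Qs‖ ≤ C` and `Es_bound_div` (`dn_div` with `C0 = 4096000`), `|t| + 3 ≤ 2 |t|`, `log (|t| + 3) ≤ 2 log |t|`
(`|t| ≥ 3`), and `log (2 + log log |t|) ≥ log 2`. `FF_bound`: `2`, or `16 · 32 exp (2 R a) = 512 exp (ω (g / 2) a)` with `g / 2 ≤ |t|`.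
-/

set_option autoImplicit false

open Complex MeasureTheory Set Filter Topology

namespace VQ

variable {P : ℕ → Blk} {η u : ℕ → ℝ} {ω : ℝ → ℝ}

private theorem zw_frac {s : ℂ} (hs : 3 ≤ |s.im|) : ‖s / (s - 1)‖ ≤ 2 := by
  have h1 : |s.im| ≤ ‖s - 1‖ := by
    have := Complex.abs_im_le_norm (s - 1)
    simpa using this
  have h2 : ‖s‖ ≤ ‖s - 1‖ + 1 := by
    have := norm_add_le (s - 1) 1
    simpa using this
  rw [norm_div, div_le_iff₀ (by linarith)]
  linarith

private theorem zw_g {ω : ℝ → ℝ} {B : Blk} (h : ParW ω B) : 6 ≤ B.g := by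
  by_contra h1
  push Not at h1
  have h2 := h.big
  rcases le_or_gt B.g 0 with h3 | h3
  · have h4 : (2 : ℝ) ≤ B.K := by
      rw [h.K]
      norm_num
    have h5 : 0 < 1024 * (B.K : ℝ) * Real.exp (2 * B.R) := by positivity
    linarith [B.hg]
  · have h4 := Real.log_le_sub_one_of_pos h3
    linarith

theorem Zt_growth (hm : MonotoneOn ω (Ici 3)) (hP : Sparse P) (hc : ∀ n, ParW ω (P n))
    (hη : IsPart (fP P) η) (hu : IsSel (fP P) η u) {θ : ℝ} (hθ : 1 / 2 < θ) :
    ∃ A : ℝ, 0 ≤ A ∧ ∀ s : ℂ, θ ≤ s.re → s.re ≤ 2 → 3 ≤ |s.im| →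
      ‖Zt P η u s‖ ≤ Real.exp (ω |s.im| * max 0 (1 - s.re) +
        A * Real.log |s.im| ^ max 0 (1 - s.re) * Real.log (2 + Real.log (Real.log |s.im|))) := by
  have hf := fP_dens hP
  have hbR : ∀ n, 2 * ((P n).K : ℝ) * (P n).b * (P n).R ≤ 4096000 := by
    intro n
    have h1 := (hc n).bR
    have h2 : 2 * ((P n).K : ℝ) * (P n).b * (P n).R = 2 * ((P n).K : ℝ) * ((P n).b * (P n).R) := by ring
    rw [h2, h1, (hc n).K]
    norm_num
  have hdiv : ∀ y, 0 < y → fP P y ≤ (4096000 + 3) / y := by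
    intro y hy
    unfold fP
    rw [if_pos hy]
    exact dn_div hP hbR hy
  obtain ⟨Ce, hCe0, hCe⟩ := Es_bound_div hf hη hu hdiv hθ
  obtain ⟨Cq, hCq0, hCq⟩ := Qs_bound (u_ge hη hu) (u_sum hη hu) hθ
  refine ⟨4 * Ce + 2 * (7 + |ω 3| + 6 + Cq), by positivity, fun s hs1 hs2 hs3 => ?_⟩
  set t := |s.im| with ht
  set a := max 0 (1 - s.re) with ha
  have ha0 : 0 ≤ a := le_max_left _ _
  have ha1 : a ≤ 1 := by
    rw [ha]
    exact max_le (by norm_num) (by linarith)
  have ht0 : 0 < t := by linarith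
  set L := Real.log t with hL
  have hL1 : 1 ≤ L := by
    have h1 : Real.exp 1 ≤ t := by linarith [Real.exp_one_lt_d9]
    calc (1 : ℝ) = Real.log (Real.exp 1) := (Real.log_exp 1).symm
      _ ≤ L := Real.log_le_log (Real.exp_pos 1) h1
  have hlL : 0 ≤ Real.log L := Real.log_nonneg hL1
  set LL := Real.log (2 + Real.log L) with hLL
  have hLL2 : 1 / 2 ≤ LL := by
    have h1 : Real.log 2 ≤ LL := Real.log_le_log (by norm_num) (by linarith)
    have := Real.log_two_gt_d9
    linarith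
  have hLa : 1 ≤ L ^ a := Real.one_le_rpow hL1 ha0
  -- the remainder
  have hE : ‖Es (fP P) η u s‖ ≤ 4 * Ce * L ^ a * LL := by
    have h1 := hCe s hs1 hs2
    have h2 : Real.log (t + 3) ≤ 2 * L := by
      have : 2 * L = Real.log (t ^ 2) := by
        rw [Real.log_pow]
        norm_num [hL]
      rw [this]
      exact Real.log_le_log (by linarith) (by nlinarith)
    have h3 : L ≤ Real.log (t + 3) := Real.log_le_log ht0 (by linarith)
    have h4 : Real.log (t + 3) ^ a ≤ 2 * L ^ a := by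
      calc Real.log (t + 3) ^ a ≤ (2 * L) ^ a := Real.rpow_le_rpow (by linarith) h2 ha0
        _ = 2 ^ a * L ^ a := Real.mul_rpow (by norm_num) (by linarith)
        _ ≤ 2 * L ^ a := by
          refine mul_le_mul_of_nonneg_right ?_ (by linarith)
          calc (2 : ℝ) ^ a ≤ 2 ^ (1 : ℝ) := Real.rpow_le_rpow_of_exponent_le (by norm_num) ha1
            _ = 2 := Real.rpow_one 2
    have h5 : Real.log (Real.log (t + 3)) ≤ 1 + Real.log L := by
      calc Real.log (Real.log (t + 3)) ≤ Real.log (2 * L) := Real.log_le_log (by linarith) h2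
        _ = Real.log 2 + Real.log L := Real.log_mul (by norm_num) (by linarith)
        _ ≤ 1 + Real.log L := by
          have := Real.log_two_lt_d9
          linarith
    have h6 : 0 ≤ Real.log (Real.log (t + 3)) := Real.log_nonneg (by linarith)
    have h7 : Real.log (2 + Real.log (Real.log (t + 3))) ≤ 2 * LL := by
      have h8 : 2 * LL = Real.log ((2 + Real.log L) ^ 2) := by
        rw [Real.log_pow]
        norm_num [hLL]
      rw [h8]
      exact Real.log_le_log (by linarith) (by nlinarith)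
    have h8 : 0 ≤ Real.log (2 + Real.log (Real.log (t + 3))) := Real.log_nonneg (by linarith)
    calc ‖Es (fP P) η u s‖ ≤ Ce * Real.log (t + 3) ^ a * Real.log (2 + Real.log (Real.log (t + 3))) := h1
      _ ≤ Ce * (2 * L ^ a) * (2 * LL) := by
        refine mul_le_mul (mul_le_mul_of_nonneg_left h4 hCe0) h7 h8 (by positivity)
      _ = 4 * Ce * L ^ a * LL := by ring
  have hS := Ss_bound hf (s := s) (by linarith)
  have hQ := hCq s hs1
  have hexp : ‖Complex.exp (Es (fP P) η u s - Ss (fP P) s + Qs u s)‖ ≤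
      Real.exp (4 * Ce * L ^ a * LL + 6 + Cq) := by
    rw [Complex.norm_exp]
    refine Real.exp_le_exp.2 ?_
    refine (Complex.re_le_norm _).trans ((norm_add_le _ _).trans ?_)
    have h1 := norm_sub_le (Es (fP P) η u s) (Ss (fP P) s)
    linarith
  -- the product
  have hω3 : ω 3 ≤ ω t := hm (by simp) hs3 hs3
  have hωa : 0 ≤ ω t * a + |ω 3| := by
    have h1 := neg_abs_le (ω 3)
    have h2 := abs_nonneg (ω 3)
    rcases le_or_gt 0 (ω t) with h3 | h3
    · have := mul_nonneg h3 ha0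
      linarith
    · nlinarith
  have hFF : ‖FF P s‖ ≤ 512 * Real.exp (ω t * a + |ω 3|) := by
    rcases FF_bound hP (s := s) (by linarith) with h1 | ⟨n, hn1, hn2⟩
    · have : 1 ≤ Real.exp (ω t * a + |ω 3|) := Real.one_le_exp hωa
      linarith
    · have h2 := hn2 a ha0 (by
        have := le_max_right (0 : ℝ) (1 - s.re)
        linarith)
      rw [(hc n).bR] at h2
      have h3 : 2 * (P n).R = ω ((P n).g / 2) := by
        rw [(hc n).R]
        ring
      rw [h3] at h2
      have h4 := zw_g (hc n)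
      have h5 : ω ((P n).g / 2) ≤ ω t := hm (by simp only [mem_Ici]; linarith) hs3 hn1
      have h6 : ω ((P n).g / 2) * a ≤ ω t * a + |ω 3| := by
        have := mul_le_mul_of_nonneg_right h5 ha0
        linarith [abs_nonneg (ω 3)]
      have h7 := Real.exp_le_exp.2 h6
      refine h2.trans ?_
      have h8 : (16 * 32 : ℝ) = 512 := by norm_num
      rw [h8]
      exact mul_le_mul_of_nonneg_left h7 (by norm_num)
  have h1024 : (1024 : ℝ) ≤ Real.exp 7 := by
    have h1 : (1024 : ℝ) = Real.exp (Real.log 1024) := (Real.exp_log (by norm_num)).symm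
    rw [h1]
    refine Real.exp_le_exp.2 ?_
    have h2 : (1024 : ℝ) = 2 ^ 10 := by norm_num
    rw [h2, Real.log_pow]
    have := Real.log_two_lt_d9
    push_cast
    linarith
  have hfr := zw_frac hs3
  unfold Zt
  rw [norm_mul, norm_mul]
  calc ‖s / (s - 1)‖ * ‖FF P s‖ * ‖Complex.exp (Es (fP P) η u s - Ss (fP P) s + Qs u s)‖
      ≤ 2 * (512 * Real.exp (ω t * a + |ω 3|)) * Real.exp (4 * Ce * L ^ a * LL + 6 + Cq) := by
        gcongr
    _ = 1024 * Real.exp (ω t * a + |ω 3| + (4 * Ce * L ^ a * LL + 6 + Cq)) := by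
        rw [Real.exp_add (ω t * a + |ω 3|)]
        ring
    _ ≤ Real.exp 7 * Real.exp (ω t * a + |ω 3| + (4 * Ce * L ^ a * LL + 6 + Cq)) := by
        gcongr
    _ = Real.exp (7 + (ω t * a + |ω 3| + (4 * Ce * L ^ a * LL + 6 + Cq))) := (Real.exp_add _ _).symm
    _ ≤ _ := by
        refine Real.exp_le_exp.2 ?_
        have h1 : 1 ≤ 2 * (L ^ a * LL) := by nlinarith
        have h2 : 0 ≤ 7 + |ω 3| + 6 + Cq := by positivity
        nlinarith

/-- the Lindelöf bound: consequence of `Zt_growth` -/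
theorem Zt_lindelofW (hm : MonotoneOn ω (Ici 3)) (ho : Tendsto (fun t => ω t / Real.log t) atTop (𝓝 0))
    (hP : Sparse P) (hc : ∀ n, ParW ω (P n))
    (hη : IsPart (fP P) η) (hu : IsSel (fP P) η u) {θ ε : ℝ} (hθ : 1 / 2 < θ) (hε : 0 < ε) :
    ∃ A : ℝ, ∀ s : ℂ, θ ≤ s.re → s.re ≤ 2 → 3 ≤ |s.im| → ‖Zt P η u s‖ ≤ A * |s.im| ^ ε := by
  obtain ⟨A, hA0, hA⟩ := Zt_growth hm hP hc hη hu hθ
  -- `ω t ≤ (ε / 2) log t + C`
  obtain ⟨T, hT⟩ := eventually_atTop.1 (ho.eventually (gt_mem_nhds (by positivity : (0 : ℝ) < ε / 2)))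
  set T0 := max T 3 with hT0
  have hω : ∀ t : ℝ, 3 ≤ t → ω t ≤ ε / 2 * Real.log t + |ω T0| := by
    intro t ht
    have hl : 0 < Real.log t := Real.log_pos (by linarith)
    rcases le_total T0 t with h | h
    · have h1 := hT t ((le_max_left _ _).trans h)
      rw [div_lt_iff₀ hl] at h1
      linarith [abs_nonneg (ω T0)]
    · have hT3 : (3 : ℝ) ≤ T0 := le_max_right _ _
      have h1 : ω t ≤ ω T0 := hm ht hT3 h
      have h2 := le_abs_self (ω T0)
      have h3 : 0 ≤ ε / 2 * Real.log t := by positivity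
      linarith
  set B := 5 * A with hB
  have hB0 : 0 ≤ B := by positivity
  refine ⟨Real.exp (|ω T0| + B * (2 * B / ε) ^ 3), fun s hs1 hs2 hs3 => ?_⟩
  refine (hA s hs1 hs2 hs3).trans ?_
  set t := |s.im| with ht
  set a := max 0 (1 - s.re) with ha
  have ha0 : 0 ≤ a := le_max_left _ _
  have ha1 : a ≤ 1 / 2 := by
    rw [ha]
    exact max_le (by norm_num) (by linarith)
  have ht0 : 0 < t := by linarith
  set L := Real.log t with hL
  have hL1 : 1 ≤ L := by
    have h1 : Real.exp 1 ≤ t := by linarith [Real.exp_one_lt_d9]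
    calc (1 : ℝ) = Real.log (Real.exp 1) := (Real.log_exp 1).symm
      _ ≤ L := Real.log_le_log (Real.exp_pos 1) h1
  have hlL : 0 ≤ Real.log L := Real.log_nonneg hL1
  have hL0 : 0 < L := by linarith
  set x := L ^ (1 / 4 : ℝ) with hx
  have hx1 : 1 ≤ x := Real.one_le_rpow hL1 (by norm_num)
  have hx4 : x ^ 4 = L := by
    rw [hx, ← Real.rpow_natCast (L ^ (1 / 4 : ℝ)) 4, ← Real.rpow_mul hL0.le]
    norm_num
  have h1 : ω t * a ≤ ε / 2 * L + |ω T0| := by
    have h2 := hω t hs3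
    have h3 : 0 ≤ ε / 2 * L + |ω T0| := by positivity
    rcases le_or_gt 0 (ω t) with h4 | h4
    · calc ω t * a ≤ ω t * 1 := mul_le_mul_of_nonneg_left (by linarith) h4
        _ ≤ _ := by linarith
    · have : ω t * a ≤ 0 := mul_nonpos_of_nonpos_of_nonneg h4.le ha0
      linarith
  have h2 : L ^ a ≤ x ^ 2 := by
    have h3 : x ^ 2 = L ^ (1 / 2 : ℝ) := by
      rw [hx, ← Real.rpow_natCast (L ^ (1 / 4 : ℝ)) 2, ← Real.rpow_mul hL0.le]
      norm_num
    rw [h3]
    exact Real.rpow_le_rpow_of_exponent_le hL1 ha1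
  have h3 : Real.log (2 + Real.log L) ≤ 5 * x := by
    have h4 : Real.log (2 + Real.log L) ≤ 1 + Real.log L := by
      have := Real.log_le_sub_one_of_pos (by linarith : 0 < 2 + Real.log L)
      linarith
    have h5 : Real.log L ≤ x / (1 / 4) := Real.log_le_rpow_div hL0.le (by norm_num)
    linarith
  have hLL0 : 0 ≤ Real.log (2 + Real.log L) := Real.log_nonneg (by linarith)
  have h4 : A * L ^ a * Real.log (2 + Real.log L) ≤ B * x ^ 3 := by
    calc A * L ^ a * Real.log (2 + Real.log L) ≤ A * x ^ 2 * (5 * x) := by gcongr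
      _ = B * x ^ 3 := by
        rw [hB]
        ring
  have h5 : B * x ^ 3 ≤ ε / 2 * L + B * (2 * B / ε) ^ 3 := by
    rw [← hx4]
    rcases le_total (2 * B / ε) x with h | h
    · rw [div_le_iff₀ hε] at h
      have h6 : 0 ≤ B * (2 * B / ε) ^ 3 := by positivity
      have h7 : B * x ^ 3 ≤ ε / 2 * x * x ^ 3 := mul_le_mul_of_nonneg_right (by linarith) (by positivity)
      nlinarith
    · have h6 : x ^ 3 ≤ (2 * B / ε) ^ 3 := pow_le_pow_left₀ (by linarith) h 3
      have h7 : B * x ^ 3 ≤ B * (2 * B / ε) ^ 3 := mul_le_mul_of_nonneg_left h6 hB0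
      have h8 : 0 ≤ ε / 2 * x ^ 4 := by positivity
      linarith
  rw [Real.rpow_def_of_pos ht0, ← hL, ← Real.exp_add]
  refine Real.exp_le_exp.2 ?_
  linarith

end VQ
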