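import Mathlib

/-!
# Part : the partition of `[log 2, ∞)` into intervals of unit mass for `exp y f y dy`

`M y = ∫_{log 2}^y exp u f u du` is continuous, strictly increasing (`Dens.low`), unbounded, and `η n` is the point with
`M (η n) = n`. `n = M (η n) ≤ 3 (exp (η n) - 2)`. For `count_eps`: with `C` of `Dens.eps` for `ε / 2`,
`n ≤ (ε / 2) exp (η n) + C ∫_{log 2}^{η n} exp u / u du` and the last integral is `o (exp (η n))`.
-/

set_option autoImplicit false

open MeasureTheory Set Filter Topology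

namespace VQ

/-- hypotheses on the density `f` -/
structure Dens (f : ℝ → ℝ) : Prop where
  meas : Measurable f
  nonneg : ∀ y, 0 ≤ f y
  le : ∀ y, f y ≤ 3
  low : ∀ y, Real.log 2 ≤ y → 1 / 10 ≤ Real.exp y * f y
  eps : ∀ ε : ℝ, 0 < ε → ∃ C : ℝ, 0 ≤ C ∧ ∀ y, 1 / 2 ≤ y → f y ≤ ε + C / y

/-- `η` is the partition into intervals of unit mass -/
structure IsPart (f : ℝ → ℝ) (η : ℕ → ℝ) : Prop where
  zero : η 0 = Real.log 2
  mono : StrictMono η
  mass : ∀ n, ∫ u in (η n)..(η (n + 1)), Real.exp u * f u = 1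
  gap : ∀ n, η (n + 1) ≤ η n + 10
  count : ∀ n : ℕ, (n : ℝ) ≤ 3 * Real.exp (η n)
  count_eps : ∀ ε : ℝ, 0 < ε → ∃ C : ℝ, 0 ≤ C ∧ ∀ n : ℕ, (n : ℝ) ≤ ε * Real.exp (η n) + C

private theorem ii {f : ℝ → ℝ} (hf : Dens f) (a b : ℝ) :
    IntervalIntegrable (fun u => Real.exp u * f u) volume a b := by
  have h1 : IntervalIntegrable (fun u => 3 * Real.exp u) volume a b :=
    (continuous_const.mul Real.continuous_exp).intervalIntegrable a b
  refine h1.mono_fun ((Real.measurable_exp.mul hf.meas).aestronglyMeasurable) ?_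
  refine Eventually.of_forall fun u => ?_
  have h2 := hf.nonneg u
  have h3 := hf.le u
  have h4 := Real.exp_pos u
  show ‖Real.exp u * f u‖ ≤ ‖3 * Real.exp u‖
  rw [Real.norm_of_nonneg (by positivity), Real.norm_of_nonneg (by positivity)]
  nlinarith

private theorem low_int {f : ℝ → ℝ} (hf : Dens f) {a b : ℝ} (ha : Real.log 2 ≤ a) (hab : a ≤ b) :
    (b - a) / 10 ≤ ∫ u in a..b, Real.exp u * f u := by
  have h1 : ∫ u in a..b, (1 / 10 : ℝ) = (b - a) / 10 := by
    rw [intervalIntegral.integral_const, smul_eq_mul]; ring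
  rw [← h1]
  refine intervalIntegral.integral_mono_on hab (by simp) (ii hf a b) fun u hu => ?_
  exact hf.low u (ha.trans hu.1)

private theorem up_int {f : ℝ → ℝ} (hf : Dens f) {a b c : ℝ} (hab : a ≤ b) (hc : ∀ u, a ≤ u → f u ≤ c) :
    ∫ u in a..b, Real.exp u * f u ≤ c * (Real.exp b - Real.exp a) := by
  have h1 : ∫ u in a..b, c * Real.exp u = c * (Real.exp b - Real.exp a) := by
    rw [intervalIntegral.integral_const_mul, integral_exp]
  rw [← h1]
  refine intervalIntegral.integral_mono_on hab (ii hf a b)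
    ((continuous_const.mul Real.continuous_exp).intervalIntegrable a b) fun u hu => ?_
  have h2 := hc u hu.1
  have h3 := Real.exp_pos u
  nlinarith

theorem exists_part {f : ℝ → ℝ} (hf : Dens f) : ∃ η : ℕ → ℝ, IsPart f η := by
  set M : ℝ → ℝ := fun y => ∫ u in (Real.log 2)..y, Real.exp u * f u with hM
  have hcont : Continuous M := intervalIntegral.continuous_primitive (fun a b => ii hf a b) _
  have hsub : ∀ a b, ∫ u in a..b, Real.exp u * f u = M b - M a := by
    intro a b
    have := intervalIntegral.integral_interval_sub_left (ii hf (Real.log 2) b) (ii hf (Real.log 2) a)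
    rw [hM]; exact this.symm
  have hinc : ∀ a b, Real.log 2 ≤ a → a ≤ b → (b - a) / 10 ≤ M b - M a := by
    intro a b ha hab
    rw [← hsub]; exact low_int hf ha hab
  have hM0 : M (Real.log 2) = 0 := by simp [hM]
  have hex : ∀ n : ℕ, ∃ y, Real.log 2 ≤ y ∧ M y = n := by
    intro n
    have h1 : Real.log 2 ≤ Real.log 2 + 10 * n := by
      have : (0 : ℝ) ≤ 10 * n := by positivity
      linarith
    have h2 := hinc (Real.log 2) (Real.log 2 + 10 * n) le_rfl h1
    rw [hM0] at h2
    have h3 : (n : ℝ) ≤ M (Real.log 2 + 10 * n) := by linarith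
    have h4 := intermediate_value_Icc h1 hcont.continuousOn
    have h5 : (n : ℝ) ∈ Icc (M (Real.log 2)) (M (Real.log 2 + 10 * n)) := by
      rw [hM0]; exact ⟨by positivity, h3⟩
    obtain ⟨y, hy, hy2⟩ := h4 h5
    exact ⟨y, hy.1, hy2⟩
  choose η hη hηM using hex
  have hlt : ∀ a b : ℕ, a < b → η a < η b := by
    intro a b hab
    by_contra h
    push Not at h
    have h1 := hinc (η b) (η a) (hη b) h
    rw [hηM, hηM] at h1
    have h2 : (a : ℝ) < b := by exact_mod_cast hab
    have h3 : 0 ≤ (η a - η b) / 10 := by linarith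
    linarith
  have hz : η 0 = Real.log 2 := by
    have h1 := hinc (Real.log 2) (η 0) le_rfl (hη 0)
    rw [hηM, hM0] at h1
    have h2 := hη 0
    push_cast at h1
    linarith
  have hnM : ∀ n : ℕ, (n : ℝ) = ∫ u in (Real.log 2)..(η n), Real.exp u * f u := fun n => (hηM n).symm
  refine ⟨η, ⟨hz, fun a b h => hlt a b h, fun n => ?_, fun n => ?_, fun n => ?_, fun ε hε => ?_⟩⟩
  · rw [hsub, hηM, hηM]; push_cast; ring
  · have h1 := hinc (η n) (η (n + 1)) (hη n) (hlt n (n + 1) (Nat.lt_succ_self n)).le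
    rw [hηM, hηM] at h1
    push_cast at h1
    linarith
  · have h1 := up_int hf (hη n) (c := 3) (fun u _ => hf.le u)
    rw [← hnM] at h1
    have h2 := Real.exp_pos (Real.log 2)
    linarith
  · obtain ⟨C, hC, hC2⟩ := hf.eps (ε / 2) (by positivity)
    set U : ℝ := max (Real.log 2) (2 * C / ε) with hU
    have hl2 : (1 / 2 : ℝ) ≤ Real.log 2 := by
      have := Real.log_two_gt_d9; linarith
    have hU1 : Real.log 2 ≤ U := le_max_left _ _
    have hU2 : ∀ u, U ≤ u → f u ≤ ε := by
      intro u hu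
      have h1 : 1 / 2 ≤ u := hl2.trans (hU1.trans hu)
      have h2 := hC2 u h1
      have h3 : 2 * C / ε ≤ u := (le_max_right _ _).trans hu
      have h4 : C / u ≤ ε / 2 := by
        rw [div_le_iff₀ (by linarith)]
        rw [div_le_iff₀ hε] at h3
        linarith
      linarith
    refine ⟨3 * Real.exp U, by positivity, fun n => ?_⟩
    rcases le_total (η n) U with h | h
    · have h1 := up_int hf (hη n) (c := 3) (fun u _ => hf.le u)
      rw [← hnM] at h1
      have h2 := Real.exp_pos (Real.log 2)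
      have h3 := Real.exp_le_exp.mpr h
      have h4 : 0 ≤ ε * Real.exp (η n) := by positivity
      linarith
    · have h1 := up_int hf hU1 (c := 3) (fun u _ => hf.le u)
      have h2 := up_int hf h (c := ε) hU2
      have h3 : (n : ℝ) = (∫ u in (Real.log 2)..U, Real.exp u * f u) + ∫ u in U..(η n), Real.exp u * f u := by
        rw [intervalIntegral.integral_add_adjacent_intervals (ii hf _ _) (ii hf _ _)]
        exact hnM n
      have h4 := Real.exp_pos (Real.log 2)
      have h5 := Real.exp_pos U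
      have h6 : 0 ≤ ε * Real.exp U := by positivity
      rw [mul_sub] at h2
      linarith

theorem IsPart.tendsto {f : ℝ → ℝ} {η : ℕ → ℝ} (hη : IsPart f η) : Tendsto η atTop atTop := by
  have h1 : Tendsto (fun n : ℕ => Real.log ((n : ℝ) / 3)) atTop atTop :=
    Real.tendsto_log_atTop.comp ((tendsto_natCast_atTop_atTop).atTop_div_const (by norm_num))
  refine tendsto_atTop_mono' _ ?_ h1
  filter_upwards [eventually_gt_atTop 0] with n hn
  have h2 := hη.count n
  have h3 : (0 : ℝ) < n := by exact_mod_cast hn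
  rw [Real.log_le_iff_le_exp (by positivity)]
  linarith

theorem IsPart.ge {f : ℝ → ℝ} {η : ℕ → ℝ} (hη : IsPart f η) (n : ℕ) : Real.log 2 ≤ η n := by
  rw [← hη.zero]
  exact hη.mono.monotone (Nat.zero_le n)

theorem IsPart.le {f : ℝ → ℝ} {η : ℕ → ℝ} (hη : IsPart f η) (n : ℕ) : η n ≤ Real.log 2 + 10 * n := by
  induction n with
  | zero => simp [hη.zero]
  | succ n ih =>
    have := hη.gap n
    push_cast
    linarith

/-- for points `u j ≥ η j`: from `count`, `exp (- σ u j) ≤ (3 / j)^σ` -/
theorem IsPart.summable {f : ℝ → ℝ} {η : ℕ → ℝ} (hη : IsPart f η) {u : ℕ → ℝ} (hu : ∀ j, η j ≤ u j)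
    {σ : ℝ} (hσ : 1 < σ) : Summable fun j => Real.exp (-σ * u j) := by
  have h1 : Summable fun n : ℕ => (3 : ℝ) ^ σ * (1 / (n : ℝ) ^ σ) :=
    (Real.summable_one_div_nat_rpow.mpr hσ).mul_left _
  refine Summable.of_norm_bounded_eventually_nat h1 ?_
  filter_upwards [eventually_gt_atTop 0] with n hn
  have h3 : (0 : ℝ) < n := by exact_mod_cast hn
  rw [Real.norm_of_nonneg (Real.exp_pos _).le]
  have h2 : Real.log n ≤ Real.log 3 + u n := by
    have h4 := Real.log_le_log h3 (hη.count n)
    rw [Real.log_mul (by norm_num) (Real.exp_pos _).ne', Real.log_exp] at h4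
    linarith [hu n]
  rw [mul_one_div, Real.rpow_def_of_pos (by norm_num : (0 : ℝ) < 3), Real.rpow_def_of_pos h3, ← Real.exp_sub]
  apply Real.exp_le_exp.mpr
  nlinarith

end VQ
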