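import Pool.Agent.H15.VQ.Defs
import Pool.Agent.H15.VQ.Part

/-!
# PsiA : the Chebyshev function of the generalized primes and the integral of the density

Let `η N ≤ y < η (N + 1)`. The terms `u j ≤ y` are those with `j < N` and possibly `j = N`; `|u j - ∫_{I j} v dμ| ≤ η (j+1) - η j`,
in total at most `y`; the rest is at most `2 y`. Powers `e + 1 ≥ 2`: only `u j ≤ y / 2`, at most `3 exp (y / 2) + 1` of them, each
contributes at most `y`. (Finite sums: `p j ^ (e + 1) ≤ exp y` iff `(e + 1) u j ≤ y`.)
-/

set_option autoImplicit false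

open MeasureTheory Set Filter Topology

namespace VQ

private theorem hii {f : ℝ → ℝ} (hf : Dens f) (a b : ℝ) : IntervalIntegrable f volume a b := by
  refine (intervalIntegrable_const (c := (3 : ℝ))).mono_fun hf.meas.aestronglyMeasurable
    (Eventually.of_forall fun x => ?_)
  show ‖f x‖ ≤ ‖(3 : ℝ)‖
  rw [Real.norm_eq_abs, Real.norm_eq_abs, abs_of_nonneg (hf.nonneg x), abs_of_nonneg (by norm_num : (0:ℝ) ≤ 3)]
  exact hf.le x

private theorem hie {f : ℝ → ℝ} (hf : Dens f) (a b : ℝ) :
    IntervalIntegrable (fun v => Real.exp v * f v) volume a b :=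
  (hii hf a b).continuousOn_mul Real.continuous_exp.continuousOn

private theorem hiv {f : ℝ → ℝ} (hf : Dens f) (a b : ℝ) :
    IntervalIntegrable (fun v => v * Real.exp v * f v) volume a b :=
  (hii hf a b).continuousOn_mul (continuous_id.mul Real.continuous_exp).continuousOn

private theorem pow_sum (u y : ℝ) (hy : 0 ≤ y) (n : ℕ) :
    ∑ e ∈ Finset.range n, (if ((e : ℝ) + 1 + 1) * u ≤ y then u else 0) ≤ n * u ∧
    ∑ e ∈ Finset.range n, (if ((e : ℝ) + 1 + 1) * u ≤ y then u else 0) ≤ y := by
  induction n with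
  | zero => simp [hy]
  | succ n ih =>
    rw [Finset.sum_range_succ]
    push_cast
    split_ifs with h
    · constructor
      · linarith [ih.1]
      · nlinarith [ih.1]
    · constructor
      · linarith [ih.1]
      · linarith [ih.2]

theorem psi_approx {f : ℝ → ℝ} {η u : ℕ → ℝ} (hf : Dens f) (hη : IsPart f η)
    (hu : ∀ j, η j ≤ u j) (hu' : ∀ j, u j ≤ η (j + 1)) :
    ∃ C : ℝ, 0 ≤ C ∧ ∀ y : ℝ, 1 ≤ y →
      |gpsi (fun j => Real.exp (u j)) (Real.exp y) - ∫ v in (Real.log 2)..y, v * Real.exp v * f v| ≤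
        C * y * Real.exp (y / 2) := by
  refine ⟨6, by norm_num, fun y hy => ?_⟩
  have hl2 : (0 : ℝ) < Real.log 2 := Real.log_pos (by norm_num)
  have hl1 : Real.log 2 ≤ 1 := by
    have := Real.log_two_lt_d9; linarith
  have hη0 : ∀ j, Real.log 2 ≤ η j := hη.ge
  have hu0 : ∀ j, 0 < u j := fun j => hl2.trans_le ((hη0 j).trans (hu j))
  have hy0 : 0 < y := by linarith
  -- the index `N`
  obtain ⟨N, hN1, hN2⟩ : ∃ N, η N ≤ y ∧ y < η (N + 1) := by
    obtain ⟨K, hK⟩ := ((hη.tendsto.eventually (eventually_gt_atTop y))).exists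
    have hex : ∃ n, y < η n := ⟨K, hK⟩
    classical
    have h1 := Nat.find_spec hex
    have h0 : Nat.find hex ≠ 0 := by
      intro h
      rw [h, hη.zero] at h1
      linarith
    obtain ⟨N, hN⟩ := Nat.exists_eq_succ_of_ne_zero h0
    refine ⟨N, ?_, by rw [← Nat.succ_eq_add_one, ← hN]; exact h1⟩
    by_contra h
    exact Nat.find_min hex (m := N) (by omega) (not_le.1 h)
  obtain ⟨m, hm⟩ := exists_nat_ge (y / Real.log 2)
  have hm' : y ≤ m * Real.log 2 := (div_le_iff₀ hl2).1 hm
  -- gpsi as a finite sum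
  have hcond : ∀ (j e : ℕ), Real.exp (u j) ^ (e + 1) ≤ Real.exp y ↔ ((e : ℝ) + 1) * u j ≤ y := by
    intro j e
    rw [← Real.exp_nat_mul, Real.exp_le_exp]
    push_cast
    rfl
  have hg : gpsi (fun j => Real.exp (u j)) (Real.exp y) =
      ∑ j ∈ Finset.range (N + 1), ((∑ e ∈ Finset.range m, (if ((e : ℝ) + 1 + 1) * u j ≤ y then u j else 0)) +
        (if u j ≤ y then u j else 0)) := by
    unfold gpsi
    rw [tsum_eq_sum (s := Finset.range (N + 1) ×ˢ Finset.range (m + 1)), Finset.sum_product]
    · refine Finset.sum_congr rfl fun j _ => ?_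
      rw [Finset.sum_range_succ']
      simp only [hcond, Real.log_exp]
      push_cast
      simp
    · rintro ⟨j, e⟩ hje
      simp only [Finset.mem_product, Finset.mem_range, not_and_or, not_lt] at hje
      simp only [hcond, Real.log_exp]
      rw [if_neg]
      intro hle
      rcases hje with h | h
      · have h1 : η (N + 1) ≤ η j := hη.mono.monotone h
        have h2 : (0 : ℝ) ≤ (e : ℝ) * u j := mul_nonneg (Nat.cast_nonneg _) (hu0 j).le
        have h3 := hu j
        nlinarith
      · have h1 : (m : ℝ) + 1 ≤ e := by exact_mod_cast h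
        have h2 : Real.log 2 ≤ u j := (hη0 j).trans (hu j)
        have h3 : (m : ℝ) * Real.log 2 ≤ (e : ℝ) * u j :=
          mul_le_mul (by linarith) h2 hl2.le (Nat.cast_nonneg _)
        nlinarith [hu0 j]
  rw [hg, Finset.sum_add_distrib]
  -- the powers
  set B := ∑ j ∈ Finset.range (N + 1), ∑ e ∈ Finset.range m, (if ((e : ℝ) + 1 + 1) * u j ≤ y then u j else 0) with hB
  have hB0 : 0 ≤ B := by
    refine Finset.sum_nonneg fun j _ => Finset.sum_nonneg fun e _ => ?_
    split_ifs
    · exact (hu0 j).le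
    · exact le_rfl
  have hB1 : B ≤ y * (3 * Real.exp (y / 2) + 1) := by
    have h1 : B ≤ ∑ j ∈ Finset.range (N + 1), (if u j ≤ y / 2 then y else 0) := by
      refine Finset.sum_le_sum fun j _ => ?_
      split_ifs with h
      · exact (pow_sum (u j) y hy0.le m).2
      · refine (Finset.sum_eq_zero fun e _ => ?_).le
        rw [if_neg]
        intro hle
        have h2 : (0 : ℝ) ≤ (e : ℝ) * u j := mul_nonneg (Nat.cast_nonneg _) (hu0 j).le
        apply h
        nlinarith
    rw [← Finset.sum_filter, Finset.sum_const, nsmul_eq_mul] at h1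
    have h2 : (Finset.range (N + 1)).filter (fun j => u j ≤ y / 2) ⊆
        Finset.range (⌊3 * Real.exp (y / 2)⌋₊ + 1) := by
      intro j hj
      rw [Finset.mem_filter] at hj
      rw [Finset.mem_range, Nat.lt_succ_iff]
      refine Nat.le_floor ?_
      refine (hη.count j).trans ?_
      have : Real.exp (η j) ≤ Real.exp (y / 2) := Real.exp_le_exp.2 ((hu j).trans hj.2)
      linarith
    have h3 := Finset.card_le_card h2
    rw [Finset.card_range] at h3
    have h4 : ((((Finset.range (N + 1)).filter (fun j => u j ≤ y / 2)).card : ℕ) : ℝ) ≤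
        3 * Real.exp (y / 2) + 1 := by
      have h5 : ((((Finset.range (N + 1)).filter (fun j => u j ≤ y / 2)).card : ℕ) : ℝ) ≤
        ((⌊3 * Real.exp (y / 2)⌋₊ + 1 : ℕ) : ℝ) := by exact_mod_cast h3
      refine h5.trans ?_
      push_cast
      have := Nat.floor_le (show (0:ℝ) ≤ 3 * Real.exp (y / 2) by positivity)
      linarith
    refine h1.trans ?_
    rw [mul_comm]
    exact mul_le_mul_of_nonneg_left h4 hy0.le
  -- first powers
  have hA : ∑ j ∈ Finset.range (N + 1), (if u j ≤ y then u j else 0) =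
      ∑ j ∈ Finset.range N, u j + (if u N ≤ y then u N else 0) := by
    rw [Finset.sum_range_succ]
    congr 1
    refine Finset.sum_congr rfl fun j hj => ?_
    rw [if_pos]
    refine (hu' j).trans ((hη.mono.monotone ?_).trans hN1)
    have := Finset.mem_range.1 hj
    omega
  have hI : ∫ v in (Real.log 2)..y, v * Real.exp v * f v =
      (∑ j ∈ Finset.range N, ∫ v in (η j)..(η (j + 1)), v * Real.exp v * f v) +
        ∫ v in (η N)..y, v * Real.exp v * f v := by
    rw [intervalIntegral.sum_integral_adjacent_intervals (fun k _ => hiv hf _ _), hη.zero,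
      intervalIntegral.integral_add_adjacent_intervals (hiv hf _ _) (hiv hf _ _)]
  have hj : ∀ j, |u j - ∫ v in (η j)..(η (j + 1)), v * Real.exp v * f v| ≤ η (j + 1) - η j := by
    intro j
    have hle : η j ≤ η (j + 1) := (hη.mono (Nat.lt_succ_self j)).le
    have h1 : ∫ v in (η j)..(η (j + 1)), (u j) * (Real.exp v * f v) = u j := by
      rw [intervalIntegral.integral_const_mul, hη.mass j, mul_one]
    have h2 : u j - ∫ v in (η j)..(η (j + 1)), v * Real.exp v * f v =
        ∫ v in (η j)..(η (j + 1)), ((u j) * (Real.exp v * f v) - v * Real.exp v * f v) := by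
      rw [intervalIntegral.integral_sub ((hie hf _ _).const_mul _) (hiv hf _ _), h1]
    rw [h2]
    refine (intervalIntegral.abs_integral_le_integral_abs hle).trans ?_
    have h3 : ∫ v in (η j)..(η (j + 1)), (η (j + 1) - η j) * (Real.exp v * f v) = η (j + 1) - η j := by
      rw [intervalIntegral.integral_const_mul, hη.mass j, mul_one]
    rw [← h3]
    refine intervalIntegral.integral_mono_on hle
      (((hie hf _ _).const_mul _).sub (hiv hf _ _)).abs ((hie hf _ _).const_mul _) fun v hv => ?_
    have h4 : (u j) * (Real.exp v * f v) - v * Real.exp v * f v = (u j - v) * (Real.exp v * f v) := by ring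
    have h5 : 0 ≤ Real.exp v * f v := mul_nonneg (Real.exp_pos v).le (hf.nonneg v)
    rw [h4, abs_mul, abs_of_nonneg h5]
    refine mul_le_mul_of_nonneg_right ?_ h5
    rw [abs_le]
    constructor <;> linarith [hu j, hu' j, hv.1, hv.2]
  have hsum : |∑ j ∈ Finset.range N, u j - ∑ j ∈ Finset.range N, ∫ v in (η j)..(η (j + 1)), v * Real.exp v * f v| ≤ y := by
    rw [← Finset.sum_sub_distrib]
    refine (Finset.abs_sum_le_sum_abs _ _).trans ((Finset.sum_le_sum fun j _ => hj j).trans ?_)
    rw [Finset.sum_range_sub, hη.zero]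
    linarith
  have hlast0 : 0 ≤ ∫ v in (η N)..y, v * Real.exp v * f v := by
    refine intervalIntegral.integral_nonneg hN1 fun v hv => ?_
    have : 0 ≤ v := hl2.le.trans ((hη0 N).trans hv.1)
    exact mul_nonneg (mul_nonneg this (Real.exp_pos v).le) (hf.nonneg v)
  have hlast1 : ∫ v in (η N)..y, v * Real.exp v * f v ≤ y := by
    have h1 : ∫ v in (η N)..y, v * Real.exp v * f v ≤ ∫ v in (η N)..y, y * (Real.exp v * f v) := by
      refine intervalIntegral.integral_mono_on hN1 (hiv hf _ _) ((hie hf _ _).const_mul _) fun v hv => ?_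
      have h5 : 0 ≤ Real.exp v * f v := mul_nonneg (Real.exp_pos v).le (hf.nonneg v)
      rw [mul_assoc]
      exact mul_le_mul_of_nonneg_right hv.2 h5
    rw [intervalIntegral.integral_const_mul] at h1
    have h2 : ∫ v in (η N)..y, Real.exp v * f v ≤ 1 := by
      rw [← hη.mass N, ← intervalIntegral.integral_add_adjacent_intervals (hie hf (η N) y) (hie hf y (η (N + 1)))]
      have : 0 ≤ ∫ v in y..(η (N + 1)), Real.exp v * f v :=
        intervalIntegral.integral_nonneg hN2.le fun v _ => mul_nonneg (Real.exp_pos v).le (hf.nonneg v)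
      linarith
    nlinarith
  have hlast : |(if u N ≤ y then u N else 0) - ∫ v in (η N)..y, v * Real.exp v * f v| ≤ y := by
    rw [abs_le]
    split_ifs with h
    · constructor <;> linarith [hu0 N]
    · constructor <;> linarith
  have hexp : 1 ≤ Real.exp (y / 2) := Real.one_le_exp (by linarith)
  have hfin : B + ∑ j ∈ Finset.range (N + 1), (if u j ≤ y then u j else 0) -
      ∫ v in (Real.log 2)..y, v * Real.exp v * f v =
      B + (∑ j ∈ Finset.range N, u j - ∑ j ∈ Finset.range N, ∫ v in (η j)..(η (j + 1)), v * Real.exp v * f v) +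
      ((if u N ≤ y then u N else 0) - ∫ v in (η N)..y, v * Real.exp v * f v) := by
    rw [hA, hI]; ring
  rw [hfin]
  refine (abs_add_three _ _ _).trans ?_
  rw [abs_of_nonneg hB0]
  have : y * 1 ≤ y * Real.exp (y / 2) := mul_le_mul_of_nonneg_left hexp hy0.le
  nlinarith

end VQ
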