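import Pool.Agent.H15.VQ.OmB
import Pool.Agent.H15.VQ.PsiA
import Pool.Agent.H15.VQ.Zs
import Pool.Agent.H15.VQ.ParW

/-!
# ZwO : oscillation of the Chebyshev function

`dens_osc_gen` (in `OmB`) and
`psi_approx`, whose error `C y exp (y / 2)` is at most `1/2 exp (y - 2 log g)` for large `n`, because `y ≥ 5 log g * R / 4` and `R → ∞`
(`R_ge`).
-/

set_option autoImplicit false

open Complex MeasureTheory Set Filter Topology

namespace VQ

variable {P : ℕ → Blk} {η u : ℕ → ℝ} {ω : ℝ → ℝ}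

theorem Zt_osc (hP : Sparse P) (hc : ∀ n, ParW ω (P n)) (hη : IsPart (fP P) η) (hu : IsSel (fP P) η u) :
    ∃ n0 : ℕ, ∀ n, n0 ≤ n → ∀ c : ℝ, (c = 1 ∨ c = -1) → ∃ y : ℝ,
      5 * Real.log (P n).g * (P n).R / 4 ≤ y ∧ y ≤ 5 * Real.log (P n).g * (P n).R / 4 + 1 ∧
      1 / 2 * Real.exp (y - 2 * Real.log (P n).g) ≤
        c * (gpsi (fun j => Real.exp (u j)) (Real.exp y) - Real.exp y) := by
  have hf := fP_dens hP
  obtain ⟨C, hC, hpsi⟩ := psi_approx hf hη hu.ge hu.le
  obtain ⟨n0, hn0⟩ : ∃ n0 : ℕ, max 400 (64 * C) < n0 := exists_nat_gt _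
  refine ⟨n0, fun n hn c hc' => ?_⟩
  have hpw : (n : ℝ) ≤ 24 ^ n := by
    have h1 : n < 24 ^ n := Nat.lt_pow_self (by norm_num)
    exact_mod_cast h1.le
  have hnn : (n0 : ℝ) ≤ n := by exact_mod_cast hn
  have hRn : max 400 (64 * C) ≤ (P n).R := (hn0.le.trans hnn).trans (hpw.trans (R_ge hP n))
  have hR400 : 400 ≤ (P n).R := (le_max_left _ _).trans hRn
  have hRC : 64 * C ≤ (P n).R := (le_max_right _ _).trans hRn
  have hl := (hc n).big
  obtain ⟨y, hy1, hy2, hy3⟩ := dens_osc_gen hP n hl hc'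
  refine ⟨y, hy1, hy2, ?_⟩
  set l : ℝ := Real.log (P n).g with hld
  have hyR : (P n).R ≤ y := by
    have h1 : 100 * (P n).R ≤ l * (P n).R := mul_le_mul_of_nonneg_right hl (by linarith)
    linarith
  have hyl : 50 * l ≤ y := by
    have h1 : l * 400 ≤ l * (P n).R := mul_le_mul_of_nonneg_left hR400 (by linarith)
    linarith
  have hy0 : 0 < y := by linarith
  have hl2 : Real.log 2 ≤ 1 := by
    have := Real.log_two_lt_d9
    linarith
  have hl20 : 0 < Real.log 2 := Real.log_pos (by norm_num)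
  have hI : ∫ v in (Real.log 2)..y, v * Real.exp v * fP P v =
      ∫ v in (Real.log 2)..y, v * Real.exp v * dn P v := by
    refine intervalIntegral.integral_congr fun v hv => ?_
    rw [uIcc_of_le (by linarith)] at hv
    have hv0 : 0 < v := lt_of_lt_of_le hl20 hv.1
    simp [fP, hv0]
  have h1 := hpsi y (by linarith)
  rw [hI] at h1
  -- the error is small
  have h2 : C * y * Real.exp (y / 2) ≤ 1 / 2 * Real.exp (y - 2 * l) := by
    have e1 : (y / 4) ^ 2 / 2 ≤ Real.exp (y / 4) := by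
      have := Real.quadratic_le_exp_of_nonneg (show 0 ≤ y / 4 by positivity)
      linarith
    have e2 : 2 * (C * y) ≤ Real.exp (y / 4) := by
      refine le_trans ?_ e1
      nlinarith
    have e3 : Real.exp (y / 4) * Real.exp (y / 2) ≤ Real.exp (y - 2 * l) := by
      rw [← Real.exp_add]
      apply Real.exp_le_exp.2
      linarith
    have e4 : 2 * (C * y) * Real.exp (y / 2) ≤ Real.exp (y / 4) * Real.exp (y / 2) :=
      mul_le_mul_of_nonneg_right e2 (Real.exp_pos _).le
    linarith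
  generalize (∫ v in (Real.log 2)..y, v * Real.exp v * dn P v) = J at hy3 h1
  have h3 := abs_le.1 h1
  rcases hc' with rfl | rfl
  · linarith [h3.1]
  · linarith [h3.2]

end VQ
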