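import Pool.Agent.H15.VQ.LfE
import Pool.Agent.H15.VQ.ZwC

/-!
# LfF : the log-free density bound for the zeta function of the system
-/

set_option autoImplicit false

open Complex MeasureTheory Set Filter Topology

namespace VQ

variable {P : ℕ → Blk} {η u : ℕ → ℝ} {ω : ℝ → ℝ}

theorem Zt_dens (hm : MonotoneOn ω (Ici 3)) (hP : Sparse P) (hc : ∀ n, ParW ω (P n))
    (hη : IsPart (fP P) η) (hu : IsSel (fP P) η u) :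
    ∃ A : ℝ, 0 ≤ A ∧ ∀ σ T : ℝ, 1 / 2 < σ → σ ≤ 1 → 3 ≤ T → ∀ S : Finset ℂ,
      (∀ ρ ∈ S, ρ ≠ 1 ∧ σ ≤ ρ.re ∧ |ρ.im| ≤ T) →
      ∑ ρ ∈ S, (analyticOrderNatAt (Zt P η u) ρ : ℝ) ≤ A * Real.exp (ω T * (1 - σ)) := by
  obtain ⟨A, hA, h⟩ := FF_dens hm hP hc
  refine ⟨A, hA, fun σ T h1 h2 hT S hS => ?_⟩
  have e : ∑ ρ ∈ S, (analyticOrderNatAt (Zt P η u) ρ : ℝ) = ∑ ρ ∈ S, (analyticOrderNatAt (FF P) ρ : ℝ) := by
    refine Finset.sum_congr rfl fun ρ hρ => ?_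
    obtain ⟨g1, g2, -⟩ := hS ρ hρ
    rw [Zt_order hP hη hu (by linarith) g1]
  rw [e]
  exact h σ T h1 h2 hT S fun ρ hρ => (hS ρ hρ).2

end VQ
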