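import Pool.Agent.H15.VQ.Defs
import Pool.Agent.H71.Lan.Pole

/-!
# Zeta : the zeta function of a system of generalized primes
-/

set_option autoImplicit false

open Complex MeasureTheory Set Filter Topology

namespace VQ

/-- `p` is a nondecreasing unbounded sequence of generalized primes `> 1`, `Z` is its zeta function, continued to `re s > 1 / 2`
with only a simple pole at `1`, of residue `κ > 0` -/
structure IsZeta (p : ℕ → ℝ) (κ : ℝ) (Z : ℂ → ℂ) : Prop where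
  one_lt : 1 < p 0
  mono : Monotone p
  tendsto : Tendsto p atTop atTop
  pos : 0 < κ
  euler : ∀ s : ℂ, 1 < s.re → HasProd (fun j => (1 - (p j : ℂ) ^ (-s))⁻¹) (Z s)
  diff : DifferentiableOn ℂ Z {s : ℂ | 1 / 2 < s.re ∧ s ≠ 1}
  residue : Tendsto (fun s => (s - 1) * Z s) (𝓝[≠] 1) (𝓝 (κ : ℂ))

/-- `‖Z (σ + i t)‖ ≤ exp (ω |t| a + A (log |t|)^a log (2 + log log |t|))` with `a = max 0 (1 - σ)`, for `θ ≤ σ ≤ 2`, `|t| ≥ 3` -/
def Grows (ω : ℝ → ℝ) (Z : ℂ → ℂ) : Prop :=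
  ∀ θ : ℝ, 1 / 2 < θ → ∃ A : ℝ, 0 ≤ A ∧ ∀ s : ℂ, θ ≤ s.re → s.re ≤ 2 → 3 ≤ |s.im| →
    ‖Z s‖ ≤ Real.exp (ω |s.im| * max 0 (1 - s.re) +
      A * Real.log |s.im| ^ max 0 (1 - s.re) * Real.log (2 + Real.log (Real.log |s.im|)))

/-- Richert's bound with the constant `B`, for `θ ≤ re s ≤ 2` and every `θ > 1 / 2` -/
def Richert (B : ℝ) (Z : ℂ → ℂ) : Prop :=
  ∀ θ : ℝ, 1 / 2 < θ → ∃ A : ℝ, ∀ s : ℂ, θ ≤ s.re → s.re ≤ 2 → 3 ≤ |s.im| →
    ‖Z s‖ ≤ A * |s.im| ^ (B * max 0 (1 - s.re) ^ (3 / 2 : ℝ)) * Real.log |s.im| ^ (2 / 3 : ℝ)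

/-- the Vinogradov-Korobov scale -/
noncomputable def V (t : ℝ) : ℝ := Real.log t ^ (2 / 3 : ℝ) * Real.log (Real.log t) ^ (1 / 3 : ℝ)

variable {p : ℕ → ℝ} {κ : ℝ} {Z : ℂ → ℂ}

theorem IsZeta.one_lt' (h : IsZeta p κ Z) (j : ℕ) : 1 < p j :=
  lt_of_lt_of_le h.one_lt (h.mono (Nat.zero_le j))

theorem cpow_neg_eq {p : ℝ} (hp : 0 < p) (s : ℂ) : (p : ℂ) ^ (-s) = Complex.exp (-(s * Real.log p)) := by
  have h0 : (p : ℂ) ≠ 0 := by exact_mod_cast hp.ne'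
  rw [Complex.cpow_def_of_ne_zero h0, ← Complex.ofReal_log hp.le]
  congr 1
  ring

theorem IsZeta.bz (h : IsZeta p κ Z) : Pool.Agent.H71.Lan.BZ Z (fun j => Real.log (p j)) κ where
  pos j := Real.log_pos (h.one_lt' j)
  prod s hs := by
    have h1 := h.euler s hs
    have h2 : (fun j => (1 - (p j : ℂ) ^ (-s))⁻¹) =
        fun j => (1 - Complex.exp (-(s * Real.log (p j))))⁻¹ := by
      funext j
      rw [cpow_neg_eq (by linarith [h.one_lt' j])]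
    rw [h2] at h1
    exact h1
  diff := h.diff
  res := h.residue
  kne := h.pos.ne'

end VQ
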