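import Pool.Agent.H15.VQ.Fprod
import Pool.Agent.H15.VQ.FacL
import Pool.Agent.H15.VQ.ParW

/-!
# ZwE : the zero-free region of the system

A zero of `FF` is a zero of some `H n`, that is of some `Ph k z`, `z = s - 1 ∓ i k g + lam k²`. `Ph k z ≠ 0` for `re z > 0` (`Ph_log`, an
exponential), so `re s ≤ 1 - lam k² ≤ 1 - lam = 1 - 8 / (5 ω (g / 2))`, and `|s.im| > g / 2` by `H_far` (`‖H n s - 1‖ < 1` otherwise), so
`ω (g / 2) ≤ ω |s.im|` by monotonicity.
-/

set_option autoImplicit false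

open Complex MeasureTheory Set Filter Topology

namespace VQ

variable {P : ℕ → Blk} {ω : ℝ → ℝ}

private theorem z_one_le_K (B : Blk) : (1 : ℝ) ≤ B.K := by
  have h1 := B.hK
  have h2 := B.hbR
  nlinarith

private theorem z_one_le_exp (B : Blk) : (1 : ℝ) ≤ Real.exp (2 * B.R) := by
  have h1 := B.hR
  exact Real.one_le_exp (by linarith)

private theorem z_g_pos (hP : Sparse P) (n : ℕ) : 0 < (P n).g :=
  lt_of_lt_of_le (by positivity) (g_ge hP n)

private theorem z_err_le (hP : Sparse P) (n : ℕ) :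
    64 * ((P n).K : ℝ) * Real.exp (2 * (P n).R) / (P n).g ≤ 1 / 16 * (1 / 2) ^ n := by
  rw [div_le_iff₀ (z_g_pos hP n)]
  have h1 := hP.g0 n
  have h2 : (1 / 2 : ℝ) ^ n * 2 ^ n = 1 := by
    rw [← mul_pow]; norm_num
  have h3 : (0 : ℝ) < (1 / 2) ^ n := by positivity
  have h4 := mul_le_mul_of_nonneg_left h1 h3.le
  have h5 : (1 / 2 : ℝ) ^ n * (1024 * ((P n).K : ℝ) * Real.exp (2 * (P n).R) * 2 ^ n) =
      1024 * ((P n).K : ℝ) * Real.exp (2 * (P n).R) := by
    linear_combination (1024 * ((P n).K : ℝ) * Real.exp (2 * (P n).R)) * h2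
  rw [h5] at h4
  linarith

private theorem z_far_le (hP : Sparse P) (n : ℕ) {s : ℂ} (hs : 0 ≤ s.re)
    (ht : |s.im| ≤ (P n).g / 2) : ‖(P n).H s - 1‖ ≤ 1 / 16 * (1 / 2) ^ n :=
  ((P n).H_far hs (Or.inl ht)).trans (z_err_le hP n)

private theorem z_summable (hP : Sparse P) {s : ℂ} (hs : 0 ≤ s.re) :
    Summable fun n => ‖(P n).H s - 1‖ := by
  have hu : Summable fun n : ℕ => (1 / 16 : ℝ) * (1 / 2) ^ n :=
    (summable_geometric_of_lt_one (by norm_num) (by norm_num)).mul_left _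
  refine Summable.of_norm_bounded_eventually_nat hu ?_
  have h1 : Tendsto (fun n : ℕ => (2 : ℝ) ^ n) atTop atTop := tendsto_pow_atTop_atTop_of_one_lt one_lt_two
  filter_upwards [h1.eventually_ge_atTop |s.im|] with n hn
  rw [norm_norm]
  refine z_far_le hP n hs (hn.trans ?_)
  have h2 := g_ge hP n
  have h3 : (0 : ℝ) < 2 ^ n := by positivity
  linarith

theorem FF_zero_region (hm : MonotoneOn ω (Ici 3)) (hP : Sparse P) (hc : ∀ n, ParW ω (P n)) {s : ℂ}
    (hs : 0 < s.re) (h : FF P s = 0) :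
    3 ≤ |s.im| ∧ 0 < ω |s.im| ∧ s.re ≤ 1 - 8 / (5 * ω |s.im|) := by
  -- some factor vanishes
  obtain ⟨n, hn⟩ : ∃ n, (P n).H s = 0 := by
    by_contra hcon
    push Not at hcon
    have h1 : ∏' n, (1 + ((P n).H s - 1)) ≠ 0 := by
      refine tprod_one_add_ne_zero_of_summable (fun n => ?_) (z_summable hP hs.le)
      rw [add_sub_cancel]
      exact hcon n
    apply h1
    rw [← h]
    unfold FF
    exact tprod_congr fun n => by ring
  have hB := hc n
  have hgp := z_g_pos hP n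
  have hg := g_ge hP n
  have h2n : (1 : ℝ) ≤ 2 ^ n := one_le_pow₀ (by norm_num)
  have hR := hB.R64
  -- the imaginary part
  have him : (P n).g / 2 < |s.im| := by
    by_contra hcon
    have h1 := z_far_le hP n hs.le (not_lt.1 hcon)
    rw [hn, zero_sub, norm_neg, norm_one] at h1
    have h2 : (1 / 2 : ℝ) ^ n ≤ 1 := pow_le_one₀ (by norm_num) (by norm_num)
    linarith
  have hg2 : 3 ≤ (P n).g / 2 := by linarith
  have hω1 : ω ((P n).g / 2) = 2 * (P n).R := by
    have := hB.R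
    linarith
  have hω2 : ω ((P n).g / 2) ≤ ω |s.im| := hm hg2 (le_trans hg2 him.le) him.le
  have hω0 : 0 < ω |s.im| := by linarith
  refine ⟨le_trans hg2 him.le, hω0, ?_⟩
  -- the real part
  have hl : 0 < (P n).lam := by
    unfold Blk.lam
    have : 0 < (P n).R := by linarith
    positivity
  have hre : s.re ≤ 1 - (P n).lam := by
    unfold Blk.H at hn
    obtain ⟨k, hk, hk0⟩ := Finset.prod_eq_zero_iff.1 hn
    rw [Finset.mem_Icc] at hk
    have hk1 : (1 : ℝ) ≤ (k : ℝ) := by exact_mod_cast hk.1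
    have hk2 : (P n).lam ≤ (P n).lam * (k : ℝ) ^ 2 := by
      have : (1 : ℝ) ≤ (k : ℝ) ^ 2 := one_le_pow₀ hk1
      nlinarith
    have key : ∀ z : ℂ, z.re = s.re - 1 + (P n).lam * (k : ℝ) ^ 2 → (P n).Ph k z = 0 →
        s.re ≤ 1 - (P n).lam := by
      intro z hz hz0
      by_contra hcon
      have hzp : 0 < z.re := by
        rw [hz]
        linarith
      have h1 := ((P n).Ph_log k hzp).2
      rw [hz0] at h1
      exact Complex.exp_ne_zero _ h1.symm
    have hre2 : ((P n).lam * (k : ℂ) ^ 2 : ℂ).re = (P n).lam * (k : ℝ) ^ 2 := by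
      have : ((P n).lam * (k : ℂ) ^ 2 : ℂ) = (((P n).lam * (k : ℝ) ^ 2 : ℝ) : ℂ) := by push_cast; rfl
      rw [this, Complex.ofReal_re]
    have hre3 : (Complex.I * (k * (P n).g) : ℂ).re = 0 := by
      have : (Complex.I * (k * (P n).g) : ℂ) = Complex.I * (((k : ℝ) * (P n).g : ℝ) : ℂ) := by push_cast; rfl
      rw [this]
      simp
    rcases mul_eq_zero.1 hk0 with h1 | h1
    · exact key _ (by rw [Complex.add_re, Complex.sub_re, Complex.sub_re, hre2, hre3, Complex.one_re, sub_zero]) h1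
    · exact key _ (by rw [Complex.add_re, Complex.add_re, Complex.sub_re, hre2, hre3, Complex.one_re, add_zero]) h1
  have h4 : 8 / (5 * ω |s.im|) ≤ (P n).lam := by
    unfold Blk.lam
    rw [div_le_div_iff₀ (by linarith) (by linarith)]
    linarith
  linarith

end VQ
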