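import Pool.Agent.H15.VQ.NrmD
import Pool.Agent.H15.VQ.ZwE
import Pool.Agent.H15.VQ.LfF
import Pool.Agent.H15.VQ.Zeta

/-!
# FinA : the theorem for a general growth function, and at the Vinogradov-Korobov scale
-/

set_option autoImplicit false

open Complex MeasureTheory Set Filter Topology

namespace VQ

variable {P : ℕ → Blk} {η u : ℕ → ℝ} {ω : ℝ → ℝ}

/-- the number of zeros, counted with multiplicity, with real part at least `σ` and ordinate at most `T` in absolute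
value is `O(exp (ω T (1 - σ)))`, uniformly for `1 / 2 < σ ≤ 1` and `T ≥ 3` -/
def LogFree (ω : ℝ → ℝ) (Z : ℂ → ℂ) : Prop :=
  ∃ A : ℝ, ∀ σ T : ℝ, 1 / 2 < σ → σ ≤ 1 → 3 ≤ T → ∀ S : Finset ℂ,
    (∀ ρ ∈ S, Z ρ = 0 ∧ ρ ≠ 1 ∧ σ ≤ ρ.re ∧ |ρ.im| ≤ T) →
    ∑ ρ ∈ S, (analyticOrderNatAt Z ρ : ℝ) ≤ A * Real.exp (ω T * (1 - σ))

/-- the zero-free region `1 - σ < 8 / (5 ω |t|)` -/
def Region (ω : ℝ → ℝ) (Z : ℂ → ℂ) : Prop :=
  ∀ ρ : ℂ, 1 / 2 < ρ.re → ρ ≠ 1 → Z ρ = 0 →
    3 ≤ |ρ.im| ∧ 0 < ω |ρ.im| ∧ 8 / (5 * ω |ρ.im|) ≤ 1 - ρ.re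

/-- infinitely many zeros `β + i γ` with `1 - β = 8 / (5 ω (γ / 2))`, each of them causing an oscillation of both signs of size
`x / (4 γ²)` of the Chebyshev function at `log x = log γ / (1 - β) + O(1)` -/
def Extremal (ω : ℝ → ℝ) (p : ℕ → ℝ) (Z : ℂ → ℂ) : Prop :=
  ∀ X : ℝ, ∃ β γ : ℝ, X ≤ γ ∧ 1 / 2 < β ∧ β < 1 ∧ 1 - β = 8 / (5 * ω (γ / 2)) ∧ Z (β + γ * I) = 0 ∧
    ∀ c : ℝ, (c = 1 ∨ c = -1) → ∃ x : ℝ, X ≤ x ∧ Real.log γ / (1 - β) ≤ Real.log x ∧
      Real.log x ≤ Real.log γ / (1 - β) + 1 ∧ x / (4 * γ ^ 2) ≤ c * (gpsi p x - x)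

theorem Dat.grows (h : Dat ω P η u) (hm : MonotoneOn ω (Ici 3)) : Grows ω (Zt P η u) := by
  intro θ hθ
  exact Zt_growth hm h.sparse h.par h.part h.sel hθ

theorem Dat.logFree (h : Dat ω P η u) (hm : MonotoneOn ω (Ici 3)) : LogFree ω (Zt P η u) := by
  obtain ⟨A, hA0, hA⟩ := Zt_dens hm h.sparse h.par h.part h.sel
  exact ⟨A, fun σ T h1 h2 hT S hS => hA σ T h1 h2 hT S fun ρ hρ => (hS ρ hρ).2⟩

theorem Dat.region (h : Dat ω P η u) (hm : MonotoneOn ω (Ici 3)) : Region ω (Zt P η u) := by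
  intro ρ h1 h2 h3
  have h0 : ρ ≠ 0 := by
    intro h4
    rw [h4] at h1
    simp at h1
    linarith
  obtain ⟨g1, g2, g3⟩ := FF_zero_region hm h.sparse h.par (by linarith) (Zt_zero_FF h0 h2 h3)
  exact ⟨g1, g2, by linarith⟩

theorem Dat.tendsto_g (h : Dat ω P η u) : Tendsto (fun n => (P n).g) atTop atTop := by
  have h1 : Tendsto (fun n : ℕ => 1024 * (2 : ℝ) ^ n) atTop atTop :=
    (tendsto_pow_atTop_atTop_of_one_lt (by norm_num)).const_mul_atTop (by norm_num)
  exact tendsto_atTop_mono (g_ge h.sparse) h1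

theorem Dat.tendsto_R (h : Dat ω P η u) : Tendsto (fun n => (P n).R) atTop atTop :=
  tendsto_atTop_mono (R_ge h.sparse) (tendsto_pow_atTop_atTop_of_one_lt (by norm_num))

/-- zeros and oscillation, for every large block -/
theorem Dat.zeros (h : Dat ω P η u) (X : ℝ) :
    ∃ γ : ℝ, X ≤ γ ∧ 32 < ω (γ / 2) ∧ Zt P η u ((1 - 8 / (5 * ω (γ / 2)) : ℝ) + γ * I) = 0 ∧
      ∀ c : ℝ, (c = 1 ∨ c = -1) → ∃ x : ℝ, X ≤ x ∧ 5 * ω (γ / 2) * Real.log γ / 8 ≤ Real.log x ∧
        Real.log x ≤ 5 * ω (γ / 2) * Real.log γ / 8 + 1 ∧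
        x / (2 * γ ^ 2) ≤ c * (gpsi (fun j => Real.exp (u j)) x - x) := by
  obtain ⟨n0, hn0⟩ := Zt_osc h.sparse h.par h.part h.sel
  obtain ⟨n, hn⟩ := ((h.tendsto_g.eventually_ge_atTop X).and ((h.tendsto_g.eventually_ge_atTop 1).and
    ((h.tendsto_R.eventually_ge_atTop (max X 100)).and (eventually_ge_atTop n0)))).exists
  obtain ⟨h1, h2, h3, h4⟩ := hn
  have hp := h.par n
  have hR : (P n).R = ω ((P n).g / 2) / 2 := hp.R
  have hRX : X ≤ (P n).R := (le_max_left _ _).trans h3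
  have hR100 : 100 ≤ (P n).R := (le_max_right _ _).trans h3
  refine ⟨(P n).g, h1, by linarith, ?_, fun c hc => ?_⟩
  · have hz := Zt_zero (η := η) (u := u) h.sparse n (by linarith)
    have e : ((1 - 8 / (5 * ω ((P n).g / 2)) : ℝ) : ℂ) + (P n).g * I = 1 - (P n).lam + I * (P n).g := by
      have e1 : (P n).lam = 8 / (5 * ω ((P n).g / 2)) := by
        unfold Blk.lam
        rw [hR]
        have : ω ((P n).g / 2) ≠ 0 := by
          intro h0
          rw [h0] at hR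
          linarith
        field_simp
        norm_num
      rw [← e1]
      push_cast
      ring
    rw [e]
    exact hz
  · obtain ⟨y, hy1, hy2, hy3⟩ := hn0 n h4 c hc
    have hl : 100 ≤ Real.log (P n).g := hp.big
    have e2 : 5 * ω ((P n).g / 2) * Real.log (P n).g / 8 = 5 * Real.log (P n).g * (P n).R / 4 := by
      rw [hR]; ring
    refine ⟨Real.exp y, ?_, ?_, ?_, ?_⟩
    · have h5 := Real.add_one_le_exp y
      have h6 : (P n).R ≤ 5 * Real.log (P n).g * (P n).R / 4 := by nlinarith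
      linarith
    · rw [Real.log_exp, e2]; exact hy1
    · rw [Real.log_exp, e2]; exact hy2
    · refine le_trans (le_of_eq ?_) hy3
      have hg : 0 < (P n).g := by linarith
      have e3 : Real.exp (y - 2 * Real.log (P n).g) = Real.exp y / (P n).g ^ 2 := by
        rw [Real.exp_sub]
        congr 1
        rw [show (2 : ℝ) * Real.log (P n).g = Real.log ((P n).g ^ 2) by rw [Real.log_pow]; norm_num]
        exact Real.exp_log (by positivity)
      rw [e3]
      field_simp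

theorem Grows.mul {Z F : ℂ → ℂ} (h : Grows ω Z) {A0 : ℝ} (hF : ∀ s : ℂ, 1 / 2 < s.re → ‖F s‖ ≤ A0) :
    Grows ω (fun s => F s * Z s) := by
  intro θ hθ
  obtain ⟨A, hA0, hA⟩ := h θ hθ
  refine ⟨A + 2 * |A0|, by positivity, fun s h1 h2 h3 => ?_⟩
  have hZ := hA s h1 h2 h3
  have hF1 := hF s (by linarith)
  have ha : 0 ≤ max 0 (1 - s.re) := le_max_left _ _
  generalize max 0 (1 - s.re) = a at hZ ha ⊢
  generalize |s.im| = t at hZ h3 ⊢
  have hl3 : 1 < Real.log t := by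
    rw [Real.lt_log_iff_exp_lt (by linarith)]
    have := Real.exp_one_lt_d9
    linarith
  have hL : 0 < Real.log (Real.log t) := Real.log_pos hl3
  have hq1 : 1 ≤ Real.log t ^ a := Real.one_le_rpow hl3.le ha
  have hq2 : 1 / 2 ≤ Real.log (2 + Real.log (Real.log t)) := by
    have h4 : Real.log 2 ≤ Real.log (2 + Real.log (Real.log t)) := Real.log_le_log (by norm_num) (by linarith)
    have := Real.log_two_gt_d9
    linarith
  have hq3 : 1 / 2 ≤ Real.log t ^ a * Real.log (2 + Real.log (Real.log t)) := by nlinarith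
  have hq4 : |A0| ≤ 2 * |A0| * (Real.log t ^ a * Real.log (2 + Real.log (Real.log t))) := by
    have := mul_le_mul_of_nonneg_left hq3 (abs_nonneg A0)
    linarith
  have hA1 : ‖F s‖ ≤ Real.exp |A0| := by
    have h5 := Real.add_one_le_exp |A0|
    have h6 := le_abs_self A0
    linarith
  rw [norm_mul]
  calc ‖F s‖ * ‖Z s‖ ≤ Real.exp |A0| * Real.exp (ω t * a +
      A * Real.log t ^ a * Real.log (2 + Real.log (Real.log t))) :=
        mul_le_mul hA1 hZ (norm_nonneg _) (Real.exp_pos _).le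
    _ ≤ _ := by
      rw [← Real.exp_add]
      refine Real.exp_le_exp.2 ?_
      have e2 : (A + 2 * |A0|) * Real.log t ^ a * Real.log (2 + Real.log (Real.log t)) =
          A * Real.log t ^ a * Real.log (2 + Real.log (Real.log t)) +
          2 * |A0| * (Real.log t ^ a * Real.log (2 + Real.log (Real.log t))) := by ring
      rw [e2]
      linarith

/-- the theorem for a general growth function -/
theorem partA {ω : ℝ → ℝ} (hm : MonotoneOn ω (Ici 3)) (ht : Tendsto ω atTop atTop)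
    (ho : Tendsto (fun t => ω t / Real.log t) atTop (𝓝 0)) :
    ∃ (p : ℕ → ℝ) (Z : ℂ → ℂ), IsSystem p 1 Z ∧ Grows ω Z ∧ LogFree ω Z ∧ Region ω Z ∧ Extremal ω p Z := by
  obtain ⟨P, η, u, h⟩ := exists_dat ht ho
  obtain ⟨κ, hκ⟩ := h.system hm ho
  obtain ⟨p', F, hS, hF1, hF2, ⟨A0, hF3⟩, hF4, C, hC⟩ := hκ.normalize
  refine ⟨p', _, hS, (h.grows hm).mul hF3, ?_, ?_, ?_⟩
  · obtain ⟨A, hA⟩ := h.logFree hm
    refine ⟨A, fun σ T hσ hσ1 hT S hS' => ?_⟩
    have h1 : ∀ ρ ∈ S, Zt P η u ρ = 0 ∧ ρ ≠ 1 ∧ σ ≤ ρ.re ∧ |ρ.im| ≤ T := by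
      intro ρ hρ
      obtain ⟨g1, g2, g3, g4⟩ := hS' ρ hρ
      rcases mul_eq_zero.1 g1 with g5 | g5
      · exact absurd g5 (hF2 ρ (by linarith))
      · exact ⟨g5, g2, g3, g4⟩
    refine le_trans (le_of_eq ?_) (hA σ T hσ hσ1 hT S h1)
    refine Finset.sum_congr rfl fun ρ hρ => ?_
    obtain ⟨g1, g2, g3, g4⟩ := h1 ρ hρ
    rw [hF4 ρ (by linarith) g2]
  · intro ρ h1 h2 h3
    rcases mul_eq_zero.1 h3 with g5 | g5
    · exact absurd g5 (hF2 ρ h1)
    · exact h.region hm ρ h1 h2 g5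
  · intro X
    obtain ⟨γ, h1, h2, h3, h4⟩ := h.zeros (max X (max 100 (4 * |C| + 4)))
    have hγX : X ≤ γ := (le_max_left _ _).trans h1
    have hγ1 : 100 ≤ γ := (le_max_left _ _).trans ((le_max_right _ _).trans h1)
    have hγC : 4 * |C| + 4 ≤ γ := (le_max_right _ _).trans ((le_max_right _ _).trans h1)
    have h5 : 8 / (5 * ω (γ / 2)) < 1 / 2 := by
      rw [div_lt_iff₀ (by linarith)]
      linarith
    have h6 : 0 < 8 / (5 * ω (γ / 2)) := div_pos (by norm_num) (by linarith)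
    have h7 : 1 - (1 - 8 / (5 * ω (γ / 2))) = 8 / (5 * ω (γ / 2)) := by ring
    refine ⟨1 - 8 / (5 * ω (γ / 2)), γ, hγX, by linarith, by linarith, h7, ?_, fun c hc => ?_⟩
    · show F _ * Zt P η u _ = 0
      rw [h3, mul_zero]
    · obtain ⟨x, g1, g2, g3, g4⟩ := h4 c hc
      have h8 : Real.log γ / (1 - (1 - 8 / (5 * ω (γ / 2)))) = 5 * ω (γ / 2) * Real.log γ / 8 := by
        rw [h7]
        field_simp
      rw [h8]
      have hx100 : 100 ≤ x := (le_max_left _ _).trans ((le_max_right _ _).trans g1)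
      refine ⟨x, (le_max_left _ _).trans g1, g2, g3, ?_⟩
      have hx1 : 1 ≤ x := by linarith
      have hc1 := hC x hx1
      have hlg : 0 < Real.log γ := Real.log_pos (by linarith)
      have hlx : 0 < Real.log x := Real.log_pos (by linarith)
      have hbig : 20 * Real.log γ ≤ Real.log x := by nlinarith
      -- `γ ^ 10 ≤ sqrt x`
      have hsq : C * Real.log x ≤ x / (4 * γ ^ 2) := by
        have k1 : Real.log x ≤ 2 * Real.sqrt x := by
          have := Real.add_one_le_exp (Real.log x / 2)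
          have e : Real.exp (Real.log x / 2) = Real.sqrt x := by
            rw [Real.sqrt_eq_rpow, Real.rpow_def_of_pos (by linarith)]
            ring_nf
          rw [e] at this
          linarith
        have k2 : γ ^ 10 ≤ Real.sqrt x := by
          have e : Real.exp (Real.log x / 2) = Real.sqrt x := by
            rw [Real.sqrt_eq_rpow, Real.rpow_def_of_pos (by linarith)]
            ring_nf
          rw [← e]
          have e2 : γ ^ 10 = Real.exp (10 * Real.log γ) := by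
            rw [show (10 : ℝ) * Real.log γ = Real.log (γ ^ 10) by rw [Real.log_pow]; norm_num]
            exact (Real.exp_log (by positivity)).symm
          rw [e2]
          exact Real.exp_le_exp.2 (by linarith)
        have k3 : Real.sqrt x * Real.sqrt x = x := Real.mul_self_sqrt (by linarith)
        have k4 : 0 < Real.sqrt x := Real.sqrt_pos.2 (by linarith)
        have hγ0 : 0 < γ := by linarith
        rw [le_div_iff₀ (by positivity)]
        have k5 : C * Real.log x ≤ |C| * (2 * Real.sqrt x) := by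
          have := le_abs_self C
          calc C * Real.log x ≤ |C| * Real.log x := mul_le_mul_of_nonneg_right this hlx.le
            _ ≤ |C| * (2 * Real.sqrt x) := mul_le_mul_of_nonneg_left k1 (abs_nonneg C)
        have k6 : 8 * |C| * γ ^ 2 ≤ γ ^ 10 := by
          have m1 : 8 * |C| ≤ γ ^ 8 := by
            have m2 : γ * 100 ^ 7 ≤ γ * γ ^ 7 := by gcongr
            have m3 : γ * γ ^ 7 = γ ^ 8 := by ring
            have := abs_nonneg C
            linarith
          calc 8 * |C| * γ ^ 2 ≤ γ ^ 8 * γ ^ 2 := mul_le_mul_of_nonneg_right m1 (by positivity)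
            _ = γ ^ 10 := by ring
        calc C * Real.log x * (4 * γ ^ 2) ≤ |C| * (2 * Real.sqrt x) * (4 * γ ^ 2) :=
              mul_le_mul_of_nonneg_right k5 (by positivity)
          _ = (8 * |C| * γ ^ 2) * Real.sqrt x := by ring
          _ ≤ Real.sqrt x * Real.sqrt x := mul_le_mul_of_nonneg_right (k6.trans k2) k4.le
          _ = x := k3
      have e9 : x / (2 * γ ^ 2) = x / (4 * γ ^ 2) + x / (4 * γ ^ 2) := by
        have : γ ≠ 0 := by linarith
        field_simp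
        ring
      rw [e9] at g4
      have h10 := abs_le.1 hc1
      rcases hc with rfl | rfl
      · linarith [h10.1]
      · linarith [h10.2]

/-- the theorem at the Vinogradov-Korobov scale -/
theorem partB {B : ℝ} (hB : 0 < B) :
    ∃ (p : ℕ → ℝ) (Z : ℂ → ℂ), IsSystem p 1 Z ∧
      Richert B Z ∧ LogFree (wV B) Z ∧
      (∀ ρ : ℂ, 1 / 2 < ρ.re → ρ ≠ 1 → Z ρ = 0 → 3 ≤ |ρ.im| ∧
        99 / 100 * B ^ (-(2 / 3) : ℝ) /
          (Real.log |ρ.im| ^ (2 / 3 : ℝ) * Real.log (Real.log |ρ.im|) ^ (1 / 3 : ℝ)) ≤ 1 - ρ.re) ∧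
      (∀ X : ℝ, ∃ β γ : ℝ, X ≤ γ ∧ 1 / 2 < β ∧ β < 1 ∧ Z (β + γ * I) = 0 ∧
        1 - β ≤ B ^ (-(2 / 3) : ℝ) /
          (Real.log γ ^ (2 / 3 : ℝ) * Real.log (Real.log γ) ^ (1 / 3 : ℝ))) ∧
      (∀ X c : ℝ, (c = 1 ∨ c = -1) → ∃ x : ℝ, X ≤ x ∧
        x * Real.exp (-(12 / 5 * B ^ (-(2 / 5) : ℝ) *
          (Real.log x ^ (3 / 5 : ℝ) / Real.log (Real.log x) ^ (1 / 5 : ℝ)))) ≤ c * (gpsi p x - x)) := by
  obtain ⟨p, Z, hS, hG, hD, hR, hE⟩ := partA (wV_mono hB) (wV_tendsto hB) (wV_small B)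
  refine ⟨p, Z, hS, ?_, hD, ?_, ?_, ?_⟩
  · intro θ hθ
    obtain ⟨A, hA0, hA⟩ := hG θ hθ
    obtain ⟨A', hA'⟩ := wV_small_part hB hA0 (a0 := max 0 (1 - θ)) (max_lt (by norm_num) (by linarith))
    refine ⟨Real.exp A', fun s h1 h2 h3 => (hA s h1 h2 h3).trans ?_⟩
    have ha : 0 ≤ max 0 (1 - s.re) := le_max_left _ _
    have ha' : max 0 (1 - s.re) ≤ max 0 (1 - θ) := max_le_max le_rfl (by linarith)
    generalize max 0 (1 - s.re) = a at ha ha' ⊢
    generalize |s.im| = t at h3 ⊢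
    have hy := wV_young hB h3 ha
    have hs := hA' t h3 a ha ha'
    have ht0 : 0 < t := by linarith
    have hl3 : 1 < Real.log t := by
      rw [Real.lt_log_iff_exp_lt ht0]
      have := Real.exp_one_lt_d9
      linarith
    have hL : 0 < Real.log (Real.log t) := Real.log_pos hl3
    have e1 : t ^ (B * a ^ (3 / 2 : ℝ)) = Real.exp (Real.log t * (B * a ^ (3 / 2 : ℝ))) :=
      Real.rpow_def_of_pos ht0 _
    have e2 : Real.log t ^ (2 / 3 : ℝ) = Real.exp (Real.log (Real.log t) * (2 / 3)) :=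
      Real.rpow_def_of_pos (by linarith) _
    rw [e1, e2, ← Real.exp_add, ← Real.exp_add]
    refine Real.exp_le_exp.2 ?_
    linarith
  · intro ρ h1 h2 h3
    obtain ⟨g1, g2, g3⟩ := hR ρ h1 h2 h3
    refine ⟨g1, le_trans ?_ g3⟩
    have hl3 : 1 < Real.log |ρ.im| := by
      rw [Real.lt_log_iff_exp_lt (by linarith)]
      have := Real.exp_one_lt_d9
      linarith
    have hL : 0 < Real.log (Real.log |ρ.im|) := Real.log_pos hl3
    have hBp := Real.rpow_pos_of_pos hB (2 / 3)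
    have r1 := Real.rpow_pos_of_pos (show (0 : ℝ) < Real.log |ρ.im| by linarith) (2 / 3)
    have r2 := Real.rpow_pos_of_pos hL (1 / 3)
    unfold wV
    rw [Real.rpow_neg hB.le, div_le_div_iff₀ (by positivity) (by positivity)]
    have e5 : B ^ (2 / 3 : ℝ) * (B ^ (2 / 3 : ℝ))⁻¹ = 1 := mul_inv_cancel₀ hBp.ne'
    have e6 : 99 / 100 * (B ^ (2 / 3 : ℝ))⁻¹ * (5 * (321 / 200 * B ^ (2 / 3 : ℝ) *
        Real.log (Real.log |ρ.im|) ^ (1 / 3 : ℝ) * Real.log |ρ.im| ^ (2 / 3 : ℝ))) =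
        (99 / 100 * 5 * (321 / 200)) * (B ^ (2 / 3 : ℝ) * (B ^ (2 / 3 : ℝ))⁻¹) *
        (Real.log |ρ.im| ^ (2 / 3 : ℝ) * Real.log (Real.log |ρ.im|) ^ (1 / 3 : ℝ)) := by ring
    rw [e6, e5]
    have : 0 < Real.log |ρ.im| ^ (2 / 3 : ℝ) * Real.log (Real.log |ρ.im|) ^ (1 / 3 : ℝ) := by positivity
    nlinarith
  · intro X
    obtain ⟨X1, hX1⟩ := wV_zero hB
    obtain ⟨β, γ, h1, h2, h3, h4, h5, -⟩ := hE (max X X1)
    refine ⟨β, γ, (le_max_left _ _).trans h1, h2, h3, h5, ?_⟩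
    rw [h4]
    exact hX1 γ ((le_max_right _ _).trans h1)
  · intro X c hc
    obtain ⟨X1, hX1⟩ := wV_psi hB
    obtain ⟨X2, hX2⟩ := (((wV_tendsto hB).comp (tendsto_id.atTop_div_const
      (show (0 : ℝ) < 2 by norm_num))).eventually_ge_atTop 32).exists_forall_of_atTop
    obtain ⟨β, γ, h1, h2, h3, h4, h5, h6⟩ := hE (max (max X X1) (max X2 100))
    obtain ⟨x, g1, g2, g3, g4⟩ := h6 c hc
    have hx1 : X ≤ x := (le_max_left _ _).trans ((le_max_left _ _).trans g1)
    have hx0 : 100 ≤ x := (le_max_right _ _).trans ((le_max_right _ _).trans g1)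
    have hγX : X1 ≤ γ := (le_max_right _ _).trans ((le_max_left _ _).trans h1)
    have hγX2 : X2 ≤ γ := (le_max_left _ _).trans ((le_max_right _ _).trans h1)
    have hγ1 : 100 ≤ γ := (le_max_right _ _).trans ((le_max_right _ _).trans h1)
    have hw : 32 ≤ wV B (γ / 2) := hX2 γ hγX2
    refine ⟨x, hx1, le_trans ?_ g4⟩
    have e1 : Real.log γ / (1 - β) = 5 * Real.log γ * wV B (γ / 2) / 8 := by
      rw [h4]
      field_simp
    rw [e1] at g2 g3
    have h7 := hX1 γ hγX (Real.log x) g2 g3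
    have hxp : 0 < x := by linarith
    have hγp : 0 < γ := by linarith
    have hlx : 0 ≤ Real.log x := Real.log_nonneg (by linarith)
    have hlog1 : 0 ≤ Real.log (Real.log x) := Real.log_nonneg (by
      have hb : 1 ≤ Real.log γ := by
        rw [Real.le_log_iff_exp_le hγp]
        have := Real.exp_one_lt_d9
        linarith
      have h8 : 1 ≤ 5 * Real.log γ * wV B (γ / 2) / 8 := by nlinarith
      linarith)
    have e2 : Real.log (Real.log x) ^ (-(1 / 5) : ℝ) = (Real.log (Real.log x) ^ (1 / 5 : ℝ))⁻¹ :=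
      Real.rpow_neg hlog1 _
    rw [e2] at h7
    have e3 : x / (4 * γ ^ 2) = x * Real.exp (-(Real.log 4 + 2 * Real.log γ)) := by
      rw [Real.exp_neg, Real.exp_add, Real.exp_log (by norm_num : (0 : ℝ) < 4), div_eq_mul_inv]
      congr 3
      rw [show (2 : ℝ) * Real.log γ = Real.log (γ ^ 2) by rw [Real.log_pow]; norm_num]
      exact (Real.exp_log (by positivity)).symm
    rw [e3]
    refine mul_le_mul_of_nonneg_left (Real.exp_le_exp.2 ?_) hxp.le
    have h8 : Real.log 4 < 2 := by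
      have e : (4 : ℝ) = 2 ^ 2 := by norm_num
      rw [e, Real.log_pow]
      have := Real.log_two_lt_d9
      push_cast
      linarith
    have e4 : 12 / 5 * B ^ (-(2 / 5) : ℝ) * (Real.log x ^ (3 / 5 : ℝ) / Real.log (Real.log x) ^ (1 / 5 : ℝ)) =
        12 / 5 * B ^ (-(2 / 5) : ℝ) * Real.log x ^ (3 / 5 : ℝ) * (Real.log (Real.log x) ^ (1 / 5 : ℝ))⁻¹ := by
      rw [div_eq_mul_inv]; ring
    rw [e4]
    linarith

end VQ
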