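import Pool.Agent.H15.VQ.Defs

/-!
# Fn : the entire functions `D1` and `J1`
-/

set_option autoImplicit false

open Complex MeasureTheory Set Filter Topology

namespace VQ

/-- derivative of a parameter integral, jointly continuous integrand -/
private theorem hasDerivAt_param {F F' : ℂ → ℝ → ℂ} (hF : Continuous (Function.uncurry F))
    (hF' : Continuous (Function.uncurry F')) (hd : ∀ z y, HasDerivAt (fun z => F z y) (F' z y) z)
    (a b : ℝ) (z : ℂ) :
    HasDerivAt (fun z => ∫ y in a..b, F z y) (∫ y in a..b, F' z y) z := by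
  obtain ⟨C, hC⟩ := ((isCompact_closedBall z 1).prod (isCompact_uIcc (a := a) (b := b))).exists_bound_of_continuousOn
    hF'.continuousOn
  refine (intervalIntegral.hasDerivAt_integral_of_dominated_loc_of_deriv_le
    (s := Metric.closedBall z 1) (bound := fun _ => C) (F := F) (F' := F')
    (Metric.closedBall_mem_nhds z one_pos) ?_ ?_ ?_ ?_ ?_ ?_).2
  · refine Filter.Eventually.of_forall fun w => ?_
    exact (hF.comp (continuous_const.prodMk continuous_id)).aestronglyMeasurable
  · exact (hF.comp (continuous_const.prodMk continuous_id)).intervalIntegrable _ _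
  · exact (hF'.comp (continuous_const.prodMk continuous_id)).aestronglyMeasurable
  · refine Filter.Eventually.of_forall fun y hy w hw => ?_
    exact hC (w, y) ⟨hw, uIoc_subset_uIcc hy⟩
  · exact intervalIntegrable_const
  · refine Filter.Eventually.of_forall fun y _ w _ => ?_
    exact hd w y

private theorem cont_exp : Continuous (Function.uncurry fun (z : ℂ) (y : ℝ) => Complex.exp (-z * y)) := by
  unfold Function.uncurry
  fun_prop

private theorem cont_dexp :
    Continuous (Function.uncurry fun (z : ℂ) (y : ℝ) => -(y : ℂ) * Complex.exp (-z * y)) := by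
  unfold Function.uncurry
  fun_prop

private theorem hasDerivAt_exp (z : ℂ) (y : ℝ) :
    HasDerivAt (fun z : ℂ => Complex.exp (-z * y)) (-(y : ℂ) * Complex.exp (-z * y)) z := by
  have h1 : HasDerivAt (fun z : ℂ => -z * (y : ℂ)) (-1 * (y : ℂ)) z :=
    ((hasDerivAt_id z).neg).mul_const _
  have h2 : HasDerivAt (fun z : ℂ => Complex.exp (-z * y)) (Complex.exp (-z * y) * (-1 * (y : ℂ))) z :=
    h1.cexp
  have h3 : Complex.exp (-z * y) * (-1 * (y : ℂ)) = -(y : ℂ) * Complex.exp (-z * y) := by ring
  rwa [h3] at h2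

theorem D1_diff : Differentiable ℂ D1 := by
  intro z
  exact (hasDerivAt_param cont_exp cont_dexp hasDerivAt_exp 1 2 z).differentiableAt

theorem J1_diff : Differentiable ℂ J1 := by
  intro z
  have c1 : Continuous (Function.uncurry fun (z : ℂ) (y : ℝ) => ∫ u in (0 : ℝ)..y, Complex.exp (-z * u)) := by
    refine intervalIntegral.continuous_parametric_intervalIntegral_of_continuous
      (f := fun (p : ℂ × ℝ) (u : ℝ) => Complex.exp (-p.1 * u)) ?_ continuous_snd
    unfold Function.uncurry
    fun_prop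
  have c2 : Continuous (Function.uncurry fun (z : ℂ) (y : ℝ) =>
      ∫ u in (0 : ℝ)..y, -(u : ℂ) * Complex.exp (-z * u)) := by
    refine intervalIntegral.continuous_parametric_intervalIntegral_of_continuous
      (f := fun (p : ℂ × ℝ) (u : ℝ) => -(u : ℂ) * Complex.exp (-p.1 * u)) ?_ continuous_snd
    unfold Function.uncurry
    fun_prop
  exact (hasDerivAt_param c1 c2 (fun z y => hasDerivAt_param cont_exp cont_dexp hasDerivAt_exp 0 y z)
    1 2 z).differentiableAt

private theorem mul_int_exp (z : ℂ) (a b : ℝ) :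
    z * ∫ u in a..b, Complex.exp (-z * u) = Complex.exp (-z * a) - Complex.exp (-z * b) := by
  have h1 : ∀ u ∈ uIcc a b, HasDerivAt (fun u : ℝ => -Complex.exp (-z * u))
      (z * Complex.exp (-z * u)) u := by
    intro u _
    have h2 : HasDerivAt (fun u : ℝ => -z * (u : ℂ)) (-z * 1) u :=
      (HasDerivAt.ofReal_comp (hasDerivAt_id u)).const_mul (-z)
    have h3 : HasDerivAt (fun u : ℝ => -Complex.exp (-z * u)) (-(Complex.exp (-z * u) * (-z * 1))) u :=
      h2.cexp.neg
    have h4 : -(Complex.exp (-z * u) * (-z * 1)) = z * Complex.exp (-z * u) := by ring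
    rwa [h4] at h3
  have h2 : IntervalIntegrable (fun u : ℝ => z * Complex.exp (-z * u)) volume a b := by
    refine Continuous.intervalIntegrable ?_ _ _
    fun_prop
  have h3 := intervalIntegral.integral_eq_sub_of_hasDerivAt h1 h2
  rw [intervalIntegral.integral_const_mul] at h3
  rw [h3]
  ring

/-- `z (1 - exp (-z y)) / z`, integrated over `[1, 2]` -/
theorem mul_J1 (z : ℂ) : z * J1 z = 1 - D1 z := by
  unfold J1 D1
  rw [← intervalIntegral.integral_const_mul]
  have h1 : ∀ y : ℝ, z * ∫ u in (0 : ℝ)..y, Complex.exp (-z * u) = 1 - Complex.exp (-z * y) := by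
    intro y
    rw [mul_int_exp]
    simp
  simp only [h1]
  rw [intervalIntegral.integral_sub intervalIntegrable_const
    (Continuous.intervalIntegrable (by fun_prop) _ _)]
  simp
  norm_num

private theorem norm_exp_le {a : ℝ} (ha : 0 ≤ a) {z : ℂ} (hz : -a ≤ z.re) {u : ℝ} (h0 : 0 ≤ u)
    (h2 : u ≤ 2) : ‖Complex.exp (-z * u)‖ ≤ Real.exp (2 * a) := by
  rw [Complex.norm_exp]
  apply Real.exp_le_exp.2
  have h3 : (-z * (u : ℂ)).re = -z.re * u := by simp
  rw [h3]
  nlinarith [mul_le_mul_of_nonneg_right (show -z.re ≤ a by linarith) h0, mul_le_mul_of_nonneg_left h2 ha]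

theorem norm_J1_le {a : ℝ} (ha : 0 ≤ a) {z : ℂ} (hz : -a ≤ z.re) :
    ‖J1 z‖ ≤ 3 / 2 * Real.exp (2 * a) := by
  unfold J1
  have h1 : ‖∫ y in (1 : ℝ)..2, ∫ u in (0 : ℝ)..y, Complex.exp (-z * u)‖ ≤
      ∫ y in (1 : ℝ)..2, Real.exp (2 * a) * y := by
    apply intervalIntegral.norm_integral_le_of_norm_le (by norm_num)
    · refine Filter.Eventually.of_forall fun y hy => ?_
      have hy0 : 0 ≤ y := by linarith [hy.1]
      have h2 : ‖∫ u in (0 : ℝ)..y, Complex.exp (-z * u)‖ ≤ Real.exp (2 * a) * |y - 0| := by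
        apply intervalIntegral.norm_integral_le_of_norm_le_const
        intro u hu
        rw [uIoc_of_le hy0] at hu
        exact norm_exp_le ha hz hu.1.le (hu.2.trans hy.2)
      rwa [sub_zero, abs_of_nonneg hy0] at h2
    · exact Continuous.intervalIntegrable (by fun_prop) _ _
  refine h1.trans (le_of_eq ?_)
  rw [intervalIntegral.integral_const_mul, integral_id]
  ring

theorem norm_D1_le {a : ℝ} (ha : 0 ≤ a) {z : ℂ} (hz : -a ≤ z.re) :
    ‖D1 z‖ ≤ Real.exp (2 * a) := by
  unfold D1
  have h2 : ‖∫ y in (1 : ℝ)..2, Complex.exp (-z * y)‖ ≤ Real.exp (2 * a) * |(2 : ℝ) - 1| := by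
    apply intervalIntegral.norm_integral_le_of_norm_le_const
    intro u hu
    rw [uIoc_of_le (by norm_num)] at hu
    exact norm_exp_le ha hz (by linarith [hu.1]) hu.2
  refine h2.trans (le_of_eq ?_)
  norm_num

/-- `z D1 z = exp (-z) - exp (-2 z)` -/
theorem norm_mul_D1_le {a : ℝ} (ha : 0 ≤ a) {z : ℂ} (hz : -a ≤ z.re) :
    ‖z‖ * ‖D1 z‖ ≤ 2 * Real.exp (2 * a) := by
  rw [← norm_mul]
  unfold D1
  rw [mul_int_exp]
  refine (norm_sub_le _ _).trans ?_
  have h1 := norm_exp_le ha hz (u := 1) (by norm_num) (by norm_num)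
  have h2 := norm_exp_le ha hz (u := 2) (by norm_num) (by norm_num)
  linarith

end VQ
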