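import Mathlib

/-!
# Greedy : choice of points with small discrepancies (cosh potential and Hoeffding's lemma)

`hoeffding_cosh`: `ProbabilityTheory.hasSubgaussianMGF_of_mem_Icc` (or its centred form) for `f - ∫ f`, parameter `1`.

`greedy`: with `l i = sqrt (2 log (2 / w i) / N i)`, `S i n = ∑_{j < min n (N i)} (f i (u j) - ∫ f i)` and the potential
`Φ n = ∑ i, w i cosh (l i (S i n)) exp (- (l i)² min n (N i) / 2)` the average over `u n` of `Φ (n + 1)` is at most `Φ n`, so a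
good choice of `u n ∈ S n` exists (`MeasureTheory.exists_le_lintegral` or `exists_notMem_null_le_lintegral`). At the end
`w i cosh (l i S i) exp (- (l i)² N i / 2) ≤ 1`, that is `|S i| ≤ log (2 / w i) / l i + l i N i / 2`.
-/

set_option autoImplicit false

open MeasureTheory Set Filter Topology

namespace VQ

theorem hoeffding_cosh (ν : Measure ℝ) [IsProbabilityMeasure ν] {f : ℝ → ℝ} (hf : Measurable f)
    (hb : ∀ u, |f u| ≤ 1) (l S : ℝ) :
    Integrable (fun u => Real.cosh (l * (S + (f u - ∫ v, f v ∂ν)))) ν ∧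
    ∫ u, Real.cosh (l * (S + (f u - ∫ v, f v ∂ν))) ∂ν ≤ Real.cosh (l * S) * Real.exp (l ^ 2 / 2) := by
  have hsub : ProbabilityTheory.HasSubgaussianMGF (fun u => f u - ∫ v, f v ∂ν)
      ((‖(1 : ℝ) - (-1)‖₊ / 2) ^ 2) ν :=
    ProbabilityTheory.hasSubgaussianMGF_of_mem_Icc hf.aemeasurable
      (Filter.Eventually.of_forall fun u => abs_le.1 (hb u))
  have hc : (((‖(1 : ℝ) - (-1)‖₊ / 2) ^ 2 : NNReal) : ℝ) = 1 := by
    have h2 : ‖(1 : ℝ) - (-1)‖ = 2 := by norm_num
    push_cast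
    rw [h2]
    norm_num
  have hm : ∀ t : ℝ, ∫ u, Real.exp (t * (f u - ∫ v, f v ∂ν)) ∂ν ≤ Real.exp (t ^ 2 / 2) := by
    intro t
    have h := hsub.mgf_le t
    rw [hc, one_mul] at h
    exact h
  have hi : ∀ t : ℝ, Integrable (fun u => Real.exp (t * (f u - ∫ v, f v ∂ν))) ν :=
    fun t => hsub.integrable_exp_mul t
  have hEq : (fun u => Real.cosh (l * (S + (f u - ∫ v, f v ∂ν)))) = fun u =>
      Real.exp (l * S) / 2 * Real.exp (l * (f u - ∫ v, f v ∂ν)) +
      Real.exp (-(l * S)) / 2 * Real.exp (-l * (f u - ∫ v, f v ∂ν)) := by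
    funext u
    rw [Real.cosh_eq, mul_add, neg_add, Real.exp_add, Real.exp_add]
    have e1 : -(l * (f u - ∫ v, f v ∂ν)) = -l * (f u - ∫ v, f v ∂ν) := by ring
    rw [e1]
    ring
  have hI1 := (hi l).const_mul (Real.exp (l * S) / 2)
  have hI2 := (hi (-l)).const_mul (Real.exp (-(l * S)) / 2)
  rw [hEq]
  refine ⟨hI1.add hI2, ?_⟩
  rw [integral_add hI1 hI2, integral_const_mul, integral_const_mul]
  have h1 := hm l
  have h2 := hm (-l)
  rw [neg_sq] at h2
  have p1 : 0 ≤ Real.exp (l * S) / 2 := by positivity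
  have p2 : 0 ≤ Real.exp (-(l * S)) / 2 := by positivity
  calc Real.exp (l * S) / 2 * ∫ u, Real.exp (l * (f u - ∫ v, f v ∂ν)) ∂ν +
        Real.exp (-(l * S)) / 2 * ∫ u, Real.exp (-l * (f u - ∫ v, f v ∂ν)) ∂ν
      ≤ Real.exp (l * S) / 2 * Real.exp (l ^ 2 / 2) +
        Real.exp (-(l * S)) / 2 * Real.exp (l ^ 2 / 2) :=
        add_le_add (mul_le_mul_of_nonneg_left h1 p1) (mul_le_mul_of_nonneg_left h2 p2)
    _ = Real.cosh (l * S) * Real.exp (l ^ 2 / 2) := by
        rw [Real.cosh_eq]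
        ring

end VQ
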