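import Pool.Agent.H15.VQ.Greedy

/-!
# GreedyB : the greedy choice, see the docstring of `Greedy`
-/

set_option autoImplicit false

open MeasureTheory Set Filter Topology

namespace VQ

private noncomputable def pot (w l : ℕ → ℝ) (N : ℕ → ℕ) (n : ℕ) (s : ℕ → ℝ) (i : ℕ) : ℝ :=
  w i * Real.cosh (l i * s i) * Real.exp (-((l i) ^ 2 * ((min n (N i) : ℕ) : ℝ) / 2))

private noncomputable def stp (ν : ℕ → Measure ℝ) (f : ℕ → ℝ → ℝ) (N : ℕ → ℕ) (n : ℕ) (s : ℕ → ℝ)
    (u : ℝ) (i : ℕ) : ℝ :=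
  if n < N i then s i + (f i u - ∫ v, f i v ∂(ν n)) else s i

private theorem pot_lt (w l : ℕ → ℝ) (N : ℕ → ℕ) (ν : ℕ → Measure ℝ) (f : ℕ → ℝ → ℝ) (n : ℕ)
    (s : ℕ → ℝ) (i : ℕ) (hn : n < N i) (u : ℝ) :
    pot w l N (n + 1) (stp ν f N n s u) i =
      (w i * Real.exp (-((l i) ^ 2 * ((n + 1 : ℕ) : ℝ) / 2))) *
        Real.cosh (l i * (s i + (f i u - ∫ v, f i v ∂(ν n)))) := by
  unfold pot stp
  rw [if_pos hn, min_eq_left (by omega : n + 1 ≤ N i)]
  ring

private theorem pot_ge (w l : ℕ → ℝ) (N : ℕ → ℕ) (ν : ℕ → Measure ℝ) (f : ℕ → ℝ → ℝ) (n : ℕ)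
    (s : ℕ → ℝ) (i : ℕ) (hn : ¬ n < N i) (u : ℝ) :
    pot w l N (n + 1) (stp ν f N n s u) i = pot w l N n s i := by
  unfold pot stp
  rw [if_neg hn, min_eq_right (by omega : N i ≤ n + 1), min_eq_right (by omega : N i ≤ n)]

private theorem step (ν : ℕ → Measure ℝ) [∀ j, IsProbabilityMeasure (ν j)] (S : ℕ → Set ℝ)
    (hνS : ∀ j, ν j (S j)ᶜ = 0) (f : ℕ → ℝ → ℝ)
    (hf : ∀ i, Measurable (f i)) (hb : ∀ i u, |f i u| ≤ 1) (N : ℕ → ℕ) (w l : ℕ → ℝ)
    (hw : ∀ i, 0 < w i) (n : ℕ) (s : ℕ → ℝ)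
    (h : ∑' i, ENNReal.ofReal (pot w l N n s i) ≤ 1) :
    ∃ u, u ∈ S n ∧ ∑' i, ENNReal.ofReal (pot w l N (n + 1) (stp ν f N n s u) i) ≤ 1 := by
  have hm : ∀ i, Measurable (fun u => ENNReal.ofReal (pot w l N (n + 1) (stp ν f N n s u) i)) := by
    intro i
    apply ENNReal.measurable_ofReal.comp
    by_cases hn : n < N i
    · simp_rw [pot_lt w l N ν f n s i hn]
      refine Measurable.const_mul ?_ _
      refine Real.measurable_cosh.comp ?_
      refine Measurable.const_mul ?_ _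
      exact measurable_const.add ((hf i).sub measurable_const)
    · simp_rw [pot_ge w l N ν f n s i hn]
      exact measurable_const
  have hi : ∀ i, ∫⁻ u, ENNReal.ofReal (pot w l N (n + 1) (stp ν f N n s u) i) ∂(ν n) ≤
      ENNReal.ofReal (pot w l N n s i) := by
    intro i
    by_cases hn : n < N i
    · obtain ⟨h1, h2⟩ := hoeffding_cosh (ν n) (hf i) (hb i) (l i) (s i)
      simp_rw [pot_lt w l N ν f n s i hn]
      have hc : 0 ≤ w i * Real.exp (-((l i) ^ 2 * ((n + 1 : ℕ) : ℝ) / 2)) :=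
        mul_nonneg (hw i).le (Real.exp_pos _).le
      rw [← ofReal_integral_eq_lintegral_ofReal (h1.const_mul _)
        (Filter.Eventually.of_forall (fun u => mul_nonneg hc (Real.cosh_pos _).le))]
      apply ENNReal.ofReal_le_ofReal
      rw [integral_const_mul]
      calc (w i * Real.exp (-((l i) ^ 2 * ((n + 1 : ℕ) : ℝ) / 2))) *
            ∫ u, Real.cosh (l i * (s i + (f i u - ∫ v, f i v ∂(ν n)))) ∂(ν n)
          ≤ (w i * Real.exp (-((l i) ^ 2 * ((n + 1 : ℕ) : ℝ) / 2))) *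
            (Real.cosh (l i * s i) * Real.exp ((l i) ^ 2 / 2)) :=
            mul_le_mul_of_nonneg_left h2 hc
        _ = pot w l N n s i := by
            unfold pot
            rw [min_eq_left hn.le]
            have he : Real.exp (-((l i) ^ 2 * ((n : ℕ) : ℝ) / 2)) =
                Real.exp (-((l i) ^ 2 * ((n + 1 : ℕ) : ℝ) / 2)) * Real.exp ((l i) ^ 2 / 2) := by
              rw [← Real.exp_add]
              congr 1
              push_cast
              ring
            rw [he]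
            ring
    · simp_rw [pot_ge w l N ν f n s i hn]
      rw [lintegral_const, measure_univ, mul_one]
  obtain ⟨u, hu1, hu2⟩ := exists_notMem_null_le_lintegral (μ := ν n)
    (f := fun u => ∑' i, ENNReal.ofReal (pot w l N (n + 1) (stp ν f N n s u) i))
    (Measurable.ennreal_tsum hm).aemeasurable (hνS n)
  refine ⟨u, by simpa using hu1, hu2.trans ?_⟩
  rw [lintegral_tsum (fun i => (hm i).aemeasurable)]
  exact (ENNReal.tsum_le_tsum hi).trans h

private theorem final_bound {w l L S : ℝ} {N : ℕ} (hN : 0 < N) (hw : 0 < w) (hL : 0 < L)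
    (hLw : L = Real.log (2 / w)) (hl : l = Real.sqrt (2 * L / N))
    (h : w * Real.cosh (l * S) * Real.exp (-(l ^ 2 * (N : ℝ) / 2)) ≤ 1) :
    |S| ≤ 2 * Real.sqrt (N * L) := by
  have hNR : (0 : ℝ) < N := by exact_mod_cast hN
  have hl2 : l ^ 2 = 2 * L / N := by
    rw [hl, Real.sq_sqrt (by positivity)]
  have hlN : l ^ 2 * (N : ℝ) / 2 = L := by
    rw [hl2]; field_simp
  have hlpos : 0 < l := by
    rw [hl]; exact Real.sqrt_pos.mpr (by positivity)
  rw [hlN] at h
  have h1 : Real.exp (l * |S|) / 2 ≤ Real.cosh (l * S) := by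
    rw [← Real.cosh_abs, abs_mul, abs_of_pos hlpos, Real.cosh_eq]
    have := Real.exp_pos (-(l * |S|))
    linarith
  have h2 : w * (Real.exp (l * |S|) / 2) * Real.exp (-L) ≤ 1 := by
    refine le_trans ?_ h
    have h3 := Real.exp_pos (-L)
    gcongr
  have h4 : Real.exp (-L) = w / 2 := by
    rw [hLw, Real.exp_neg, Real.exp_log (by positivity)]
    field_simp
  have h5 : Real.exp (l * |S|) ≤ Real.exp (2 * L) := by
    have h6 : Real.exp (2 * L) = (2 / w) ^ 2 := by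
      rw [hLw, mul_comm, Real.exp_mul, Real.exp_log (by positivity)]
      norm_num
    rw [h6, div_pow, le_div_iff₀ (by positivity)]
    rw [h4] at h2
    nlinarith
  have h7 : l * |S| ≤ 2 * L := Real.exp_le_exp.mp h5
  have h8 : |S| ^ 2 ≤ 2 * L * N := by
    have h9 : (l * |S|) ^ 2 ≤ (2 * L) ^ 2 :=
      pow_le_pow_left₀ (mul_nonneg hlpos.le (abs_nonneg _)) h7 2
    rw [mul_pow, hl2] at h9
    have h10 : 2 * L / N * |S| ^ 2 = (2 * L) * (|S| ^ 2 / N) := by ring
    rw [h10, pow_two (2 * L)] at h9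
    have h11 := le_of_mul_le_mul_left h9 (by positivity)
    rwa [div_le_iff₀ hNR] at h11
  have h12 : |S| ≤ Real.sqrt (2 ^ 2 * (N * L)) := by
    apply Real.le_sqrt_of_sq_le
    nlinarith [mul_pos hNR hL]
  rw [Real.sqrt_mul (by positivity), Real.sqrt_sq (by norm_num)] at h12
  exact h12

theorem greedy (ν : ℕ → Measure ℝ) [∀ j, IsProbabilityMeasure (ν j)] (S : ℕ → Set ℝ)
    (hS : ∀ j, MeasurableSet (S j)) (hνS : ∀ j, ν j (S j)ᶜ = 0) (f : ℕ → ℝ → ℝ)
    (hf : ∀ i, Measurable (f i)) (hb : ∀ i u, |f i u| ≤ 1) (N : ℕ → ℕ) (w : ℕ → ℝ)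
    (hw : ∀ i, 0 < w i) (hws : Summable w) (hw1 : ∑' i, w i ≤ 1) :
    ∃ u : ℕ → ℝ, (∀ j, u j ∈ S j) ∧ ∀ i,
      |∑ j ∈ Finset.range (N i), (f i (u j) - ∫ v, f i v ∂(ν j))| ≤
        2 * Real.sqrt (N i * Real.log (2 / w i)) := by
  classical
  set l : ℕ → ℝ := fun i => Real.sqrt (2 * Real.log (2 / w i) / N i) with hl
  have h0 : ∑' i, ENNReal.ofReal (pot w l N 0 (fun _ => 0) i) ≤ 1 := by
    have h1 : ∀ i, pot w l N 0 (fun _ => 0) i = w i := by
      intro i
      unfold pot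
      simp
    simp_rw [h1]
    rw [← ENNReal.ofReal_tsum_of_nonneg (fun i => (hw i).le) hws]
    exact ENNReal.ofReal_le_one.mpr hw1
  have hstep := fun n s h => step ν S hνS f hf hb N w l hw n s h
  choose g hg1 hg2 using hstep
  -- the states
  let st : (n : ℕ) → {s : ℕ → ℝ // ∑' i, ENNReal.ofReal (pot w l N n s i) ≤ 1} := fun n =>
    Nat.rec ⟨fun _ => 0, h0⟩ (fun n s => ⟨stp ν f N n s.1 (g n s.1 s.2), hg2 n s.1 s.2⟩) n
  have hst0 : (st 0).1 = fun _ => 0 := rfl
  have hst : ∀ n, (st (n + 1)).1 = stp ν f N n (st n).1 (g n (st n).1 (st n).2) := fun n => rfl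
  let u : ℕ → ℝ := fun n => g n (st n).1 (st n).2
  refine ⟨u, fun j => hg1 j _ _, ?_⟩
  have hsum : ∀ i n, n ≤ N i → (st n).1 i = ∑ j ∈ Finset.range n, (f i (u j) - ∫ v, f i v ∂(ν j)) := by
    intro i n
    induction n with
    | zero => intro _; rw [hst0]; simp
    | succ n ih =>
      intro hn
      rw [hst n, Finset.sum_range_succ, ← ih (by omega)]
      show (if n < N i then _ else _) = _
      rw [if_pos (by omega)]
  intro i
  rw [← hsum i (N i) le_rfl]
  rcases Nat.eq_zero_or_pos (N i) with h | h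
  · rw [h, hst0]
    simp
  · have hwi : w i ≤ 1 := by
      refine le_trans ?_ hw1
      exact hws.le_tsum i (fun j _ => (hw j).le)
    have hL : 0 < Real.log (2 / w i) := by
      apply Real.log_pos
      rw [lt_div_iff₀ (hw i)]
      linarith
    refine final_bound h (hw i) hL rfl (l := l i) rfl ?_
    have h2 : ENNReal.ofReal (pot w l N (N i) (st (N i)).1 i) ≤ 1 :=
      (ENNReal.le_tsum i).trans (st (N i)).2
    have h3 := ENNReal.ofReal_le_one.mp h2
    unfold pot at h3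
    rw [min_self] at h3
    exact h3

end VQ
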