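import Pool.Agent.H15.VQ.Fn
import Pool.Agent.H6.Win.LocLog

/-!
# LfA : the zeros of `J1`, an elementary sum, orders of products

`J1_zero_norm`: `J1 w = 0` gives `D1 w = 1` (`mul_J1`), then `norm_mul_D1_le`. `J1_dens`: `Pool.Agent.H6.loc_log` with the fixed
radii `1 / 2, 1, 2`, the function `z ↦ J1 (W z)`, `c = 0` (`J1 0 = 3 / 2`, `norm_J1_le`), `W = 2 exp (2 X)`; the order of `z ↦ J1 (W z)` at
`z` is the order of `J1` at `W z` (`analyticOrderAt_comp_of_deriv_ne_zero`); points which are not zeros have order `0`.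
-/

set_option autoImplicit false

open Complex MeasureTheory Set Filter Topology

namespace VQ

theorem J1_zero_norm {w : ℂ} {X : ℝ} (hX : 0 ≤ X) (h : J1 w = 0) (hw : -X ≤ w.re) :
    ‖w‖ ≤ 2 * Real.exp (2 * X) := by
  have h1 := mul_J1 w
  rw [h, mul_zero] at h1
  have h2 : D1 w = 1 := (sub_eq_zero.mp h1.symm).symm
  have h3 := norm_mul_D1_le hX hw
  rwa [h2, norm_one, mul_one] at h3

private theorem LfA_J1_zero : J1 0 = 3 / 2 := by
  unfold J1
  have h1 : ∀ y : ℝ, ∫ u in (0 : ℝ)..y, Complex.exp (-(0 : ℂ) * u) = (y : ℂ) := by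
    intro y
    simp
  simp only [h1]
  rw [intervalIntegral.integral_ofReal, integral_id]
  norm_num

/-- order after an affine change of the variable -/
private theorem LfA_affine {f : ℂ → ℂ} {a c z : ℂ} (ha : a ≠ 0) :
    analyticOrderNatAt (fun s => f (a * s + c)) z = analyticOrderNatAt f (a * z + c) := by
  have h1 : HasDerivAt (fun s : ℂ => a * s + c) a z := by
    simpa using ((hasDerivAt_id z).const_mul a).add_const c
  have h2 : AnalyticAt ℂ (fun s : ℂ => a * s + c) z := by fun_prop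
  have h3 := analyticOrderAt_comp_of_deriv_ne_zero (f := f) h2 (by rw [h1.deriv]; exact ha)
  unfold analyticOrderNatAt
  exact congrArg ENat.toNat h3

theorem J1_dens : ∃ C : ℝ, 0 ≤ C ∧ ∀ X : ℝ, 0 ≤ X → ∀ S : Finset ℂ, (∀ w ∈ S, -X ≤ w.re) →
    ∑ w ∈ S, (analyticOrderNatAt J1 w : ℝ) ≤ C * Real.exp (2 * X) := by
  classical
  obtain ⟨C, hC, hloc⟩ := Pool.Agent.H6.loc_log (R0 := 1 / 2) (R1 := 1) (R2 := 2) (by norm_num) (by norm_num)
    (by norm_num)
  refine ⟨C * 8, by positivity, fun X hX S hS => ?_⟩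
  obtain ⟨W, hW⟩ : ∃ W : ℝ, W = 2 * Real.exp (2 * X) := ⟨_, rfl⟩
  have hWp : 0 < W := by rw [hW]; positivity
  have hWc : (W : ℂ) ≠ 0 := by exact_mod_cast hWp.ne'
  have hf0 : J1 ((W : ℂ) * 0) = 3 / 2 := by
    rw [mul_zero]
    exact LfA_J1_zero
  obtain ⟨Z, hZ, hZ1, hZs, _⟩ := hloc (fun z => J1 ((W : ℂ) * z)) 0 (4 * W) (by positivity)
    (fun z _ => (J1_diff.comp (differentiable_id.const_mul (W : ℂ))).analyticAt z)
    (by rw [hf0]; norm_num)
    (fun z hz => by
      rw [hf0]
      have h1 : ‖z‖ ≤ 2 := by simpa using hz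
      have h2 : -(2 * W) ≤ ((W : ℂ) * z).re := by
        have h3 := Complex.abs_re_le_norm ((W : ℂ) * z)
        rw [norm_mul, Complex.norm_real, Real.norm_of_nonneg hWp.le] at h3
        have h4 := neg_abs_le ((W : ℂ) * z).re
        nlinarith
      have h5 := norm_J1_le (a := 2 * W) (by positivity) h2
      have h6 : ‖(3 / 2 : ℂ)‖ = 3 / 2 := by norm_num
      rw [h6]
      calc ‖J1 ((W : ℂ) * z)‖ ≤ 3 / 2 * Real.exp (2 * (2 * W)) := h5
        _ = Real.exp (4 * W) * (3 / 2) := by ring_nf)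
  have hinj : Function.Injective fun w : ℂ => w / (W : ℂ) := by
    intro a b hab
    exact (div_left_inj' hWc).mp hab
  have hord : ∀ w : ℂ, analyticOrderNatAt (fun z => J1 ((W : ℂ) * z)) (w / (W : ℂ)) = analyticOrderNatAt J1 w := by
    intro w
    have h1 := LfA_affine (f := J1) (a := (W : ℂ)) (c := 0) (z := w / (W : ℂ)) hWc
    simp only [add_zero] at h1
    rw [h1, mul_div_cancel₀ w hWc]
  have h7 : ∑ w ∈ S, (analyticOrderNatAt J1 w : ℝ) ≤
      ∑ z ∈ Z, (analyticOrderNatAt (fun z => J1 ((W : ℂ) * z)) z : ℝ) := by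
    have h8 : ∑ w ∈ S, (analyticOrderNatAt J1 w : ℝ) =
        ∑ w ∈ S.filter (fun w => J1 w = 0), (analyticOrderNatAt J1 w : ℝ) := by
      symm
      apply Finset.sum_filter_of_ne
      intro w _ hne
      apply apply_eq_zero_of_analyticOrderNatAt_ne_zero
      exact_mod_cast hne
    have h9 : ∑ w ∈ S.filter (fun w => J1 w = 0), (analyticOrderNatAt J1 w : ℝ) =
        ∑ z ∈ (S.filter (fun w => J1 w = 0)).image (fun w : ℂ => w / (W : ℂ)),
          (analyticOrderNatAt (fun z => J1 ((W : ℂ) * z)) z : ℝ) := by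
      rw [Finset.sum_image fun a _ b _ hab => hinj hab]
      exact Finset.sum_congr rfl fun w _ => by rw [hord w]
    rw [h8, h9]
    refine Finset.sum_le_sum_of_subset_of_nonneg ?_ fun _ _ _ => Nat.cast_nonneg _
    intro z hz
    rw [Finset.mem_image] at hz
    obtain ⟨w, hw, rfl⟩ := hz
    rw [Finset.mem_filter] at hw
    rw [hZ]
    constructor
    · rw [mem_closedBall_zero_iff, norm_div, Complex.norm_real, Real.norm_of_nonneg hWp.le,
        div_le_one hWp, hW]
      exact J1_zero_norm hX hw.2 (hS w hw.1)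
    · show J1 ((W : ℂ) * (w / (W : ℂ))) = 0
      rw [mul_div_cancel₀ w hWc]
      exact hw.2
  calc ∑ w ∈ S, (analyticOrderNatAt J1 w : ℝ) ≤ _ := h7
    _ ≤ C * (4 * W) := hZs
    _ = C * 8 * Real.exp (2 * X) := by rw [hW]; ring

/-- if one of the orders is infinite, the left side is zero -/
theorem ordNat_mul_le {f g : ℂ → ℂ} {z : ℂ} (hf : AnalyticAt ℂ f z) (hg : AnalyticAt ℂ g z) :
    analyticOrderNatAt (fun s => f s * g s) z ≤ analyticOrderNatAt f z + analyticOrderNatAt g z := by
  have h1 : analyticOrderAt (fun s => f s * g s) z = analyticOrderAt f z + analyticOrderAt g z :=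
    analyticOrderAt_mul hf hg
  unfold analyticOrderNatAt
  rw [h1]
  generalize analyticOrderAt f z = a
  generalize analyticOrderAt g z = b
  induction a using ENat.recTopCoe with
  | top => simp
  | coe a =>
    induction b using ENat.recTopCoe with
    | top => simp
    | coe b =>
      rw [← Nat.cast_add]
      simp only [ENat.toNat_natCast]
      exact le_refl _

theorem ordNat_prod_le {ι : Type*} (I : Finset ι) {f : ι → ℂ → ℂ} {z : ℂ} (hf : ∀ i ∈ I, AnalyticAt ℂ (f i) z) :
    analyticOrderNatAt (fun s => ∏ i ∈ I, f i s) z ≤ ∑ i ∈ I, analyticOrderNatAt (f i) z := by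
  classical
  induction I using Finset.induction_on with
  | empty =>
    simp only [Finset.prod_empty, Finset.sum_empty, nonpos_iff_eq_zero]
    by_contra h
    have h1 := apply_eq_zero_of_analyticOrderNatAt_ne_zero h
    exact one_ne_zero h1
  | insert i I hi ih =>
    have h1 : ∀ j ∈ I, AnalyticAt ℂ (f j) z := fun j hj => hf j (Finset.mem_insert_of_mem hj)
    have h2 : AnalyticAt ℂ (fun s => ∏ j ∈ I, f j s) z := Finset.analyticAt_fun_prod I h1
    have h3 := ordNat_mul_le (hf i (Finset.mem_insert_self i I)) h2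
    simp only [Finset.prod_insert hi, Finset.sum_insert hi]
    exact h3.trans (Nat.add_le_add_left (ih h1) _)

/-- order after an affine change of the variable -/
theorem ordNat_affine {f : ℂ → ℂ} {a c z : ℂ} (hf : AnalyticAt ℂ f (a * z + c)) (ha : a ≠ 0) :
    analyticOrderNatAt (fun s => f (a * s + c)) z = analyticOrderNatAt f (a * z + c) := by
  have _ := hf
  exact LfA_affine ha

end VQ
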