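import Pool.Agent.H15.VQ.LfA
import Pool.Agent.H15.VQ.Fac

/-!
# LfB : number of zeros of a factor `Ph k` to the right of `re z = - X`

`Ph k z = (z + b) (R J1 (R z))` or `z (R J1 (R (z + b)))`: one simple zero of the linear factor and the zeros of `J1`, which are counted by
`J1_dens` at `R z` or `R z + R b`, with real part at least `- R X` (images under an injective affine map, `Finset.sum_map` or
`Finset.sum_image`). `ordNat_mul_le`, `ordNat_affine`.
-/

set_option autoImplicit false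

open Complex MeasureTheory Set Filter Topology

namespace VQ

private theorem LfB_lin (c z : ℂ) : analyticOrderNatAt (fun s : ℂ => s + c) z ≤ if z = -c then 1 else 0 := by
  split_ifs with h
  · have h1 : AnalyticAt ℂ (fun s : ℂ => s + c) z := by fun_prop
    have h2 : analyticOrderAt (fun s : ℂ => s + c) z = 1 := by
      refine h1.analyticOrderAt_eq_one_of_zero_deriv_ne_zero ?_ ?_
      · rw [h]; ring
      · rw [deriv_add_const, deriv_id'']
        exact one_ne_zero
    unfold analyticOrderNatAt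
    rw [h2]
    simp
  · rw [Nat.le_zero]
    by_contra hne
    have h1 := apply_eq_zero_of_analyticOrderNatAt_ne_zero hne
    exact h (eq_neg_of_add_eq_zero_left h1)

private theorem LfB_const {R : ℂ} (hR : R ≠ 0) (z : ℂ) : analyticOrderNatAt (fun _ : ℂ => R) z = 0 := by
  by_contra hne
  exact hR (apply_eq_zero_of_analyticOrderNatAt_ne_zero hne)

/-- the order of a linear factor times `R J1 (R z + c)` -/
private theorem LfB_ord {R : ℂ} (hR : R ≠ 0) (b c z : ℂ) :
    analyticOrderNatAt (fun s : ℂ => (s + b) * (R * J1 (R * s + c))) z ≤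
      (if z = -b then 1 else 0) + analyticOrderNatAt J1 (R * z + c) := by
  have hJ : AnalyticAt ℂ J1 (R * z + c) := J1_diff.analyticAt _
  have hJ2 : AnalyticAt ℂ (fun s : ℂ => J1 (R * s + c)) z :=
    (J1_diff.comp ((differentiable_id.const_mul R).add_const c)).analyticAt z
  have h1 : AnalyticAt ℂ (fun s : ℂ => s + b) z := by fun_prop
  have h2 : AnalyticAt ℂ (fun s : ℂ => R * J1 (R * s + c)) z := analyticAt_const.mul hJ2
  have h3 := ordNat_mul_le h1 h2
  have h4 := ordNat_mul_le (f := fun _ : ℂ => R) (g := fun s : ℂ => J1 (R * s + c)) (z := z)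
    analyticAt_const hJ2
  rw [LfB_const hR, ordNat_affine hJ hR, zero_add] at h4
  have h5 := LfB_lin b z
  exact h3.trans (add_le_add h5 h4)

private theorem LfB_sum {C : ℝ} (hC : ∀ X : ℝ, 0 ≤ X → ∀ S : Finset ℂ, (∀ w ∈ S, -X ≤ w.re) →
    ∑ w ∈ S, (analyticOrderNatAt J1 w : ℝ) ≤ C * Real.exp (2 * X)) {R c X : ℝ} (hR : 0 < R) (hc : 0 ≤ c)
    (hX : 0 ≤ X) (b : ℂ) (S : Finset ℂ) (hS : ∀ z ∈ S, -X ≤ z.re) :
    ∑ z ∈ S, (analyticOrderNatAt (fun s : ℂ => (s + b) * ((R : ℂ) * J1 ((R : ℂ) * s + (c : ℂ)))) z : ℝ) ≤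
      1 + C * Real.exp (2 * (R * X)) := by
  classical
  have hRc : (R : ℂ) ≠ 0 := by exact_mod_cast hR.ne'
  have hinj : Function.Injective fun z : ℂ => (R : ℂ) * z + (c : ℂ) := by
    intro x y hxy
    have h1 : (R : ℂ) * x + (c : ℂ) = (R : ℂ) * y + (c : ℂ) := hxy
    exact mul_left_cancel₀ hRc (add_right_cancel h1)
  have h1 : ∀ z ∈ S, (analyticOrderNatAt (fun s : ℂ => (s + b) * ((R : ℂ) * J1 ((R : ℂ) * s + (c : ℂ)))) z : ℝ) ≤
      (if z = -b then (1 : ℝ) else 0) + (analyticOrderNatAt J1 ((R : ℂ) * z + (c : ℂ)) : ℝ) := by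
    intro z _
    have h2 := LfB_ord hRc b (c : ℂ) z
    have h3 : ((analyticOrderNatAt (fun s : ℂ => (s + b) * ((R : ℂ) * J1 ((R : ℂ) * s + (c : ℂ)))) z : ℕ) : ℝ) ≤
        (((if z = -b then 1 else 0) + analyticOrderNatAt J1 ((R : ℂ) * z + (c : ℂ)) : ℕ) : ℝ) := by
      exact_mod_cast h2
    refine h3.trans (le_of_eq ?_)
    push_cast
    split_ifs <;> rfl
  refine (Finset.sum_le_sum h1).trans ?_
  rw [Finset.sum_add_distrib]
  refine add_le_add ?_ ?_
  · rw [Finset.sum_ite_eq']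
    split_ifs
    · exact le_rfl
    · exact zero_le_one
  · have h4 : ∑ z ∈ S, (analyticOrderNatAt J1 ((R : ℂ) * z + (c : ℂ)) : ℝ) =
        ∑ w ∈ S.image (fun z : ℂ => (R : ℂ) * z + (c : ℂ)), (analyticOrderNatAt J1 w : ℝ) := by
      rw [Finset.sum_image fun x _ y _ hxy => hinj hxy]
    rw [h4]
    refine hC (R * X) (by positivity) _ fun w hw => ?_
    rw [Finset.mem_image] at hw
    obtain ⟨z, hz, rfl⟩ := hw
    have h5 : ((R : ℂ) * z + (c : ℂ)).re = R * z.re + c := by simp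
    rw [h5]
    have h6 := mul_le_mul_of_nonneg_left (hS z hz) hR.le
    linarith

theorem Ph_dens : ∃ C : ℝ, 0 ≤ C ∧ ∀ (B : Blk) (k : ℕ) (X : ℝ), 0 ≤ X → ∀ S : Finset ℂ, (∀ z ∈ S, -X ≤ z.re) →
    ∑ z ∈ S, (analyticOrderNatAt (B.Ph k) z : ℝ) ≤ C * Real.exp (2 * B.R * X) := by
  obtain ⟨C, hC0, hC⟩ := J1_dens
  refine ⟨1 + C, by linarith, fun B k X hX S hS => ?_⟩
  have hR : 0 < B.R := by linarith [B.hR]
  have hb := B.hb
  have h1 : (1 : ℝ) ≤ Real.exp (2 * B.R * X) := Real.one_le_exp (by positivity)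
  have he : 2 * (B.R * X) = 2 * B.R * X := by ring
  have key : ∑ z ∈ S, (analyticOrderNatAt (B.Ph k) z : ℝ) ≤ 1 + C * Real.exp (2 * (B.R * X)) := by
    by_cases hk : Even k
    · have h2 : B.Ph k = fun s : ℂ => (s + (B.b : ℂ)) * ((B.R : ℂ) * J1 ((B.R : ℂ) * s + ((0 : ℝ) : ℂ))) := by
        funext z
        unfold Blk.Ph
        rw [if_pos hk, Complex.ofReal_zero, add_zero]
      rw [h2]
      exact LfB_sum hC hR le_rfl hX _ S hS
    · have h2 : B.Ph k = fun s : ℂ => (s + (0 : ℂ)) * ((B.R : ℂ) * J1 ((B.R : ℂ) * s + ((B.R * B.b : ℝ) : ℂ))) := by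
        funext z
        unfold Blk.Ph
        rw [if_neg hk, add_zero]
        push_cast
        rw [mul_add]
      rw [h2]
      exact LfB_sum hC hR (by positivity) hX _ S hS
  rw [he] at key
  refine key.trans ?_
  nlinarith

end VQ
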