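import Pool.Agent.H15.VQ.LfB
import Pool.Agent.H15.VQ.BlkH
import Pool.Agent.H15.VQ.FacL

/-!
# LfC : number of zeros of the factor `H` of a block to the right of `re s = 1 - X`

`H` is a product over `k ≤ K` of two shifted factors `Ph k` (`Blk.H`), `ordNat_prod_le`, `ordNat_mul_le`, `ordNat_affine` (with `a = 1`),
`Ph_dens` (the shift `lam k ^ 2 ≥ 0` only increases the real part). `H_zero_re`: see the proof of `FF_zero_region` in
`Pool/Agent/H15/VQ/ZwE.lean` (`Ph_log` excludes zeros of `Ph k` in `re z > 0`). `H_zero_im` is `Blk.H_far`.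
-/

set_option autoImplicit false

open Complex MeasureTheory Set Filter Topology

namespace VQ

private theorem lfc_lam_pos (B : Blk) : 0 ≤ B.lam := by
  unfold Blk.lam
  have := B.hR
  positivity

private theorem lfc_lamsq_re (B : Blk) (k : ℕ) : (B.lam * (k : ℂ) ^ 2 : ℂ).re = B.lam * (k : ℝ) ^ 2 := by
  have : (B.lam * (k : ℂ) ^ 2 : ℂ) = ((B.lam * (k : ℝ) ^ 2 : ℝ) : ℂ) := by push_cast; rfl
  rw [this, Complex.ofReal_re]

private theorem lfc_Ig_re (B : Blk) (k : ℕ) : (Complex.I * (k * B.g) : ℂ).re = 0 := by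
  have : (Complex.I * (k * B.g) : ℂ) = Complex.I * (((k : ℝ) * B.g : ℝ) : ℂ) := by push_cast; rfl
  rw [this]
  simp

/-- the shift of a factor -/
private noncomputable def lfc_c (B : Blk) (k : ℕ) (e : Bool) : ℂ :=
  if e then -1 - Complex.I * (k * B.g) + B.lam * (k : ℂ) ^ 2 else -1 + Complex.I * (k * B.g) + B.lam * (k : ℂ) ^ 2

private theorem lfc_c_re (B : Blk) (k : ℕ) (e : Bool) : (lfc_c B k e).re = -1 + B.lam * (k : ℝ) ^ 2 := by
  unfold lfc_c
  cases e
  · rw [if_neg (by simp), Complex.add_re, Complex.add_re, lfc_lamsq_re, lfc_Ig_re, Complex.neg_re, Complex.one_re, add_zero]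
  · rw [if_pos rfl, Complex.add_re, Complex.sub_re, lfc_lamsq_re, lfc_Ig_re, Complex.neg_re, Complex.one_re, sub_zero]

private theorem lfc_shift {C : ℝ} (B : Blk) (hC : ∀ (k : ℕ) (X : ℝ), 0 ≤ X → ∀ S : Finset ℂ, (∀ z ∈ S, -X ≤ z.re) →
    ∑ z ∈ S, (analyticOrderNatAt (B.Ph k) z : ℝ) ≤ C * Real.exp (2 * B.R * X)) (k : ℕ) (e : Bool) {X : ℝ} (hX : 0 ≤ X)
    (S : Finset ℂ) (hS : ∀ s ∈ S, 1 - X ≤ s.re) :
    ∑ s ∈ S, (analyticOrderNatAt (B.Ph k) (1 * s + lfc_c B k e) : ℝ) ≤ C * Real.exp (2 * B.R * X) := by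
  classical
  have h1 := hC k X hX (S.image fun s => 1 * s + lfc_c B k e) (by
    intro z hz
    obtain ⟨s, hs, rfl⟩ := Finset.mem_image.1 hz
    rw [one_mul, Complex.add_re, lfc_c_re]
    have h2 := hS s hs
    have h3 : 0 ≤ B.lam * (k : ℝ) ^ 2 := mul_nonneg (lfc_lam_pos B) (sq_nonneg _)
    linarith)
  rw [Finset.sum_image (fun a _ b _ hab => by simpa using hab)] at h1
  exact h1

theorem H_dens : ∃ C : ℝ, 0 ≤ C ∧ ∀ (B : Blk) (X : ℝ), 0 ≤ X → ∀ S : Finset ℂ, (∀ s ∈ S, 1 - X ≤ s.re) →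
    ∑ s ∈ S, (analyticOrderNatAt B.H s : ℝ) ≤ C * B.K * Real.exp (2 * B.R * X) := by
  obtain ⟨C, hC0, hC⟩ := Ph_dens
  refine ⟨2 * C, by positivity, ?_⟩
  intro B X hX S hS
  have hH : B.H = fun s => ∏ k ∈ Finset.Icc 1 B.K,
      ((fun s => B.Ph k (1 * s + lfc_c B k true)) s * (fun s => B.Ph k (1 * s + lfc_c B k false)) s) := by
    funext s
    unfold Blk.H
    refine Finset.prod_congr rfl fun k _ => ?_
    have e1 : s - 1 - Complex.I * (k * B.g) + B.lam * (k : ℂ) ^ 2 = 1 * s + lfc_c B k true := by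
      unfold lfc_c
      rw [if_pos rfl]
      ring
    have e2 : s - 1 + Complex.I * (k * B.g) + B.lam * (k : ℂ) ^ 2 = 1 * s + lfc_c B k false := by
      unfold lfc_c
      rw [if_neg (by simp)]
      ring
    rw [e1, e2]
  have han : ∀ (k : ℕ) (z : ℂ), AnalyticAt ℂ (B.Ph k) z := fun k z => (B.Ph_diff k).analyticAt z
  have han2 : ∀ (k : ℕ) (e : Bool) (z : ℂ), AnalyticAt ℂ (fun s => B.Ph k (1 * s + lfc_c B k e)) z := by
    intro k e z
    refine Differentiable.analyticAt (f := fun s => B.Ph k (1 * s + lfc_c B k e)) ?_ z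
    exact (B.Ph_diff k).comp ((differentiable_id.const_mul _).add_const _)
  have hpt : ∀ s : ℂ, (analyticOrderNatAt B.H s : ℝ) ≤ ∑ k ∈ Finset.Icc 1 B.K,
      ((analyticOrderNatAt (B.Ph k) (1 * s + lfc_c B k true) : ℝ) +
        (analyticOrderNatAt (B.Ph k) (1 * s + lfc_c B k false) : ℝ)) := by
    intro s
    have h1 : analyticOrderNatAt B.H s ≤ ∑ k ∈ Finset.Icc 1 B.K,
        (analyticOrderNatAt (B.Ph k) (1 * s + lfc_c B k true) +
          analyticOrderNatAt (B.Ph k) (1 * s + lfc_c B k false)) := by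
      rw [hH]
      refine (ordNat_prod_le (Finset.Icc 1 B.K)
        (f := fun k s => (fun s => B.Ph k (1 * s + lfc_c B k true)) s * (fun s => B.Ph k (1 * s + lfc_c B k false)) s)
        (fun k _ => (han2 k true s).mul (han2 k false s))).trans (Finset.sum_le_sum fun k _ => ?_)
      refine (ordNat_mul_le (han2 k true s) (han2 k false s)).trans ?_
      rw [ordNat_affine (han k _) one_ne_zero, ordNat_affine (han k _) one_ne_zero]
    exact_mod_cast h1
  calc ∑ s ∈ S, (analyticOrderNatAt B.H s : ℝ)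
      ≤ ∑ s ∈ S, ∑ k ∈ Finset.Icc 1 B.K,
      ((analyticOrderNatAt (B.Ph k) (1 * s + lfc_c B k true) : ℝ) +
        (analyticOrderNatAt (B.Ph k) (1 * s + lfc_c B k false) : ℝ)) := Finset.sum_le_sum fun s _ => hpt s
    _ = ∑ k ∈ Finset.Icc 1 B.K, (∑ s ∈ S, (analyticOrderNatAt (B.Ph k) (1 * s + lfc_c B k true) : ℝ) +
        ∑ s ∈ S, (analyticOrderNatAt (B.Ph k) (1 * s + lfc_c B k false) : ℝ)) := by
        rw [Finset.sum_comm]
        exact Finset.sum_congr rfl fun k _ => Finset.sum_add_distrib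
    _ ≤ ∑ k ∈ Finset.Icc 1 B.K, (C * Real.exp (2 * B.R * X) + C * Real.exp (2 * B.R * X)) :=
        Finset.sum_le_sum fun k _ => add_le_add (lfc_shift B (hC B) k true hX S hS) (lfc_shift B (hC B) k false hX S hS)
    _ = 2 * C * B.K * Real.exp (2 * B.R * X) := by
        rw [Finset.sum_const, Nat.card_Icc, Nat.add_sub_cancel, nsmul_eq_mul]
        ring

theorem H_zero_re (B : Blk) {s : ℂ} (h : B.H s = 0) : s.re ≤ 1 - B.lam := by
  unfold Blk.H at h
  obtain ⟨k, hk, hk0⟩ := Finset.prod_eq_zero_iff.1 h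
  rw [Finset.mem_Icc] at hk
  have hk1 : (1 : ℝ) ≤ (k : ℝ) := by exact_mod_cast hk.1
  have hl := lfc_lam_pos B
  have hk2 : B.lam ≤ B.lam * (k : ℝ) ^ 2 := by
    have : (1 : ℝ) ≤ (k : ℝ) ^ 2 := one_le_pow₀ hk1
    nlinarith
  have key : ∀ z : ℂ, z.re = s.re - 1 + B.lam * (k : ℝ) ^ 2 → B.Ph k z = 0 → s.re ≤ 1 - B.lam := by
    intro z hz hz0
    by_contra hcon
    have hzp : 0 < z.re := by
      rw [hz]
      linarith
    have h1 := (B.Ph_log k hzp).2
    rw [hz0] at h1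
    exact Complex.exp_ne_zero _ h1.symm
  rcases mul_eq_zero.1 hk0 with h1 | h1
  · exact key _ (by rw [Complex.add_re, Complex.sub_re, Complex.sub_re, lfc_lamsq_re, lfc_Ig_re, Complex.one_re, sub_zero]) h1
  · exact key _ (by rw [Complex.add_re, Complex.add_re, Complex.sub_re, lfc_lamsq_re, lfc_Ig_re, Complex.one_re, add_zero]) h1

theorem H_zero_im (B : Blk) {s : ℂ} (hs : 0 ≤ s.re) (h : B.H s = 0) : B.g / 2 < |s.im| := by
  by_contra hcon
  have h1 := B.H_far hs (Or.inl (not_lt.1 hcon))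
  rw [h, zero_sub, norm_neg, norm_one] at h1
  have hK : (1 : ℝ) ≤ B.K := by
    have h1 := B.hK
    have h2 := B.hbR
    nlinarith
  have hE := Real.exp_pos (2 * B.R)
  have h2 := B.hg
  have h3 : 0 < 1024 * (B.K : ℝ) * Real.exp (2 * B.R) := by positivity
  have hg : 0 < B.g := lt_of_lt_of_le h3 h2
  rw [le_div_iff₀ hg] at h1
  have h4 : 0 < (B.K : ℝ) * Real.exp (2 * B.R) := by positivity
  nlinarith

end VQ
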