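import Pool.Agent.H15.VQ.Fprod

/-!
# LfD : splitting the infinite product, a sum over a sparse sequence

`FF_split`: the factors with `n ≥ N` are bounded away from zero for `|im s| ≤ (P N).g / 2` (`Blk.H_far`, `Sparse.g0`); the
shifted sequence `fun n => P (n + N)` is `Sparse` as well, so `FF_diff` and the other lemmas of `Fprod` hold for it
(`Multipliable.prod_mul_tprod_nat_mul'`, `multipliable_one_add_of_summable`, `tprod_one_add_ne_zero_of_summable`, compare
`FF_zero_loc` in `ZwD`). `sum_sparse`: induction on `N` for all `Y`. If `Y < y N` the last term is `≤ 0`, otherwise the last term is at most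
`M exp (y N)`, and the others vanish if `y N / 24 < 8 / 5` (`y` is nondecreasing), or are at most `2 M exp (y N / 24) ≤ M exp (y N)` in total
by the induction hypothesis for `Y = y N / 24`.
-/

set_option autoImplicit false

open Complex MeasureTheory Set Filter Topology

namespace VQ

variable {P : ℕ → Blk}

private theorem LfD_one_le_K (B : Blk) : (1 : ℝ) ≤ B.K := by
  have h1 := B.hK
  have h2 := B.hbR
  nlinarith

private theorem LfD_one_le_exp (B : Blk) : (1 : ℝ) ≤ Real.exp (2 * B.R) := by
  have h1 := B.hR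
  exact Real.one_le_exp (by linarith)

private theorem LfD_g_pos (hP : Sparse P) (n : ℕ) : 0 < (P n).g :=
  lt_of_lt_of_le (by positivity) (g_ge hP n)

private theorem LfD_err (hP : Sparse P) (n : ℕ) :
    64 * ((P n).K : ℝ) * Real.exp (2 * (P n).R) / (P n).g ≤ 1 / 16 * (1 / 2) ^ n := by
  rw [div_le_iff₀ (LfD_g_pos hP n)]
  have h1 := hP.g0 n
  have h2 : (1 / 2 : ℝ) ^ n * 2 ^ n = 1 := by
    rw [← mul_pow]; norm_num
  have h3 : (0 : ℝ) < (1 / 2) ^ n := by positivity
  have h4 := mul_le_mul_of_nonneg_left h1 h3.le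
  have h5 : (1 / 2 : ℝ) ^ n * (1024 * ((P n).K : ℝ) * Real.exp (2 * (P n).R) * 2 ^ n) =
      1024 * ((P n).K : ℝ) * Real.exp (2 * (P n).R) := by
    linear_combination (1024 * ((P n).K : ℝ) * Real.exp (2 * (P n).R)) * h2
  rw [h5] at h4
  linarith

private theorem LfD_far (hP : Sparse P) (n : ℕ) {s : ℂ} (hs : 0 ≤ s.re) (ht : |s.im| ≤ (P n).g / 2) :
    ‖(P n).H s - 1‖ ≤ 1 / 16 * (1 / 2) ^ n :=
  ((P n).H_far hs (Or.inl ht)).trans (LfD_err hP n)

private theorem LfD_sum (hP : Sparse P) {s : ℂ} (hs : 0 ≤ s.re) :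
    Summable fun n => ‖(P n).H s - 1‖ := by
  have hu : Summable fun n : ℕ => (1 / 16 : ℝ) * (1 / 2) ^ n :=
    (summable_geometric_of_lt_one (by norm_num) (by norm_num)).mul_left _
  refine Summable.of_norm_bounded_eventually_nat hu ?_
  have h1 : Tendsto (fun n : ℕ => (2 : ℝ) ^ n) atTop atTop := tendsto_pow_atTop_atTop_of_one_lt one_lt_two
  filter_upwards [h1.eventually_ge_atTop |s.im|] with n hn
  rw [norm_norm]
  refine LfD_far hP n hs ?_
  have h2 := g_ge hP n
  have h3 : (0 : ℝ) < 2 ^ n := by positivity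
  linarith

private theorem LfD_mono (hP : Sparse P) : Monotone fun n => (P n).g := by
  refine monotone_nat_of_le_succ fun k => ?_
  have h1 := hP.g k
  have h2 := LfD_one_le_K (P k)
  have h3 := LfD_g_pos hP k
  nlinarith [mul_le_mul_of_nonneg_right h2 h3.le]

private theorem LfD_half (n N : ℕ) : (1 / 2 : ℝ) ^ (n + N + 3) ≤ (1 / 2) ^ (n + 3) :=
  pow_le_pow_of_le_one (by norm_num) (by norm_num) (by omega)

theorem Sparse.shift (hP : Sparse P) (N : ℕ) : Sparse fun n => P (n + N) where
  eps0 := fun n => (hP.eps0 (n + N)).trans (LfD_half n N)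
  eps := fun j n hjn => (hP.eps (j + N) (n + N) (by omega)).trans (LfD_half n N)
  R := fun n => by
    have h := hP.R (n + N)
    rw [show n + N + 1 = n + 1 + N by omega] at h
    exact h
  b := fun n => by
    have h := hP.b (n + N)
    rw [show n + N + 1 = n + 1 + N by omega] at h
    exact h
  g := fun n => by
    have h := hP.g (n + N)
    rw [show n + N + 1 = n + 1 + N by omega] at h
    exact h
  g0 := fun n => by
    refine le_trans ?_ (hP.g0 (n + N))
    have h1 : (2 : ℝ) ^ n ≤ 2 ^ (n + N) := pow_le_pow_right₀ (by norm_num) (by omega)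
    exact mul_le_mul_of_nonneg_left h1 (by positivity)

theorem FF_split (hP : Sparse P) (N : ℕ) {s : ℂ} (hs : 0 ≤ s.re) :
    FF P s = (∏ n ∈ Finset.range N, (P n).H s) * FF (fun n => P (n + N)) s := by
  have h1 : Multipliable fun n => (P (n + N)).H s := by
    have h2 := multipliable_one_add_of_summable (LfD_sum (hP.shift N) hs)
    refine h2.congr fun n => ?_
    ring
  have h3 := Multipliable.prod_mul_tprod_nat_mul' (f := fun n => (P n).H s) (k := N) h1
  exact h3.symm

theorem FF_ne_zero (hP : Sparse P) {s : ℂ} (hs : 0 ≤ s.re) (h : |s.im| ≤ (P 0).g / 2) : FF P s ≠ 0 := by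
  have h1 : ∀ n, ‖(P n).H s - 1‖ ≤ 1 / 16 * (1 / 2) ^ n := by
    intro n
    refine LfD_far hP n hs (h.trans ?_)
    have h2 : (P 0).g ≤ (P n).g := LfD_mono hP (Nat.zero_le n)
    linarith
  have h2 : ∀ n, (P n).H s ≠ 0 := by
    intro n h0
    have h3 := h1 n
    rw [h0, zero_sub, norm_neg, norm_one] at h3
    have h4 : (1 / 2 : ℝ) ^ n ≤ 1 := pow_le_one₀ (by norm_num) (by norm_num)
    linarith
  have h3 : (∏' n, (1 + ((P n).H s - 1))) ≠ 0 :=
    tprod_one_add_ne_zero_of_summable (fun n => by rw [add_sub_cancel]; exact h2 n) (LfD_sum hP hs)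
  intro h0
  apply h3
  rw [← h0]
  unfold FF
  exact tprod_congr fun n => by ring

theorem sum_sparse {a y : ℕ → ℝ} {M : ℝ} (hM : 0 ≤ M) (hy0 : ∀ n, 0 ≤ y n) (hy : ∀ n, 24 * y n ≤ y (n + 1)) (N : ℕ) :
    ∀ Y : ℝ, (∀ n, n < N → a n ≤ M * Real.exp (y n)) → (∀ n, n < N → y n < 8 / 5 → a n ≤ 0) →
      (∀ n, n < N → Y < y n → a n ≤ 0) → ∑ n ∈ Finset.range N, a n ≤ 2 * M * Real.exp Y := by
  have hmono : Monotone y := monotone_nat_of_le_succ fun n => by
    have h1 := hy n
    have h2 := hy0 n
    linarith
  have hlt : ∀ n m, n < m → y n ≤ y m / 24 := by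
    intro n m hnm
    have h1 : y n ≤ y (m - 1) := hmono (by omega)
    have h2 := hy (m - 1)
    rw [show m - 1 + 1 = m by omega] at h2
    linarith
  induction N with
  | zero =>
    intro Y _ _ _
    rw [Finset.range_zero, Finset.sum_empty]
    positivity
  | succ N ih =>
    intro Y h1 h2 h3
    rw [Finset.sum_range_succ]
    rcases lt_or_ge Y (y N) with hY | hY
    · have h4 := ih Y (fun n hn => h1 n (by omega)) (fun n hn => h2 n (by omega)) (fun n hn => h3 n (by omega))
      have h5 := h3 N (by omega) hY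
      linarith
    · have h5 : a N ≤ M * Real.exp Y :=
        (h1 N (by omega)).trans (mul_le_mul_of_nonneg_left (Real.exp_le_exp.2 hY) hM)
      have h6 : ∑ n ∈ Finset.range N, a n ≤ M * Real.exp Y := by
        rcases lt_or_ge (y N / 24) (8 / 5) with h7 | h7
        · have h8 : ∑ n ∈ Finset.range N, a n ≤ 0 := by
            refine Finset.sum_nonpos fun n hn => ?_
            have hn' := Finset.mem_range.1 hn
            exact h2 n (by omega) ((hlt n N hn').trans_lt h7)
          have h9 : 0 ≤ M * Real.exp Y := by positivity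
          linarith
        · have h8 := ih (y N / 24) (fun n hn => h1 n (by omega)) (fun n hn => h2 n (by omega))
            (fun n hn hYn => absurd (hlt n N hn) (not_le.2 hYn))
          refine h8.trans ?_
          have h9 : 2 * Real.exp (y N / 24) ≤ Real.exp Y := by
            have h10 : (2 : ℝ) ≤ Real.exp (y N - y N / 24) := by
              have h11 := Real.add_one_le_exp (y N - y N / 24)
              linarith
            calc 2 * Real.exp (y N / 24) ≤ Real.exp (y N - y N / 24) * Real.exp (y N / 24) :=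
                  mul_le_mul_of_nonneg_right h10 (Real.exp_pos _).le
              _ = Real.exp (y N) := by rw [← Real.exp_add]; congr 1; ring
              _ ≤ Real.exp Y := Real.exp_le_exp.2 hY
          calc 2 * M * Real.exp (y N / 24) = M * (2 * Real.exp (y N / 24)) := by ring
            _ ≤ M * Real.exp Y := mul_le_mul_of_nonneg_left h9 hM
      linarith

end VQ
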