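import Pool.Agent.H15.VQ.LfC
import Pool.Agent.H15.VQ.LfD
import Pool.Agent.H15.VQ.ParW

/-!
# LfE : the log-free density bound for `FF`

Let `X = 1 - σ`. Choose `N` with `T ≤ (P N).g / 2` (`g_ge`). The order of `FF P` at `ρ ∈ S` is at most the sum of the orders of `(P n).H`,
`n < N` (`FF_split` on the open set `re s > 0`, which gives the equality of germs, `ordNat_mul_le`, `ordNat_prod_le`; the second factor of
`FF_split` is analytic by `FF_diff` and not zero by `FF_ne_zero`, so its order is `0`). Interchange the sums and let `a n` be the sum over `ρ ∈ S` of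
the order of `(P n).H` at `ρ`, and `y n = 2 R n X`. `a n ≤ C 64000 exp (y n)` (`H_dens`, `ParW.K`). If `a n > 0`, some `ρ ∈ S` is a zero of `(P n).H`, so
`lam n ≤ X`, that is `8 / 5 ≤ y n` (`H_zero_re`), and `g n / 2 < |ρ.im| ≤ T` (`H_zero_im`), so `2 R n = ω (g n / 2) ≤ ω T` (`ParW.R`, `hm`, `g n / 2 ≥ 3`)
and `y n ≤ ω T * X`. Then `sum_sparse` with `Y = ω T * X` (`Sparse.R` gives `24 y n ≤ y (n + 1)`).
-/

set_option autoImplicit false

open Complex MeasureTheory Set Filter Topology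

namespace VQ

variable {P : ℕ → Blk} {ω : ℝ → ℝ}

/-- the order at a point where the function does not vanish -/
private theorem ordNat_zero {f : ℂ → ℂ} {z : ℂ} (hf : AnalyticAt ℂ f z) (h : f z ≠ 0) :
    analyticOrderNatAt f z = 0 := by
  unfold analyticOrderNatAt
  rw [hf.analyticOrderAt_eq_zero.2 h]
  rfl

/-- the order of `FF P` is at most the sum of the orders of the first factors -/
private theorem ord_FF_le (hP : Sparse P) (N : ℕ) {ρ : ℂ} (h0 : 0 < ρ.re) (hN : |ρ.im| ≤ (P N).g / 2) :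
    analyticOrderNatAt (FF P) ρ ≤ ∑ n ∈ Finset.range N, analyticOrderNatAt (P n).H ρ := by
  have hU : {s : ℂ | 0 < s.re} ∈ 𝓝 ρ := (isOpen_lt continuous_const Complex.continuous_re).mem_nhds h0
  have h1 : FF P =ᶠ[𝓝 ρ] fun s => (∏ n ∈ Finset.range N, (P n).H s) * FF (fun n => P (n + N)) s := by
    filter_upwards [hU] with s hs
    exact FF_split hP N (le_of_lt hs)
  have hH : ∀ n ∈ Finset.range N, AnalyticAt ℂ (P n).H ρ := fun n _ => (P n).H_diff.analyticAt ρ
  have hQ : Sparse fun n => P (n + N) := hP.shift N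
  have hF : AnalyticAt ℂ (FF fun n => P (n + N)) ρ := (FF_diff hQ).analyticAt hU
  have hne : FF (fun n => P (n + N)) ρ ≠ 0 := by
    refine FF_ne_zero hQ h0.le ?_
    simpa using hN
  have hp : AnalyticAt ℂ (fun s => ∏ n ∈ Finset.range N, (P n).H s) ρ := by
    have hd : Differentiable ℂ (fun s => ∏ n ∈ Finset.range N, (P n).H s) :=
      Differentiable.fun_finsetProd fun n _ => (P n).H_diff
    exact hd.analyticAt ρ
  have h2 : analyticOrderNatAt (FF P) ρ =
      analyticOrderNatAt (fun s => (∏ n ∈ Finset.range N, (P n).H s) * FF (fun n => P (n + N)) s) ρ := by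
    unfold analyticOrderNatAt
    rw [analyticOrderAt_congr h1]
  rw [h2]
  refine (ordNat_mul_le hp hF).trans ?_
  rw [ordNat_zero hF hne, add_zero]
  exact ordNat_prod_le (Finset.range N) hH

theorem FF_dens (hm : MonotoneOn ω (Ici 3)) (hP : Sparse P) (hc : ∀ n, ParW ω (P n)) :
    ∃ A : ℝ, 0 ≤ A ∧ ∀ σ T : ℝ, 1 / 2 < σ → σ ≤ 1 → 3 ≤ T → ∀ S : Finset ℂ,
      (∀ ρ ∈ S, σ ≤ ρ.re ∧ |ρ.im| ≤ T) →
      ∑ ρ ∈ S, (analyticOrderNatAt (FF P) ρ : ℝ) ≤ A * Real.exp (ω T * (1 - σ)) := by
  obtain ⟨C, hC0, hC⟩ := H_dens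
  refine ⟨2 * (C * 64000), by positivity, ?_⟩
  intro σ T hσ hσ1 hT S hS
  have hX : 0 ≤ 1 - σ := by linarith
  have hR1 : ∀ n, 1 ≤ (P n).R := fun n => (P n).hR
  have hg : ∀ n, 1024 ≤ (P n).g := by
    intro n
    have h1 := g_ge hP n
    have h2 : (1 : ℝ) ≤ 2 ^ n := one_le_pow₀ (by norm_num)
    linarith
  obtain ⟨N, hN⟩ : ∃ N : ℕ, T < 2 ^ N := pow_unbounded_of_one_lt T (by norm_num)
  have hNg : T ≤ (P N).g / 2 := by
    have h1 := g_ge hP N
    have h2 : (0 : ℝ) < 2 ^ N := by positivity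
    linarith
  -- zeros of the factors
  have hz : ∀ n, ∀ ρ ∈ S, analyticOrderNatAt (P n).H ρ ≠ 0 →
      8 / 5 ≤ 2 * (P n).R * (1 - σ) ∧ 2 * (P n).R * (1 - σ) ≤ ω T * (1 - σ) := by
    intro n ρ hρ ho
    obtain ⟨h1, h2⟩ := hS ρ hρ
    have h0 : (P n).H ρ = 0 := by
      by_contra hne
      exact ho (ordNat_zero ((P n).H_diff.analyticAt ρ) hne)
    have hRp : 0 < (P n).R := by linarith [hR1 n]
    constructor
    · have h3 := H_zero_re (P n) h0
      have h4 : (P n).lam ≤ 1 - σ := by linarith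
      unfold Blk.lam at h4
      rw [div_le_iff₀ (by positivity)] at h4
      linarith
    · have h3 := H_zero_im (P n) (by linarith : 0 ≤ ρ.re) h0
      have h4 : (P n).g / 2 ≤ T := by linarith
      have h5 : ω ((P n).g / 2) ≤ ω T := by
        refine hm ?_ ?_ h4
        · show (3 : ℝ) ≤ (P n).g / 2
          linarith [hg n]
        · exact hT
      have h6 : 2 * (P n).R = ω ((P n).g / 2) := by
        rw [(hc n).R]; ring
      rw [h6]
      exact mul_le_mul_of_nonneg_right h5 hX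
  have hsum : ∑ n ∈ Finset.range N, ∑ ρ ∈ S, (analyticOrderNatAt (P n).H ρ : ℝ) ≤
      2 * (C * 64000) * Real.exp (ω T * (1 - σ)) := by
    refine sum_sparse (a := fun n => ∑ ρ ∈ S, (analyticOrderNatAt (P n).H ρ : ℝ))
      (y := fun n => 2 * (P n).R * (1 - σ)) (M := C * 64000) (by positivity) ?_ ?_ N _ ?_ ?_ ?_
    · intro n
      have := hR1 n
      positivity
    · intro n
      have h1 := mul_le_mul_of_nonneg_right (hP.R n) hX
      show 24 * (2 * (P n).R * (1 - σ)) ≤ 2 * (P (n + 1)).R * (1 - σ)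
      linarith
    · intro n _
      have h1 := hC (P n) (1 - σ) hX S (fun s hs => by linarith [(hS s hs).1])
      rw [(hc n).K] at h1
      exact_mod_cast h1
    · intro n _ hlt
      refine Finset.sum_nonpos fun ρ hρ => ?_
      by_contra hcon
      have ho : analyticOrderNatAt (P n).H ρ ≠ 0 := by
        intro h
        rw [h] at hcon
        simp at hcon
      have := (hz n ρ hρ ho).1
      have hlt' : 2 * (P n).R * (1 - σ) < 8 / 5 := hlt
      linarith
    · intro n _ hlt
      refine Finset.sum_nonpos fun ρ hρ => ?_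
      by_contra hcon
      have ho : analyticOrderNatAt (P n).H ρ ≠ 0 := by
        intro h
        rw [h] at hcon
        simp at hcon
      have := (hz n ρ hρ ho).2
      have hlt' : ω T * (1 - σ) < 2 * (P n).R * (1 - σ) := hlt
      linarith
  refine le_trans ?_ hsum
  rw [Finset.sum_comm]
  refine Finset.sum_le_sum fun ρ hρ => ?_
  obtain ⟨h1, h2⟩ := hS ρ hρ
  have h3 := ord_FF_le hP N (ρ := ρ) (by linarith) (h2.trans hNg)
  exact_mod_cast h3

end VQ
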