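import Pool.Agent.H15.VQ.Ren
import Pool.Agent.H15.VQ.Theta

/-!
# Mb : bounds for the density `m` of a block

For `0 < y < R` the terms with `r1` vanish, `y * ck k y = (-1)^k (1 - exp (- b y))`.
-/

set_option autoImplicit false

open Complex MeasureTheory Set Filter Topology

namespace VQ

namespace Blk

variable (P : Blk)

private theorem ck_small (k : ℕ) {y : ℝ} (hyR : y < P.R) :
    P.ck k y = (-1) ^ k * ((1 - Real.exp (-P.b * y)) / y) := by
  have hR : 0 < P.R := by linarith [P.hR]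
  have h1 : r1 (y / P.R) = 0 := r1_eq_zero (by rw [div_lt_one hR]; exact hyR)
  unfold ck
  by_cases hk : Even k
  · rw [if_pos hk, h1, hk.neg_one_pow]; ring
  · rw [if_neg hk, h1, (Nat.not_even_iff_odd.mp hk).neg_one_pow]; ring

private theorem q_bd {y : ℝ} (hy : 0 < y) :
    0 ≤ (1 - Real.exp (-P.b * y)) / y ∧ (1 - Real.exp (-P.b * y)) / y ≤ P.b := by
  have h1 := Real.add_one_le_exp (-P.b * y)
  have h2 : Real.exp (-P.b * y) ≤ 1 := by
    rw [Real.exp_le_one_iff]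
    have := mul_pos P.hb hy
    linarith
  refine ⟨div_nonneg (by linarith) hy.le, ?_⟩
  rw [div_le_iff₀ hy]
  linarith

theorem m_small {y : ℝ} (hy : 0 < y) (hyR : y < P.R) : |P.m y| ≤ 2 * P.K * P.b := by
  obtain ⟨hq0, hq1⟩ := P.q_bd hy
  unfold m
  have hterm : ∀ k ∈ Finset.Icc 1 P.K,
      |2 * Real.cos (k * P.g * y) * Real.exp (-P.lam * (k : ℝ) ^ 2 * y) * P.ck k y| ≤ 2 * P.b := by
    intro k _
    rw [P.ck_small k hyR]
    have hR : 0 < P.R := by linarith [P.hR]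
    have hlam : 0 ≤ P.lam := by unfold lam; positivity
    have h1 : Real.exp (-P.lam * (k : ℝ) ^ 2 * y) ≤ 1 := by
      rw [Real.exp_le_one_iff]
      have : 0 ≤ P.lam * (k : ℝ) ^ 2 * y := by positivity
      linarith
    have h2 := Real.abs_cos_le_one (k * P.g * y)
    rw [abs_mul, abs_mul, abs_mul, abs_mul, abs_pow, abs_neg, abs_one, one_pow, one_mul,
      abs_of_nonneg hq0, abs_of_pos (Real.exp_pos _), abs_of_pos (by norm_num : (0 : ℝ) < 2)]
    calc 2 * |Real.cos (k * P.g * y)| * Real.exp (-P.lam * (k : ℝ) ^ 2 * y) *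
          ((1 - Real.exp (-P.b * y)) / y) ≤ 2 * 1 * 1 * P.b := by
          gcongr
      _ = 2 * P.b := by ring
  calc |∑ k ∈ Finset.Icc 1 P.K, 2 * Real.cos (k * P.g * y) * Real.exp (-P.lam * (k : ℝ) ^ 2 * y) *
        P.ck k y| ≤ ∑ k ∈ Finset.Icc 1 P.K,
        |2 * Real.cos (k * P.g * y) * Real.exp (-P.lam * (k : ℝ) ^ 2 * y) * P.ck k y| :=
        Finset.abs_sum_le_sum_abs _ _
    _ ≤ ∑ k ∈ Finset.Icc 1 P.K, 2 * P.b := Finset.sum_le_sum hterm
    _ = 2 * P.K * P.b := by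
        rw [Finset.sum_const, Nat.card_Icc, nsmul_eq_mul]
        simp
        ring

/-- `theta_lower` with `a = lam y`; `2 (1 - exp (-b y)) / (lam K y) ≤ 2 b / (lam K) ≤ 1 / 800` and `b ≤ lam K²`
(`lam = 4 / (5 R)`, `K ≥ 2000 b R`; the proof is the one of `Pool/Agent/H15/VO/Mb.lean` with other constants) -/
theorem m_lower {y : ℝ} (hy : 0 < y) (hyR : y < P.R) :
    -(1 - Real.exp (-P.b * y)) - 1 / 800 * Real.exp (-P.b * y) ≤ y * P.m y := by
  obtain ⟨hq0, hq1⟩ := P.q_bd hy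
  have hR : 0 < P.R := by linarith [P.hR]
  have hb := P.hb
  have hlam : 0 < P.lam := by unfold lam; positivity
  have hKr : 2000 * P.b * P.R ≤ (P.K : ℝ) := P.hK
  have hK0 : 2 ≤ (P.K : ℝ) := by nlinarith [P.hbR]
  have hK1 : 1 ≤ P.K := by
    have : (1 : ℝ) ≤ (P.K : ℝ) := by linarith
    exact_mod_cast this
  have hth := theta_lower (mul_pos hlam hy) (P.g * y) hK1
  have e1 : y * P.m y = (1 - Real.exp (-P.b * y)) * ∑ k ∈ Finset.Icc 1 P.K,
      2 * (-1 : ℝ) ^ k * Real.exp (-(P.lam * y) * (k : ℝ) ^ 2) * Real.cos (k * (P.g * y)) := by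
    unfold m
    rw [Finset.mul_sum, Finset.mul_sum]
    apply Finset.sum_congr rfl
    intro k _
    rw [P.ck_small k hyR]
    have a1 : -P.lam * (k : ℝ) ^ 2 * y = -(P.lam * y) * (k : ℝ) ^ 2 := by ring
    have a2 : (k : ℝ) * P.g * y = k * (P.g * y) := by ring
    rw [a1, a2]
    field_simp
  have hw0 : 0 ≤ 1 - Real.exp (-P.b * y) := by
    have := mul_nonneg hq0 hy.le
    rwa [div_mul_cancel₀ _ hy.ne'] at this
  have hw1 : 1 - Real.exp (-P.b * y) ≤ P.b * y := by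
    have := Real.add_one_le_exp (-P.b * y)
    linarith
  have hK2 : 0 < (P.K : ℝ) := by linarith
  have hlK : 1600 * P.b ≤ P.lam * P.K := by
    have hl : P.lam * P.K = 4 * P.K / (5 * P.R) := by unfold lam; ring
    rw [hl, le_div_iff₀ (by positivity)]
    nlinarith
  have e2 : (1 - Real.exp (-P.b * y)) * (2 * Real.exp (-(P.lam * y) * (P.K : ℝ) ^ 2) /
      (P.lam * y * P.K)) ≤ 1 / 800 * Real.exp (-P.b * y) := by
    have hE : Real.exp (-(P.lam * y) * (P.K : ℝ) ^ 2) ≤ Real.exp (-P.b * y) := by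
      rw [Real.exp_le_exp]
      have : P.b ≤ P.lam * (P.K : ℝ) ^ 2 := by
        have h2 : P.lam * (P.K : ℝ) ^ 2 = (P.lam * P.K) * P.K := by ring
        rw [h2]
        nlinarith
      nlinarith
    have hc : (1 - Real.exp (-P.b * y)) * 2 / (P.lam * y * P.K) ≤ 1 / 800 := by
      rw [div_le_iff₀ (by positivity)]
      nlinarith
    calc (1 - Real.exp (-P.b * y)) * (2 * Real.exp (-(P.lam * y) * (P.K : ℝ) ^ 2) /
        (P.lam * y * P.K)) = ((1 - Real.exp (-P.b * y)) * 2 / (P.lam * y * P.K)) *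
        Real.exp (-(P.lam * y) * (P.K : ℝ) ^ 2) := by ring
      _ ≤ 1 / 800 * Real.exp (-P.b * y) :=
        mul_le_mul hc hE (Real.exp_pos _).le (by norm_num)
  rw [e1]
  nlinarith [mul_le_mul_of_nonneg_left hth hw0]

/-- the majorant of the harmonics -/
private noncomputable def cc (A : ℝ) (k : ℕ) : ℝ :=
  if k = 1 then 1 else if k = 2 then A ^ 3 else A ^ 8 * (1 / 4) ^ (k - 3)

private theorem cc_sum (A : ℝ) (n : ℕ) :
    ∑ k ∈ Finset.Icc 1 (n + 2), cc A k = 1 + A ^ 3 + A ^ 8 * (4 / 3) * (1 - (1 / 4) ^ n) := by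
  induction n with
  | zero =>
    rw [Finset.sum_Icc_succ_top (by omega), Finset.sum_Icc_succ_top (by omega)]
    simp [cc]
  | succ n ih =>
    rw [Finset.sum_Icc_succ_top (by omega), ih]
    have h : cc A (n + 1 + 2) = A ^ 8 * (1 / 4) ^ n := by
      unfold cc
      rw [if_neg (by omega), if_neg (by omega)]
      have : n + 1 + 2 - 3 = n := by omega
      rw [this]
    rw [show n + 2 + 1 = n + 1 + 2 by ring] at *
    rw [h, pow_succ]
    ring

private theorem A_le : Real.exp (-(4 / 5)) ≤ 4494 / 10000 := by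
  have h1 : Real.exp (-(4 / 5)) ^ 5 = Real.exp (-1) ^ 4 := by
    rw [← Real.exp_nat_mul, ← Real.exp_nat_mul]
    congr 1
    push_cast
    ring
  have h2 : Real.exp (-1) ^ 4 ≤ (0.3678794412 : ℝ) ^ 4 :=
    pow_le_pow_left₀ (Real.exp_pos _).le Real.exp_neg_one_lt_d9.le 4
  have h3 : Real.exp (-(4 / 5)) ^ 5 ≤ (4494 / 10000 : ℝ) ^ 5 := by
    rw [h1]
    refine h2.trans ?_
    norm_num
  exact (pow_le_pow_iff_left₀ (Real.exp_pos _).le (by norm_num) (by norm_num)).1 h3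

/-- `v² exp (- c v) ≤ exp (- c)` for `c ≥ 2` and `v ≥ 1` -/
private theorem sq_exp {v c : ℝ} (hv : 1 ≤ v) (hc : 2 ≤ c) : v ^ 2 * Real.exp (-c * v) ≤ Real.exp (-c) := by
  have h1 : v ≤ Real.exp (v - 1) := by
    have := Real.add_one_le_exp (v - 1)
    linarith
  have h2 : v ^ 2 ≤ Real.exp (v - 1) ^ 2 := pow_le_pow_left₀ (by linarith) h1 2
  have h3 : Real.exp (v - 1) ^ 2 ≤ Real.exp (c * (v - 1)) := by
    rw [← Real.exp_nat_mul, Real.exp_le_exp]
    push_cast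
    nlinarith
  calc v ^ 2 * Real.exp (-c * v) ≤ Real.exp (c * (v - 1)) * Real.exp (-c * v) :=
        mul_le_mul_of_nonneg_right (h2.trans h3) (Real.exp_pos _).le
    _ = Real.exp (-c) := by
        rw [← Real.exp_add]
        congr 1
        ring

private theorem cc_bound {k : ℕ} (hk : 2 ≤ k) :
    Real.exp (-(4 / 5 * ((k : ℝ) ^ 2 - 1))) ≤ cc (Real.exp (-(4 / 5))) k := by
  unfold cc
  rw [if_neg (by omega)]
  split_ifs with h2
  · rw [h2, ← Real.exp_nat_mul, Real.exp_le_exp]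
    push_cast
    norm_num
  · obtain ⟨j, rfl⟩ : ∃ j, k = j + 3 := ⟨k - 3, by omega⟩
    rw [Nat.add_sub_cancel]
    set A := Real.exp (-(4 / 5)) with hA
    have hA0 : 0 < A := Real.exp_pos _
    have hA1 : A ≤ 1 / 2 := by
      have := A_le
      rw [← hA] at this
      linarith
    have h6 : A ^ 6 ≤ 1 / 4 := by
      have : A ^ 6 ≤ (1 / 2) ^ 6 := pow_le_pow_left₀ hA0.le hA1 6
      refine this.trans (by norm_num)
    have h7 : (A ^ 6) ^ j ≤ (1 / 4) ^ j := pow_le_pow_left₀ (by positivity) h6 j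
    have h8 : Real.exp (-(4 / 5 * (((j + 3 : ℕ) : ℝ) ^ 2 - 1))) ≤ A ^ 8 * (A ^ 6) ^ j := by
      have e1 : A ^ 8 * (A ^ 6) ^ j = Real.exp (((8 + 6 * j : ℕ) : ℝ) * (-(4 / 5))) := by
        rw [Real.exp_nat_mul, ← hA, pow_add, pow_mul]
      rw [e1, Real.exp_le_exp]
      push_cast
      nlinarith [sq_nonneg (j : ℝ)]
    exact h8.trans (mul_le_mul_of_nonneg_left h7 (by positivity))

/-- With `v = y / R ≥ 1`, `b y = 32 v` at least: for odd `k` `|y ck k y| ≤ 1 + exp (-32 v) v²`, for even `k` `|y ck k y| ≤ v²`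
(`0 ≤ r1 v ≤ v`), so `y |m y| ≤ 2 exp (-(4/5) v) (1 + exp (-32 v) v²) + 2 exp (-(16/5) v) v² + 2 ∑_{k ≥ 3} exp (-(4/5) k² v) (1 + v²)`; at
`v = 1` this is `0.89866 + 0.08153 + 0.00150 + 0.00001 < 0.983`, and every term decreases at least as fast as `exp (-(4/5) v)`. -/
theorem m_large {y : ℝ} (hyR : P.R ≤ y) :
    y * |P.m y| ≤ 983 / 1000 * Real.exp (-(4 / 5) * (y / P.R - 1)) := by
  have hR : 0 < P.R := by linarith [P.hR]
  have hy : 0 < y := by linarith
  have hb := P.hb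
  have hbR := P.hbR
  obtain ⟨hq0, hq1⟩ := P.q_bd hy
  have hv1 : 1 ≤ y / P.R := by rwa [one_le_div hR]
  have hyv : y = (y / P.R) * P.R := by field_simp
  have hlv : P.lam * y = 4 / 5 * (y / P.R) := by
    unfold lam
    field_simp
  generalize hv : y / P.R = v at hv1 hyv hlv
  have hEv : Real.exp (-P.b * y) ≤ Real.exp (-32 * v) := by
    rw [Real.exp_le_exp, hyv]
    nlinarith [mul_le_mul_of_nonneg_right hbR (by linarith : (0 : ℝ) ≤ v)]
  have hEs : v ^ 2 * Real.exp (-32 * v) ≤ 1 / 10000 := by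
    refine (sq_exp hv1 (by norm_num)).trans ?_
    have h1 : Real.exp (-32) = Real.exp (-1) ^ 32 := by
      rw [← Real.exp_nat_mul]
      congr 1
      push_cast
      ring
    have h2 : Real.exp (-1) ≤ 1 / 2 := by
      have := Real.exp_neg_one_lt_d9
      linarith
    rw [h1]
    refine (pow_le_pow_left₀ (Real.exp_pos _).le h2 32).trans ?_
    norm_num
  have hE0 := Real.exp_pos (-P.b * y)
  have hv2 : 1 ≤ v ^ 2 := by nlinarith
  have hE3 : v ^ 2 * Real.exp (-P.b * y) ≤ 1 / 10000 :=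
    (mul_le_mul_of_nonneg_left hEv (by positivity)).trans hEs
  have hE1 : Real.exp (-P.b * y) ≤ 1 / 10000 := by nlinarith
  have hr0 : 0 ≤ r1 v := r1_nonneg v
  have hr1 : r1 v ≤ v := r1_le (by linarith)
  have hyr : y * (r1 v / P.R) = v * r1 v := by
    rw [hyv]
    field_simp
  have hyq : y * ((1 - Real.exp (-P.b * y)) / y) = 1 - Real.exp (-P.b * y) := by field_simp
  have hvr : v * r1 v ≤ v ^ 2 := by nlinarith
  have hvr0 : 0 ≤ v * r1 v := by positivity
  have hodd : ∀ k : ℕ, ¬ Even k → |y * P.ck k y| ≤ 1 + 1 / 10000 := by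
    intro k hk
    unfold ck
    rw [hv, if_neg hk]
    have e : y * (-((1 - Real.exp (-P.b * y)) / y) - Real.exp (-P.b * y) * (r1 v / P.R)) =
        -(y * ((1 - Real.exp (-P.b * y)) / y)) - Real.exp (-P.b * y) * (y * (r1 v / P.R)) := by
      ring
    rw [e, hyq, hyr, abs_le]
    have h1 : Real.exp (-P.b * y) * (v * r1 v) ≤ Real.exp (-P.b * y) * v ^ 2 :=
      mul_le_mul_of_nonneg_left hvr hE0.le
    have h2 : 0 ≤ Real.exp (-P.b * y) * (v * r1 v) := by positivity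
    constructor <;> linarith
  have hck : ∀ k : ℕ, |y * P.ck k y| ≤ (1 + 1 / 10000) * v ^ 2 := by
    intro k
    by_cases hk : Even k
    · unfold ck
      rw [hv, if_pos hk, mul_sub, hyq, hyr, abs_le]
      constructor <;> linarith
    · refine (hodd k hk).trans ?_
      linarith
  set A := Real.exp (-(4 / 5)) with hA
  have hA0 : 0 < A := Real.exp_pos _
  have hA1 : A ≤ 4494 / 10000 := A_le
  have hexpv := Real.exp_pos (-(4 / 5) * v)
  have hterm : ∀ k ∈ Finset.Icc 1 P.K,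
      |y * (2 * Real.cos (k * P.g * y) * Real.exp (-P.lam * (k : ℝ) ^ 2 * y) * P.ck k y)| ≤
      2 * (1 + 1 / 10000) * Real.exp (-(4 / 5) * v) * cc A k := by
    intro k hk
    rw [Finset.mem_Icc] at hk
    have h2 := Real.abs_cos_le_one (k * P.g * y)
    have e2 : y * (2 * Real.cos (k * P.g * y) * Real.exp (-P.lam * (k : ℝ) ^ 2 * y) * P.ck k y) =
        2 * Real.cos (k * P.g * y) * Real.exp (-P.lam * (k : ℝ) ^ 2 * y) * (y * P.ck k y) := by ring
    rw [e2, abs_mul, abs_mul, abs_mul, abs_of_pos (Real.exp_pos _),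
      abs_of_pos (by norm_num : (0 : ℝ) < 2)]
    have e3 : -P.lam * (k : ℝ) ^ 2 * y = -(4 / 5) * v + -(4 / 5 * ((k : ℝ) ^ 2 - 1)) * v := by
      have : -P.lam * (k : ℝ) ^ 2 * y = -(P.lam * y) * (k : ℝ) ^ 2 := by ring
      rw [this, hlv]
      ring
    have key : Real.exp (-P.lam * (k : ℝ) ^ 2 * y) * |y * P.ck k y| ≤
        (1 + 1 / 10000) * Real.exp (-(4 / 5) * v) * cc A k := by
      rw [e3, Real.exp_add]
      rcases eq_or_lt_of_le hk.1 with h | h
      · have hc1 : cc A k = 1 := by rw [← h]; simp [cc]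
        have hk1 : ((k : ℝ) ^ 2 - 1) = 0 := by rw [← h]; norm_num
        rw [hc1, hk1]
        have h3 := hodd k (by rw [← h]; decide)
        have h4 : Real.exp (-(4 / 5) * v) * Real.exp (-(4 / 5 * 0) * v) = Real.exp (-(4 / 5) * v) := by
          rw [mul_zero, neg_zero, zero_mul, Real.exp_zero, mul_one]
        rw [h4]
        nlinarith
      · have h3 := hck k
        have h4 := cc_bound (k := k) h
        rw [← hA] at h4
        have hk2 : (2 : ℝ) ≤ k := by exact_mod_cast h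
        have h5 := sq_exp hv1 (c := 4 / 5 * ((k : ℝ) ^ 2 - 1)) (by nlinarith)
        have h6 : 0 < Real.exp (-(4 / 5 * ((k : ℝ) ^ 2 - 1)) * v) := Real.exp_pos _
        calc Real.exp (-(4 / 5) * v) * Real.exp (-(4 / 5 * ((k : ℝ) ^ 2 - 1)) * v) * |y * P.ck k y|
            ≤ Real.exp (-(4 / 5) * v) * Real.exp (-(4 / 5 * ((k : ℝ) ^ 2 - 1)) * v) *
              ((1 + 1 / 10000) * v ^ 2) := mul_le_mul_of_nonneg_left h3 (by positivity)
          _ = (1 + 1 / 10000) * Real.exp (-(4 / 5) * v) *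
              (v ^ 2 * Real.exp (-(4 / 5 * ((k : ℝ) ^ 2 - 1)) * v)) := by ring
          _ ≤ (1 + 1 / 10000) * Real.exp (-(4 / 5) * v) * cc A k :=
              mul_le_mul_of_nonneg_left (h5.trans h4) (by positivity)
    have h7 : 0 ≤ Real.exp (-P.lam * (k : ℝ) ^ 2 * y) * |y * P.ck k y| := by positivity
    calc 2 * |Real.cos (k * P.g * y)| * Real.exp (-P.lam * (k : ℝ) ^ 2 * y) * |y * P.ck k y|
        = |Real.cos (k * P.g * y)| * (2 * (Real.exp (-P.lam * (k : ℝ) ^ 2 * y) * |y * P.ck k y|)) := by ring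
      _ ≤ 1 * (2 * (Real.exp (-P.lam * (k : ℝ) ^ 2 * y) * |y * P.ck k y|)) :=
          mul_le_mul_of_nonneg_right h2 (by positivity)
      _ ≤ 2 * (1 + 1 / 10000) * Real.exp (-(4 / 5) * v) * cc A k := by linarith
  have hK2 : 2 ≤ P.K := by
    have h1 : (2 : ℝ) ≤ (P.K : ℝ) := by
      have := P.hK
      nlinarith
    exact_mod_cast h1
  have hccs : ∑ k ∈ Finset.Icc 1 P.K, cc A k ≤ 1 + A ^ 3 + A ^ 8 * (4 / 3) := by
    obtain ⟨n, hn⟩ : ∃ n, P.K = n + 2 := ⟨P.K - 2, by omega⟩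
    rw [hn, cc_sum]
    have h1 : (0 : ℝ) ≤ (1 / 4) ^ n := by positivity
    have h2 : 0 ≤ A ^ 8 * (4 / 3) := by positivity
    nlinarith
  have hsum : y * |P.m y| ≤ 2 * (1 + 1 / 10000) * Real.exp (-(4 / 5) * v) *
      (1 + A ^ 3 + A ^ 8 * (4 / 3)) := by
    have e3 : y * |P.m y| = |y * P.m y| := by rw [abs_mul, abs_of_pos hy]
    rw [e3]
    unfold m
    rw [Finset.mul_sum]
    calc |∑ k ∈ Finset.Icc 1 P.K, y * (2 * Real.cos (k * P.g * y) *
          Real.exp (-P.lam * (k : ℝ) ^ 2 * y) * P.ck k y)| ≤ ∑ k ∈ Finset.Icc 1 P.K,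
          |y * (2 * Real.cos (k * P.g * y) * Real.exp (-P.lam * (k : ℝ) ^ 2 * y) * P.ck k y)| :=
          Finset.abs_sum_le_sum_abs _ _
      _ ≤ ∑ k ∈ Finset.Icc 1 P.K, 2 * (1 + 1 / 10000) * Real.exp (-(4 / 5) * v) * cc A k :=
          Finset.sum_le_sum hterm
      _ = 2 * (1 + 1 / 10000) * Real.exp (-(4 / 5) * v) * ∑ k ∈ Finset.Icc 1 P.K, cc A k := by
          rw [← Finset.mul_sum]
      _ ≤ _ := mul_le_mul_of_nonneg_left hccs (by positivity)
  have e4 : Real.exp (-(4 / 5) * v) = A * Real.exp (-(4 / 5) * (v - 1)) := by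
    rw [hA, ← Real.exp_add]
    congr 1
    ring
  rw [e4] at hsum
  have hX := Real.exp_pos (-(4 / 5) * (v - 1))
  have h3 : A ^ 3 ≤ (4494 / 10000) ^ 3 := pow_le_pow_left₀ hA0.le hA1 3
  have h8 : A ^ 8 ≤ (4494 / 10000) ^ 8 := pow_le_pow_left₀ hA0.le hA1 8
  have hfin : 2 * (1 + 1 / 10000) * (A * (1 + A ^ 3 + A ^ 8 * (4 / 3))) ≤ 983 / 1000 := by
    have h9 : A * (1 + A ^ 3 + A ^ 8 * (4 / 3)) ≤
        4494 / 10000 * (1 + (4494 / 10000) ^ 3 + (4494 / 10000) ^ 8 * (4 / 3)) := by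
      apply mul_le_mul hA1 _ (by positivity) (by norm_num)
      linarith
    have h10 : 2 * (1 + 1 / 10000) * (4494 / 10000 * (1 + (4494 / 10000) ^ 3 +
        (4494 / 10000 : ℝ) ^ 8 * (4 / 3))) ≤ 983 / 1000 := by norm_num
    linarith
  calc y * |P.m y| ≤ 2 * (1 + 1 / 10000) * (A * Real.exp (-(4 / 5) * (v - 1))) *
        (1 + A ^ 3 + A ^ 8 * (4 / 3)) := hsum
    _ = 2 * (1 + 1 / 10000) * (A * (1 + A ^ 3 + A ^ 8 * (4 / 3))) *
        Real.exp (-(4 / 5) * (v - 1)) := by ring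
    _ ≤ 983 / 1000 * Real.exp (-(4 / 5) * (v - 1)) := mul_le_mul_of_nonneg_right hfin hX.le

end Blk

end VQ
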