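import Pool.Agent.H15.VQ.Defs
import Pool.Agent.H15.VQ.Diri

/-!
# NrmA : Dirichlet series of generalized integers for a general sequence of generalized primes

As `Gint` (`Pool/Agent/H15/VQ/Gint.lean`), with `p j` in place of `exp (u j)`: `hasSum_finsupp` with `z j = (p j : ℂ) ^ (-s)`.
-/

set_option autoImplicit false

open Complex MeasureTheory Set Filter Topology

namespace VQ

variable {p : ℕ → ℝ}

theorem gp_ge_one (hp : ∀ j, 1 < p j) (m : ℕ →₀ ℕ) : 1 ≤ m.prod fun j e => p j ^ e := by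
  rw [Finsupp.prod]
  exact Finset.one_le_prod fun j _ => one_le_pow₀ (hp j).le

private theorem gp_cpow (hp : ∀ j, 1 < p j) (m : ℕ →₀ ℕ) (s : ℂ) :
    ((m.prod fun j e => p j ^ e : ℝ) : ℂ) ^ (-s) = m.prod fun j e => ((p j : ℂ) ^ (-s)) ^ e := by
  have hp0 : ∀ j, 0 < p j := fun j => lt_trans one_pos (hp j)
  have h0 : ∀ j, (p j : ℂ) ≠ 0 := fun j => by exact_mod_cast (hp0 j).ne'
  have hP : 0 < ∏ j ∈ m.support, p j ^ m j := Finset.prod_pos fun j _ => pow_pos (hp0 j) _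
  have hP0 : ((∏ j ∈ m.support, p j ^ m j : ℝ) : ℂ) ≠ 0 := by exact_mod_cast hP.ne'
  rw [Finsupp.prod, Finsupp.prod, Complex.cpow_def_of_ne_zero hP0, ← Complex.ofReal_log hP.le,
    Real.log_prod fun j _ => (pow_pos (hp0 j) _).ne', Complex.ofReal_sum, Finset.sum_mul, Complex.exp_sum]
  refine Finset.prod_congr rfl fun j _ => ?_
  rw [Complex.cpow_def_of_ne_zero (h0 j), ← Complex.exp_nat_mul, ← Complex.ofReal_log (hp0 j).le, Real.log_pow]
  congr 1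
  push_cast
  ring

private theorem norm_z (hp : ∀ j, 1 < p j) (s : ℂ) (j : ℕ) : ‖(p j : ℂ) ^ (-s)‖ = p j ^ (-s.re) := by
  rw [Complex.norm_cpow_eq_rpow_re_of_pos (lt_trans one_pos (hp j)), Complex.neg_re]

private theorem norm_lt (hp : ∀ j, 1 < p j) {s : ℂ} (h : 1 < s.re) (j : ℕ) : ‖(p j : ℂ) ^ (-s)‖ < 1 := by
  rw [norm_z hp]
  exact Real.rpow_lt_one_of_one_lt_of_neg (hp j) (by linarith)

theorem gp_summable (hp : ∀ j, 1 < p j) (hs : ∀ σ : ℝ, 1 < σ → Summable fun j => p j ^ (-σ)) {c : ℝ}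
    (hc : 1 < c) : Summable fun m : ℕ →₀ ℕ => (m.prod fun j e => p j ^ e) ^ (-c) := by
  have hre : ((c : ℂ)).re = c := Complex.ofReal_re c
  have h1 : ∀ j, ‖(p j : ℂ) ^ (-(c : ℂ))‖ < 1 := fun j => norm_lt hp (by rw [hre]; exact hc) j
  have h2 : Summable fun j => ‖(p j : ℂ) ^ (-(c : ℂ))‖ := by
    refine (hs c hc).congr fun j => ?_
    rw [norm_z hp, hre]
  refine (hasSum_finsupp h1 h2).1.congr fun m => ?_
  have hpos : 0 < m.prod fun j e => p j ^ e := lt_of_lt_of_le one_pos (gp_ge_one hp m)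
  rw [← gp_cpow hp, Complex.norm_cpow_eq_rpow_re_of_pos hpos, Complex.neg_re, hre]

theorem gp_hasSum (hp : ∀ j, 1 < p j) (hs : ∀ σ : ℝ, 1 < σ → Summable fun j => p j ^ (-σ)) {s Z : ℂ}
    (h : 1 < s.re) (hZ : HasProd (fun j => (1 - (p j : ℂ) ^ (-s))⁻¹) Z) :
    HasSum (fun m : ℕ →₀ ℕ => ((m.prod fun j e => p j ^ e : ℝ) : ℂ) ^ (-s)) Z := by
  have h1 : ∀ j, ‖(p j : ℂ) ^ (-s)‖ < 1 := fun j => norm_lt hp h j
  have h2 : Summable fun j => ‖(p j : ℂ) ^ (-s)‖ := by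
    refine (hs s.re h).congr fun j => ?_
    rw [norm_z hp]
  have h3 := (hasSum_finsupp h1 h2).2
  rw [hZ.tprod_eq] at h3
  have h4 : (fun m : ℕ →₀ ℕ => ((m.prod fun j e => p j ^ e : ℝ) : ℂ) ^ (-s)) =
      fun m : ℕ →₀ ℕ => m.prod fun j e => ((p j : ℂ) ^ (-s)) ^ e := funext fun m => gp_cpow hp m s
  rw [h4]
  exact h3

end VQ
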