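import Pool.Agent.H15.VQ.OmA
import Pool.Agent.H15.VQ.Dsum

/-!
# OmB : oscillation of the density of the system

Adapt `Pool/Agent/H15/VO/OmB.lean` (`dens_osc_gen`, proved there) to the new constants: `y ∈ [5 ℓ R / 4, 5 ℓ R / 4 + 1]`, `y ≤ ℓ²`
(`2 R ≤ ℓ` from `Blk.hg`), `3200 ≤ R` for every block (`32 ≤ b R`, `b ≤ 1 / 100`). Blocks `j < n`: for `v ≥ R j` `m_large` gives
`exp v v |m j v| ≤ exp v · 983/1000 · exp (-(4/5) (v / R j - 1)) ≤ 2.2 exp (v - (4/5) v / R j)`, and `(4/5) y / R j ≥ ℓ R n / R j ≥ 24 ℓ`.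
-/

set_option autoImplicit false

open MeasureTheory Set Filter Topology

namespace VQ

private theorem R_le_log (P : Blk) : 2 * P.R ≤ Real.log P.g := by
  have hK : 2000 * P.b * P.R ≤ (P.K : ℝ) := P.hK
  have hK1 : 1 ≤ (P.K : ℝ) := by nlinarith [P.hbR]
  have h1 : Real.exp (2 * P.R) ≤ P.g := by
    have h2 := P.hg
    have h3 := Real.exp_pos (2 * P.R)
    nlinarith [mul_le_mul_of_nonneg_right hK1 h3.le]
  have h4 := Real.log_le_log (Real.exp_pos _) h1
  rwa [Real.log_exp] at h4

private theorem R_mono {P : ℕ → Blk} (hP : Sparse P) {j n : ℕ} (h : j < n) : 24 * (P j).R ≤ (P n).R := by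
  induction n, h using Nat.le_induction with
  | base => exact hP.R j
  | succ k hk ih =>
    have h1 := hP.R k
    have h2 : 0 < (P k).R := by linarith [(P k).hR]
    linarith

private theorem R_far {P : ℕ → Blk} (hP : Sparse P) {j n : ℕ} (h : n < j) :
    32 * (P n).g ^ 4 ≤ (P j).R := by
  have h1 := hP.eps n j h
  have hK : 2000 * (P j).b * (P j).R ≤ ((P j).K : ℝ) := (P j).hK
  have hK1 : 2 ≤ ((P j).K : ℝ) := by nlinarith [(P j).hbR]
  have hb := (P j).hb
  have hg4 : 0 ≤ (P n).g ^ 4 := by positivity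
  have h2 : (1 / 2 : ℝ) ^ (j + 3) ≤ 1 / 8 := by
    rw [pow_add]
    have : (1 / 2 : ℝ) ^ j ≤ 1 := pow_le_one₀ (by norm_num) (by norm_num)
    nlinarith
  have h3 : (P j).b * (P n).g ^ 4 ≤ 1 / 32 := by
    have h4 : 2 * 2 * ((P j).b * (P n).g ^ 4) ≤ 2 * ((P j).K : ℝ) * ((P j).b * (P n).g ^ 4) := by
      apply mul_le_mul_of_nonneg_right _ (by positivity)
      linarith
    nlinarith
  have h5 : 1 ≤ (P j).b * (P j).R := by linarith [(P j).hbR]
  have hR0 : 0 < (P j).R := by linarith [(P j).hR]
  have h6 : (P n).g ^ 4 * 1 ≤ (P n).g ^ 4 * ((P j).b * (P j).R) := mul_le_mul_of_nonneg_left h5 hg4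
  have h7 : ((P j).b * (P n).g ^ 4) * (P j).R ≤ 1 / 32 * (P j).R := mul_le_mul_of_nonneg_right h3 hR0.le
  nlinarith

private theorem n_le_R {P : ℕ → Blk} (hP : Sparse P) (n : ℕ) : (n : ℝ) ≤ (P n).R := by
  have h1 := R_ge hP n
  have h2 : (n : ℝ) < 24 ^ n := by exact_mod_cast Nat.lt_pow_self (by norm_num : 1 < 24)
  linarith

private theorem dn_int {P : ℕ → Blk} (hP : Sparse P) {y : ℝ} (hy : Real.log 2 ≤ y) :
    IntervalIntegrable (fun v => v * Real.exp v * dn P v) volume (Real.log 2) y := by
  have hl2 : 0 < Real.log 2 := Real.log_pos (by norm_num)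
  rw [intervalIntegrable_iff_integrableOn_Ioc_of_le hy]
  have hmeas : Measurable fun v : ℝ => v * Real.exp v * (if 0 < v then dn P v else 0) :=
    (measurable_id.mul Real.measurable_exp).mul (dn_meas hP)
  have h1 : IntegrableOn (fun v : ℝ => v * Real.exp v * (if 0 < v then dn P v else 0))
      (Ioc (Real.log 2) y) volume := by
    apply Measure.integrableOn_of_bounded (M := y * Real.exp y * 3)
    · simp
    · exact hmeas.aestronglyMeasurable
    · rw [ae_restrict_iff' measurableSet_Ioc]
      refine Filter.Eventually.of_forall ?_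
      intro v hv
      have hv0 : 0 < v := lt_trans hl2 hv.1
      rw [if_pos hv0, Real.norm_eq_abs, abs_mul, abs_mul, abs_of_pos hv0, Real.abs_exp,
        abs_of_nonneg (dn_nonneg hP hv0)]
      have hexp : Real.exp v ≤ Real.exp y := Real.exp_le_exp.mpr hv.2
      have h2 := dn_le hP hv0
      have h3 := dn_nonneg hP hv0
      have h4 : v * Real.exp v ≤ y * Real.exp y :=
        mul_le_mul hv.2 hexp (Real.exp_pos _).le (by linarith [hv.2])
      exact mul_le_mul h4 h2 h3 (mul_nonneg (by linarith [hv.2]) (Real.exp_pos _).le)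
  refine h1.congr_fun ?_ measurableSet_Ioc
  intro v hv
  have hv0 : 0 < v := lt_trans hl2 hv.1
  simp only
  rw [if_pos hv0]

/-- the other blocks -/
private theorem others {P : ℕ → Blk} (hP : Sparse P) {n : ℕ} {y v : ℝ}
    (hy0 : 5 * Real.log (P n).g * (P n).R / 4 ≤ y) (hyg : y ≤ (P n).g ^ 4) (hl : 0 < Real.log (P n).g)
    (hv0 : 0 < v) (hvy : v ≤ y) :
    |v * Real.exp v * dn P v - (Real.exp v - 1) - v * Real.exp v * (P n).m v| ≤
      (P n).R * Real.exp ((P n).R / 12) + 11 / 5 * (P n).R * Real.exp (y - 4 * Real.log (P n).g) +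
        y * Real.exp y * (1 / (8 * (P n).g ^ 4)) := by
  have hgpos : 0 < (P n).g := by
    by_contra hcon
    have hy : 0 < y := lt_of_lt_of_le hv0 hvy
    have hK : 2000 * (P n).b * (P n).R ≤ ((P n).K : ℝ) := (P n).hK
    have hK1 : 2 ≤ ((P n).K : ℝ) := by nlinarith [(P n).hbR]
    have := (P n).hg
    have h3 := Real.exp_pos (2 * (P n).R)
    nlinarith [mul_pos (by linarith : (0 : ℝ) < (P n).K) h3]
  have hg4 : 0 < (P n).g ^ 4 := by positivity
  have hsum := m_summable hP hv0
  have hsplit := hsum.sum_add_tsum_nat_add (n + 1)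
  rw [Finset.sum_range_succ] at hsplit
  -- the tail
  have htail : |∑' j, (P (j + (n + 1))).m v| ≤ 1 / (8 * (P n).g ^ 4) := by
    have hs : HasSum (fun j : ℕ => (1 / 2 : ℝ) ^ j * (1 / (16 * (P n).g ^ 4))) (2 * (1 / (16 * (P n).g ^ 4))) :=
      hasSum_geometric_two.mul_right _
    have h1 : ∀ j, ‖(P (j + (n + 1))).m v‖ ≤ (1 / 2 : ℝ) ^ j * (1 / (16 * (P n).g ^ 4)) := by
      intro j
      have hlt : n < j + (n + 1) := by omega
      have hR := R_far hP hlt
      have hvR : v < (P (j + (n + 1))).R := by linarith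
      have h2 := (P (j + (n + 1))).m_small hv0 hvR
      have h3 := hP.eps n (j + (n + 1)) hlt
      have h4 : (1 / 2 : ℝ) ^ (j + (n + 1) + 3) ≤ (1 / 2) ^ j * (1 / 16) := by
        have h5 : (1 / 2 : ℝ) ^ (j + (n + 1) + 3) = (1 / 2) ^ j * (1 / 2) ^ n * (1 / 16) := by
          rw [show j + (n + 1) + 3 = j + n + 4 by ring, pow_add, pow_add]
          norm_num
        rw [h5]
        have h6 : (1 / 2 : ℝ) ^ n ≤ 1 := pow_le_one₀ (by norm_num) (by norm_num)
        have h7 : (0 : ℝ) < (1 / 2) ^ j := by positivity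
        nlinarith [mul_le_mul_of_nonneg_left h6 h7.le]
      rw [Real.norm_eq_abs]
      refine h2.trans ?_
      have h8 : (1 / 2 : ℝ) ^ j * (1 / (16 * (P n).g ^ 4)) = ((1 / 2) ^ j * (1 / 16)) / (P n).g ^ 4 := by
        field_simp
      rw [h8, le_div_iff₀ hg4]
      exact h3.trans h4
    have h9 := tsum_of_norm_bounded hs h1
    rw [Real.norm_eq_abs] at h9
    refine h9.trans (le_of_eq ?_)
    field_simp
    norm_num
  -- the first blocks
  have hfirst : |v * Real.exp v * ∑ j ∈ Finset.range n, (P j).m v| ≤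
      (P n).R * Real.exp ((P n).R / 12) + 11 / 5 * (P n).R * Real.exp (y - 4 * Real.log (P n).g) := by
    have hj : ∀ j ∈ Finset.range n, |v * Real.exp v * (P j).m v| ≤
        Real.exp ((P n).R / 12) + 11 / 5 * Real.exp (y - 4 * Real.log (P n).g) := by
      intro j hj
      have hjn : j < n := Finset.mem_range.mp hj
      have hRR := R_mono hP hjn
      have hRj : 1 ≤ (P j).R := (P j).hR
      have hev := Real.exp_pos v
      rw [abs_mul, abs_mul, abs_of_pos hv0, Real.abs_exp]
      by_cases hvR : v < (P j).R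
      · have h1 := (P j).m_small hv0 hvR
        have h2 := hP.eps0 j
        have h3 : (1 / 2 : ℝ) ^ (j + 3) ≤ 1 := pow_le_one₀ (by norm_num) (by norm_num)
        have h4 : |(P j).m v| ≤ 1 := by linarith
        have h5 : v * Real.exp v ≤ Real.exp ((P n).R / 12) := by
          have h6 : v ≤ (P n).R / 24 := by linarith
          have h7 : (P n).R / 24 ≤ Real.exp ((P n).R / 24) := by
            have := Real.add_one_le_exp ((P n).R / 24)
            linarith
          have h8 : Real.exp v ≤ Real.exp ((P n).R / 24) := Real.exp_le_exp.mpr h6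
          calc v * Real.exp v ≤ Real.exp ((P n).R / 24) * Real.exp ((P n).R / 24) := by
                apply mul_le_mul (by linarith) h8 hev.le (Real.exp_pos _).le
            _ = Real.exp ((P n).R / 12) := by
                rw [← Real.exp_add]
                congr 1
                ring
        have h9 : v * Real.exp v * |(P j).m v| ≤ v * Real.exp v * 1 :=
          mul_le_mul_of_nonneg_left h4 (by positivity)
        have h10 := Real.exp_pos (y - 4 * Real.log (P n).g)
        linarith
      · push Not at hvR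
        have h1 := (P j).m_large hvR
        have h0 : Real.exp (4 / 5) ≤ 223 / 100 := by
          have ha : Real.exp (4 / 5) ^ 5 = Real.exp 1 ^ 4 := by
            rw [← Real.exp_nat_mul, ← Real.exp_nat_mul]
            norm_num
          have hb : Real.exp 1 ^ 4 ≤ (27182818286 / 10000000000) ^ 4 :=
            pow_le_pow_left₀ (Real.exp_pos _).le (by
              have := Real.exp_one_lt_d9
              linarith) 4
          refine le_of_pow_le_pow_left₀ (n := 5) (by norm_num) (by norm_num) ?_
          rw [ha]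
          refine hb.trans ?_
          norm_num
        have h2 : v * Real.exp v * |(P j).m v| ≤
            Real.exp v * (983 / 1000 * Real.exp (-(4 / 5) * (v / (P j).R - 1))) := by
          have := mul_le_mul_of_nonneg_left h1 hev.le
          linarith
        have h3 : Real.exp v * (983 / 1000 * Real.exp (-(4 / 5) * (v / (P j).R - 1))) =
            983 / 1000 * Real.exp (4 / 5) * Real.exp (v - 4 / 5 * (v / (P j).R)) := by
          have h3a : Real.exp v * Real.exp (-(4 / 5) * (v / (P j).R - 1)) =
              Real.exp (4 / 5) * Real.exp (v - 4 / 5 * (v / (P j).R)) := by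
            rw [← Real.exp_add, ← Real.exp_add]
            congr 1
            ring
          linear_combination 983 / 1000 * h3a
        have h3b : 983 / 1000 * Real.exp (4 / 5) * Real.exp (v - 4 / 5 * (v / (P j).R)) ≤
            11 / 5 * Real.exp (v - 4 / 5 * (v / (P j).R)) := by
          apply mul_le_mul_of_nonneg_right _ (Real.exp_pos _).le
          linarith
        have h4 : v - 4 / 5 * (v / (P j).R) ≤ y - 4 * Real.log (P n).g := by
          have hRj0 : 0 < (P j).R := by linarith
          have h5 : v - 4 / 5 * (v / (P j).R) ≤ y - 4 / 5 * (y / (P j).R) := by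
            have h6 : y / (P j).R - v / (P j).R = (y - v) / (P j).R := by ring
            have h7 : (y - v) / (P j).R ≤ y - v := div_le_self (by linarith) hRj
            linarith
          have h8 : 5 * Real.log (P n).g ≤ y / (P j).R := by
            rw [le_div_iff₀ hRj0]
            nlinarith [mul_le_mul_of_nonneg_left hRR hl.le]
          linarith
        have h9 := Real.exp_le_exp.mpr h4
        have h10 := Real.exp_pos ((P n).R / 12)
        linarith
    rw [Finset.mul_sum]
    refine (Finset.abs_sum_le_sum_abs _ _).trans ?_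
    refine (Finset.sum_le_sum hj).trans ?_
    rw [Finset.sum_const, Finset.card_range, nsmul_eq_mul]
    have h1 := n_le_R hP n
    have h2 : 0 ≤ Real.exp ((P n).R / 12) + 11 / 5 * Real.exp (y - 4 * Real.log (P n).g) := by positivity
    have h3 := mul_le_mul_of_nonneg_right h1 h2
    linarith
  have heq : v * Real.exp v * dn P v - (Real.exp v - 1) - v * Real.exp v * (P n).m v =
      v * Real.exp v * (∑ j ∈ Finset.range n, (P j).m v) +
        v * Real.exp v * ∑' j, (P (j + (n + 1))).m v := by
    unfold dn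
    rw [← hsplit]
    have h1 : v * Real.exp v * ((1 - Real.exp (-v)) / v) = Real.exp v - 1 := by
      have h2 : Real.exp v * Real.exp (-v) = 1 := by rw [← Real.exp_add]; simp
      have h3 : v * Real.exp v * ((1 - Real.exp (-v)) / v) = Real.exp v - Real.exp v * Real.exp (-v) := by
        field_simp
      rw [h3, h2]
    linear_combination h1
  rw [heq]
  refine (abs_add_le _ _).trans ?_
  have h1 : |v * Real.exp v * ∑' j, (P (j + (n + 1))).m v| ≤ y * Real.exp y * (1 / (8 * (P n).g ^ 4)) := by
    rw [abs_mul, abs_mul, abs_of_pos hv0, Real.abs_exp]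
    have h2 : Real.exp v ≤ Real.exp y := Real.exp_le_exp.mpr hvy
    have h3 : v * Real.exp v ≤ y * Real.exp y :=
      mul_le_mul hvy h2 (Real.exp_pos _).le (by linarith)
    exact mul_le_mul h3 htail (abs_nonneg _) (by
      have := Real.exp_pos y
      have : 0 < y := by linarith
      positivity)
  linarith

private theorem exp_large {l : ℝ} (hl : 100 ≤ l) : 100 * l ^ 2 ≤ Real.exp l := by
  have hel : l ^ 4 / 64 ≤ Real.exp l := by
    have h := Real.quadratic_le_exp_of_nonneg (x := l / 2) (by linarith)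
    have h' : (l / 2) ^ 2 / 2 ≤ Real.exp (l / 2) := by linarith
    have h'' : Real.exp l = Real.exp (l / 2) * Real.exp (l / 2) := by
      rw [← Real.exp_add]
      congr 1
      ring
    rw [h'']
    have := mul_le_mul h' h' (by positivity) (Real.exp_pos _).le
    nlinarith
  have hc : l ^ 4 ≥ 10000 * l ^ 2 := by
    have h2 : 10000 ≤ l ^ 2 := by nlinarith
    have h3 : 10000 * l ^ 2 ≤ l ^ 2 * l ^ 2 := mul_le_mul_of_nonneg_right h2 (by positivity)
    nlinarith
  have h0 : 0 ≤ l ^ 2 := by positivity
  linarith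

/-- the real inequalities -/
private theorem small_terms {l R y : ℝ} (hl : 100 ≤ l) (hR : 3200 ≤ R) (hRl : 2 * R ≤ l)
    (hy1 : 5 * l * R / 4 ≤ y) (hy2 : y ≤ 5 * l * R / 4 + 1) :
    (2 + y) + y * (R * Real.exp (R / 12) + 11 / 5 * R * Real.exp (y - 4 * l) +
      y * Real.exp y * (1 / (8 * Real.exp l ^ 4))) ≤ 1 / 2 * Real.exp (y - 2 * l) := by
  have hy8 : 8 * l ≤ y := by nlinarith
  have hy800 : 800 ≤ y := by linarith
  have hRy : R ≤ 8 / 100 * y := by nlinarith
  have hyl : y ≤ l ^ 2 := by nlinarith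
  set E : ℝ := Real.exp (y - 2 * l) with hE
  have hEpos : 0 < E := Real.exp_pos _
  have hE1 : Real.exp (3 / 4 * y) ≤ E := Real.exp_le_exp.mpr (by linarith)
  -- (1)
  have h1 : 2 + y ≤ 1 / 8 * E := by
    have h := Real.quadratic_le_exp_of_nonneg (x := 3 / 4 * y) (by linarith)
    nlinarith
  -- (2)
  have h2 : y * (R * Real.exp (R / 12)) ≤ 1 / 8 * E := by
    have ha : Real.exp (R / 12) ≤ Real.exp (1 / 100 * y) := Real.exp_le_exp.mpr (by linarith)
    have hb : y ≤ Real.exp (37 / 100 * y) := by
      have h := Real.quadratic_le_exp_of_nonneg (x := 37 / 100 * y) (by linarith)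
      nlinarith
    have hc : y * R ≤ 1 / 8 * (Real.exp (37 / 100 * y) * Real.exp (37 / 100 * y)) := by
      have hd : y * y ≤ Real.exp (37 / 100 * y) * Real.exp (37 / 100 * y) :=
        mul_le_mul hb hb (by linarith) (Real.exp_pos _).le
      nlinarith
    have hd : Real.exp (37 / 100 * y) * Real.exp (37 / 100 * y) * Real.exp (1 / 100 * y) =
        Real.exp (3 / 4 * y) := by
      rw [← Real.exp_add, ← Real.exp_add]
      congr 1
      ring
    calc y * (R * Real.exp (R / 12)) = (y * R) * Real.exp (R / 12) := by ring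
      _ ≤ (1 / 8 * (Real.exp (37 / 100 * y) * Real.exp (37 / 100 * y))) * Real.exp (1 / 100 * y) := by
          apply mul_le_mul hc ha (Real.exp_pos _).le
          positivity
      _ = 1 / 8 * Real.exp (3 / 4 * y) := by rw [mul_assoc, hd]
      _ ≤ 1 / 8 * E := by linarith
  have hl2e := exp_large hl
  have hle : 1000 * l ≤ Real.exp l := by nlinarith
  have hye : y ≤ Real.exp l := by nlinarith
  have hE3 : Real.exp (y - 4 * l) * (Real.exp l * Real.exp l) = E := by
    rw [hE, ← Real.exp_add, ← Real.exp_add]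
    congr 1
    ring
  have hE4 : Real.exp y * (1 / (8 * Real.exp l ^ 4)) * (8 * Real.exp l ^ 2) = E := by
    have ha : Real.exp l ^ 2 = Real.exp (2 * l) := by
      rw [← Real.exp_nat_mul]
      norm_num
    have hb : Real.exp y = E * Real.exp l ^ 2 := by
      rw [ha, hE, ← Real.exp_add]
      congr 1
      ring
    have hc : Real.exp l ≠ 0 := (Real.exp_pos _).ne'
    rw [hb]
    field_simp
  -- (3)
  have h3 : y * (11 / 5 * R * Real.exp (y - 4 * l)) ≤ 1 / 8 * E := by
    have ha : y * (11 / 5 * R) ≤ 1 / 8 * (Real.exp l * Real.exp l) := by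
      have hb : 11 / 5 * R ≤ 1 / 8 * Real.exp l := by linarith
      have hc := mul_le_mul hye hb (by linarith) (Real.exp_pos _).le
      linarith
    have hb := mul_le_mul_of_nonneg_right ha (Real.exp_pos (y - 4 * l)).le
    have hc : 1 / 8 * (Real.exp l * Real.exp l) * Real.exp (y - 4 * l) = 1 / 8 * E := by rw [← hE3]; ring
    linarith
  -- (4)
  have h4 : y * (y * Real.exp y * (1 / (8 * Real.exp l ^ 4))) ≤ 1 / 8 * E := by
    have hb : y * y ≤ Real.exp l ^ 2 := by
      have := mul_le_mul hye hye (by linarith) (Real.exp_pos _).le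
      nlinarith
    have hX : 0 ≤ Real.exp y * (1 / (8 * Real.exp l ^ 4)) := by positivity
    have hc := mul_le_mul_of_nonneg_right hb hX
    nlinarith
  nlinarith

theorem dens_osc_gen {P : ℕ → Blk} (hP : Sparse P) (n : ℕ) (hl : 100 ≤ Real.log (P n).g) {c : ℝ}
    (hc : c = 1 ∨ c = -1) :
    ∃ y : ℝ, 5 * Real.log (P n).g * (P n).R / 4 ≤ y ∧ y ≤ 5 * Real.log (P n).g * (P n).R / 4 + 1 ∧
      Real.exp (y - 2 * Real.log (P n).g) ≤
        c * ((∫ v in (Real.log 2)..y, v * Real.exp v * dn P v) - Real.exp y) := by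
  have hR : 3200 ≤ (P n).R := by
    have h1 := R_ge' hP n
    have h2 : (1 : ℝ) ≤ 24 ^ n := one_le_pow₀ (by norm_num)
    linarith
  obtain ⟨y, hy1, hy2, hy3⟩ := (P n).block_osc hl hc
  refine ⟨y, hy1, hy2, ?_⟩
  have hRl := R_le_log (P n)
  have hgpos : 0 < (P n).g := by
    by_contra hcon
    have hK : 2000 * (P n).b * (P n).R ≤ ((P n).K : ℝ) := (P n).hK
    have hK1 : 2 ≤ ((P n).K : ℝ) := by nlinarith [(P n).hbR]
    have := (P n).hg
    have h3 := Real.exp_pos (2 * (P n).R)
    nlinarith [mul_pos (by linarith : (0 : ℝ) < (P n).K) h3]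
  have hgl : (P n).g = Real.exp (Real.log (P n).g) := (Real.exp_log hgpos).symm
  have hsmall := small_terms hl hR hRl hy1 hy2
  have hl2 : 0 < Real.log 2 := Real.log_pos (by norm_num)
  have hl2' : Real.log 2 < 1 := by
    have := Real.log_two_lt_d9
    linarith
  have hy0 : 800 ≤ y := by nlinarith
  have hly : Real.log 2 ≤ y := by linarith
  have hyg : y ≤ (P n).g ^ 4 := by
    have h1 : 1 ≤ Real.exp (Real.log (P n).g) := Real.one_le_exp (by linarith)
    have h3 : y ≤ Real.exp (Real.log (P n).g) := by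
      have h2 := exp_large hl
      nlinarith
    rw [← hgl] at h3 h1
    have h4 : (P n).g ≤ (P n).g ^ 4 := le_self_pow₀ h1 (by norm_num)
    linarith
  set A : ℝ := ∫ v in (Real.log 2)..y, v * Real.exp v * dn P v with hA
  set B : ℝ := ∫ v in (Real.log 2)..y, v * Real.exp v * (P n).m v with hB
  have hI1 := dn_int hP hly
  have hI2 : IntervalIntegrable (fun v => Real.exp v - 1) volume (Real.log 2) y :=
    (Real.continuous_exp.sub continuous_const).intervalIntegrable _ _
  have hI3 := (P n).m_int y
  have hE : ∫ v in (Real.log 2)..y, (v * Real.exp v * dn P v - (Real.exp v - 1) -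
      v * Real.exp v * (P n).m v) = A - (Real.exp y - 2 - (y - Real.log 2)) - B := by
    rw [intervalIntegral.integral_sub (hI1.sub hI2) hI3, intervalIntegral.integral_sub hI1 hI2,
      intervalIntegral.integral_sub (Real.continuous_exp.intervalIntegrable _ _)
        (continuous_const.intervalIntegrable _ _), integral_exp, Real.exp_log (by norm_num)]
    simp
    rfl
  have hbd : ‖∫ v in (Real.log 2)..y, (v * Real.exp v * dn P v - (Real.exp v - 1) -
      v * Real.exp v * (P n).m v)‖ ≤ ((P n).R * Real.exp ((P n).R / 12) +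
        11 / 5 * (P n).R * Real.exp (y - 4 * Real.log (P n).g) +
        y * Real.exp y * (1 / (8 * (P n).g ^ 4))) * |y - Real.log 2| := by
    apply intervalIntegral.norm_integral_le_of_norm_le_const
    intro v hv
    rw [uIoc_of_le hly] at hv
    rw [Real.norm_eq_abs]
    exact others hP hy1 hyg (by linarith) (lt_trans hl2 hv.1) hv.2
  rw [hE, Real.norm_eq_abs] at hbd
  rw [← hgl] at hsmall
  set C : ℝ := (P n).R * Real.exp ((P n).R / 12) +
        11 / 5 * (P n).R * Real.exp (y - 4 * Real.log (P n).g) +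
        y * Real.exp y * (1 / (8 * (P n).g ^ 4)) with hC
  have hCpos : 0 ≤ C := by
    have : 0 < (P n).R := by linarith
    have : 0 < y := by linarith
    positivity
  have h5 : C * |y - Real.log 2| ≤ y * C := by
    rw [abs_of_nonneg (by linarith)]
    nlinarith
  have h6 := abs_le.mp (hbd.trans h5)
  rcases hc with hc | hc
  · rw [hc] at hy3 ⊢
    linarith [h6.1]
  · rw [hc] at hy3 ⊢
    linarith [h6.2]

end VQ
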