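import Pool.Agent.H15.VQ.Zeta
import Mathlib.Analysis.Calculus.LogDerivUniformlyOn
import Mathlib.Analysis.Normed.Module.MultipliableUniformlyOn

/-!
# PnA : the Dirichlet series of `- Z' / Z`

The index `q = (j, e)` stands for the prime power `p j ^ (e + 1)`, with weight `log (p j)` (as in `gpsi`). For `re s > 1`, near `s` the function
`Z` is `exp (∑ q, (p j ^ (e + 1))^(-s) / (e + 1))` (`IsZeta.euler`, logarithm of the factors, `∑ j, (p j)^(-σ) < ∞` for `σ > 1` follows from the convergence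
of the product with positive terms at the real point `σ`); differentiate term by term (`hasDerivAt_tsum`, `hasSum_deriv_of_summable_norm` or
`logDeriv` of a locally uniformly convergent product). `psi_bound`: the coefficients are nonnegative, so `‖- Z'/Z (s)‖ ≤ (- Z'/Z (re s)).re`, then
`Pool.Agent.H71.Lan.pole` for `re s ≤ 2` and monotonicity in `re s` beyond.
-/

set_option autoImplicit false

open Complex MeasureTheory Set Filter Topology

namespace VQ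

variable {p : ℕ → ℝ} {κ : ℝ} {Z : ℂ → ℂ}

private lemma pn_pos (h : IsZeta p κ Z) (j : ℕ) : 0 < p j := by linarith [h.one_lt' j]

private lemma pn_lt (h : IsZeta p κ Z) {σ : ℝ} (hσ : 0 < σ) (j : ℕ) : p j ^ (-σ) < 1 :=
  Real.rpow_lt_one_of_one_lt_of_neg (h.one_lt' j) (by linarith)

private lemma pn_norm (h : IsZeta p κ Z) (j : ℕ) (s : ℂ) : ‖(p j : ℂ) ^ (-s)‖ = p j ^ (-s.re) := by
  rw [norm_cpow_eq_rpow_re_of_pos (pn_pos h j)]
  simp

private lemma pn_weier (S : Finset ℕ) {x f : ℕ → ℝ} (hx : ∀ j, 0 ≤ x j) (hf : ∀ j, 1 + x j ≤ f j) :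
    1 + ∑ j ∈ S, x j ≤ ∏ j ∈ S, f j := by
  induction S using Finset.induction with
  | empty => simp
  | insert a S ha ih =>
    rw [Finset.sum_insert ha, Finset.prod_insert ha]
    have h1 : 0 ≤ ∑ j ∈ S, x j := Finset.sum_nonneg fun j _ => hx j
    have h2 := hx a
    have h3 := hf a
    calc 1 + (x a + ∑ j ∈ S, x j) ≤ (1 + x a) * (1 + ∑ j ∈ S, x j) := by nlinarith
      _ ≤ f a * ∏ j ∈ S, f j := mul_le_mul h3 ih (by linarith) (by linarith)

private lemma pn_prime (h : IsZeta p κ Z) {σ : ℝ} (hσ : 1 < σ) : Summable fun j => p j ^ (-σ) := by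
  have h1 := h.euler (σ : ℂ) (by simpa using hσ)
  have h2 : HasProd (fun j => ‖(1 - (p j : ℂ) ^ (-(σ : ℂ)))⁻¹‖) ‖Z (σ : ℂ)‖ :=
    h1.map (normHom : ℂ →*₀ ℝ) continuous_norm
  have e : ∀ j, ‖(1 - (p j : ℂ) ^ (-(σ : ℂ)))⁻¹‖ = (1 - p j ^ (-σ))⁻¹ := by
    intro j
    have h3 : (p j : ℂ) ^ (-(σ : ℂ)) = ((p j ^ (-σ) : ℝ) : ℂ) := by
      rw [Complex.ofReal_cpow (pn_pos h j).le, Complex.ofReal_neg]
    have h4 := pn_lt h (σ := σ) (by linarith) j
    rw [h3, ← Complex.ofReal_one, ← Complex.ofReal_sub, ← Complex.ofReal_inv, Complex.norm_real,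
      Real.norm_eq_abs, abs_of_pos (inv_pos.2 (by linarith))]
  simp_rw [e] at h2
  have hx0 : ∀ j, 0 ≤ p j ^ (-σ) := fun j => Real.rpow_nonneg (pn_pos h j).le _
  have hf : ∀ j, 1 + p j ^ (-σ) ≤ (1 - p j ^ (-σ))⁻¹ := by
    intro j
    have a := hx0 j
    have b := pn_lt h (σ := σ) (by linarith) j
    rw [← one_div, le_div_iff₀ (by linarith)]
    nlinarith [sq_nonneg (p j ^ (-σ))]
  refine summable_of_sum_le (c := ‖Z (σ : ℂ)‖) hx0 fun S => ?_
  have h3 := pn_weier S hx0 hf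
  have h4 : ∏ j ∈ S, (1 - p j ^ (-σ))⁻¹ ≤ ‖Z (σ : ℂ)‖ := by
    refine ge_of_tendsto h2 ?_
    filter_upwards [Ici_mem_atTop S] with T hT
    have h5 : (∏ j ∈ T \ S, (1 - p j ^ (-σ))⁻¹) * ∏ j ∈ S, (1 - p j ^ (-σ))⁻¹ =
        ∏ j ∈ T, (1 - p j ^ (-σ))⁻¹ := Finset.prod_sdiff hT
    have h6 := pn_weier (T \ S) hx0 hf
    have h7 : 0 ≤ ∑ j ∈ T \ S, p j ^ (-σ) := Finset.sum_nonneg fun j _ => hx0 j
    have h8 : 0 ≤ ∑ j ∈ S, p j ^ (-σ) := Finset.sum_nonneg fun j _ => hx0 j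
    rw [← h5]
    nlinarith
  linarith

private lemma pn_pow (h : IsZeta p κ Z) (σ : ℝ) (j n : ℕ) : (p j ^ n) ^ (-σ) = (p j ^ (-σ)) ^ n := by
  rw [← Real.rpow_natCast, ← Real.rpow_natCast, ← Real.rpow_mul (pn_pos h j).le,
    ← Real.rpow_mul (pn_pos h j).le, mul_comm]

theorem psi_summable (h : IsZeta p κ Z) {σ : ℝ} (hσ : 1 < σ) :
    Summable fun q : ℕ × ℕ => Real.log (p q.1) * (p q.1 ^ (q.2 + 1)) ^ (-σ) := by
  have hl : ∀ j, 0 ≤ Real.log (p j) := fun j => Real.log_nonneg (h.one_lt' j).le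
  have hx0 : ∀ j, 0 ≤ p j ^ (-σ) := fun j => Real.rpow_nonneg (pn_pos h j).le _
  have hx1 : ∀ j, p j ^ (-σ) < 1 := pn_lt h (by linarith)
  have hgeo : ∀ j, HasSum (fun e : ℕ => Real.log (p j) * (p j ^ (e + 1)) ^ (-σ))
      (Real.log (p j) * (p j ^ (-σ) * (1 - p j ^ (-σ))⁻¹)) := by
    intro j
    have h1 := ((hasSum_geometric_of_lt_one (hx0 j) (hx1 j)).mul_left (p j ^ (-σ))).mul_left
      (Real.log (p j))
    have e : (fun e : ℕ => Real.log (p j) * (p j ^ (e + 1)) ^ (-σ)) =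
        fun e : ℕ => Real.log (p j) * (p j ^ (-σ) * (p j ^ (-σ)) ^ e) := by
      funext e
      rw [pn_pow h, pow_succ']
    rw [e]
    exact h1
  rw [summable_prod_of_nonneg (fun q => mul_nonneg (hl _) (Real.rpow_nonneg (pow_pos (pn_pos h _) _).le _))]
  refine ⟨fun j => (hgeo j).summable, ?_⟩
  have e2 : (fun j => ∑' e : ℕ, Real.log (p j) * (p j ^ (e + 1)) ^ (-σ)) =
      fun j => Real.log (p j) * (p j ^ (-σ) * (1 - p j ^ (-σ))⁻¹) := by
    funext j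
    exact (hgeo j).tsum_eq
  show Summable fun j => ∑' e : ℕ, Real.log (p j) * (p j ^ (e + 1)) ^ (-σ)
  rw [e2]
  set ε : ℝ := (σ - 1) / 2 with hε
  have hε0 : 0 < ε := by rw [hε]; linarith
  have hσ' : 1 < σ - ε := by rw [hε]; linarith
  refine Summable.of_nonneg_of_le (fun j => ?_) (fun j => ?_)
    ((pn_prime h hσ').mul_left (ε⁻¹ * (1 - p 0 ^ (-σ))⁻¹))
  · have := hx1 j
    exact mul_nonneg (hl j) (mul_nonneg (hx0 j) (inv_nonneg.2 (by linarith)))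
  · have h1 : Real.log (p j) ≤ p j ^ ε / ε := Real.log_le_rpow_div (pn_pos h j).le hε0
    have h2 : p j ^ (-σ) ≤ p 0 ^ (-σ) :=
      Real.rpow_le_rpow_of_nonpos (pn_pos h 0) (h.mono (Nat.zero_le j)) (by linarith)
    have h3 : (1 - p j ^ (-σ))⁻¹ ≤ (1 - p 0 ^ (-σ))⁻¹ :=
      inv_anti₀ (by linarith [hx1 0]) (by linarith)
    have h4 : p j ^ ε * p j ^ (-σ) = p j ^ (-(σ - ε)) := by
      rw [← Real.rpow_add (pn_pos h j)]
      congr 1
      ring
    have h5 : 0 ≤ (1 - p j ^ (-σ))⁻¹ := inv_nonneg.2 (by linarith [hx1 j])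
    calc Real.log (p j) * (p j ^ (-σ) * (1 - p j ^ (-σ))⁻¹)
        ≤ (p j ^ ε / ε) * (p j ^ (-σ) * (1 - p 0 ^ (-σ))⁻¹) := by
          refine mul_le_mul h1 (mul_le_mul_of_nonneg_left h3 (hx0 j)) (mul_nonneg (hx0 j) h5) ?_
          exact div_nonneg (Real.rpow_nonneg (pn_pos h j).le _) hε0.le
      _ = ε⁻¹ * (1 - p 0 ^ (-σ))⁻¹ * (p j ^ ε * p j ^ (-σ)) := by
          rw [div_eq_mul_inv]; ring
      _ = ε⁻¹ * (1 - p 0 ^ (-σ))⁻¹ * p j ^ (-(σ - ε)) := by rw [h4]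

private lemma pn_cpow (h : IsZeta p κ Z) (s : ℂ) (j n : ℕ) :
    ((p j ^ n : ℝ) : ℂ) ^ (-s) = ((p j : ℂ) ^ (-s)) ^ n := by
  rw [cpow_neg_eq (pow_pos (pn_pos h j) n), cpow_neg_eq (pn_pos h j), ← Complex.exp_nat_mul,
    Real.log_pow]
  congr 1
  push_cast
  ring

private lemma pn_tprod (h : IsZeta p κ Z) {z : ℂ} (hz : 1 < z.re) :
    ∏' j, (1 + -((p j : ℂ) ^ (-z))) = (Z z)⁻¹ := by
  have h1 : Summable fun j => ‖-((p j : ℂ) ^ (-z))‖ := by
    simp_rw [norm_neg, pn_norm h]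
    exact pn_prime h hz
  have h2 := (multipliable_one_add_of_summable h1).hasProd
  have h3 := (h.euler z hz).mul h2
  have e : (fun j => (1 - (p j : ℂ) ^ (-z))⁻¹ * (1 + -((p j : ℂ) ^ (-z)))) = fun _ => 1 := by
    funext j
    rw [← sub_eq_add_neg]
    refine inv_mul_cancel₀ (Pool.Agent.H71.Lan.one_sub_ne ?_)
    rw [pn_norm h]
    exact pn_lt h (by linarith) j
  rw [e] at h3
  have h4 := h3.unique hasProd_one
  exact eq_inv_of_mul_eq_one_right h4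

private lemma pn_hasDeriv (h : IsZeta p κ Z) (j : ℕ) (z : ℂ) :
    HasDerivAt (fun z : ℂ => 1 + -((p j : ℂ) ^ (-z))) ((Real.log (p j) : ℂ) * (p j : ℂ) ^ (-z)) z := by
  have h0 : (p j : ℂ) ≠ 0 := by exact_mod_cast (pn_pos h j).ne'
  have h1 : HasDerivAt (fun z : ℂ => (p j : ℂ) ^ (-z))
      ((p j : ℂ) ^ (-z) * Complex.log (p j) * (-1)) z :=
    (hasDerivAt_neg z).const_cpow (Or.inl h0)
  refine (h1.neg.const_add 1).congr_deriv ?_
  rw [Complex.ofReal_log (pn_pos h j).le]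
  ring

theorem psi_series (h : IsZeta p κ Z) {s : ℂ} (hs : 1 < s.re) :
    HasSum (fun q : ℕ × ℕ => (Real.log (p q.1) : ℂ) * ((p q.1 ^ (q.2 + 1) : ℝ) : ℂ) ^ (-s)) (-(deriv Z s / Z s)) := by
  have hl : ∀ j, 0 ≤ Real.log (p j) := fun j => Real.log_nonneg (h.one_lt' j).le
  have hnq : ∀ q : ℕ × ℕ, ‖(Real.log (p q.1) : ℂ) * ((p q.1 ^ (q.2 + 1) : ℝ) : ℂ) ^ (-s)‖ =
      Real.log (p q.1) * (p q.1 ^ (q.2 + 1)) ^ (-s.re) := by
    intro q
    rw [norm_mul, Complex.norm_real, Real.norm_eq_abs, abs_of_nonneg (hl _),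
      norm_cpow_eq_rpow_re_of_pos (pow_pos (pn_pos h _) _), Complex.neg_re]
  have hsum : Summable fun q : ℕ × ℕ =>
      (Real.log (p q.1) : ℂ) * ((p q.1 ^ (q.2 + 1) : ℝ) : ℂ) ^ (-s) := by
    refine Summable.of_norm ?_
    simp_rw [hnq]
    exact psi_summable h hs
  have hlt : ∀ j, ‖(p j : ℂ) ^ (-s)‖ < 1 := by
    intro j
    rw [pn_norm h]
    exact pn_lt h (by linarith) j
  have hinner : ∀ j, ∑' e : ℕ, (Real.log (p j) : ℂ) * ((p j ^ (e + 1) : ℝ) : ℂ) ^ (-s) =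
      logDeriv (fun z : ℂ => 1 + -((p j : ℂ) ^ (-z))) s := by
    intro j
    have h1 := ((hasSum_geometric_of_norm_lt_one (hlt j)).mul_left ((p j : ℂ) ^ (-s))).mul_left
      (Real.log (p j) : ℂ)
    have e : (fun e : ℕ => (Real.log (p j) : ℂ) * ((p j ^ (e + 1) : ℝ) : ℂ) ^ (-s)) =
        fun e : ℕ => (Real.log (p j) : ℂ) * ((p j : ℂ) ^ (-s) * ((p j : ℂ) ^ (-s)) ^ e) := by
      funext e
      rw [pn_cpow h, pow_succ']
    rw [e, h1.tsum_eq, logDeriv_apply, (pn_hasDeriv h j s).deriv, ← sub_eq_add_neg, div_eq_mul_inv,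
      mul_assoc]
  set σ₁ : ℝ := (1 + s.re) / 2 with hσ₁
  have h1σ : 1 < σ₁ := by rw [hσ₁]; linarith
  have hKo : IsOpen {z : ℂ | σ₁ < z.re} := isOpen_lt continuous_const Complex.continuous_re
  have hsK : s ∈ {z : ℂ | σ₁ < z.re} := by
    show σ₁ < s.re
    rw [hσ₁]; linarith
  have hML : MultipliableLocallyUniformlyOn (fun j (z : ℂ) => 1 + -((p j : ℂ) ^ (-z)))
      {z : ℂ | σ₁ < z.re} := by
    refine Summable.multipliableLocallyUniformlyOn_one_add hKo (pn_prime h h1σ)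
      (Eventually.of_forall fun j z hz => ?_) fun j z _ => ?_
    · rw [norm_neg, pn_norm h]
      have : σ₁ < z.re := hz
      exact Real.rpow_le_rpow_of_exponent_le (h.one_lt' j).le (by linarith)
    · have h0 : (p j : ℂ) ≠ 0 := by exact_mod_cast (pn_pos h j).ne'
      exact ((continuousAt_const_cpow h0).comp continuousAt_neg).neg.continuousWithinAt
  have hkey := logDeriv_tprod_eq_tsum (f := fun j (z : ℂ) => 1 + -((p j : ℂ) ^ (-z))) hKo hsK
    (fun j => by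
      show 1 + -((p j : ℂ) ^ (-s)) ≠ 0
      rw [← sub_eq_add_neg]
      exact Pool.Agent.H71.Lan.one_sub_ne (hlt j))
    (fun j z _ => (pn_hasDeriv h j z).differentiableAt.differentiableWithinAt)
    (by
      have h2 := hsum.prod
      simp_rw [hinner] at h2
      exact h2)
    hML
    (by
      show ∏' j, (1 + -((p j : ℂ) ^ (-s))) ≠ 0
      rw [pn_tprod h hs]
      exact inv_ne_zero (Pool.Agent.H71.Lan.ne_zero h.bz hs))
  have hZ0 : Z s ≠ 0 := Pool.Agent.H71.Lan.ne_zero h.bz hs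
  have hZd : DifferentiableAt ℂ Z s := by
    have hm := Pool.Agent.H71.Lan.mem_dom hs
    exact Pool.Agent.H71.Lan.diffAt h.bz hm.1 hm.2
  have hev : (fun z : ℂ => ∏' j, (1 + -((p j : ℂ) ^ (-z)))) =ᶠ[𝓝 s] fun z => (Z z)⁻¹ := by
    have ho : IsOpen {z : ℂ | 1 < z.re} := isOpen_lt continuous_const Complex.continuous_re
    filter_upwards [ho.mem_nhds hs] with z hz
    exact pn_tprod h hz
  have hld : logDeriv (fun z : ℂ => ∏' j, (1 + -((p j : ℂ) ^ (-z)))) s = -(deriv Z s / Z s) := by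
    rw [logDeriv_apply, hev.deriv_eq, hev.eq_of_nhds, (hZd.hasDerivAt.fun_inv hZ0).deriv]
    field_simp
  have hfin : ∑' q : ℕ × ℕ, (Real.log (p q.1) : ℂ) * ((p q.1 ^ (q.2 + 1) : ℝ) : ℂ) ^ (-s) =
      -(deriv Z s / Z s) := by
    rw [hsum.tsum_prod, ← hld, hkey]
    exact tsum_congr hinner
  rw [← hfin]
  exact hsum.hasSum

theorem psi_bound (h : IsZeta p κ Z) : ∃ C : ℝ, 0 ≤ C ∧ ∀ s : ℂ, 1 < s.re → s.re ≤ 2 →
    ‖deriv Z s / Z s‖ ≤ 1 / (s.re - 1) + C := by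
  obtain ⟨C, hC3, hC⟩ := Pool.Agent.H71.Lan.pole h.bz
  refine ⟨C, by linarith, fun s h1 h2 => ?_⟩
  have hl : ∀ j, 0 ≤ Real.log (p j) := fun j => Real.log_nonneg (h.one_lt' j).le
  have a1 := psi_series h h1
  have hre : 1 < ((s.re : ℝ) : ℂ).re := by simpa using h1
  have a2 := Complex.hasSum_re (psi_series h hre)
  have hsummable := psi_summable h h1
  have hnq : ∀ q : ℕ × ℕ, ‖(Real.log (p q.1) : ℂ) * ((p q.1 ^ (q.2 + 1) : ℝ) : ℂ) ^ (-s)‖ =
      Real.log (p q.1) * (p q.1 ^ (q.2 + 1)) ^ (-s.re) := by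
    intro q
    rw [norm_mul, Complex.norm_real, Real.norm_eq_abs, abs_of_nonneg (hl _),
      norm_cpow_eq_rpow_re_of_pos (pow_pos (pn_pos h _) _), Complex.neg_re]
  have hrq : ∀ q : ℕ × ℕ, ((Real.log (p q.1) : ℂ) *
      ((p q.1 ^ (q.2 + 1) : ℝ) : ℂ) ^ (-((s.re : ℝ) : ℂ))).re =
      Real.log (p q.1) * (p q.1 ^ (q.2 + 1)) ^ (-s.re) := by
    intro q
    rw [← Complex.ofReal_neg, ← Complex.ofReal_cpow (pow_pos (pn_pos h _) _).le,
      ← Complex.ofReal_mul, Complex.ofReal_re]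
  simp_rw [hrq] at a2
  have b1 : ‖deriv Z s / Z s‖ ≤ ∑' q : ℕ × ℕ, Real.log (p q.1) * (p q.1 ^ (q.2 + 1)) ^ (-s.re) := by
    rw [← norm_neg, ← a1.tsum_eq]
    have b3 : Summable fun q : ℕ × ℕ =>
        ‖(Real.log (p q.1) : ℂ) * ((p q.1 ^ (q.2 + 1) : ℝ) : ℂ) ^ (-s)‖ := by
      simp_rw [hnq]
      exact hsummable
    refine (norm_tsum_le_tsum_norm b3).trans (le_of_eq ?_)
    exact tsum_congr hnq
  rw [a2.tsum_eq] at b1
  have b2 := (hC (s.re - 1) (by linarith) (by linarith)).2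
  have e : (1 + (s.re - 1) : ℝ) = s.re := by ring
  rw [e] at b2
  rw [Complex.neg_re] at b1
  exact b1.trans b2

end VQ
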