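import Pool.Agent.H15.VQ.PerA

/-!
# PnB : Perron's formula with weights

As `perron_sum` in `Pool/Agent/H15/VQ/PerB.lean`, with nonnegative weights `w i`.
-/

set_option autoImplicit false

open Complex MeasureTheory Set Filter Topology

namespace VQ

theorem perron_sum_w {ι : Type} [Countable ι] {a w : ι → ℝ} (ha : ∀ i, 1 ≤ a i) (hw : ∀ i, 0 ≤ w i) {c : ℝ} (hc : 1 < c)
    (hs : Summable fun i => w i * a i ^ (-c)) {L : ℂ → ℂ}
    (hL : ∀ s : ℂ, 1 < s.re → HasSum (fun i => (w i : ℂ) * (a i : ℂ) ^ (-s)) (L s)) {x : ℝ} (hx : 0 < x) :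
    (Summable fun i => w i * max (x - a i) 0) ∧
    ((∑' i, w i * max (x - a i) 0 : ℝ) : ℂ) = (1 / (2 * Real.pi) : ℂ) *
      ∫ y : ℝ, L ((c : ℂ) + y * I) * ((x : ℂ) ^ ((c : ℂ) + y * I + 1) /
        (((c : ℂ) + y * I) * ((c : ℂ) + y * I + 1))) := by
  have hc0 : 0 < c := by linarith
  have hap : ∀ i, 0 < a i := fun i => lt_of_lt_of_le one_pos (ha i)
  set k : ℝ → ℂ := fun y => (x : ℂ) ^ ((c : ℂ) + y * I + 1) /
      (((c : ℂ) + y * I) * ((c : ℂ) + y * I + 1)) with hk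
  set G : ι → ℝ → ℂ := fun i y => k y * (a i : ℂ) ^ (-((c : ℂ) + y * I)) with hG
  set F : ι → ℝ → ℂ := fun i y => (w i : ℂ) * G i y with hF
  have hintG : ∀ i, Integrable (G i) := fun i => (perron_kernel hc0 hx (hap i)).1
  have hint : ∀ i, Integrable (F i) := fun i => (hintG i).const_mul _
  have hnorm : ∀ i y, ‖F i y‖ = w i * a i ^ (-c) * ‖k y‖ := by
    intro i y
    show ‖(w i : ℂ) * (k y * (a i : ℂ) ^ (-((c : ℂ) + y * I)))‖ = _
    rw [norm_mul, norm_mul, norm_cpow_eq_rpow_re_of_pos (hap i), Complex.norm_real, Real.norm_eq_abs,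
      abs_of_nonneg (hw i)]
    have h5 : (-((c : ℂ) + y * I)).re = -c := by simp
    rw [h5]
    ring
  have hinorm : ∀ i, ∫ y, ‖F i y‖ = w i * a i ^ (-c) * ∫ y, ‖k y‖ := by
    intro i
    simp_rw [hnorm i]
    exact integral_const_mul _ _
  have hsum : Summable fun i => ∫ y, ‖F i y‖ := by
    simp_rw [hinorm]
    exact hs.mul_right _
  have hS := hasSum_integral_of_summable_integral_norm hint hsum
  have htsum : ∀ y : ℝ, ∑' i, F i y = L ((c : ℂ) + y * I) * k y := by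
    intro y
    have h1 : HasSum (fun i => (w i : ℂ) * (a i : ℂ) ^ (-((c : ℂ) + y * I))) (L ((c : ℂ) + y * I)) := by
      apply hL
      simpa using hc
    have h2 : (fun i => F i y) = fun i => k y * ((w i : ℂ) * (a i : ℂ) ^ (-((c : ℂ) + y * I))) := by
      funext i
      show (w i : ℂ) * (k y * (a i : ℂ) ^ (-((c : ℂ) + y * I))) = _
      ring
    rw [h2, (h1.mul_left (k y)).tsum_eq, mul_comm]
  have hS2 : HasSum (fun i => ((w i * max (x - a i) 0 : ℝ) : ℂ)) ((1 / (2 * Real.pi) : ℂ) *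
      ∫ y : ℝ, ∑' i, F i y) := by
    have h1 := hS.mul_left (1 / (2 * Real.pi) : ℂ)
    have h2 : (fun i => ((w i * max (x - a i) 0 : ℝ) : ℂ)) =
        fun i => (1 / (2 * Real.pi) : ℂ) * ∫ y : ℝ, F i y := by
      funext i
      have h3 := (perron_kernel hc0 hx (hap i)).2
      have h4 : ∫ y : ℝ, F i y = (w i : ℂ) * ∫ y : ℝ, G i y := integral_const_mul _ _
      rw [h4, Complex.ofReal_mul, h3]
      ring
    rw [h2]
    exact h1
  have h3 : Summable fun i => w i * max (x - a i) 0 := by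
    have := hS2.summable
    exact_mod_cast this
  refine ⟨h3, ?_⟩
  rw [Complex.ofReal_tsum, hS2.tsum_eq]
  simp_rw [htsum]
  rfl

end VQ
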