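import Mathlib

/-!
# PnC : a rectangle around the pole at `1`

`K s = x^(s+1) / (s (s+1))`, `‖K s‖ ≤ x^(re s + 1) / ‖s‖²` for `re s > 0`. Cauchy's theorem for the rectangle with vertices `σ0 ± i T`, `c ± i T` and
`L s * K s - K 1 / (s - 1)`, which extends analytically to `1` (removable singularity;
`Complex.integral_boundary_rect_eq_zero_of_differentiableOn`), compare the proof of `shift_line` in `Pool/Agent/H15/VQ/PerC.lean` (`int_line` there gives
the integrals of `1 / (s - 1)` over the vertical sides; the horizontal sides of `1 / (s - 1)` are `O(1 / T)` or exact). It may be easier to split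
`L s = 1 / (s - 1) + G s` with `G` analytic near the rectangle and to treat `K s / (s - 1)` exactly.
-/

set_option autoImplicit false

open Complex MeasureTheory Set Filter Topology

namespace VQ

private theorem int_seg (a : ℝ) (ha : a ≠ 0) (p q : ℝ) :
    ∫ y in p..q, 1 / ((a : ℂ) + y * I) = ((Real.arctan (q / a) - Real.arctan (p / a) : ℝ) : ℂ) -
      I * ((Real.log (a ^ 2 + q ^ 2) / 2 - Real.log (a ^ 2 + p ^ 2) / 2 : ℝ) : ℂ) := by
  have hpos : ∀ y : ℝ, 0 < a ^ 2 + y ^ 2 := fun y => by positivity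
  have hne : ∀ y : ℝ, (a : ℂ) + y * I ≠ 0 := by
    intro y h
    have := congrArg Complex.re h
    simp at this
    exact ha this
  have hd : ∀ y ∈ uIcc p q, HasDerivAt
      (fun y : ℝ => ((Real.arctan (y / a) : ℝ) : ℂ) - I * ((Real.log (a ^ 2 + y ^ 2) / 2 : ℝ) : ℂ))
      (1 / ((a : ℂ) + y * I)) y := by
    intro y _
    have h1 : HasDerivAt (fun y : ℝ => Real.arctan (y / a)) (1 / (1 + (y / a) ^ 2) * (1 / a)) y := by
      have := ((hasDerivAt_id y).div_const a).arctan
      simpa using this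
    have h2 : HasDerivAt (fun y : ℝ => Real.log (a ^ 2 + y ^ 2) / 2) ((2 * y / (a ^ 2 + y ^ 2)) / 2) y := by
      have h3 : HasDerivAt (fun y : ℝ => a ^ 2 + y ^ 2) (2 * y) y := by
        have := ((hasDerivAt_id y).pow 2).const_add (a ^ 2)
        simpa using this
      exact (h3.log (hpos y).ne').div_const 2
    have h4 := (h1.ofReal_comp).sub ((h2.ofReal_comp).const_mul I)
    have e : ((1 / (1 + (y / a) ^ 2) * (1 / a) : ℝ) : ℂ) - I * (((2 * y / (a ^ 2 + y ^ 2)) / 2 : ℝ) : ℂ) =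
        1 / ((a : ℂ) + y * I) := by
      have e1 : (1 / (1 + (y / a) ^ 2) * (1 / a) : ℝ) = a / (a ^ 2 + y ^ 2) := by
        have := (hpos y).ne'
        field_simp
      have e2 : ((2 * y / (a ^ 2 + y ^ 2)) / 2 : ℝ) = y / (a ^ 2 + y ^ 2) := by
        ring
      rw [e1, e2]
      have h5 : ((a : ℂ) ^ 2 + (y : ℂ) ^ 2) ≠ 0 := by exact_mod_cast (hpos y).ne'
      rw [eq_div_iff (hne y)]
      push_cast
      field_simp
      have hI : I ^ 2 = -1 := I_sq
      linear_combination (-(y : ℂ) ^ 2) * hI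
    rw [e] at h4
    exact h4
  rw [intervalIntegral.integral_eq_sub_of_hasDerivAt hd]
  · push_cast
    ring
  · apply Continuous.intervalIntegrable
    refine continuous_const.div (by fun_prop) hne

private theorem norm_K {x : ℝ} (hx : 1 ≤ x) {s : ℂ} (hs : 0 < s.re) :
    ‖(x : ℂ) ^ (s + 1) / (s * (s + 1))‖ ≤ x ^ (s.re + 1) / (s.re ^ 2 + s.im ^ 2) := by
  have hx0 : 0 < x := by linarith
  rw [norm_div, Complex.norm_cpow_eq_rpow_re_of_pos hx0, norm_mul]
  have e1 : (s + 1).re = s.re + 1 := by simp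
  rw [e1]
  have hq : 0 < s.re ^ 2 + s.im ^ 2 := by positivity
  apply div_le_div_of_nonneg_left (by positivity) hq
  have h1 : s.re ^ 2 + s.im ^ 2 = ‖s‖ * ‖s‖ := by
    rw [← Complex.normSq_eq_norm_sq s |>.trans (sq _), Complex.normSq_apply]
    ring
  rw [h1]
  apply mul_le_mul_of_nonneg_left _ (norm_nonneg _)
  have h2 : ‖s‖ ^ 2 ≤ ‖s + 1‖ ^ 2 := by
    rw [← Complex.normSq_eq_norm_sq, ← Complex.normSq_eq_norm_sq, Complex.normSq_apply, Complex.normSq_apply]
    simp
    nlinarith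
  exact le_of_sq_le_sq h2 (norm_nonneg _) 

set_option maxHeartbeats 2000000 in
theorem box_bound {L : ℂ → ℂ} {σ0 c T M M1 x : ℝ} (h0 : 1 / 2 < σ0) (h1 : σ0 < 1) (hc : 1 < c) (hc2 : c ≤ 2) (hT : 3 ≤ T)
    (hx : 1 ≤ x) (hM : 0 ≤ M) {U : Set ℂ} (hU : IsOpen U)
    (hUr : ∀ s : ℂ, σ0 ≤ s.re → s.re ≤ c → |s.im| ≤ T → s ∈ U)
    (hL : DifferentiableOn ℂ L (U \ {1})) (hres : Tendsto (fun s => (s - 1) * L s) (𝓝[≠] 1) (𝓝 1))
    (hleft : ∀ y : ℝ, |y| ≤ T → ‖L ((σ0 : ℂ) + y * I)‖ ≤ M)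
    (hhor : ∀ s : ℂ, σ0 ≤ s.re → s.re ≤ c → |s.im| = T → ‖L s‖ ≤ M)
    (hline : ∀ y : ℝ, ‖L ((c : ℂ) + y * I)‖ ≤ M1) (hcont : Continuous fun y : ℝ => L ((c : ℂ) + y * I)) :
    ‖(1 / (2 * Real.pi) : ℂ) * (∫ y : ℝ, L ((c : ℂ) + y * I) * ((x : ℂ) ^ ((c : ℂ) + y * I + 1) /
        (((c : ℂ) + y * I) * ((c : ℂ) + y * I + 1)))) - ((x ^ 2 / 2 : ℝ) : ℂ)‖ ≤
      10 * (M1 * x ^ (c + 1) / T + M * x ^ (σ0 + 1) + M * x ^ (c + 1) / T ^ 2) := by
  have hx0 : 0 < x := by linarith
  have hT0 : 0 < T := by linarith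
  have hM1 : 0 ≤ M1 := (norm_nonneg _).trans (hline 0)
  have hσc : σ0 ≤ c := by linarith
  set K : ℂ → ℂ := fun s => (x : ℂ) ^ (s + 1) / (s * (s + 1)) with hKdef
  set F : ℂ → ℂ := fun s => L s * K s with hFdef
  set ρ : ℂ := ((x ^ 2 / 2 : ℝ) : ℂ) with hρdef
  set V : Set ℂ := U ∩ {s : ℂ | 1 / 2 < s.re} with hVdef
  have hVo : IsOpen V := hU.inter (isOpen_lt continuous_const Complex.continuous_re)
  have h1V : (1 : ℂ) ∈ V := by
    refine ⟨hUr 1 (by simpa using h1.le) (by simpa using hc.le) (by simpa using hT0.le), ?_⟩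
    simp only [mem_ofPred_eq, Complex.one_re]
    norm_num
  have hKd : ∀ s : ℂ, 0 < s.re → DifferentiableAt ℂ K s := by
    intro s hs
    have hne1 : s ≠ 0 := by
      rintro rfl
      simp at hs
    have hne2 : s + 1 ≠ 0 := by
      intro h
      have := congrArg Complex.re h
      simp at this
      linarith
    have hxc : (x : ℂ) ≠ 0 := by exact_mod_cast hx0.ne'
    refine DifferentiableAt.div ?_ (by fun_prop) (mul_ne_zero hne1 hne2)
    exact (differentiableAt_id.add_const 1).const_cpow (Or.inl hxc)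
  have hFat : ∀ s : ℂ, s ∈ V → s ≠ 1 → DifferentiableAt ℂ F s := by
    intro s hs h
    have h2 : DifferentiableAt ℂ L s := by
      refine (hL s ⟨hs.1, h⟩).differentiableAt ?_
      exact (hU.sdiff isClosed_singleton).mem_nhds ⟨hs.1, h⟩
    have h3 : (1 : ℝ) / 2 < s.re := hs.2
    exact h2.mul (hKd s (by linarith))
  have hK1 : K 1 = ρ := by
    simp only [hKdef, hρdef]
    have e : (1 : ℂ) + 1 = 2 := by norm_num
    rw [e, Complex.cpow_ofNat]
    push_cast
    ring
  have hresF : Tendsto (fun s => (s - 1) * F s) (𝓝[≠] 1) (𝓝 ρ) := by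
    have hk : Tendsto K (𝓝[≠] 1) (𝓝 (K 1)) :=
      ((hKd 1 (by simp)).continuousAt.tendsto).mono_left nhdsWithin_le_nhds
    have h2 := hres.mul hk
    rw [one_mul, hK1] at h2
    refine h2.congr fun s => ?_
    simp only [hFdef]
    ring
  -- the removable singularity
  set H : ℂ → ℂ := Function.update (fun s => (s - 1) * F s) 1 ρ with hHdef
  have hHne : ∀ s : ℂ, s ≠ 1 → H s = (s - 1) * F s := fun s hs => Function.update_of_ne hs _ _
  have hH1 : H 1 = ρ := Function.update_self _ _ _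
  have hHat : ∀ s : ℂ, s ∈ V → s ≠ 1 → DifferentiableAt ℂ H s := by
    intro s hs h
    have h2 : DifferentiableAt ℂ (fun s => (s - 1) * F s) s :=
      ((differentiableAt_id.sub_const 1)).mul (hFat s hs h)
    refine h2.congr_of_eventuallyEq ?_
    filter_upwards [isOpen_ne.mem_nhds h] with z hz
    exact hHne z hz
  have hHd : DifferentiableOn ℂ H V := by
    intro s hs
    by_cases h : s = 1
    · subst h
      have hc : ContinuousAt H 1 := continuousAt_update_same.2 hresF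
      have hd : ∀ᶠ z in 𝓝[≠] (1 : ℂ), DifferentiableAt ℂ H z := by
        rw [eventually_nhdsWithin_iff]
        filter_upwards [hVo.mem_nhds hs] with z hz hz1
        exact hHat z hz hz1
      exact (Complex.analyticAt_of_differentiable_on_punctured_nhds_of_continuousAt hd hc).differentiableAt.differentiableWithinAt
    · exact (hHat s hs h).differentiableWithinAt
  set G : ℂ → ℂ := dslope H 1 with hGdef
  have hGd : DifferentiableOn ℂ G V := (Complex.differentiableOn_dslope (hVo.mem_nhds h1V)).2 hHd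
  have hGe : ∀ s : ℂ, s ≠ 1 → G s = F s - ρ * (1 / (s - 1)) := by
    intro s hs
    have hs1 : s - 1 ≠ 0 := sub_ne_zero.2 hs
    rw [hGdef, dslope_of_ne _ hs, slope_def_field, hH1, hHne s hs]
    field_simp
  -- membership of the rectangle
  have hmem : ∀ s : ℂ, σ0 ≤ s.re → s.re ≤ c → |s.im| ≤ T → s ∈ V := by
    intro s ha hb hd
    refine ⟨hUr s ha hb hd, ?_⟩
    simp only [mem_ofPred_eq]
    linarith
  -- continuity of F along the four sides
  have hvc : ∀ σ : ℝ, σ ≠ 1 → σ0 ≤ σ → σ ≤ c →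
      ContinuousOn (fun y : ℝ => F ((σ : ℂ) + y * I)) (uIcc (-T) T) := by
    intro σ hσ ha hb y hy
    rw [uIcc_of_le (by linarith)] at hy
    have h2 : ContinuousAt F ((σ : ℂ) + y * I) := by
      refine (hFat _ (hmem _ (by simpa using ha) (by simpa using hb) ?_) ?_).continuousAt
      · simpa using abs_le.2 hy
      · intro h
        have := congrArg Complex.re h
        simp at this
        exact hσ this
    exact (ContinuousAt.comp (f := fun y : ℝ => (σ : ℂ) + y * I) h2 (by fun_prop)).continuousWithinAt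
  have hhc : ∀ t : ℝ, |t| = T → ContinuousOn (fun u : ℝ => F ((u : ℂ) + t * I)) (uIcc σ0 c) := by
    intro t ht u hu
    rw [uIcc_of_le hσc] at hu
    have h2 : ContinuousAt F ((u : ℂ) + t * I) := by
      refine (hFat _ (hmem _ (by simpa using hu.1) (by simpa using hu.2) ?_) ?_).continuousAt
      · simpa using ht.le
      · intro h
        have := congrArg Complex.im h
        simp at this
        rw [this, abs_zero] at ht
        linarith
    exact (ContinuousAt.comp (f := fun u : ℝ => (u : ℂ) + t * I) h2 (by fun_prop)).continuousWithinAt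
  -- the vertical sides of G
  have hvert : ∀ σ : ℝ, σ ≠ 1 → σ0 ≤ σ → σ ≤ c →
      ∫ y in (-T)..T, G ((σ : ℂ) + y * I) =
        (∫ y in (-T)..T, F ((σ : ℂ) + y * I)) - ρ * ((2 * Real.arctan (T / (σ - 1)) : ℝ) : ℂ) := by
    intro σ hσ ha hb
    have hσ' : σ - 1 ≠ 0 := sub_ne_zero.2 hσ
    have hne : ∀ y : ℝ, (σ : ℂ) + y * I ≠ 1 := by
      intro y h
      have := congrArg Complex.re h
      simp at this
      exact hσ this
    have e1 : (fun y : ℝ => G ((σ : ℂ) + y * I)) = fun y : ℝ =>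
        F ((σ : ℂ) + y * I) - ρ * (1 / (((σ - 1 : ℝ) : ℂ) + y * I)) := by
      funext y
      rw [hGe _ (hne y)]
      have e2 : (σ : ℂ) + y * I - 1 = ((σ - 1 : ℝ) : ℂ) + y * I := by
        push_cast
        ring
      rw [e2]
    have hcc : Continuous fun y : ℝ => ρ * (1 / (((σ - 1 : ℝ) : ℂ) + y * I)) := by
      refine continuous_const.mul (continuous_const.div (by fun_prop) ?_)
      intro y h
      have := congrArg Complex.re h
      simp at this
      exact hσ' this
    rw [e1, intervalIntegral.integral_sub (hvc σ hσ ha hb).intervalIntegrable (hcc.intervalIntegrable _ _),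
      intervalIntegral.integral_const_mul, int_seg _ hσ']
    have e3 : Real.arctan (-T / (σ - 1)) = -Real.arctan (T / (σ - 1)) := by
      rw [neg_div, Real.arctan_neg]
    rw [e3, neg_sq]
    push_cast
    ring
  -- the horizontal sides of G, `t = - a`
  have hhoriz : ∀ a : ℝ, |a| = T →
      ∫ u in σ0..c, G ((u : ℂ) + ((-a : ℝ) : ℂ) * I) =
        (∫ u in σ0..c, F ((u : ℂ) + ((-a : ℝ) : ℂ) * I)) - ρ * (I * (((Real.arctan ((c - 1) / a) - Real.arctan ((σ0 - 1) / a) : ℝ) : ℂ) -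
      I * ((Real.log (a ^ 2 + (c - 1) ^ 2) / 2 - Real.log (a ^ 2 + (σ0 - 1) ^ 2) / 2 : ℝ) : ℂ))) := by
    intro a ha
    have ha0 : a ≠ 0 := by
      rintro rfl
      rw [abs_zero] at ha
      linarith
    have hne : ∀ u : ℝ, (u : ℂ) + ((-a : ℝ) : ℂ) * I ≠ 1 := by
      intro u h
      have := congrArg Complex.im h
      simp at this
      exact ha0 this
    have hne2 : ∀ u : ℝ, (a : ℂ) + ((u - 1 : ℝ) : ℂ) * I ≠ 0 := by
      intro u h
      have := congrArg Complex.re h
      simp at this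
      exact ha0 this
    have e1 : (fun u : ℝ => G ((u : ℂ) + ((-a : ℝ) : ℂ) * I)) = fun u : ℝ =>
        F ((u : ℂ) + ((-a : ℝ) : ℂ) * I) - ρ * (I * (1 / ((a : ℂ) + ((u - 1 : ℝ) : ℂ) * I))) := by
      funext u
      rw [hGe _ (hne u)]
      have e2 : (u : ℂ) + ((-a : ℝ) : ℂ) * I - 1 = -I * ((a : ℂ) + ((u - 1 : ℝ) : ℂ) * I) := by
        push_cast
        linear_combination ((u : ℂ) - 1) * I_sq
      have e4 : 1 / (-I * ((a : ℂ) + ((u - 1 : ℝ) : ℂ) * I)) = I * (1 / ((a : ℂ) + ((u - 1 : ℝ) : ℂ) * I)) := by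
        have h5 := hne2 u
        have hI : I ≠ 0 := Complex.I_ne_zero
        rw [div_eq_iff (mul_ne_zero (neg_ne_zero.2 hI) h5)]
        have h6 : I * (1 / ((a : ℂ) + ((u - 1 : ℝ) : ℂ) * I)) * (-I * ((a : ℂ) + ((u - 1 : ℝ) : ℂ) * I)) =
            -(I ^ 2) * ((1 / ((a : ℂ) + ((u - 1 : ℝ) : ℂ) * I)) * ((a : ℂ) + ((u - 1 : ℝ) : ℂ) * I)) := by ring
        rw [h6, one_div_mul_cancel h5, I_sq]
        ring
      rw [e2, e4]
    have hcc : Continuous fun u : ℝ => ρ * (I * (1 / ((a : ℂ) + ((u - 1 : ℝ) : ℂ) * I))) := by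
      refine continuous_const.mul (continuous_const.mul (continuous_const.div (by fun_prop) hne2))
    have hta : |(-a)| = T := by rw [abs_neg, ha]
    rw [e1, intervalIntegral.integral_sub (hhc (-a) hta).intervalIntegrable (hcc.intervalIntegrable _ _),
      intervalIntegral.integral_const_mul, intervalIntegral.integral_const_mul]
    have e5 := intervalIntegral.integral_comp_sub_right (a := σ0) (b := c) (fun y : ℝ => 1 / ((a : ℂ) + (y : ℂ) * I)) 1
    rw [int_seg a ha0] at e5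
    rw [e5]
  -- Cauchy
  have hC : (∫ u in σ0..c, G ((u : ℂ) + ((-T : ℝ) : ℂ) * I)) - (∫ u in σ0..c, G ((u : ℂ) + ((T : ℝ) : ℂ) * I)) +
        I • (∫ y in (-T)..T, G ((c : ℂ) + y * I)) - I • (∫ y in (-T)..T, G ((σ0 : ℂ) + y * I)) = 0 := by
    have := Complex.integral_boundary_rect_eq_zero_of_differentiableOn G ⟨σ0, -T⟩ ⟨c, T⟩ ?_
    · simpa using this
    · refine hGd.mono ?_
      rintro s ⟨hs, ht⟩
      simp only [mem_preimage] at hs ht
      rw [uIcc_of_le hσc] at hs
      rw [uIcc_of_le (by linarith)] at ht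
      exact hmem s hs.1 hs.2 (abs_le.2 ht)
  have habsT : |T| = T := abs_of_pos hT0
  have habsT' : |(-T)| = T := by rw [abs_neg, habsT]
  have hb := hhoriz T habsT
  have ht := hhoriz (-T) habsT'
  rw [neg_neg] at ht
  rw [hb, ht, hvert c hc.ne' hσc le_rfl, hvert σ0 h1.ne le_rfl hσc] at hC
  -- the arctangents
  have a1 : Real.arctan (T / (c - 1)) = Real.pi / 2 - Real.arctan ((c - 1) / T) := by
    rw [← Real.arctan_inv_of_pos (by apply div_pos <;> linarith), inv_div]
  have a2 : Real.arctan (T / (σ0 - 1)) = -(Real.pi / 2) - Real.arctan ((σ0 - 1) / T) := by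
    have e6 : T / (σ0 - 1) = -(T / (1 - σ0)) := by
      rw [← neg_sub, div_neg]
    have e7 : (σ0 - 1) / T = -((1 - σ0) / T) := by ring
    rw [e6, e7, Real.arctan_neg, Real.arctan_neg, show T / (1 - σ0) = ((1 - σ0) / T)⁻¹ by rw [inv_div],
      Real.arctan_inv_of_pos (by apply div_pos <;> linarith)]
    ring
  have a3 : Real.arctan ((c - 1) / -T) = -Real.arctan ((c - 1) / T) := by
    rw [div_neg, Real.arctan_neg]
  have a4 : Real.arctan ((σ0 - 1) / -T) = -Real.arctan ((σ0 - 1) / T) := by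
    rw [div_neg, Real.arctan_neg]
  rw [a1, a2, a3, a4, neg_sq] at hC
  set B : ℂ := ∫ u in σ0..c, F ((u : ℂ) + ((-T : ℝ) : ℂ) * I) with hBdef
  set Tp : ℂ := ∫ u in σ0..c, F ((u : ℂ) + ((T : ℝ) : ℂ) * I) with hTpdef
  set R : ℂ := ∫ y in (-T)..T, F ((c : ℂ) + y * I) with hRdef
  set Lf : ℂ := ∫ y in (-T)..T, F ((σ0 : ℂ) + y * I) with hLfdef
  have hR : R - 2 * Real.pi * ρ = Lf + I * (B - Tp) := by
    simp only [smul_eq_mul] at hC
    push_cast at hC
    have hI : I ≠ 0 := Complex.I_ne_zero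
    have h6 : I * (R - 2 * Real.pi * ρ - (Lf + I * (B - Tp))) = 0 := by
      linear_combination hC - (B - Tp) * I_sq
    rcases mul_eq_zero.1 h6 with h | h
    · exact absurd h hI
    · linear_combination h
  -- bounds of the three pieces
  have hxp : ∀ a : ℝ, 0 < x ^ a := fun a => Real.rpow_pos_of_pos hx0 a
  have hnF : ∀ s : ℂ, 0 < s.re → ∀ A : ℝ, ‖L s‖ ≤ A → ‖F s‖ ≤ A * (x ^ (s.re + 1) / (s.re ^ 2 + s.im ^ 2)) := by
    intro s hs A hA
    simp only [hFdef]
    rw [norm_mul]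
    exact mul_le_mul hA (norm_K hx hs) (norm_nonneg _) ((norm_nonneg _).trans hA)
  have hhb : ∀ t : ℝ, |t| = T → ‖∫ u in σ0..c, F ((u : ℂ) + (t : ℂ) * I)‖ ≤ (3 / 2) * (M * x ^ (c + 1) / T ^ 2) := by
    intro t htT
    have h2 : ‖∫ u in σ0..c, F ((u : ℂ) + (t : ℂ) * I)‖ ≤ (M * x ^ (c + 1) / T ^ 2) * |c - σ0| := by
      apply intervalIntegral.norm_integral_le_of_norm_le_const
      intro u hu
      rw [uIoc_of_le hσc] at hu
      have hre : ((u : ℂ) + (t : ℂ) * I).re = u := by simp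
      have him : ((u : ℂ) + (t : ℂ) * I).im = t := by simp
      have h3 := hnF ((u : ℂ) + (t : ℂ) * I) (by rw [hre]; linarith [hu.1]) M
        (hhor _ (by rw [hre]; exact hu.1.le) (by rw [hre]; exact hu.2) (by rw [him]; exact htT))
      rw [hre, him] at h3
      refine h3.trans ?_
      rw [mul_div_assoc]
      apply mul_le_mul_of_nonneg_left _ hM
      have h4 : t ^ 2 = T ^ 2 := by rw [← sq_abs, htT]
      rw [h4]
      apply div_le_div₀ (hxp _).le _ (by positivity) (by nlinarith [sq_nonneg u])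
      exact Real.rpow_le_rpow_of_exponent_le hx (by linarith [hu.2])
    have h5 : |c - σ0| ≤ 3 / 2 := by
      rw [abs_of_nonneg (by linarith)]
      linarith
    have h6 : 0 ≤ M * x ^ (c + 1) / T ^ 2 := by
      have := hxp (c + 1)
      positivity
    calc _ ≤ _ := h2
      _ ≤ (M * x ^ (c + 1) / T ^ 2) * (3 / 2) := mul_le_mul_of_nonneg_left h5 h6
      _ = _ := by ring
  have hLb : ‖Lf‖ ≤ 4 * Real.pi * (M * x ^ (σ0 + 1)) := by
    have hg : Continuous (fun y : ℝ => 4 * (M * x ^ (σ0 + 1)) * (1 + y ^ 2)⁻¹) := by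
      refine continuous_const.mul (Continuous.inv₀ (by fun_prop) ?_)
      intro y
      positivity
    have h2 : ‖Lf‖ ≤ ∫ y in (-T)..T, 4 * (M * x ^ (σ0 + 1)) * (1 + y ^ 2)⁻¹ := by
      apply intervalIntegral.norm_integral_le_of_norm_le (by linarith)
      · refine Filter.Eventually.of_forall fun y hy => ?_
        have hre : ((σ0 : ℂ) + (y : ℂ) * I).re = σ0 := by simp
        have him : ((σ0 : ℂ) + (y : ℂ) * I).im = y := by simp
        have h3 := hnF ((σ0 : ℂ) + (y : ℂ) * I) (by rw [hre]; linarith) M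
          (hleft y (abs_le.2 ⟨hy.1.le, hy.2⟩))
        rw [hre, him] at h3
        refine h3.trans ?_
        have h5 : x ^ (σ0 + 1) / (σ0 ^ 2 + y ^ 2) ≤ 4 * x ^ (σ0 + 1) * (1 + y ^ 2)⁻¹ := by
          rw [← div_eq_mul_inv, div_le_div_iff₀ (by positivity) (by positivity)]
          have h6 : 1 + y ^ 2 ≤ 4 * (σ0 ^ 2 + y ^ 2) := by nlinarith
          nlinarith [mul_le_mul_of_nonneg_left h6 (hxp (σ0 + 1)).le]
        calc M * (x ^ (σ0 + 1) / (σ0 ^ 2 + y ^ 2)) ≤ M * (4 * x ^ (σ0 + 1) * (1 + y ^ 2)⁻¹) :=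
              mul_le_mul_of_nonneg_left h5 hM
          _ = _ := by ring
      · exact hg.intervalIntegrable _ _
    rw [intervalIntegral.integral_const_mul, integral_inv_one_add_sq] at h2
    refine h2.trans ?_
    have h7 := Real.arctan_lt_pi_div_two T
    have h8 := Real.neg_pi_div_two_lt_arctan (-T)
    have h9 : 0 ≤ M * x ^ (σ0 + 1) := mul_nonneg hM (hxp _).le
    nlinarith [mul_le_mul_of_nonneg_left (show Real.arctan T - Real.arctan (-T) ≤ Real.pi by linarith) h9]
  have hFc : Continuous (fun y : ℝ => F ((c : ℂ) + y * I)) := by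
    have hk : Continuous (fun y : ℝ => K ((c : ℂ) + y * I)) := by
      rw [continuous_iff_continuousAt]
      intro y
      have h2 : ContinuousAt K ((c : ℂ) + y * I) := by
        refine (hKd _ ?_).continuousAt
        simp
        linarith
      exact ContinuousAt.comp (f := fun y : ℝ => (c : ℂ) + y * I) h2 (by fun_prop)
    exact hcont.mul hk
  have hFb : ∀ y : ℝ, ‖F ((c : ℂ) + y * I)‖ ≤ (M1 * x ^ (c + 1)) * (1 + y ^ 2)⁻¹ := by
    intro y
    have hre : ((c : ℂ) + (y : ℂ) * I).re = c := by simp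
    have him : ((c : ℂ) + (y : ℂ) * I).im = y := by simp
    have h3 := hnF ((c : ℂ) + (y : ℂ) * I) (by rw [hre]; linarith) M1 (hline y)
    rw [hre, him] at h3
    refine h3.trans ?_
    rw [mul_assoc, ← div_eq_mul_inv]
    apply mul_le_mul_of_nonneg_left _ hM1
    apply div_le_div_of_nonneg_left (hxp _).le (by positivity)
    nlinarith
  have hgi : Integrable (fun y : ℝ => (M1 * x ^ (c + 1)) * (1 + y ^ 2)⁻¹) :=
    integrable_inv_one_add_sq.const_mul _
  have hFi : Integrable (fun y : ℝ => F ((c : ℂ) + y * I)) :=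
    hgi.mono' hFc.aestronglyMeasurable (Filter.Eventually.of_forall hFb)
  have htail : ‖(∫ y : ℝ, F ((c : ℂ) + y * I)) - R‖ ≤ 2 * (M1 * x ^ (c + 1) / T) := by
    have h2 : (∫ y : ℝ, F ((c : ℂ) + y * I)) - R = ∫ y in (Ioc (-T) T)ᶜ, F ((c : ℂ) + y * I) := by
      rw [← integral_add_compl (measurableSet_Ioc (a := -T) (b := T)) hFi, hRdef,
        intervalIntegral.integral_of_le (by linarith)]
      ring
    have h3 : (∫ y in (Ioc (-T) T)ᶜ, (M1 * x ^ (c + 1)) * (1 + y ^ 2)⁻¹) =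
        (M1 * x ^ (c + 1)) * (Real.pi - (Real.arctan T - Real.arctan (-T))) := by
      have h4 := integral_add_compl (measurableSet_Ioc (a := -T) (b := T)) hgi
      have h11 : (∫ y : ℝ, (M1 * x ^ (c + 1)) * (1 + y ^ 2)⁻¹) = (M1 * x ^ (c + 1)) * Real.pi := by
        rw [integral_const_mul, integral_univ_inv_one_add_sq]
      rw [← intervalIntegral.integral_of_le (by linarith), intervalIntegral.integral_const_mul,
        integral_inv_one_add_sq, h11] at h4
      linarith
    rw [h2]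
    have h5 : ‖∫ y in (Ioc (-T) T)ᶜ, F ((c : ℂ) + y * I)‖ ≤ ∫ y in (Ioc (-T) T)ᶜ, (M1 * x ^ (c + 1)) * (1 + y ^ 2)⁻¹ :=
      norm_integral_le_of_norm_le hgi.integrableOn (Filter.Eventually.of_forall hFb)
    rw [h3] at h5
    refine h5.trans ?_
    have h6 : Real.arctan T⁻¹ ≤ T⁻¹ := by
      have h7 : (0 : ℝ) ≤ Real.arctan T⁻¹ := Real.arctan_nonneg.2 (by positivity)
      have h8 := Real.le_tan h7 (Real.arctan_lt_pi_div_two _)
      rwa [Real.tan_arctan] at h8
    rw [Real.arctan_inv_of_pos hT0] at h6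
    rw [Real.arctan_neg]
    have h9 : 0 ≤ M1 * x ^ (c + 1) := mul_nonneg hM1 (hxp _).le
    have h10 := mul_le_mul_of_nonneg_left h6 h9
    rw [div_eq_mul_inv]
    nlinarith
  have hpi : 3 < Real.pi := Real.pi_gt_three
  have e9 : (1 / (2 * Real.pi) : ℂ) * (∫ y : ℝ, F ((c : ℂ) + y * I)) - ρ =
      (1 / (2 * Real.pi) : ℂ) * (((∫ y : ℝ, F ((c : ℂ) + y * I)) - R) + (Lf + I * (B - Tp))) := by
    rw [← hR]
    have : (Real.pi : ℂ) ≠ 0 := by exact_mod_cast Real.pi_ne_zero
    generalize (∫ y : ℝ, F ((c : ℂ) + y * I)) = W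
    field_simp
    ring
  have e10 : ‖(1 / (2 * Real.pi) : ℂ)‖ = 1 / (2 * Real.pi) := by
    have : (1 / (2 * Real.pi) : ℂ) = ((1 / (2 * Real.pi) : ℝ) : ℂ) := by push_cast; ring
    rw [this, Complex.norm_real, Real.norm_eq_abs, abs_of_pos (by positivity)]
  have hgoal : ‖(1 / (2 * Real.pi) : ℂ) * (∫ y : ℝ, F ((c : ℂ) + y * I)) - ρ‖ ≤
      10 * (M1 * x ^ (c + 1) / T + M * x ^ (σ0 + 1) + M * x ^ (c + 1) / T ^ 2) := by
    rw [e9, norm_mul, e10]
    have hB := hhb (-T) habsT'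
    have hTp := hhb T habsT
    have n1 : ‖((∫ y : ℝ, F ((c : ℂ) + y * I)) - R) + (Lf + I * (B - Tp))‖ ≤
        2 * (M1 * x ^ (c + 1) / T) + (4 * Real.pi * (M * x ^ (σ0 + 1)) + 3 * (M * x ^ (c + 1) / T ^ 2)) := by
      refine (norm_add_le _ _).trans (add_le_add htail ((norm_add_le _ _).trans (add_le_add hLb ?_)))
      rw [norm_mul, Complex.norm_I, one_mul]
      refine (norm_sub_le _ _).trans ?_
      linarith
    have p1 : 0 ≤ M1 * x ^ (c + 1) / T := by
      have := hxp (c + 1)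
      positivity
    have p2 : 0 ≤ M * x ^ (σ0 + 1) := mul_nonneg hM (hxp _).le
    have p3 : 0 ≤ M * x ^ (c + 1) / T ^ 2 := by
      have := hxp (c + 1)
      positivity
    rw [one_div, inv_mul_le_iff₀ (by positivity)]
    refine n1.trans ?_
    nlinarith [mul_nonneg (sub_nonneg.2 hpi.le) p1, mul_nonneg (sub_nonneg.2 hpi.le) p2, mul_nonneg (sub_nonneg.2 hpi.le) p3]
  exact hgoal

end VQ
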