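import Pool.Agent.H15.VQ.PnA
import Pool.Agent.H6.Win.LocLog

/-!
# PnD : the logarithmic derivative in a zero-free region

For `re s ≥ 1 + η` this is `psi_bound`. Otherwise let `g s = (s - 1) Z s` (`Pool.Agent.H71.Lan.gg`, analytic for `re s > 1 / 2`, in
`Pool/Agent/H71/Lan/Pole.lean`), `s0 = 1 + η + i im s`, `Pool.Agent.H6.logDeriv_le_of_ne_zero` with the radii `R0 = 2`, `R1 = 29 / 10` for
`z ↦ Z (s0 + η z)` if `|im s| ≥ 4` and `z ↦ g (s0 + η z)` if `|im s| < 4`: the disc lies in `re s ≥ 1 - 19 / 10 η`, there are no zeros; `‖Z s0‖ ≥ η / C`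
(`Pool.Agent.H71.Lan.one_le` and `pole`), `‖g s0‖ ≥ η ^ 2 / C`, `g` is bounded on the compact set `3 / 4 ≤ re s ≤ 2`, `|im s| ≤ 5`. Finally
`Z' / Z = g' / g - 1 / (s - 1)`.
-/

set_option autoImplicit false

open Complex MeasureTheory Set Filter Topology

namespace VQ

variable {p : ℕ → ℝ} {κ : ℝ} {Z : ℂ → ℂ}

/-- rescaled form of the zero-free bound of the logarithmic derivative -/
private lemma pnd_key : ∃ C : ℝ, 0 < C ∧ ∀ (f : ℂ → ℂ) (s0 : ℂ) (η Λ : ℝ), 0 < η → 0 < Λ →
    (∀ w, ‖w - s0‖ < 29 / 10 * η → DifferentiableAt ℂ f w) →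
    (∀ w, ‖w - s0‖ < 29 / 10 * η → f w ≠ 0) →
    (∀ w, ‖w - s0‖ < 29 / 10 * η → ‖f w‖ ≤ Real.exp Λ * ‖f s0‖) →
    ∀ s, ‖s - s0‖ ≤ 2 * η → ‖deriv f s / f s‖ ≤ C * Λ / η := by
  obtain ⟨C, hC, hk⟩ := Pool.Agent.H6.logDeriv_le_of_ne_zero (R0 := 2) (R1 := 29 / 10)
    (by norm_num) (by norm_num)
  refine ⟨C, hC, fun f s0 η Λ hη hΛ hd hne hb s hs => ?_⟩
  have hηc : (η : ℂ) ≠ 0 := by exact_mod_cast hη.ne'
  set G : ℂ → ℂ := fun z => f (s0 + η * z) with hG
  have hmem : ∀ z ∈ Metric.ball (0 : ℂ) (29 / 10), ‖s0 + η * z - s0‖ < 29 / 10 * η := by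
    intro z hz
    rw [mem_ball_zero_iff] at hz
    rw [add_sub_cancel_left, norm_mul, Complex.norm_real, Real.norm_eq_abs, abs_of_pos hη, mul_comm]
    exact mul_lt_mul_of_pos_right hz hη
  have hlin : ∀ z : ℂ, HasDerivAt (fun z : ℂ => s0 + η * z) (η : ℂ) z := by
    intro z
    refine (((hasDerivAt_id z).const_mul (η : ℂ)).const_add s0).congr_deriv ?_
    rw [mul_one]
  have hGd : ∀ z ∈ Metric.ball (0 : ℂ) (29 / 10), HasDerivAt G (deriv f (s0 + η * z) * η) z := by
    intro z hz
    exact (hd _ (hmem z hz)).hasDerivAt.comp z (hlin z)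
  have hG0 : G 0 = f s0 := by rw [hG]; simp
  set z : ℂ := (s - s0) / η with hz
  have hsz : s0 + η * z = s := by
    rw [hz]
    field_simp
    ring
  have hz2 : ‖z - 0‖ ≤ 2 := by
    rw [sub_zero, hz, norm_div, Complex.norm_real, Real.norm_eq_abs, abs_of_pos hη,
      div_le_iff₀ hη]
    exact hs
  have hzb : z ∈ Metric.ball (0 : ℂ) (29 / 10) := by
    rw [mem_ball_zero_iff]
    rw [sub_zero] at hz2
    linarith
  have h1 := hk G 0 Λ hΛ (fun w hw => (hGd w hw).differentiableAt.differentiableWithinAt)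
    (fun w hw => hne _ (hmem w hw))
    (fun w hw => by rw [hG0]; exact hb _ (hmem w hw)) z hz2
  have h2 : deriv G z / G z = η * (deriv f s / f s) := by
    rw [(hGd z hzb).deriv, hsz]
    show deriv f s * η / f (s0 + η * z) = _
    rw [hsz]
    ring
  rw [h2, norm_mul, Complex.norm_real, Real.norm_eq_abs, abs_of_pos hη] at h1
  rw [le_div_iff₀ hη]
  linarith

theorem logDeriv_region (h : IsZeta p κ Z) : ∃ C : ℝ, 1 ≤ C ∧ ∀ T η M : ℝ, 3 ≤ T → 0 < η → η ≤ 1 / 10 → 0 ≤ M →
    (∀ ρ : ℂ, Z ρ = 0 → ρ ≠ 1 → |ρ.im| ≤ T + 1 → ρ.re ≤ 1 - 2 * η) →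
    (∀ s : ℂ, 1 - 2 * η ≤ s.re → s.re ≤ 2 → 3 ≤ |s.im| → |s.im| ≤ T + 1 → ‖Z s‖ ≤ Real.exp M) →
    ∀ s : ℂ, 1 - η ≤ s.re → s.re ≤ 2 → |s.im| ≤ T → η / 2 ≤ ‖s - 1‖ →
      ‖deriv Z s / Z s‖ ≤ C * (M + Real.log (1 / η) + 1) / η := by
  obtain ⟨C0, hC0, hkey⟩ := pnd_key
  obtain ⟨C1, hC1, hpole⟩ := Pool.Agent.H71.Lan.pole h.bz
  obtain ⟨C3, hC3, hpsi⟩ := psi_bound h
  -- bound of g on a compact set
  have hKc : IsCompact (Icc (3 / 4 : ℝ) 2 ×ℂ Icc (-5 : ℝ) 5) := isCompact_Icc.reProdIm isCompact_Icc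
  have hgc : ContinuousOn (Pool.Agent.H71.Lan.gg Z κ) (Icc (3 / 4 : ℝ) 2 ×ℂ Icc (-5 : ℝ) 5) := by
    refine (Pool.Agent.H71.Lan.gg_diff h.bz).continuousOn.mono fun w hw => ?_
    have h1 := hw.1
    have h2 : (3 / 4 : ℝ) ≤ w.re := h1.1
    show 1 / 2 < w.re
    linarith
  obtain ⟨C2', hC2'⟩ := hKc.exists_bound_of_continuousOn hgc
  set C2 : ℝ := max 1 C2' with hC2d
  have hC2 : 1 ≤ C2 := le_max_left _ _
  have hL1 : 0 ≤ Real.log C1 := Real.log_nonneg (by linarith)
  have hL2 : 0 ≤ Real.log C2 := Real.log_nonneg hC2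
  have hCC : 0 ≤ C0 * (Real.log C1 + Real.log C2 + 2) := mul_nonneg hC0.le (by linarith)
  refine ⟨1 + C3 + C0 * (Real.log C1 + Real.log C2 + 2) + 2, by linarith,
    fun T η M hT hη hη1 hM hzero hbd s h1 h2 h3 h4 => ?_⟩
  have hl : 0 < Real.log (1 / η) := by
    refine Real.log_pos ?_
    rw [lt_div_iff₀ hη]
    linarith
  set Lη := Real.log (1 / η) with hLη
  have hexpL : Real.exp Lη = 1 / η := Real.exp_log (by positivity)
  rcases le_or_gt (1 + η) s.re with hc | hc
  · -- to the right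
    have h5 := hpsi s (by linarith) h2
    have h6 : 1 / (s.re - 1) ≤ 1 / η := one_div_le_one_div_of_le hη (by linarith)
    have h7 : C3 ≤ C3 / η := by
      rw [le_div_iff₀ hη]
      nlinarith
    calc ‖deriv Z s / Z s‖ ≤ 1 / η + C3 / η := by linarith
      _ = (1 + C3) * 1 / η := by ring
      _ ≤ (1 + C3 + C0 * (Real.log C1 + Real.log C2 + 2) + 2) * (M + Lη + 1) / η := by
        refine div_le_div_of_nonneg_right ?_ hη.le
        exact mul_le_mul (by linarith) (by linarith) (by norm_num) (by linarith)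
  -- near the line
  set s0 : ℂ := ⟨1 + η, s.im⟩ with hs0
  have hs0re : s0.re = 1 + η := rfl
  have hs0im : s0.im = s.im := rfl
  have hss0 : ‖s - s0‖ ≤ 2 * η := by
    have e : s - s0 = ((s.re - (1 + η) : ℝ) : ℂ) := by
      apply Complex.ext
      · simp [hs0re]
      · simp [hs0im]
    rw [e, Complex.norm_real, Real.norm_eq_abs, abs_le]
    constructor <;> linarith
  have hw : ∀ w : ℂ, ‖w - s0‖ < 29 / 10 * η → 1 - 19 / 10 * η < w.re ∧ w.re < 2 ∧
      |w.im - s.im| < 3 / 10 := by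
    intro w hw
    have a1 := (Complex.abs_re_le_norm (w - s0)).trans_lt hw
    have a2 := (Complex.abs_im_le_norm (w - s0)).trans_lt hw
    rw [Complex.sub_re, hs0re] at a1
    rw [Complex.sub_im, hs0im] at a2
    have a3 := abs_lt.1 a1
    exact ⟨by linarith, by linarith, by linarith⟩
  -- lower bound at the centre
  have hZs0 : η / C1 ≤ ‖Z s0‖ := by
    have b1 := Pool.Agent.H71.Lan.one_le h.bz (s := s0) (by rw [hs0re]; linarith)
    have b2 := (hpole η hη (by linarith)).1
    rw [hs0re] at b1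
    rw [div_le_iff₀ (by linarith)]
    have b3 : ‖Z s0‖ * ‖Z ((1 + η : ℝ) : ℂ)‖ ≤ ‖Z s0‖ * (C1 / η) :=
      mul_le_mul_of_nonneg_left b2 (norm_nonneg _)
    have b4 : 1 ≤ ‖Z s0‖ * (C1 / η) := b1.trans b3
    rw [← mul_div_assoc, le_div_iff₀ hη] at b4
    linarith
  have hZs0p : 0 < ‖Z s0‖ := lt_of_lt_of_le (by positivity) hZs0
  rcases le_or_gt 4 |s.im| with h5 | h5
  · -- away from the real axis
    have hΛ : 0 < M + Lη + Real.log C1 := by linarith
    have hwi : ∀ w : ℂ, ‖w - s0‖ < 29 / 10 * η → 3 ≤ |w.im| ∧ |w.im| ≤ T + 1 := by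
      intro w hww
      have a := (hw w hww).2.2
      constructor
      · have := abs_sub_abs_le_abs_sub s.im w.im
        rw [abs_sub_comm] at this
        linarith
      · have := abs_sub_abs_le_abs_sub w.im s.im
        linarith
    have hne1 : ∀ w : ℂ, ‖w - s0‖ < 29 / 10 * η → w ≠ 1 := by
      intro w hww h6
      have := (hwi w hww).1
      rw [h6] at this
      norm_num at this
    have h6 := hkey Z s0 η (M + Lη + Real.log C1) hη hΛ
      (fun w hww => Pool.Agent.H71.Lan.diffAt h.bz (by linarith [(hw w hww).1]) (hne1 w hww))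
      (fun w hww h7 => by
        have := hzero w h7 (hne1 w hww) (hwi w hww).2
        linarith [(hw w hww).1])
      (fun w hww => by
        have c1 := hbd w (by linarith [(hw w hww).1]) (hw w hww).2.1.le (hwi w hww).1
          (hwi w hww).2
        rw [Real.exp_add, Real.exp_add, hexpL, Real.exp_log (by linarith)]
        have c2 : Real.exp M * (1 / η) * C1 * (η / C1) = Real.exp M := by
          have : C1 ≠ 0 := by linarith
          field_simp
        calc ‖Z w‖ ≤ Real.exp M := c1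
          _ = Real.exp M * (1 / η) * C1 * (η / C1) := c2.symm
          _ ≤ Real.exp M * (1 / η) * C1 * ‖Z s0‖ := by
            refine mul_le_mul_of_nonneg_left hZs0 ?_
            have : 0 ≤ C1 := by linarith
            positivity) s hss0
    refine h6.trans (div_le_div_of_nonneg_right ?_ hη.le)
    have c3 : M + Lη + Real.log C1 ≤ (Real.log C1 + Real.log C2 + 2) * (M + Lη + 1) := by
      nlinarith [mul_nonneg (add_nonneg hL1 hL2) (by linarith : 0 ≤ M + Lη)]
    calc C0 * (M + Lη + Real.log C1)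
        ≤ C0 * ((Real.log C1 + Real.log C2 + 2) * (M + Lη + 1)) :=
          mul_le_mul_of_nonneg_left c3 hC0.le
      _ = (C0 * (Real.log C1 + Real.log C2 + 2)) * (M + Lη + 1) := by ring
      _ ≤ _ := mul_le_mul_of_nonneg_right (by linarith) (by linarith)
  · -- near the real axis
    set g : ℂ → ℂ := Pool.Agent.H71.Lan.gg Z κ with hg
    have hgd : ∀ w : ℂ, 1 / 2 < w.re → DifferentiableAt ℂ g w := fun w hww =>
      (Pool.Agent.H71.Lan.gg_diff h.bz).differentiableAt
        (Pool.Agent.H71.Lan.isOpen_half.mem_nhds hww)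
    have hs01 : s0 ≠ 1 := by
      intro h6
      have := congrArg Complex.re h6
      rw [hs0re, Complex.one_re] at this
      linarith
    have hgs0 : η * (η / C1) ≤ ‖g s0‖ := by
      rw [hg, Pool.Agent.H71.Lan.gg_of_ne hs01, norm_mul]
      have h6 : η ≤ ‖s0 - 1‖ := by
        have := Complex.re_le_norm (s0 - 1)
        rw [Complex.sub_re, hs0re, Complex.one_re] at this
        linarith
      exact mul_le_mul h6 hZs0 (by have : 0 < C1 := by linarith
                                   positivity) (norm_nonneg _)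
    have hΛ : 0 < 2 * Lη + Real.log C1 + Real.log C2 := by linarith
    have h6 := hkey g s0 η (2 * Lη + Real.log C1 + Real.log C2) hη hΛ
      (fun w hww => hgd w (by linarith [(hw w hww).1]))
      (fun w hww => by
        by_cases hw1 : w = 1
        · rw [hw1, hg]
          unfold Pool.Agent.H71.Lan.gg
          rw [Function.update_self]
          exact_mod_cast h.pos.ne'
        · rw [hg, Pool.Agent.H71.Lan.gg_of_ne hw1]
          refine mul_ne_zero (sub_ne_zero.2 hw1) fun h7 => ?_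
          have a := (hw w hww).2.2
          have b := abs_sub_abs_le_abs_sub w.im s.im
          have := hzero w h7 hw1 (by linarith)
          linarith [(hw w hww).1])
      (fun w hww => by
        have a := (hw w hww).2.2
        have b := abs_sub_abs_le_abs_sub w.im s.im
        have b' := abs_le.1 (by linarith : |w.im| ≤ 5)
        have c1 : ‖g w‖ ≤ C2 := by
          refine (hC2' w ⟨?_, ?_⟩).trans (le_max_right _ _)
          · exact ⟨by linarith [(hw w hww).1], (hw w hww).2.1.le⟩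
          · exact ⟨b'.1, b'.2⟩
        have c2 : Real.exp (2 * Lη + Real.log C1 + Real.log C2) = (1 / η) * (1 / η) * C1 * C2 := by
          rw [show 2 * Lη = Lη + Lη by ring, Real.exp_add, Real.exp_add, Real.exp_add, hexpL,
            Real.exp_log (by linarith), Real.exp_log (by linarith)]
        rw [c2]
        have hC1' : C1 ≠ 0 := by linarith
        calc ‖g w‖ ≤ C2 := c1
          _ = (1 / η) * (1 / η) * C1 * C2 * (η * (η / C1)) := by field_simp
          _ ≤ (1 / η) * (1 / η) * C1 * C2 * ‖g s0‖ := by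
            refine mul_le_mul_of_nonneg_left hgs0 ?_
            have : 0 ≤ C1 := by linarith
            have : 0 ≤ C2 := by linarith
            positivity) s hss0
    have hs1 : s ≠ 1 := by
      intro h7
      rw [h7, sub_self, norm_zero] at h4
      linarith
    have hsre : 1 / 2 < s.re := by linarith
    have hZs : Z s ≠ 0 := by
      intro h7
      have := hzero s h7 hs1 (by linarith)
      linarith
    have hZd : DifferentiableAt ℂ Z s := Pool.Agent.H71.Lan.diffAt h.bz hsre hs1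
    have ev : g =ᶠ[𝓝 s] fun w => (w - 1) * Z w := by
      filter_upwards [isOpen_ne.mem_nhds hs1] with w hww
      exact Pool.Agent.H71.Lan.gg_of_ne hww
    have e1 : deriv g s = Z s + (s - 1) * deriv Z s := by
      rw [ev.deriv_eq]
      have := (((hasDerivAt_id s).sub_const 1).mul hZd.hasDerivAt).deriv
      simp only [id_eq, one_mul] at this
      exact this
    have hs1' : s - 1 ≠ 0 := sub_ne_zero.2 hs1
    have e2 : deriv Z s / Z s = deriv g s / g s - 1 / (s - 1) := by
      rw [e1, ev.self_of_nhds]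
      field_simp
      ring
    have e3 : ‖1 / (s - 1)‖ ≤ 2 / η := by
      rw [norm_div, norm_one]
      calc 1 / ‖s - 1‖ ≤ 1 / (η / 2) := one_div_le_one_div_of_le (by linarith) h4
        _ = 2 / η := by field_simp
    calc ‖deriv Z s / Z s‖ = ‖deriv g s / g s - 1 / (s - 1)‖ := by rw [e2]
      _ ≤ ‖deriv g s / g s‖ + ‖1 / (s - 1)‖ := norm_sub_le _ _
      _ ≤ C0 * (2 * Lη + Real.log C1 + Real.log C2) / η + 2 / η := add_le_add h6 e3
      _ = (C0 * (2 * Lη + Real.log C1 + Real.log C2) + 2) / η := by ring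
      _ ≤ _ := by
        refine div_le_div_of_nonneg_right ?_ hη.le
        have c3 : 2 * Lη + Real.log C1 + Real.log C2 ≤
            (Real.log C1 + Real.log C2 + 2) * (M + Lη + 1) := by
          nlinarith [mul_nonneg (add_nonneg hL1 hL2) (by linarith : 0 ≤ M + Lη)]
        have c4 := mul_le_mul_of_nonneg_left c3 hC0.le
        nlinarith [mul_nonneg hC3 (by linarith : 0 ≤ M + Lη + 1)]

end VQ
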