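import Pool.Agent.H15.VQ.PnB
import Pool.Agent.H15.VQ.PnC
import Pool.Agent.H15.VQ.PnD

/-!
# PnE : the integrated Chebyshev function

`L s = - Z' s / Z s`, `perron_sum_w` (`psi_series`, `psi_summable`) and `box_bound` with `c = 1 + 1 / log x` (`x ≥ 3`, so `c ≤ 2`), `σ0 = 1 - η`,
`M1 = log x + C` (`psi_bound`), `M = C (M' + log (1 / η) + 1) / η` (`logDeriv_region`), `U` the open set `re s > 1 - 2 η`, `|im s| < T + 1`, without zeros; the residue
of `- Z' / Z` at `1` is `1` (`IsZeta.residue`, `Z' / Z = g' / g - 1 / (s - 1)` with `g s = (s - 1) Z s`, `g 1 = κ ≠ 0`). `x^(c + 1) = e x^2`.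
-/

set_option autoImplicit false

open Complex MeasureTheory Set Filter Topology

namespace VQ

variable {p : ℕ → ℝ} {κ : ℝ} {Z : ℂ → ℂ}

/-- the integral of `gpsi p` from `0` to `x` -/
noncomputable def gpsi1 (p : ℕ → ℝ) (x : ℝ) : ℝ :=
  ∑' q : ℕ × ℕ, Real.log (p q.1) * max (x - p q.1 ^ (q.2 + 1)) 0

private lemma a_ge (h : IsZeta p κ Z) (q : ℕ × ℕ) : 1 ≤ p q.1 ^ (q.2 + 1) :=
  one_le_pow₀ (h.one_lt' q.1).le

private lemma w_nn (h : IsZeta p κ Z) (q : ℕ × ℕ) : 0 ≤ Real.log (p q.1) :=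
  Real.log_nonneg (h.one_lt' q.1).le

private lemma perron1 (h : IsZeta p κ Z) {c : ℝ} (hc : 1 < c) {x : ℝ} (hx : 0 < x) :
    (Summable fun q : ℕ × ℕ => Real.log (p q.1) * max (x - p q.1 ^ (q.2 + 1)) 0) ∧
    ((gpsi1 p x : ℝ) : ℂ) = (1 / (2 * Real.pi) : ℂ) *
      ∫ y : ℝ, (-(deriv Z ((c : ℂ) + y * I) / Z ((c : ℂ) + y * I))) *
        ((x : ℂ) ^ ((c : ℂ) + y * I + 1) / (((c : ℂ) + y * I) * ((c : ℂ) + y * I + 1))) := by
  have h1 := perron_sum_w (ι := ℕ × ℕ) (a := fun q => p q.1 ^ (q.2 + 1))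
    (w := fun q => Real.log (p q.1)) (a_ge h) (w_nn h) hc (psi_summable h hc)
    (L := fun s => -(deriv Z s / Z s)) (fun s hs => psi_series h hs) hx
  exact h1

private lemma Z_diffAt (h : IsZeta p κ Z) {s : ℂ} (hs : 1 / 2 < s.re) (h1 : s ≠ 1) :
    DifferentiableAt ℂ Z s := by
  have ho : IsOpen {s : ℂ | 1 / 2 < s.re ∧ s ≠ 1} :=
    (isOpen_lt continuous_const Complex.continuous_re).inter isOpen_ne
  exact h.diff.differentiableAt (ho.mem_nhds ⟨hs, h1⟩)

private lemma L_diffAt (h : IsZeta p κ Z) {s : ℂ} (hs : 1 / 2 < s.re) (h1 : s ≠ 1)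
    (h0 : Z s ≠ 0) : DifferentiableAt ℂ (fun s => -(deriv Z s / Z s)) s := by
  have ho : IsOpen {s : ℂ | 1 / 2 < s.re ∧ s ≠ 1} :=
    (isOpen_lt continuous_const Complex.continuous_re).inter isOpen_ne
  have h2 : DifferentiableOn ℂ (deriv Z) {s : ℂ | 1 / 2 < s.re ∧ s ≠ 1} := h.diff.deriv ho
  exact ((h2.differentiableAt (ho.mem_nhds ⟨hs, h1⟩)).div (Z_diffAt h hs h1) h0).neg

private lemma Z_ne (h : IsZeta p κ Z) {s : ℂ} (hs : 1 < s.re) : Z s ≠ 0 :=
  Pool.Agent.H71.Lan.ne_zero h.bz hs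

private lemma res_one (h : IsZeta p κ Z) :
    Tendsto (fun s => (s - 1) * -(deriv Z s / Z s)) (𝓝[≠] 1) (𝓝 1) := by
  set g := Pool.Agent.H71.Lan.gg Z κ with hg
  have hgd : DifferentiableOn ℂ g {s : ℂ | 1 / 2 < s.re} := Pool.Agent.H71.Lan.gg_diff h.bz
  have ho : IsOpen {s : ℂ | 1 / 2 < s.re} := Pool.Agent.H71.Lan.isOpen_half
  have h1m : (1 : ℂ) ∈ {s : ℂ | 1 / 2 < s.re} := by
    simp only [mem_ofPred_eq, Complex.one_re]; norm_num
  have hg1 : g 1 ≠ 0 := by
    have := Pool.Agent.H71.Lan.gg_ne h.bz (σ := 1) le_rfl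
    simpa [hg] using this
  have hgc : ContinuousAt g 1 := (hgd.differentiableAt (ho.mem_nhds h1m)).continuousAt
  have hgdc : ContinuousAt (deriv g) 1 :=
    ((hgd.deriv ho).differentiableAt (ho.mem_nhds h1m)).continuousAt
  have hlim : Tendsto (fun s : ℂ => 1 - (s - 1) * (deriv g s / g s)) (𝓝[≠] 1) (𝓝 1) := by
    have h2 : ContinuousAt (fun s : ℂ => 1 - (s - 1) * (deriv g s / g s)) 1 :=
      continuousAt_const.sub ((continuousAt_id.sub continuousAt_const).mul (hgdc.div hgc hg1))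
    have h3 := h2.tendsto
    simp only [sub_self, zero_mul, sub_zero] at h3
    exact h3.mono_left nhdsWithin_le_nhds
  refine hlim.congr' ?_
  have e1 : ∀ᶠ s in 𝓝 (1 : ℂ), g s ≠ 0 := hgc.eventually_ne hg1
  have e2 : ∀ᶠ s in 𝓝 (1 : ℂ), s ∈ {s : ℂ | 1 / 2 < s.re} := ho.mem_nhds h1m
  filter_upwards [self_mem_nhdsWithin, nhdsWithin_le_nhds e1, nhdsWithin_le_nhds e2]
    with s hs hgs hsr
  have hs1 : s ≠ 1 := hs
  have hs2 : s - 1 ≠ 0 := sub_ne_zero.2 hs1
  have hgs' : g s = (s - 1) * Z s := Pool.Agent.H71.Lan.gg_of_ne hs1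
  have hZd := Z_diffAt h hsr hs1
  have hdg : deriv g s = Z s + (s - 1) * deriv Z s := by
    have h3 : g =ᶠ[𝓝 s] fun s => (s - 1) * Z s := by
      filter_upwards [isOpen_ne.mem_nhds hs1] with z hz
      exact Pool.Agent.H71.Lan.gg_of_ne hz
    rw [h3.deriv_eq]
    have h4 : HasDerivAt (fun s => (s - 1) * Z s) (1 * Z s + (s - 1) * deriv Z s) s :=
      ((hasDerivAt_id s).sub_const 1).mul hZd.hasDerivAt
    rw [h4.deriv, one_mul]
  have hZ0 : Z s ≠ 0 := by
    intro h0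
    apply hgs
    rw [hgs', h0, mul_zero]
  rw [hdg, hgs']
  field_simp
  ring

theorem psi1_bound (h : IsZeta p κ Z) : ∃ C : ℝ, 1 ≤ C ∧ ∀ T η M x : ℝ, 3 ≤ T → 0 < η → η ≤ 1 / 10 → 0 ≤ M → 3 ≤ x →
    (∀ ρ : ℂ, Z ρ = 0 → ρ ≠ 1 → |ρ.im| ≤ T + 1 → ρ.re ≤ 1 - 2 * η) →
    (∀ s : ℂ, 1 - 2 * η ≤ s.re → s.re ≤ 2 → 3 ≤ |s.im| → |s.im| ≤ T + 1 → ‖Z s‖ ≤ Real.exp M) →
      |gpsi1 p x - x ^ 2 / 2| ≤
        C * x ^ 2 * (Real.log x / T + (M + Real.log (1 / η) + 1) / η * (x ^ (-η) + 1 / T ^ 2)) := by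
  obtain ⟨C1, hC1, hb⟩ := psi_bound h
  obtain ⟨C2, hC2, hr⟩ := logDeriv_region h
  refine ⟨30 * (1 + C1 + C2), by linarith, ?_⟩
  intro T η M x hT hη hη1 hM hx hz hgr
  have hx0 : 0 < x := by linarith
  have hlx : 1 < Real.log x := by
    have h1 : Real.exp 1 < x := lt_of_lt_of_le Real.exp_one_lt_three hx
    have h2 := Real.log_lt_log (Real.exp_pos 1) h1
    rwa [Real.log_exp] at h2
  have hlx0 : 0 < Real.log x := by linarith
  set c : ℝ := 1 + 1 / Real.log x with hc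
  have hinv : 1 / Real.log x ≤ 1 := by
    rw [div_le_one hlx0]; exact hlx.le
  have hinv0 : 0 < 1 / Real.log x := by positivity
  have hc1 : 1 < c := by rw [hc]; linarith
  have hc2 : c ≤ 2 := by rw [hc]; linarith
  have hT0 : 0 < T := by linarith
  have hlη : 0 ≤ Real.log (1 / η) := by
    apply Real.log_nonneg
    rw [le_div_iff₀ hη]; linarith
  set N : ℝ := (M + Real.log (1 / η) + 1) / η with hN
  have hN0 : 0 ≤ N := by rw [hN]; positivity
  have hML : C2 * (M + Real.log (1 / η) + 1) / η = C2 * N := by rw [hN]; ring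
  have hreg := hr T η M hT hη hη1 hM hz hgr
  have hZline : ∀ s : ℂ, 1 - 2 * η < s.re → |s.im| < T + 1 → s ≠ 1 → Z s ≠ 0 := by
    intro s h1 h2 h3 h0
    have := hz s h0 h3 h2.le
    linarith
  obtain ⟨-, hper⟩ := perron1 h hc1 hx0
  have hbox := box_bound (L := fun s => -(deriv Z s / Z s)) (σ0 := 1 - η) (c := c) (T := T)
    (M := C2 * N) (M1 := Real.log x + C1) (x := x) (by linarith) (by linarith) hc1 hc2 hT
    (by linarith) (by positivity) (U := {s : ℂ | 1 - 2 * η < s.re ∧ |s.im| < T + 1})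
    ((isOpen_lt continuous_const Complex.continuous_re).inter
      (isOpen_lt (continuous_abs.comp Complex.continuous_im) continuous_const))
    (fun s h1 _ h3 => ⟨by linarith, by linarith⟩)
    (fun s hs => (L_diffAt h (by have := hs.1.1; linarith) hs.2
      (hZline s hs.1.1 hs.1.2 hs.2)).differentiableWithinAt)
    (res_one h)
    (fun y hy => by
      have h1 : (((1 - η : ℝ) : ℂ) + y * I).re = 1 - η := by simp
      have h2 : (((1 - η : ℝ) : ℂ) + y * I).im = y := by simp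
      have h3 := hreg (((1 - η : ℝ) : ℂ) + y * I) (by rw [h1]) (by rw [h1]; linarith)
        (by rw [h2]; exact hy) (by
          have h4 := Complex.abs_re_le_norm (((1 - η : ℝ) : ℂ) + y * I - 1)
          rw [Complex.sub_re, h1, Complex.one_re] at h4
          have h5 : |1 - η - 1| = η := by
            rw [show 1 - η - 1 = -η by ring, abs_neg, abs_of_pos hη]
          rw [h5] at h4
          linarith)
      rw [hML] at h3
      simpa only [norm_neg] using h3)
    (fun s h1 h2 h3 => by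
      have h4 := hreg s h1 (h2.trans hc2) h3.le (by
        have h5 := Complex.abs_im_le_norm (s - 1)
        rw [Complex.sub_im, Complex.one_im, sub_zero, h3] at h5
        linarith)
      rw [hML] at h4
      simpa only [norm_neg] using h4)
    (fun y => by
      have h1 : ((c : ℂ) + y * I).re = c := by simp
      have h3 := hb ((c : ℂ) + y * I) (by rw [h1]; exact hc1) (by rw [h1]; exact hc2)
      rw [h1] at h3
      have h4 : 1 / (c - 1) = Real.log x := by
        rw [hc]; simp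
      rw [h4] at h3
      simpa only [norm_neg] using h3)
    (by
      rw [continuous_iff_continuousAt]
      intro y
      have h1 : ((c : ℂ) + y * I).re = c := by simp
      have hne : ((c : ℂ) + y * I) ≠ 1 := by
        intro h2
        rw [h2, Complex.one_re] at h1
        linarith
      have h2 := (L_diffAt h (s := (c : ℂ) + y * I) (by rw [h1]; linarith) hne
        (Z_ne h (by rw [h1]; exact hc1))).continuousAt
      exact ContinuousAt.comp (f := fun y : ℝ => (c : ℂ) + y * I)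
        (g := fun s => -(deriv Z s / Z s)) h2 (by fun_prop))
  rw [← hper, ← Complex.ofReal_sub, Complex.norm_real, Real.norm_eq_abs] at hbox
  refine hbox.trans ?_
  have hxc : x ^ (c + 1) = Real.exp 1 * x ^ 2 := by
    rw [show c + 1 = 2 + 1 / Real.log x by rw [hc]; ring, Real.rpow_add hx0]
    have h1 : x ^ (1 / Real.log x) = Real.exp 1 := by
      rw [Real.rpow_def_of_pos hx0, mul_one_div_cancel hlx0.ne']
    rw [h1, mul_comm]
    congr 1
    exact_mod_cast Real.rpow_natCast x 2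
  have hxs : x ^ (1 - η + 1) = x ^ 2 * x ^ (-η) := by
    rw [show 1 - η + 1 = 2 + -η by ring, Real.rpow_add hx0]
    congr 1
    exact_mod_cast Real.rpow_natCast x 2
  rw [hxc, hxs]
  have he : Real.exp 1 ≤ 3 := Real.exp_one_lt_three.le
  have he0 : 0 < Real.exp 1 := Real.exp_pos 1
  have hX : 0 < x ^ 2 := by positivity
  have hxη : 0 ≤ x ^ (-η) := (Real.rpow_pos_of_pos hx0 _).le
  have t1 : (Real.log x + C1) * (Real.exp 1 * x ^ 2) / T ≤ 3 * (1 + C1) * (x ^ 2 * (Real.log x / T)) := by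
    have e1 : Real.log x + C1 ≤ (1 + C1) * Real.log x := by nlinarith
    calc (Real.log x + C1) * (Real.exp 1 * x ^ 2) / T
        ≤ ((1 + C1) * Real.log x) * (3 * x ^ 2) / T := by gcongr
      _ = 3 * (1 + C1) * (x ^ 2 * (Real.log x / T)) := by ring
  have t2 : C2 * N * (Real.exp 1 * x ^ 2) / T ^ 2 ≤ 3 * C2 * (x ^ 2 * (N * (1 / T ^ 2))) := by
    calc C2 * N * (Real.exp 1 * x ^ 2) / T ^ 2 ≤ C2 * N * (3 * x ^ 2) / T ^ 2 := by gcongr
      _ = 3 * C2 * (x ^ 2 * (N * (1 / T ^ 2))) := by ring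
  have t3 : C2 * N * (x ^ 2 * x ^ (-η)) = C2 * (x ^ 2 * (N * x ^ (-η))) := by ring
  set A := x ^ 2 * (Real.log x / T) with hA
  set B := x ^ 2 * (N * (1 / T ^ 2)) with hB
  set D := x ^ 2 * (N * x ^ (-η)) with hD
  have hA0 : 0 ≤ A := by positivity
  have hB0 : 0 ≤ B := by positivity
  have hD0 : 0 ≤ D := by positivity
  have e5 : 30 * (1 + C1 + C2) * x ^ 2 * (Real.log x / T + N * (x ^ (-η) + 1 / T ^ 2)) =
      30 * (1 + C1 + C2) * (A + D + B) := by
    rw [hA, hB, hD]; ring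
  rw [e5]
  rw [t3]
  nlinarith [mul_nonneg hC1 hA0, mul_nonneg hC1 hB0, mul_nonneg hC1 hD0,
    mul_nonneg (by linarith : (0:ℝ) ≤ C2) hA0, mul_nonneg (by linarith : (0:ℝ) ≤ C2) hB0,
    mul_nonneg (by linarith : (0:ℝ) ≤ C2) hD0]

theorem psi1_summable (h : IsZeta p κ Z) (x : ℝ) :
    Summable fun q : ℕ × ℕ => Real.log (p q.1) * max (x - p q.1 ^ (q.2 + 1)) 0 := by
  rcases lt_or_ge 0 x with hx | hx
  · exact (perron1 h (c := 2) (by norm_num) hx).1
  · have h1 : (fun q : ℕ × ℕ => Real.log (p q.1) * max (x - p q.1 ^ (q.2 + 1)) 0) = fun _ => 0 := by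
      funext q
      have := a_ge h q
      rw [max_eq_right (by linarith), mul_zero]
    rw [h1]
    exact summable_zero

end VQ
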