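import Pool.Agent.H15.VQ.PnE

/-!
# PnF : from the integrated Chebyshev function to the Chebyshev function

For `0 < h`: `h gpsi p x ≤ gpsi1 p (x + h) - gpsi1 p x` and `gpsi1 p x - gpsi1 p (x - h) ≤ h gpsi p x` (term by term; `gpsi p x` is a finite sum, only
finitely many `p j ^ (e + 1)` are at most `x`). With `h = δ x`.
-/

set_option autoImplicit false

open Complex MeasureTheory Set Filter Topology

namespace VQ

variable {p : ℕ → ℝ} {κ : ℝ} {Z : ℂ → ℂ}

private theorem pnf_up (h : IsZeta p κ Z) {x d : ℝ} (hd : 0 < d) :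
    d * gpsi p x ≤ gpsi1 p (x + d) - gpsi1 p x := by
  have s1 := psi1_summable h (x + d)
  have s2 := psi1_summable h x
  have hw : ∀ q : ℕ × ℕ, 0 ≤ Real.log (p q.1) := fun q => (Real.log_pos (h.one_lt' q.1)).le
  have key : ∀ q : ℕ × ℕ, d * (if p q.1 ^ (q.2 + 1) ≤ x then Real.log (p q.1) else 0) ≤
      Real.log (p q.1) * max (x + d - p q.1 ^ (q.2 + 1)) 0 - Real.log (p q.1) * max (x - p q.1 ^ (q.2 + 1)) 0 := by
    intro q
    have hq := hw q
    generalize Real.log (p q.1) = w at hq ⊢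
    generalize p q.1 ^ (q.2 + 1) = a
    split_ifs with hc
    · rw [max_eq_left (by linarith), max_eq_left (by linarith)]
      nlinarith
    · rw [mul_zero]
      have : max (x - a) 0 ≤ max (x + d - a) 0 := max_le_max (by linarith) le_rfl
      nlinarith
  have hn : ∀ q : ℕ × ℕ, 0 ≤ d * (if p q.1 ^ (q.2 + 1) ≤ x then Real.log (p q.1) else 0) := by
    intro q
    have hq := hw q
    split_ifs
    · positivity
    · simp
  have s3 := s1.sub s2
  have s4 : Summable fun q : ℕ × ℕ => d * (if p q.1 ^ (q.2 + 1) ≤ x then Real.log (p q.1) else 0) :=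
    Summable.of_nonneg_of_le hn key s3
  unfold gpsi gpsi1
  rw [← tsum_mul_left, ← s1.tsum_sub s2]
  exact s4.tsum_le_tsum key s3

private theorem pnf_dn (h : IsZeta p κ Z) {x d : ℝ} (hd : 0 < d) :
    gpsi1 p x - gpsi1 p (x - d) ≤ d * gpsi p x := by
  have s1 := psi1_summable h (x - d)
  have s2 := psi1_summable h x
  have s5 := psi1_summable h (x + d)
  have hw : ∀ q : ℕ × ℕ, 0 ≤ Real.log (p q.1) := fun q => (Real.log_pos (h.one_lt' q.1)).le
  have key : ∀ q : ℕ × ℕ, Real.log (p q.1) * max (x - p q.1 ^ (q.2 + 1)) 0 -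
      Real.log (p q.1) * max (x - d - p q.1 ^ (q.2 + 1)) 0 ≤
      d * (if p q.1 ^ (q.2 + 1) ≤ x then Real.log (p q.1) else 0) := by
    intro q
    have hq := hw q
    generalize Real.log (p q.1) = w at hq ⊢
    generalize p q.1 ^ (q.2 + 1) = a
    split_ifs with hc
    · rw [max_eq_left (show 0 ≤ x - a by linarith)]
      have : x - d - a ≤ max (x - d - a) 0 := le_max_left _ _
      nlinarith
    · rw [mul_zero, max_eq_right (by linarith), max_eq_right (by linarith)]
      simp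
  have key2 : ∀ q : ℕ × ℕ, d * (if p q.1 ^ (q.2 + 1) ≤ x then Real.log (p q.1) else 0) ≤
      Real.log (p q.1) * max (x + d - p q.1 ^ (q.2 + 1)) 0 := by
    intro q
    have hq := hw q
    generalize Real.log (p q.1) = w at hq ⊢
    generalize p q.1 ^ (q.2 + 1) = a
    split_ifs with hc
    · rw [max_eq_left (by linarith)]
      nlinarith
    · rw [mul_zero]
      positivity
  have hn : ∀ q : ℕ × ℕ, 0 ≤ d * (if p q.1 ^ (q.2 + 1) ≤ x then Real.log (p q.1) else 0) := by
    intro q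
    have hq := hw q
    split_ifs
    · positivity
    · simp
  have s4 : Summable fun q : ℕ × ℕ => d * (if p q.1 ^ (q.2 + 1) ≤ x then Real.log (p q.1) else 0) :=
    Summable.of_nonneg_of_le hn key2 s5
  unfold gpsi gpsi1
  rw [← tsum_mul_left, ← s2.tsum_sub s1]
  exact (s2.sub s1).tsum_le_tsum key s4

theorem psi_of_psi1 (h : IsZeta p κ Z) {x δ : ℝ} (hx : 0 < x) (h0 : 0 < δ) (h1 : δ ≤ 1 / 2)
    (hy : ∀ y : ℝ, x / 2 ≤ y → y ≤ 2 * x → |gpsi1 p y - y ^ 2 / 2| ≤ δ ^ 2 * x ^ 2) :
    |gpsi p x - x| ≤ 5 * δ * x := by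
  have hd : 0 < δ * x := mul_pos h0 hx
  have hd2 : δ * x ≤ x / 2 := by nlinarith
  have a1 := abs_le.1 (hy x (by linarith) (by linarith))
  have a2 := abs_le.1 (hy (x + δ * x) (by linarith) (by linarith))
  have a3 := abs_le.1 (hy (x - δ * x) (by linarith) (by linarith))
  have b1 := pnf_up h (x := x) hd
  have b2 := pnf_dn h (x := x) hd
  have c1 : δ * x * gpsi p x ≤ δ * x * (x + 5 * δ * x) := by
    nlinarith [a1.1, a1.2, a2.1, a2.2, mul_pos hd hd]
  have c2 : δ * x * (x - 5 * δ * x) ≤ δ * x * gpsi p x := by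
    nlinarith [a1.1, a1.2, a3.1, a3.2, mul_pos hd hd]
  have c3 := le_of_mul_le_mul_left c1 hd
  have c4 := le_of_mul_le_mul_left c2 hd
  rw [abs_le]
  constructor <;> linarith

end VQ
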