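import Pool.Agent.H15.VQ.PnF

/-!
# PnG : no zeros near the line `re s = 1` of bounded height, and the final bound of `gpsi p x - x`

`no_zeros_low`: on `re s = 1`, `s ≠ 1`, there is no zero (`Pool.Agent.H71.Lan.CC_anti`: if `Z (1 + i t) = 0`, `t ≠ 0`, then `CC Z t σ` tends to `0` as `σ` decreases to `1`, but it is
at least `CC Z t 2 > 0`), for `re s > 1` there is none (`Pool.Agent.H71.Lan.ne_zero`), `g s = (s - 1) Z s` (`Pool.Agent.H71.Lan.gg`) has `g 1 = κ ≠ 0`; compactness.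
`psi_bound_T`: `psi1_bound` for the points of `[x / 2, 2 x]` and `psi_of_psi1`.
-/

set_option autoImplicit false

open Complex MeasureTheory Set Filter Topology

namespace VQ

variable {p : ℕ → ℝ} {κ : ℝ} {Z : ℂ → ℂ}

open Pool.Agent.H71.Lan in
private lemma png_line {u : ℕ → ℝ} (h : BZ Z u κ) {t : ℝ} (ht : t ≠ 0) : Z (1 + t * I) ≠ 0 := by
  intro h0
  have ht1 : (1 : ℂ) + t * I ≠ 1 := by
    intro h1
    have h2 := congrArg Complex.im h1
    simp at h2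
    exact ht h2
  have ht2 : (1 : ℂ) + 2 * t * I ≠ 1 := by
    intro h1
    have h2 := congrArg Complex.im h1
    simp at h2
    exact ht h2
  have hr1 : 1 / 2 < ((1 : ℂ) + t * I).re := by simp; norm_num
  have hr2 : 1 / 2 < ((1 : ℂ) + 2 * t * I).re := by simp; norm_num
  have d1 := diffAt h hr1 ht1
  have d2 := diffAt h hr2 ht2
  have D1 : HasDerivAt (fun x : ℝ => Z ((x : ℂ) + t * I)) (deriv Z (1 + t * I)) 1 := by
    have h1 : HasDerivAt (fun z : ℂ => Z (z + t * I)) (deriv Z ((1 : ℂ) + t * I)) (1 : ℂ) :=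
      HasDerivAt.comp_add_const (1 : ℂ) _ d1.hasDerivAt
    have h2 : HasDerivAt (fun z : ℂ => Z (z + t * I)) (deriv Z ((1 : ℂ) + t * I)) ((1 : ℝ) : ℂ) := by
      simpa using h1
    exact h2.comp_ofReal
  have hof : Tendsto (fun σ : ℝ => (σ : ℂ)) (𝓝[>] 1) (𝓝[≠] 1) := by
    refine tendsto_nhdsWithin_iff.2 ⟨?_, ?_⟩
    · have h1 : Tendsto (fun σ : ℝ => (σ : ℂ)) (𝓝 1) (𝓝 ((1 : ℝ) : ℂ)) :=
        Complex.continuous_ofReal.tendsto 1
      rw [Complex.ofReal_one] at h1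
      exact h1.mono_left nhdsWithin_le_nhds
    · filter_upwards [self_mem_nhdsWithin] with σ hσ
      have hσ' : (1 : ℝ) < σ := hσ
      intro h1
      have h2 : (σ : ℂ) = 1 := h1
      have : σ = 1 := by exact_mod_cast h2
      linarith
  have l1 : Tendsto (fun σ : ℝ => ‖((σ : ℂ) - 1) * Z σ‖) (𝓝[>] 1) (𝓝 ‖(κ : ℂ)‖) :=
    (h.res.comp hof).norm
  have l2 : Tendsto (fun σ : ℝ => ‖slope (fun x : ℝ => Z ((x : ℂ) + t * I)) 1 σ‖) (𝓝[>] 1)
      (𝓝 ‖deriv Z (1 + t * I)‖) :=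
    ((hasDerivAt_iff_tendsto_slope.1 D1).mono_left
      (nhdsWithin_mono 1 fun y hy => ne_of_gt hy)).norm
  have l3 : Tendsto (fun σ : ℝ => ‖Z ((σ : ℂ) + t * I)‖) (𝓝[>] 1) (𝓝 0) := by
    have h1 : Tendsto (fun σ : ℝ => Z ((σ : ℂ) + t * I)) (𝓝[>] 1) (𝓝 (Z (((1 : ℝ) : ℂ) + t * I))) :=
      D1.continuousAt.tendsto.mono_left nhdsWithin_le_nhds
    rw [Complex.ofReal_one, h0] at h1
    simpa using h1.norm
  have l4 : Tendsto (fun σ : ℝ => ‖Z ((σ : ℂ) + 2 * t * I)‖) (𝓝[>] 1) (𝓝 ‖Z (1 + 2 * t * I)‖) := by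
    have h1 : Tendsto (fun σ : ℝ => (σ : ℂ) + 2 * t * I) (𝓝[>] 1) (𝓝 (1 + 2 * t * I)) :=
      (tendsto_nhdsWithin_iff.1 hof).1.add_const _
    exact (d2.continuousAt.tendsto.comp h1).norm
  have L := ((l1.pow 3).mul (l2.pow 3)).mul (l3.mul l4)
  rw [zero_mul, mul_zero] at L
  have hC2 : 0 < CC Z t 2 := by
    unfold CC
    have n1 : ‖Z ((2 : ℝ) : ℂ)‖ ≠ 0 := norm_ne_zero_iff.2 (ne_zero h (by simp))
    have n2 : ‖Z (((2 : ℝ) : ℂ) + t * I)‖ ≠ 0 := norm_ne_zero_iff.2 (ne_zero h (by simp))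
    have n3 : ‖Z (((2 : ℝ) : ℂ) + 2 * t * I)‖ ≠ 0 := norm_ne_zero_iff.2 (ne_zero h (by simp))
    have := norm_nonneg (Z ((2 : ℝ) : ℂ))
    positivity
  have hge : CC Z t 2 ≤ 0 := by
    refine ge_of_tendsto L ?_
    filter_upwards [Ioo_mem_nhdsGT (show (1 : ℝ) < 2 by norm_num)] with σ hσ
    have h1 := CC_anti h t hσ.1 hσ.2.le
    refine h1.trans (le_of_eq ?_)
    have hs : slope (fun x : ℝ => Z ((x : ℂ) + t * I)) 1 σ =
        ((σ - 1 : ℝ) : ℂ)⁻¹ * Z ((σ : ℂ) + t * I) := by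
      rw [slope_def_module]
      have : Z (((1 : ℝ) : ℂ) + t * I) = 0 := by rw [Complex.ofReal_one]; exact h0
      rw [this, sub_zero, Complex.real_smul, Complex.ofReal_inv]
    have hp : 0 < σ - 1 := by linarith [hσ.1]
    have e1 : ‖((σ : ℂ) - 1)‖ = σ - 1 := by
      rw [← Complex.ofReal_one, ← Complex.ofReal_sub, Complex.norm_real, Real.norm_eq_abs,
        abs_of_pos hp]
    have e2 : ‖(((σ - 1 : ℝ) : ℂ))⁻¹‖ = (σ - 1)⁻¹ := by
      rw [norm_inv, Complex.norm_real, Real.norm_eq_abs, abs_of_pos hp]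
    rw [hs, norm_mul, norm_mul, e1, e2]
    unfold CC
    field_simp
  linarith

theorem no_zeros_low (h : IsZeta p κ Z) (T : ℝ) :
    ∃ η : ℝ, 0 < η ∧ ∀ ρ : ℂ, Z ρ = 0 → ρ ≠ 1 → |ρ.im| ≤ T → ρ.re ≤ 1 - η := by
  set g := Pool.Agent.H71.Lan.gg Z κ with hg
  have hgd : DifferentiableOn ℂ g {s : ℂ | 1 / 2 < s.re} := Pool.Agent.H71.Lan.gg_diff h.bz
  have ho : IsOpen {s : ℂ | 1 / 2 < s.re} := Pool.Agent.H71.Lan.isOpen_half
  have hO : IsOpen ({s : ℂ | 1 / 2 < s.re} ∩ g ⁻¹' {(0 : ℂ)}ᶜ) :=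
    hgd.continuousOn.isOpen_inter_preimage ho isOpen_compl_singleton
  have hK : IsCompact ((fun y : ℝ => (1 : ℂ) + y * I) '' Icc (-T) T) :=
    isCompact_Icc.image (by fun_prop)
  have hKO : ((fun y : ℝ => (1 : ℂ) + y * I) '' Icc (-T) T) ⊆
      {s : ℂ | 1 / 2 < s.re} ∩ g ⁻¹' {(0 : ℂ)}ᶜ := by
    rintro _ ⟨y, _, rfl⟩
    refine ⟨by simp; norm_num, ?_⟩
    intro h1
    have h2 : g (1 + y * I) = 0 := h1
    by_cases hy : y = 0
    · rw [hy] at h2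
      have h3 := Pool.Agent.H71.Lan.gg_ne h.bz (σ := 1) le_rfl
      apply h3
      simpa [hg] using h2
    · have hy1 : (1 : ℂ) + y * I ≠ 1 := by
        intro h1
        have h2 := congrArg Complex.im h1
        simp at h2
        exact hy h2
      rw [hg, Pool.Agent.H71.Lan.gg_of_ne hy1] at h2
      rcases mul_eq_zero.1 h2 with h3 | h3
      · exact hy1 (sub_eq_zero.1 h3)
      · exact png_line h.bz hy h3
  obtain ⟨ε, hε, hsub⟩ := hK.exists_thickening_subset_open hO hKO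
  refine ⟨ε, hε, fun ρ hρ hρ1 hT => ?_⟩
  by_contra hcon
  push Not at hcon
  rcases lt_or_ge 1 ρ.re with h1 | h1
  · exact Pool.Agent.H71.Lan.ne_zero h.bz h1 hρ
  · have hmem : ρ ∈ Metric.thickening ε ((fun y : ℝ => (1 : ℂ) + y * I) '' Icc (-T) T) := by
      rw [Metric.mem_thickening_iff]
      refine ⟨1 + ρ.im * I, ⟨ρ.im, abs_le.1 hT, rfl⟩, ?_⟩
      have e : ρ - (1 + ρ.im * I) = ((ρ.re - 1 : ℝ) : ℂ) := by
        apply Complex.ext <;> simp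
      rw [dist_eq_norm, e, Complex.norm_real, Real.norm_eq_abs, abs_lt]
      constructor <;> linarith
    have h2 := (hsub hmem).2
    apply h2
    show g ρ = 0
    rw [hg, Pool.Agent.H71.Lan.gg_of_ne hρ1, hρ, mul_zero]

theorem psi_bound_T (h : IsZeta p κ Z) : ∃ C : ℝ, 1 ≤ C ∧ ∀ T η M x δ : ℝ, 3 ≤ T → 0 < η → η ≤ 1 / 10 → 0 ≤ M → 6 ≤ x →
    (∀ ρ : ℂ, Z ρ = 0 → ρ ≠ 1 → |ρ.im| ≤ T + 1 → ρ.re ≤ 1 - 2 * η) →
    (∀ s : ℂ, 1 - 2 * η ≤ s.re → s.re ≤ 2 → 3 ≤ |s.im| → |s.im| ≤ T + 1 → ‖Z s‖ ≤ Real.exp M) →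
    0 < δ → δ ≤ 1 / 2 → C * (Real.log x / T + (M + Real.log (1 / η) + 1) / η * (x ^ (-η) + 1 / T ^ 2)) ≤ δ ^ 2 →
    |gpsi p x - x| ≤ 5 * δ * x := by
  obtain ⟨C, hC, hb⟩ := psi1_bound h
  refine ⟨8 * C, by linarith, fun T η M x δ hT hη hη1 hM hx hz hgr hδ hδ1 hle => ?_⟩
  have hx0 : 0 < x := by linarith
  have hT0 : 0 < T := by linarith
  refine psi_of_psi1 h hx0 hδ hδ1 fun y hy1 hy2 => ?_
  have hy3 : 3 ≤ y := by linarith
  have hy0 : 0 < y := by linarith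
  refine (hb T η M y hT hη hη1 hM hy3 hz hgr).trans ?_
  have hlx : 0 ≤ Real.log x := Real.log_nonneg (by linarith)
  have hly : Real.log y ≤ 2 * Real.log x := by
    have h1 : Real.log y ≤ Real.log (x * x) := by
      refine Real.log_le_log hy0 (hy2.trans ?_)
      nlinarith
    rw [Real.log_mul hx0.ne' hx0.ne'] at h1
    linarith
  have hpow : y ^ (-η) ≤ 2 * x ^ (-η) := by
    have h1 : y ^ (-η) ≤ (x / 2) ^ (-η) :=
      Real.rpow_le_rpow_of_nonpos (by linarith) hy1 (by linarith)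
    have h2 : (x / 2) ^ (-η) = x ^ (-η) * 2 ^ η := by
      rw [Real.div_rpow hx0.le (by norm_num), Real.rpow_neg (by norm_num : (0 : ℝ) ≤ 2), div_inv_eq_mul]
    have h3 : (2 : ℝ) ^ η ≤ 2 := by
      calc (2 : ℝ) ^ η ≤ 2 ^ (1 : ℝ) :=
            Real.rpow_le_rpow_of_exponent_le (by norm_num) (by linarith)
        _ = 2 := Real.rpow_one 2
    have h4 : 0 ≤ x ^ (-η) := Real.rpow_nonneg hx0.le _
    rw [h2] at h1
    calc y ^ (-η) ≤ x ^ (-η) * 2 ^ η := h1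
      _ ≤ x ^ (-η) * 2 := mul_le_mul_of_nonneg_left h3 h4
      _ = 2 * x ^ (-η) := by ring
  have hq : 0 ≤ (M + Real.log (1 / η) + 1) / η := by
    have h1 : 0 ≤ Real.log (1 / η) := Real.log_nonneg (by
      rw [le_div_iff₀ hη]
      linarith)
    positivity
  set q := (M + Real.log (1 / η) + 1) / η with hqd
  have hxp : 0 ≤ x ^ (-η) := Real.rpow_nonneg hx0.le _
  have hin : Real.log y / T + q * (y ^ (-η) + 1 / T ^ 2) ≤
      2 * (Real.log x / T + q * (x ^ (-η) + 1 / T ^ 2)) := by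
    have h1 : Real.log y / T ≤ 2 * (Real.log x / T) := by
      rw [← mul_div_assoc]
      exact div_le_div_of_nonneg_right hly hT0.le
    have h2 : 0 ≤ 1 / T ^ 2 := by positivity
    have h3 : q * (y ^ (-η) + 1 / T ^ 2) ≤ q * (2 * (x ^ (-η) + 1 / T ^ 2)) :=
      mul_le_mul_of_nonneg_left (by linarith) hq
    linarith
  have hR0 : 0 ≤ Real.log x / T + q * (x ^ (-η) + 1 / T ^ 2) := by positivity
  have hy4 : y ^ 2 ≤ 4 * x ^ 2 := by nlinarith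
  calc C * y ^ 2 * (Real.log y / T + q * (y ^ (-η) + 1 / T ^ 2))
      ≤ C * (4 * x ^ 2) * (2 * (Real.log x / T + q * (x ^ (-η) + 1 / T ^ 2))) := by
        have h1 : C * y ^ 2 ≤ C * (4 * x ^ 2) := mul_le_mul_of_nonneg_left hy4 (by linarith)
        have h2 : 0 ≤ C * y ^ 2 := by positivity
        exact (mul_le_mul_of_nonneg_left hin h2).trans
          (mul_le_mul_of_nonneg_right h1 (by linarith))
    _ = 8 * C * (Real.log x / T + q * (x ^ (-η) + 1 / T ^ 2)) * x ^ 2 := by ring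
    _ ≤ δ ^ 2 * x ^ 2 := mul_le_mul_of_nonneg_right hle (sq_nonneg x)

end VQ
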