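import Pool.Agent.H15.VQ.PnG

/-!
# PnH : the prime number theorem for a growth function

`hz` is the zero-free region (Pool/Agent/H71/Lan/Abs.lean). `psi_bound_T` with `η = 1 / (70 ω (4 T))`. Zeros with `T0 ≤ |im ρ| ≤ T + 1`: `hz`, `hm`, `3 (T + 1) ≤ 4 T`.
Zeros with `|im ρ| < T0`: `no_zeros_low`, `ω → ∞` by `hw`. `Grows` with `θ = 3 / 4`: for `re s ≥ 1 - 2 η`, `3 ≤ |im s| ≤ T + 1` the exponent is at most
`1 / 35 + A e log (2 + log log (T + 1))`, since `(log (T + 1))^(2 η) ≤ e`, as `log log (T + 1) ≤ ω (4 T)`. So `(M + log (1 / η) + 1) / η ≤ C ω (4 T) ^ 2` and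
`ω (4 T) ≤ T ^ (1 / 4)` by the two hypotheses on `x`. `x ^ (- η) ≤ T ^ (- 10 / 7)`. The sum is at most `C T ^ (- 3 / 4)`, and
`δ = T ^ (- 1 / 3) / 5` for large `T`.
-/

set_option autoImplicit false

open Complex MeasureTheory Set Filter Topology

namespace VQ

variable {p : ℕ → ℝ} {κ : ℝ} {Z : ℂ → ℂ}

private theorem loglog_le {ω : ℝ → ℝ}
    (hw : Tendsto (fun t => ω t / (Real.log (Real.log t) * Real.log (Real.log (Real.log t)))) atTop atTop) :
    ∀ᶠ t in atTop, Real.log (Real.log t) ≤ ω t := by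
  have hl : Tendsto (fun t : ℝ => Real.log (Real.log t)) atTop atTop :=
    Real.tendsto_log_atTop.comp Real.tendsto_log_atTop
  have hl3 : Tendsto (fun t : ℝ => Real.log (Real.log (Real.log t))) atTop atTop :=
    Real.tendsto_log_atTop.comp hl
  filter_upwards [hw.eventually_ge_atTop 1, hl.eventually_ge_atTop 1, hl3.eventually_ge_atTop 1] with t h1 h2 h3
  have hp : 0 < Real.log (Real.log t) * Real.log (Real.log (Real.log t)) :=
    mul_pos (by linarith) (by linarith)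
  rw [le_div_iff₀ hp] at h1
  nlinarith

private theorem one_le_log {t : ℝ} (ht : 3 ≤ t) : 1 ≤ Real.log t := by
  rw [Real.le_log_iff_exp_le (by linarith)]
  have := Real.exp_one_lt_d9
  linarith

/-- the exponent in the growth bound -/
private theorem grow_exp {A W w a t : ℝ} (hA : 0 ≤ A) (hW : 1 ≤ W) (ha : 0 ≤ a) (haW : 35 * W * a ≤ 1)
    (hw : w ≤ W) (ht : 3 ≤ t) (hl : Real.log (Real.log t) ≤ W) :
    w * a + A * Real.log t ^ a * Real.log (2 + Real.log (Real.log t)) ≤ 1 + 6 * A * W := by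
  have hL : 1 ≤ Real.log t := one_le_log ht
  have hL0 : 0 ≤ Real.log (Real.log t) := Real.log_nonneg hL
  have h1 : w * a ≤ 1 := by
    have h2 : w * a ≤ W * a := mul_le_mul_of_nonneg_right hw ha
    have h3 : 0 ≤ W * a := by positivity
    linarith
  have h2 : Real.log t ^ a ≤ 3 := by
    rw [Real.rpow_def_of_pos (by linarith)]
    have h3 : Real.log (Real.log t) * a ≤ 1 := by
      have h4 : Real.log (Real.log t) * a ≤ W * a := mul_le_mul_of_nonneg_right hl ha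
      have h5 : 0 ≤ W * a := by positivity
      linarith
    have h4 := Real.exp_le_exp.2 h3
    have h5 := Real.exp_one_lt_d9
    linarith
  have h3 : Real.log (2 + Real.log (Real.log t)) ≤ 2 * W := by
    have h4 := Real.log_le_sub_one_of_pos (show 0 < 2 + Real.log (Real.log t) by linarith)
    linarith
  have h4 : 0 ≤ Real.log (2 + Real.log (Real.log t)) := Real.log_nonneg (by linarith)
  have h5 : 0 ≤ Real.log t ^ a := Real.rpow_nonneg (by linarith) _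
  have h6 : A * Real.log t ^ a ≤ A * 3 := mul_le_mul_of_nonneg_left h2 hA
  have h7 : A * Real.log t ^ a * Real.log (2 + Real.log (Real.log t)) ≤ A * 3 * (2 * W) :=
    mul_le_mul h6 h3 h4 (by positivity)
  linarith

/-- the error terms -/
private theorem err_sum {C A W T x η : ℝ} (hC : 1 ≤ C) (hA : 0 ≤ A) (hW : 1 ≤ W) (hT : 3 ≤ T)
    (hlT : 1 ≤ Real.log T) (hη : η = 1 / (70 * W)) (h1 : 100 * W * Real.log T ≤ Real.log x)
    (h2 : Real.log x ≤ T ^ (1 / 4 : ℝ)) (hx : 0 < x)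
    (h3 : 25 * C * (1 + 140 * (6 * A + 72)) ≤ T ^ (1 / 12 : ℝ)) :
    C * (Real.log x / T + ((1 + 6 * A * W) + Real.log (1 / η) + 1) / η * (x ^ (-η) + 1 / T ^ 2)) ≤
      (T ^ (-(1 / 3) : ℝ) / 5) ^ 2 := by
  have hT0 : 0 < T := by linarith
  have hW0 : 0 < W := by linarith
  have hη0 : 0 < η := by rw [hη]; positivity
  have hηW : η * (70 * W) = 1 := by rw [hη]; field_simp
  -- powers of T
  have hq : 0 < T ^ (-(3 / 4) : ℝ) := Real.rpow_pos_of_pos hT0 _
  have b1 : Real.log x / T ≤ T ^ (-(3 / 4) : ℝ) := by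
    rw [div_le_iff₀ hT0]
    have : T ^ (-(3 / 4) : ℝ) * T = T ^ (1 / 4 : ℝ) := by
      nth_rewrite 2 [← Real.rpow_one T]
      rw [← Real.rpow_add hT0]
      norm_num
    rw [this]
    exact h2
  have b5 : W ^ 2 ≤ T ^ (1 / 2 : ℝ) := by
    have h4 : W ≤ T ^ (1 / 4 : ℝ) := by
      have h5 : W * 1 ≤ W * Real.log T := mul_le_mul_of_nonneg_left hlT hW0.le
      linarith
    have h6 : T ^ (1 / 2 : ℝ) = (T ^ (1 / 4 : ℝ)) ^ 2 := by
      rw [← Real.rpow_natCast, ← Real.rpow_mul hT0.le]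
      norm_num
    rw [h6]
    exact pow_le_pow_left₀ hW0.le h4 2
  have b2 : ((1 + 6 * A * W) + Real.log (1 / η) + 1) / η ≤ 70 * (6 * A + 72) * W ^ 2 := by
    rw [div_le_iff₀ hη0]
    have h4 : 1 / η = 70 * W := by rw [hη]; field_simp
    have h5 : Real.log (1 / η) ≤ 70 * W - 1 := by
      rw [h4]
      exact Real.log_le_sub_one_of_pos (by positivity)
    have h6 : 70 * (6 * A + 72) * W ^ 2 * η = (6 * A + 72) * W := by
      linear_combination (6 * A + 72) * W * hηW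
    rw [h6]
    nlinarith
  have b3 : x ^ (-η) ≤ T ^ (-(10 / 7) : ℝ) := by
    rw [Real.rpow_def_of_pos hx, Real.rpow_def_of_pos hT0]
    apply Real.exp_le_exp.2
    have h4 : 10 / 7 * Real.log T ≤ Real.log x * η := by
      have h5 := mul_le_mul_of_nonneg_right h1 hη0.le
      have h6 : 100 * W * Real.log T * η = 10 / 7 * Real.log T := by
        linear_combination (10 / 7 * Real.log T) * hηW
      linarith
    linarith
  have b4 : 1 / T ^ 2 ≤ T ^ (-(10 / 7) : ℝ) := by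
    have h4 : 1 / T ^ 2 = T ^ (-2 : ℝ) := by
      rw [Real.rpow_neg hT0.le, ← Real.rpow_natCast]
      norm_num
    rw [h4]
    exact Real.rpow_le_rpow_of_exponent_le (by linarith) (by norm_num)
  have hp0 : 0 ≤ x ^ (-η) := Real.rpow_nonneg hx.le _
  have hp1 : 0 ≤ 1 / T ^ 2 := by positivity
  have hp2 : 0 ≤ T ^ (-(10 / 7) : ℝ) := Real.rpow_nonneg hT0.le _
  have b6 : ((1 + 6 * A * W) + Real.log (1 / η) + 1) / η * (x ^ (-η) + 1 / T ^ 2) ≤
      140 * (6 * A + 72) * T ^ (-(3 / 4) : ℝ) := by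
    have h4 : ((1 + 6 * A * W) + Real.log (1 / η) + 1) / η * (x ^ (-η) + 1 / T ^ 2) ≤
        70 * (6 * A + 72) * W ^ 2 * (2 * T ^ (-(10 / 7) : ℝ)) :=
      mul_le_mul b2 (by linarith) (by linarith) (by positivity)
    have h5 : 70 * (6 * A + 72) * W ^ 2 * (2 * T ^ (-(10 / 7) : ℝ)) ≤
        70 * (6 * A + 72) * T ^ (1 / 2 : ℝ) * (2 * T ^ (-(10 / 7) : ℝ)) := by
      gcongr
    have h6 : 70 * (6 * A + 72) * T ^ (1 / 2 : ℝ) * (2 * T ^ (-(10 / 7) : ℝ)) =
        140 * (6 * A + 72) * T ^ (-(13 / 14) : ℝ) := by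
      have h7 : T ^ (-(13 / 14) : ℝ) = T ^ (1 / 2 : ℝ) * T ^ (-(10 / 7) : ℝ) := by
        rw [← Real.rpow_add hT0]
        norm_num
      rw [h7]
      ring
    have h8 : T ^ (-(13 / 14) : ℝ) ≤ T ^ (-(3 / 4) : ℝ) :=
      Real.rpow_le_rpow_of_exponent_le (by linarith) (by norm_num)
    have h9 : 140 * (6 * A + 72) * T ^ (-(13 / 14) : ℝ) ≤ 140 * (6 * A + 72) * T ^ (-(3 / 4) : ℝ) :=
      mul_le_mul_of_nonneg_left h8 (by positivity)
    linarith
  have b7 : (T ^ (-(1 / 3) : ℝ) / 5) ^ 2 = T ^ (1 / 12 : ℝ) * T ^ (-(3 / 4) : ℝ) / 25 := by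
    have h4 : T ^ (1 / 12 : ℝ) * T ^ (-(3 / 4) : ℝ) = T ^ (-(1 / 3) : ℝ) * T ^ (-(1 / 3) : ℝ) := by
      rw [← Real.rpow_add hT0, ← Real.rpow_add hT0]
      norm_num
    rw [h4]
    ring
  rw [b7]
  have b8 : Real.log x / T + ((1 + 6 * A * W) + Real.log (1 / η) + 1) / η * (x ^ (-η) + 1 / T ^ 2) ≤
      (1 + 140 * (6 * A + 72)) * T ^ (-(3 / 4) : ℝ) := by linarith
  have b9 := mul_le_mul_of_nonneg_left b8 (by linarith : (0 : ℝ) ≤ C)
  have b10 := mul_le_mul_of_nonneg_right h3 hq.le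
  linarith

theorem pnt_grows (h : IsZeta p κ Z) {ω : ℝ → ℝ} (hm : MonotoneOn ω (Ici 3))
    (hw : Tendsto (fun t => ω t / (Real.log (Real.log t) * Real.log (Real.log (Real.log t)))) atTop atTop)
    (hg : Grows ω Z)
    (hz : ∃ T0 : ℝ, ∀ ρ : ℂ, Z ρ = 0 → T0 ≤ |ρ.im| → 1 ≤ 35 * (1 - ρ.re) * ω (3 * |ρ.im|)) :
    ∃ T0 : ℝ, ∀ T x : ℝ, T0 ≤ T → 100 * ω (4 * T) * Real.log T ≤ Real.log x → Real.log x ≤ T ^ (1 / 4 : ℝ) → 0 < x →
      |gpsi p x - x| ≤ x / T ^ (1 / 3 : ℝ) := by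
  obtain ⟨C, hC1, hC⟩ := psi_bound_T h
  obtain ⟨A, hA0, hA⟩ := hg (3 / 4) (by norm_num)
  obtain ⟨T0, hT0⟩ := hz
  have hll := loglog_le hw
  have hω : Tendsto ω atTop atTop :=
    tendsto_atTop_mono' atTop hll (Real.tendsto_log_atTop.comp Real.tendsto_log_atTop)
  obtain ⟨T1, hT1⟩ := Filter.eventually_atTop.1 (hω.eventually_ge_atTop 1)
  obtain ⟨η0, hη0, hlow⟩ := no_zeros_low h (max T0 (max T1 1))
  have h4 : Tendsto (fun T : ℝ => 4 * T) atTop atTop := tendsto_id.const_mul_atTop (by norm_num)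
  have e1 : ∀ᶠ T : ℝ in atTop, max 1 (1 / η0) ≤ ω (4 * T) := (hω.comp h4).eventually_ge_atTop _
  have e2 : ∀ᶠ T : ℝ in atTop, Real.log (Real.log (4 * T)) ≤ ω (4 * T) := h4.eventually hll
  have e3 : ∀ᶠ T : ℝ in atTop, 25 * C * (1 + 140 * (6 * A + 72)) ≤ T ^ (1 / 12 : ℝ) :=
    (tendsto_rpow_atTop (by norm_num)).eventually_ge_atTop _
  have e4 : ∀ᶠ T : ℝ in atTop, 1 ≤ Real.log T := Real.tendsto_log_atTop.eventually_ge_atTop _
  obtain ⟨T2, hT2⟩ := Filter.eventually_atTop.1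
    (e1.and (e2.and (e3.and (e4.and (eventually_ge_atTop (3 : ℝ))))))
  refine ⟨T2, fun T x hT hx1 hx2 hx0 => ?_⟩
  obtain ⟨f1, f2, f3, f4, f5⟩ := hT2 T hT
  obtain ⟨W, hW⟩ : ∃ W : ℝ, W = ω (4 * T) := ⟨_, rfl⟩
  rw [← hW] at f1 f2 hx1
  have hTp : 0 < T := by linarith
  have hW1 : 1 ≤ W := le_trans (le_max_left _ _) f1
  have hWη : 1 / η0 ≤ W := le_trans (le_max_right _ _) f1
  obtain ⟨η, hη⟩ : ∃ η : ℝ, η = 1 / (70 * W) := ⟨_, rfl⟩
  have hηp : 0 < η := by rw [hη]; positivity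
  have hηW : η * (70 * W) = 1 := by rw [hη]; field_simp
  have hη10 : η ≤ 1 / 10 := by
    rw [hη, div_le_div_iff₀ (by positivity) (by norm_num)]
    linarith
  have hη35 : 2 * η ≤ 1 / 35 := by nlinarith
  -- x is large
  have hx6 : 6 ≤ x := by
    have g1 := Real.add_one_le_exp (Real.log x)
    rw [Real.exp_log hx0] at g1
    have g2 : 1 * 1 ≤ W * Real.log T := mul_le_mul hW1 f4 (by norm_num) (by linarith)
    linarith
  -- monotonicity of ω
  have hmono : ∀ t : ℝ, 3 ≤ t → t ≤ 4 * T → ω t ≤ W := by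
    intro t g1 g2
    rw [hW]
    exact hm g1 (show (3 : ℝ) ≤ 4 * T by linarith) g2
  -- zeros
  have hzero : ∀ ρ : ℂ, Z ρ = 0 → ρ ≠ 1 → |ρ.im| ≤ T + 1 → ρ.re ≤ 1 - 2 * η := by
    intro ρ hρ hρ1 hρT
    by_cases hc : |ρ.im| ≤ max T0 (max T1 1)
    · have g1 := hlow ρ hρ hρ1 hc
      have g2 : 2 * η ≤ η0 := by
        rw [div_le_iff₀ hη0] at hWη
        have g3 : 1 * (2 * η) ≤ W * η0 * (2 * η) := mul_le_mul_of_nonneg_right hWη (by positivity)
        have g4 : W * η0 * (2 * η) = η0 / 35 := by linear_combination (η0 / 35) * hηW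
        linarith
      linarith
    · have hc' := not_le.1 hc
      have g1 : T0 ≤ |ρ.im| := le_trans (le_max_left _ _) hc'.le
      have g2 : T1 ≤ |ρ.im| := le_trans (le_trans (le_max_left _ _) (le_max_right _ _)) hc'.le
      have g3 : 1 ≤ |ρ.im| := le_trans (le_trans (le_max_right _ _) (le_max_right _ _)) hc'.le
      have g4 := hT0 ρ hρ g1
      have g5 : 1 ≤ ω (3 * |ρ.im|) := hT1 _ (by show T1 ≤ 3 * |ρ.im|; linarith)
      have g6 : ω (3 * |ρ.im|) ≤ W := hmono _ (by linarith) (by linarith)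
      have g7 : 0 < 1 - ρ.re := by
        by_contra hn
        have hn' := not_lt.1 hn
        have g8 : 35 * (1 - ρ.re) * ω (3 * |ρ.im|) ≤ 0 :=
          mul_nonpos_of_nonpos_of_nonneg (by linarith) (by linarith)
        linarith
      have g8 : 35 * (1 - ρ.re) * ω (3 * |ρ.im|) ≤ 35 * (1 - ρ.re) * W :=
        mul_le_mul_of_nonneg_left g6 (by linarith)
      have g9 : 2 * η ≤ 1 - ρ.re := by
        have g10 : (2 * η) * (35 * W) ≤ (1 - ρ.re) * (35 * W) := by linarith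
        exact le_of_mul_le_mul_right g10 (by positivity)
      linarith
  -- growth
  have hgrow : ∀ s : ℂ, 1 - 2 * η ≤ s.re → s.re ≤ 2 → 3 ≤ |s.im| → |s.im| ≤ T + 1 →
      ‖Z s‖ ≤ Real.exp (1 + 6 * A * W) := by
    intro s g1 g2 g3 g4
    refine (hA s (by linarith) g2 g3).trans (Real.exp_le_exp.2 ?_)
    have g5 : 0 ≤ max 0 (1 - s.re) := le_max_left _ _
    have g6 : max 0 (1 - s.re) ≤ 2 * η := max_le (by positivity) (by linarith)
    refine grow_exp hA0 hW1 g5 ?_ (hmono _ g3 (by linarith)) g3 ?_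
    · have g7 : 35 * W * max 0 (1 - s.re) ≤ 35 * W * (2 * η) := mul_le_mul_of_nonneg_left g6 (by positivity)
      linarith
    · refine le_trans ?_ f2
      have g7 : 1 ≤ Real.log |s.im| := one_le_log g3
      have g8 : Real.log |s.im| ≤ Real.log (4 * T) := Real.log_le_log (by linarith) (by linarith)
      exact Real.log_le_log (by linarith) g8
  have hTn : T ^ (-(1 / 3) : ℝ) ≤ 1 := by
    rw [← Real.rpow_zero T]
    exact Real.rpow_le_rpow_of_exponent_le (by linarith) (by norm_num)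
  have hTn0 : 0 < T ^ (-(1 / 3) : ℝ) := Real.rpow_pos_of_pos hTp _
  have key := hC T η (1 + 6 * A * W) x (T ^ (-(1 / 3) : ℝ) / 5) f5 hηp hη10 (by positivity) hx6 hzero hgrow
    (by positivity) (by linarith) (err_sum hC1 hA0 hW1 f5 f4 hη hx1 hx2 hx0 f3)
  have hfin : 5 * (T ^ (-(1 / 3) : ℝ) / 5) * x = x / T ^ (1 / 3 : ℝ) := by
    rw [Real.rpow_neg hTp.le]
    field_simp
  rw [hfin] at key
  exact key

end VQ
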