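import Pool.Agent.H15.VQ.Zeta

/-!
# PnJ : real variable part of the prime number theorem of Vinogradov and Korobov

Let `b = B ^ (- 2 / 5)`, `W = (log x)^(3/5) / (log log x)^(1/5)`, `log T = b W / 24`, `η = B ^ (- 2 / 3) / (200 V (T + 1))`. For `0 ≤ a ≤ 2 η`, `3 ≤ t ≤ T + 1`:
`B a^(3/2) log t ≤ B (2 η)^(3/2) log (T + 1) = 1 / (1000 sqrt (log log (T + 1))) ≤ 1`, so `M = log A + 1 + (2/3) log log (T + 1)`, and
`(M + log (1 / η) + 1) / η ≤ log T` for large `T`. `V (T + 1) ≤ (1 + ε) (b / 24)^(2/3) (3/5)^(1/3) (log x)^(2/5) (log log x)^(1/5)` for large `x`, so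
`η log x ≥ b W / 21` (`24 ^ (2/3) / (200 (3/5)^(1/3)) = 0.04933 > 1 / 21`; note `b ^ (5/3) = B ^ (- 2/3)`), `x ^ (- η) ≤ 1 / T`. The sum is at most
`3 C log x / T`, `δ = (3 C log x)^(1/2) exp (- b W / 48)`, `5 δ ≤ exp (- b W / 50)` for large `x`.
-/

set_option autoImplicit false

open Complex MeasureTheory Set Filter Topology

namespace VQ

private theorem rpow_pow_eq {x : ℝ} (hx : 0 ≤ x) (a : ℝ) (n : ℕ) (c : ℝ) (h : a * n = c) :
    (x ^ a) ^ n = x ^ c := by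
  rw [← Real.rpow_natCast, ← Real.rpow_mul hx, h]

/-- the heart: everything in terms of `z = (log x)^(1/20)`, `g = (log log x)^(1/15)`, `q = B^(-2/15)` -/
private theorem core {B A C D q z g x : ℝ} (hB : 0 < B) (hA : 1 ≤ A) (hC : 1 ≤ C)
    (hq : q = B ^ (-(2 / 15) : ℝ)) (hx : 1 < x) (hxz : Real.log x = z ^ 20) (hxg : Real.log (Real.log x) = g ^ 15)
    (hg1 : 1 ≤ g) (hgq : q ^ 3 ≤ g) (hgz : g ^ 15 ≤ z) (hz1 : 1 ≤ z)
    (hz2 : 5 + |D| + (q ^ 5 * (10 + |D|) / 200) ^ 3 ≤ q ^ 3 * z / 24)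
    (hz3 : (Real.log A + 2 + 1 + 24 / q ^ 3) * (24 / q ^ 3) ≤ z)
    (hz4 : 15 * C * (2 * 1200 ^ 2) ≤ (q ^ 3) ^ 2 * z) :
    ∃ T η M δ : ℝ, D ≤ T ∧ 3 ≤ T ∧ 0 < η ∧ η ≤ 1 / 10 ∧ 0 ≤ M ∧ η ≤ 1 / (1 + |D|) ∧
      η * (200 * V (T + 1)) = B ^ (-(2 / 3) : ℝ) ∧
      (∀ a t : ℝ, 0 ≤ a → a ≤ 2 * η → 3 ≤ t → t ≤ T + 1 →
        A * t ^ (B * a ^ (3 / 2 : ℝ)) * Real.log t ^ (2 / 3 : ℝ) ≤ Real.exp M) ∧
      0 < δ ∧ δ ≤ 1 / 2 ∧
      C * (Real.log x / T + (M + Real.log (1 / η) + 1) / η * (x ^ (-η) + 1 / T ^ 2)) ≤ δ ^ 2 ∧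
      5 * δ ≤ Real.exp (-(1 / 50 * B ^ (-(2 / 5) : ℝ) *
        (Real.log x ^ (3 / 5 : ℝ) / Real.log (Real.log x) ^ (1 / 5 : ℝ)))) := by
  have hq0 : 0 < q := by rw [hq]; exact Real.rpow_pos_of_pos hB _
  have hz0 : 0 < z := by linarith
  have hg0 : 0 < g := by linarith
  have e3 : B ^ (-(2 / 5) : ℝ) = q ^ 3 := by
    rw [hq, rpow_pow_eq hB.le _ 3 (-(2 / 5))]; norm_num
  have e5 : B ^ (-(2 / 3) : ℝ) = q ^ 5 := by
    rw [hq, rpow_pow_eq hB.le _ 5 (-(2 / 3))]; norm_num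
  have e15 : B ^ 2 * q ^ 15 = 1 := by
    rw [hq, rpow_pow_eq hB.le _ 15 (-2) (by norm_num), Real.rpow_neg hB.le]
    have : B ^ (2 : ℝ) = B ^ 2 := by exact_mod_cast Real.rpow_natCast B 2
    rw [this]
    field_simp
  have eW1 : Real.log x ^ (3 / 5 : ℝ) = z ^ 12 := by
    rw [hxz, ← Real.rpow_natCast z 20, ← Real.rpow_mul hz0.le, ← Real.rpow_natCast z 12]
    norm_num
  have eW2 : Real.log (Real.log x) ^ (1 / 5 : ℝ) = g ^ 3 := by
    rw [hxg, ← Real.rpow_natCast g 15, ← Real.rpow_mul hg0.le, ← Real.rpow_natCast g 3]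
    norm_num
  have hg3 : g ^ 3 ≤ z := by
    refine le_trans ?_ hgz
    exact pow_le_pow_right₀ hg1 (by norm_num)
  have hlogz : 20 * Real.log z = g ^ 15 := by
    rw [← hxg, hxz, Real.log_pow]; norm_num
  -- `τ = log T`
  set τ : ℝ := q ^ 3 * (z ^ 12 / g ^ 3) / 24 with hτ
  have hW11 : z ^ 11 ≤ z ^ 12 / g ^ 3 := by
    rw [le_div_iff₀ (by positivity)]
    calc z ^ 11 * g ^ 3 ≤ z ^ 11 * z := by gcongr
      _ = z ^ 12 := by ring
  have hW1 : z ≤ z ^ 12 / g ^ 3 := by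
    refine le_trans ?_ hW11
    exact le_self_pow₀ hz1 (by norm_num)
  have hτz : q ^ 3 * z / 24 ≤ τ := by
    rw [hτ]; gcongr
  have hD0 : 0 ≤ |D| := abs_nonneg D
  have hv0 : 0 ≤ (q ^ 5 * (10 + |D|) / 200) ^ 3 := by positivity
  have hτ5 : 5 ≤ τ := by linarith
  have hτD : |D| ≤ τ := by linarith
  set T : ℝ := Real.exp τ with hT
  have hTτ : τ + 1 ≤ T := Real.add_one_le_exp τ
  have hT0 : 0 < T := Real.exp_pos _
  have hT1 : 1 ≤ T := by linarith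
  set l : ℝ := Real.log (T + 1) with hl
  have hτl : τ ≤ l := by
    rw [hl, Real.le_log_iff_exp_le (by linarith)]
    linarith
  have hlτ : l ≤ 6 / 5 * τ := by
    have h1 : l ≤ Real.log (2 * T) := Real.log_le_log (by linarith) (by linarith)
    rw [Real.log_mul (by norm_num) hT0.ne', hT, Real.log_exp] at h1
    have h2 : Real.log 2 < 1 := by
      have := Real.log_two_lt_d9; linarith
    linarith
  have hl5 : 5 ≤ l := by linarith
  have hl0 : 0 < l := by linarith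
  have hlz : l ≤ z ^ 12 := by
    have h1 : 6 / 5 * τ = z ^ 12 * (q ^ 3 / (20 * g ^ 3)) := by
      rw [hτ]; field_simp; ring
    have h2 : q ^ 3 / (20 * g ^ 3) ≤ 1 := by
      rw [div_le_one (by positivity)]
      have : g ≤ g ^ 3 := le_self_pow₀ hg1 (by norm_num)
      linarith [pow_pos hg0 3]
    rw [h1] at hlτ
    refine hlτ.trans ?_
    exact mul_le_of_le_one_right (by positivity) h2
  have hll1 : 1 ≤ Real.log l := by
    rw [Real.le_log_iff_exp_le hl0]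
    have := Real.exp_one_lt_d9
    linarith
  have hll : Real.log l ≤ 3 / 5 * g ^ 15 := by
    have h1 := Real.log_le_log hl0 hlz
    rw [Real.log_pow] at h1
    rw [← hlogz]
    push_cast at h1
    linarith
  set v : ℝ := V (T + 1) with hv
  have hvpos : 0 < v := by
    rw [hv, V, ← hl]
    have : 0 < Real.log l := by linarith
    positivity
  have hv3 : v ^ 3 = l ^ 2 * Real.log l := by
    rw [hv, V, ← hl, mul_pow, rpow_pow_eq hl0.le _ 3 2 (by norm_num),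
      rpow_pow_eq (by linarith) _ 3 1 (by norm_num), Real.rpow_one]
    congr 1
    exact_mod_cast Real.rpow_natCast l 2
  have hvup : v ≤ 3 / 25 * q ^ 2 * z ^ 8 * g ^ 3 := by
    have h1 : v ^ 3 ≤ (3 / 25 * q ^ 2 * z ^ 8 * g ^ 3) ^ 3 := by
      rw [hv3]
      calc l ^ 2 * Real.log l ≤ (6 / 5 * τ) ^ 2 * (3 / 5 * g ^ 15) := by
            gcongr
        _ = 3 / 2000 * (q ^ 6 * z ^ 24 * g ^ 9) := by
            rw [hτ]; field_simp; ring
        _ ≤ 27 / 15625 * (q ^ 6 * z ^ 24 * g ^ 9) :=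
            mul_le_mul_of_nonneg_right (by norm_num) (by positivity)
        _ = _ := by ring
    exact le_of_pow_le_pow_left₀ (by norm_num) (by positivity) h1
  have hvlow : q ^ 5 * (10 + |D|) / 200 ≤ v := by
    have h1 : (q ^ 5 * (10 + |D|) / 200) ^ 3 ≤ v ^ 3 := by
      rw [hv3]
      have h2 : l ≤ l ^ 2 * Real.log l := by
        calc l ≤ l ^ 2 := le_self_pow₀ (by linarith) (by norm_num)
          _ = l ^ 2 * 1 := by ring
          _ ≤ l ^ 2 * Real.log l := by gcongr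
      linarith
    exact le_of_pow_le_pow_left₀ (by norm_num) hvpos.le h1
  set η : ℝ := q ^ 5 / (200 * v) with hη
  have hη0 : 0 < η := by rw [hη]; positivity
  have hηle : η * (10 + |D|) ≤ 1 := by
    rw [hη, div_mul_eq_mul_div, div_le_one (by positivity)]
    linarith
  have hηD : 0 ≤ η * |D| := mul_nonneg hη0.le hD0
  have hηle' : η * 10 + η * |D| ≤ 1 := by rw [← mul_add]; exact hηle
  have hηinv : 1 / η ≤ 24 / q ^ 3 * z ^ 8 * g ^ 3 := by
    rw [hη, one_div_div, div_le_iff₀ (by positivity)]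
    calc 200 * v ≤ 200 * (3 / 25 * q ^ 2 * z ^ 8 * g ^ 3) := by gcongr
      _ = 24 / q ^ 3 * z ^ 8 * g ^ 3 * q ^ 5 := by field_simp; ring
  have hηL : τ ≤ η * Real.log x := by
    rw [hxz, hη, div_mul_eq_mul_div, le_div_iff₀ (by positivity)]
    calc τ * (200 * v) ≤ τ * (200 * (3 / 25 * q ^ 2 * z ^ 8 * g ^ 3)) := by gcongr
      _ = q ^ 5 * z ^ 20 := by rw [hτ]; field_simp; ring
  have hlA : 0 ≤ Real.log A := Real.log_nonneg hA
  set M : ℝ := Real.log A + 1 + 2 / 3 * Real.log l with hM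
  have hM0 : 0 ≤ M := by rw [hM]; linarith
  have hηinv9 : 1 / η ≤ 24 / q ^ 3 * z ^ 9 := by
    refine hηinv.trans ?_
    calc 24 / q ^ 3 * z ^ 8 * g ^ 3 ≤ 24 / q ^ 3 * z ^ 8 * z := by gcongr
      _ = 24 / q ^ 3 * z ^ 9 := by ring
  have hlogη : Real.log (1 / η) ≤ 1 / η := by
    have := Real.log_le_sub_one_of_pos (show (0:ℝ) < 1 / η by positivity)
    linarith
  have hlogη0 : 0 ≤ Real.log (1 / η) := by
    apply Real.log_nonneg
    rw [le_div_iff₀ hη0]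
    linarith
  have hMη : (M + Real.log (1 / η) + 1) / η ≤ z ^ 20 := by
    have h1 : M + Real.log (1 / η) + 1 ≤ (Real.log A + 2 + 1 + 24 / q ^ 3) * z ^ 9 := by
      have h2 : M ≤ Real.log A + 1 + z := by rw [hM]; linarith
      have h3 : z ≤ z ^ 9 := le_self_pow₀ hz1 (by norm_num)
      have h4 : 1 ≤ z ^ 9 := one_le_pow₀ hz1
      have h6 : (Real.log A + 2) * 1 ≤ (Real.log A + 2) * z ^ 9 :=
        mul_le_mul_of_nonneg_left h4 (by linarith)
      have h7 : (Real.log A + 2 + 1 + 24 / q ^ 3) * z ^ 9 =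
          (Real.log A + 2) * z ^ 9 + z ^ 9 + 24 / q ^ 3 * z ^ 9 := by ring
      rw [h7]
      linarith
    calc (M + Real.log (1 / η) + 1) / η = (M + Real.log (1 / η) + 1) * (1 / η) := by ring
      _ ≤ ((Real.log A + 2 + 1 + 24 / q ^ 3) * z ^ 9) * (24 / q ^ 3 * z ^ 9) := by
          gcongr
      _ = (Real.log A + 2 + 1 + 24 / q ^ 3) * (24 / q ^ 3) * z ^ 18 := by ring
      _ ≤ z * z ^ 18 := by gcongr
      _ = z ^ 19 := by ring
      _ ≤ z ^ 20 := pow_le_pow_right₀ hz1 (by norm_num)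
  have hxη : x ^ (-η) ≤ 1 / T := by
    rw [Real.rpow_def_of_pos (by linarith), hT, one_div, ← Real.exp_neg]
    apply Real.exp_le_exp.2
    linarith
  have hz20 : 1 ≤ z ^ 20 := one_le_pow₀ hz1
  set δ : ℝ := Real.sqrt (3 * C * z ^ 20) * Real.exp (-(τ / 2)) with hδ
  have hδ0 : 0 < δ := by rw [hδ]; positivity
  have hδ2 : δ ^ 2 = 3 * C * z ^ 20 / T := by
    have h0 : ((2 : ℕ) : ℝ) * (-(τ / 2)) = -τ := by push_cast; ring
    rw [hδ, mul_pow, Real.sq_sqrt (by positivity), ← Real.exp_nat_mul, h0, Real.exp_neg, hT, div_eq_mul_inv]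
  have hδ5 : 5 * δ ≤ Real.exp (-(1 / 50 * q ^ 3 * (z ^ 12 / g ^ 3))) := by
    have h1 : Real.sqrt (3 * C * z ^ 20) ≤ 3 * C * z ^ 10 := by
      rw [Real.sqrt_le_left (by positivity)]
      have : (3 * C) * z ^ 20 ≤ (3 * C) ^ 2 * z ^ 20 := by
        gcongr
        exact le_self_pow₀ (by linarith) (by norm_num)
      calc 3 * C * z ^ 20 ≤ (3 * C) ^ 2 * z ^ 20 := this
        _ = (3 * C * z ^ 10) ^ 2 := by ring
    set s : ℝ := q ^ 3 * (z ^ 12 / g ^ 3) / 1200 with hs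
    have hs1 : q ^ 3 * z ^ 11 / 1200 ≤ s := by rw [hs]; gcongr
    have hs0 : 0 ≤ s := by rw [hs]; positivity
    have h2 : s ^ 2 / 2 ≤ Real.exp s := by
      have := Real.quadratic_le_exp_of_nonneg hs0
      linarith
    have h3 : 5 * (3 * C * z ^ 10) ≤ Real.exp s := by
      refine le_trans ?_ h2
      have h4 : (q ^ 3 * z ^ 11 / 1200) ^ 2 ≤ s ^ 2 := by gcongr
      have h5 : 5 * (3 * C * z ^ 10) ≤ (q ^ 3 * z ^ 11 / 1200) ^ 2 / 2 := by
        have h6 : (q ^ 3 * z ^ 11 / 1200) ^ 2 / 2 = (q ^ 3) ^ 2 * z ^ 12 * z ^ 10 / (2 * 1200 ^ 2) := by ring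
        rw [h6, le_div_iff₀ (by norm_num)]
        have h7 : z ≤ z ^ 12 := le_self_pow₀ hz1 (by norm_num)
        have h8 : 15 * C * (2 * 1200 ^ 2) ≤ (q ^ 3) ^ 2 * z ^ 12 := by
          refine hz4.trans ?_
          gcongr
        calc 5 * (3 * C * z ^ 10) * (2 * 1200 ^ 2) = (15 * C * (2 * 1200 ^ 2)) * z ^ 10 := by ring
          _ ≤ (q ^ 3) ^ 2 * z ^ 12 * z ^ 10 := by gcongr
      linarith
    calc 5 * δ = 5 * Real.sqrt (3 * C * z ^ 20) * Real.exp (-(τ / 2)) := by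
          rw [hδ]; ring
      _ ≤ 5 * (3 * C * z ^ 10) * Real.exp (-(τ / 2)) :=
          mul_le_mul_of_nonneg_right (mul_le_mul_of_nonneg_left h1 (by norm_num)) (Real.exp_pos _).le
      _ ≤ Real.exp s * Real.exp (-(τ / 2)) := by gcongr
      _ = Real.exp (-(1 / 50 * q ^ 3 * (z ^ 12 / g ^ 3))) := by
          rw [← Real.exp_add]
          congr 1
          rw [hs, hτ]
          ring
  refine ⟨T, η, M, δ, ?_, by linarith, hη0, ?_, hM0, ?_, ?_, ?_, hδ0, ?_, ?_, ?_⟩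
  · have := le_abs_self D
    linarith
  · linarith
  · rw [le_div_iff₀ (by positivity), mul_add]
    linarith
  · rw [e5, ← hv, hη]
    field_simp
  · intro a t ha0 ha t3 tT
    have ht0 : 0 < t := by linarith
    have hlt0 : 0 < Real.log t := Real.log_pos (by linarith)
    have hlt : Real.log t ≤ l := Real.log_le_log ht0 tT
    have h1 : (B * a ^ (3 / 2 : ℝ)) * Real.log t ≤ 1 := by
      have h2 : ((B * (2 * η) ^ (3 / 2 : ℝ)) * l) ^ 2 ≤ 1 := by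
        have h3 : ((2 * η) ^ (3 / 2 : ℝ)) ^ 2 = (2 * η) ^ 3 := by
          rw [rpow_pow_eq (by positivity) _ 2 3 (by norm_num)]
          exact_mod_cast Real.rpow_natCast (2 * η) 3
        have h4 : ((B * (2 * η) ^ (3 / 2 : ℝ)) * l) ^ 2 = B ^ 2 * (2 * η) ^ 3 * l ^ 2 := by
          rw [mul_pow, mul_pow, h3]
        have h5 : B ^ 2 * (2 * η) ^ 3 * l ^ 2 = (B ^ 2 * q ^ 15) * l ^ 2 / (1000000 * v ^ 3) := by
          rw [hη]; field_simp; ring
        rw [h4, h5, e15, hv3, div_le_one (by positivity)]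
        have h9 : l ^ 2 ≤ l ^ 2 * Real.log l := le_mul_of_one_le_right (by positivity) hll1
        have h10 : 0 < l ^ 2 := by positivity
        linarith
      have h6 : B * (2 * η) ^ (3 / 2 : ℝ) * l ≤ 1 := by
        have h7 : 0 ≤ B * (2 * η) ^ (3 / 2 : ℝ) * l := by positivity
        exact (sq_le_one_iff₀ h7).1 h2
      refine le_trans ?_ h6
      gcongr
    have h8 : t ^ (B * a ^ (3 / 2 : ℝ)) ≤ Real.exp 1 := by
      rw [Real.rpow_def_of_pos ht0]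
      apply Real.exp_le_exp.2
      linarith
    have h9 : Real.log t ^ (2 / 3 : ℝ) ≤ Real.exp (2 / 3 * Real.log l) := by
      calc Real.log t ^ (2 / 3 : ℝ) ≤ l ^ (2 / 3 : ℝ) := by gcongr
        _ = Real.exp (2 / 3 * Real.log l) := by
            rw [Real.rpow_def_of_pos hl0, mul_comm]
    calc A * t ^ (B * a ^ (3 / 2 : ℝ)) * Real.log t ^ (2 / 3 : ℝ)
        ≤ A * Real.exp 1 * Real.exp (2 / 3 * Real.log l) := by gcongr
      _ = Real.exp M := by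
          rw [hM, Real.exp_add, Real.exp_add, Real.exp_log (by linarith)]
  · have h1 : Real.exp (-(1 / 50 * q ^ 3 * (z ^ 12 / g ^ 3))) ≤ 1 := by
      apply Real.exp_le_one_iff.2
      have : 0 ≤ 1 / 50 * q ^ 3 * (z ^ 12 / g ^ 3) := by positivity
      linarith
    linarith
  · rw [hδ2, hxz]
    have h1 : 1 / T ^ 2 ≤ 1 / T := by
      apply one_div_le_one_div_of_le hT0
      exact le_self_pow₀ hT1 (by norm_num)
    have h2 : (M + Real.log (1 / η) + 1) / η * (x ^ (-η) + 1 / T ^ 2) ≤ z ^ 20 * (1 / T + 1 / T) := by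
      gcongr
    calc C * (z ^ 20 / T + (M + Real.log (1 / η) + 1) / η * (x ^ (-η) + 1 / T ^ 2))
        ≤ C * (z ^ 20 / T + z ^ 20 * (1 / T + 1 / T)) := by gcongr
      _ = 3 * C * z ^ 20 / T := by ring
  · rw [e3, eW1, eW2]
    exact hδ5

/-- real variable part: for large `x` there is a suitable `T` -/
theorem pni_real {B A C D : ℝ} (hB : 0 < B) (hA : 1 ≤ A) (hC : 1 ≤ C) :
    ∃ X : ℝ, 6 ≤ X ∧ ∀ x : ℝ, X ≤ x → ∃ T η M δ : ℝ, D ≤ T ∧ 3 ≤ T ∧ 0 < η ∧ η ≤ 1 / 10 ∧ 0 ≤ M ∧ η ≤ 1 / (1 + |D|) ∧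
      η * (200 * V (T + 1)) = B ^ (-(2 / 3) : ℝ) ∧
      (∀ a t : ℝ, 0 ≤ a → a ≤ 2 * η → 3 ≤ t → t ≤ T + 1 →
        A * t ^ (B * a ^ (3 / 2 : ℝ)) * Real.log t ^ (2 / 3 : ℝ) ≤ Real.exp M) ∧
      0 < δ ∧ δ ≤ 1 / 2 ∧
      C * (Real.log x / T + (M + Real.log (1 / η) + 1) / η * (x ^ (-η) + 1 / T ^ 2)) ≤ δ ^ 2 ∧
      5 * δ ≤ Real.exp (-(1 / 50 * B ^ (-(2 / 5) : ℝ) *
        (Real.log x ^ (3 / 5 : ℝ) / Real.log (Real.log x) ^ (1 / 5 : ℝ)))) := by
  set q : ℝ := B ^ (-(2 / 15) : ℝ) with hq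
  have hq0 : 0 < q := by rw [hq]; exact Real.rpow_pos_of_pos hB _
  have t1 : Tendsto (fun x : ℝ => Real.log x) atTop atTop := Real.tendsto_log_atTop
  have t2 : Tendsto (fun x : ℝ => Real.log (Real.log x)) atTop atTop := t1.comp t1
  have t3 : Tendsto (fun x : ℝ => Real.log x ^ (1 / 20 : ℝ)) atTop atTop :=
    (tendsto_rpow_atTop (by norm_num)).comp t1
  have t4 : Tendsto (fun x : ℝ => Real.log (Real.log x) ^ (1 / 15 : ℝ)) atTop atTop :=
    (tendsto_rpow_atTop (by norm_num)).comp t2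
  have s1 : ∀ᶠ y : ℝ in atTop, Real.log y ≤ y ^ (1 / 20 : ℝ) := by
    have h := (isLittleO_log_rpow_atTop (r := (1 / 20 : ℝ)) (by norm_num)).bound (c := 1) one_pos
    filter_upwards [h, eventually_ge_atTop (1 : ℝ)] with y hy hy1
    rw [one_mul, Real.norm_eq_abs, Real.norm_eq_abs, abs_of_nonneg (Real.log_nonneg hy1),
      abs_of_nonneg (by positivity)] at hy
    exact hy
  have s2 := t1.eventually s1
  have hev : ∀ᶠ x : ℝ in atTop, 6 ≤ x ∧ 1 ≤ Real.log x ∧ 1 ≤ Real.log (Real.log x) ∧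
      Real.log (Real.log x) ≤ Real.log x ^ (1 / 20 : ℝ) ∧
      1 ≤ Real.log (Real.log x) ^ (1 / 15 : ℝ) ∧ q ^ 3 ≤ Real.log (Real.log x) ^ (1 / 15 : ℝ) ∧
      1 ≤ Real.log x ^ (1 / 20 : ℝ) ∧
      (5 + |D| + (q ^ 5 * (10 + |D|) / 200) ^ 3) * 24 / q ^ 3 ≤ Real.log x ^ (1 / 20 : ℝ) ∧
      (Real.log A + 2 + 1 + 24 / q ^ 3) * (24 / q ^ 3) ≤ Real.log x ^ (1 / 20 : ℝ) ∧
      15 * C * (2 * 1200 ^ 2) / (q ^ 3) ^ 2 ≤ Real.log x ^ (1 / 20 : ℝ) := by
    filter_upwards [eventually_ge_atTop (6 : ℝ), t1.eventually_ge_atTop 1, t2.eventually_ge_atTop 1, s2,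
      t4.eventually_ge_atTop 1, t4.eventually_ge_atTop (q ^ 3), t3.eventually_ge_atTop 1,
      t3.eventually_ge_atTop ((5 + |D| + (q ^ 5 * (10 + |D|) / 200) ^ 3) * 24 / q ^ 3),
      t3.eventually_ge_atTop ((Real.log A + 2 + 1 + 24 / q ^ 3) * (24 / q ^ 3)),
      t3.eventually_ge_atTop (15 * C * (2 * 1200 ^ 2) / (q ^ 3) ^ 2)] with x h1 h2 h3 h4 h5 h6 h7 h8 h9 h10
    exact ⟨h1, h2, h3, h4, h5, h6, h7, h8, h9, h10⟩
  obtain ⟨X, hX⟩ := eventually_atTop.1 hev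
  refine ⟨max X 6, le_max_right _ _, fun x hx => ?_⟩
  obtain ⟨h1, h2, h3, h4, h5, h6, h7, h8, h9, h10⟩ := hX x ((le_max_left _ _).trans hx)
  have hL0 : 0 ≤ Real.log x := by linarith
  have hLL0 : 0 ≤ Real.log (Real.log x) := by linarith
  refine core (q := q) (z := Real.log x ^ (1 / 20 : ℝ)) (g := Real.log (Real.log x) ^ (1 / 15 : ℝ)) hB hA hC hq
    (by linarith) ?_ ?_ h5 h6 ?_ h7 ?_ h9 ?_
  · rw [rpow_pow_eq hL0 _ 20 1 (by norm_num), Real.rpow_one]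
  · rw [rpow_pow_eq hLL0 _ 15 1 (by norm_num), Real.rpow_one]
  · rw [rpow_pow_eq hLL0 _ 15 1 (by norm_num), Real.rpow_one]
    exact h4
  · rw [div_le_iff₀ (by positivity)] at h8
    rw [le_div_iff₀ (by norm_num)]
    linarith
  · rw [div_le_iff₀ (by positivity)] at h10
    linarith

end VQ
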