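import Pool.Agent.H15.VQ.PnG
import Pool.Agent.H15.VQ.PnJ

/-!
# PnI : the prime number theorem of Vinogradov and Korobov for generalized primes

`hz` is the zero-free region (Pool/Agent/H71/Lan/Abs.lean). `pni_real` gives `T, η, M, δ`, then `psi_bound_T`. Zeros with `T0 ≤ |im ρ| ≤ T + 1`: `hz`, `V` is monotone on `[3, ∞)`;
zeros with `|im ρ| < T0`: `no_zeros_low` and `η ≤ 1 / (1 + |D|)` with a large `D`. The growth: `Richert` with `θ = 3 / 4`, `A` replaced by `max A 1`.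
-/

set_option autoImplicit false

open Complex MeasureTheory Set Filter Topology

namespace VQ

variable {p : ℕ → ℝ} {κ : ℝ} {Z : ℂ → ℂ}

private theorem one_lt_log {t : ℝ} (ht : 3 ≤ t) : 1 < Real.log t := by
  rw [Real.lt_log_iff_exp_lt (by linarith)]
  have := Real.exp_one_lt_d9
  linarith

private theorem V_pos' {t : ℝ} (ht : 3 ≤ t) : 0 < V t := by
  have h1 := one_lt_log ht
  have h2 : 0 < Real.log (Real.log t) := Real.log_pos h1
  unfold V
  have h3 : 0 < Real.log t := by linarith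
  positivity

private theorem V_mono' {t u : ℝ} (ht : 3 ≤ t) (hu : t ≤ u) : V t ≤ V u := by
  have h1 := one_lt_log ht
  have h2 : 0 < Real.log (Real.log t) := Real.log_pos h1
  have h3 : Real.log t ≤ Real.log u := Real.log_le_log (by linarith) hu
  have h4 : Real.log (Real.log t) ≤ Real.log (Real.log u) := Real.log_le_log (by linarith) h3
  unfold V
  have h5 : 0 < Real.log t := by linarith
  have h6 : 0 ≤ Real.log u ^ (2 / 3 : ℝ) := Real.rpow_nonneg (by linarith) _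
  gcongr

theorem pnt_richert (h : IsZeta p κ Z) {B : ℝ} (hB : 0 < B) (hg : Richert B Z)
    (hz : ∃ T0 : ℝ, ∀ ρ : ℂ, Z ρ = 0 → T0 ≤ |ρ.im| → B ^ (-(2 / 3) : ℝ) ≤ 100 * (1 - ρ.re) * V |ρ.im|) :
    ∃ X : ℝ, ∀ x : ℝ, X ≤ x → |gpsi p x - x| ≤ x * Real.exp (-(1 / 50 * B ^ (-(2 / 5) : ℝ) *
        (Real.log x ^ (3 / 5 : ℝ) / Real.log (Real.log x) ^ (1 / 5 : ℝ)))) := by
  obtain ⟨T0, hz⟩ := hz
  obtain ⟨η0, hη0, hlow⟩ := no_zeros_low h (max T0 3)
  obtain ⟨A0, hA0⟩ := hg (3 / 4) (by norm_num)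
  obtain ⟨C, hC, hpsi⟩ := psi_bound_T h
  obtain ⟨X, hX6, hX⟩ := pni_real (B := B) (A := max A0 1) (C := C) (D := 2 / η0) hB
    (le_max_right _ _) hC
  refine ⟨X, fun x hx => ?_⟩
  obtain ⟨T, η, M, δ, hDT, hT3, hη, hη1, hM, hηD, hηV, hgr, hδ, hδ1, hsum, hfin⟩ := hX x hx
  have hx6 : 6 ≤ x := hX6.trans hx
  have hη2 : 2 * η ≤ η0 := by
    have h1 : |2 / η0| = 2 / η0 := abs_of_pos (by positivity)
    rw [h1] at hηD
    have h2 : 1 / (1 + 2 / η0) ≤ η0 / 2 := by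
      rw [div_le_iff₀ (by positivity)]
      have : η0 / 2 * (1 + 2 / η0) = η0 / 2 + 1 := by field_simp
      rw [this]
      linarith
    linarith
  have hVT := V_pos' (t := T + 1) (by linarith)
  have hzero : ∀ ρ : ℂ, Z ρ = 0 → ρ ≠ 1 → |ρ.im| ≤ T + 1 → ρ.re ≤ 1 - 2 * η := by
    intro ρ h0 h1 h2
    rcases le_total |ρ.im| (max T0 3) with h3 | h3
    · have := hlow ρ h0 h1 h3
      linarith
    · have h4 := hz ρ h0 ((le_max_left _ _).trans h3)
      have h5 : (3 : ℝ) ≤ |ρ.im| := (le_max_right _ _).trans h3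
      have h6 := V_mono' h5 h2
      have h7 := V_pos' h5
      have hB' : 0 < B ^ (-(2 / 3) : ℝ) := Real.rpow_pos_of_pos hB _
      have h8 : 0 < 1 - ρ.re := by
        by_contra hc
        have : 100 * (1 - ρ.re) * V |ρ.im| ≤ 0 :=
          mul_nonpos_of_nonpos_of_nonneg (by linarith) h7.le
        linarith
      have h9 : 100 * (1 - ρ.re) * V |ρ.im| ≤ 100 * (1 - ρ.re) * V (T + 1) :=
        mul_le_mul_of_nonneg_left h6 (by linarith)
      have h10 : η * (200 * V (T + 1)) ≤ 100 * (1 - ρ.re) * V (T + 1) := by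
        rw [hηV]; exact h4.trans h9
      have h11 : (200 * η) * V (T + 1) ≤ (100 * (1 - ρ.re)) * V (T + 1) := by linarith
      have h12 := le_of_mul_le_mul_right h11 hVT
      linarith
  have hgrow : ∀ s : ℂ, 1 - 2 * η ≤ s.re → s.re ≤ 2 → 3 ≤ |s.im| → |s.im| ≤ T + 1 →
      ‖Z s‖ ≤ Real.exp M := by
    intro s h1 h2 h3 h4
    have h5 := hA0 s (by linarith) h2 h3
    refine le_trans ?_ (hgr (max 0 (1 - s.re)) |s.im| (le_max_left _ _)
      (max_le (by linarith) (by linarith)) h3 h4)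
    refine h5.trans ?_
    have h6 : 0 ≤ Real.log |s.im| := by
      have := one_lt_log h3
      linarith
    have h7 : (0 : ℝ) ≤ |s.im| ^ (B * max 0 (1 - s.re) ^ (3 / 2 : ℝ)) * Real.log |s.im| ^ (2 / 3 : ℝ) :=
      mul_nonneg (Real.rpow_nonneg (abs_nonneg _) _) (Real.rpow_nonneg h6 _)
    have h8 := mul_le_mul_of_nonneg_right (le_max_left A0 1) h7
    calc A0 * |s.im| ^ (B * max 0 (1 - s.re) ^ (3 / 2 : ℝ)) * Real.log |s.im| ^ (2 / 3 : ℝ)
        = A0 * (|s.im| ^ (B * max 0 (1 - s.re) ^ (3 / 2 : ℝ)) * Real.log |s.im| ^ (2 / 3 : ℝ)) := by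
          ring
      _ ≤ max A0 1 * (|s.im| ^ (B * max 0 (1 - s.re) ^ (3 / 2 : ℝ)) *
          Real.log |s.im| ^ (2 / 3 : ℝ)) := h8
      _ = _ := by ring
  have hmain := hpsi T η M x δ hT3 hη hη1 hM hx6 hzero hgrow hδ hδ1 hsum
  refine hmain.trans ?_
  rw [mul_comm x]
  exact mul_le_mul_of_nonneg_right hfin (by linarith)

end VQ
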