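import Pool.Agent.H15.VQ.Fn

/-!
# Ren : the densities `pm`, `r1`

`pm m` is the density of the sum of `m + 1` independent uniform variables on `[1, 2]`: it lives on
`[m + 1, 2 (m + 1)]`, and its Laplace transform is `D1 z ^ (m + 1)` (Fubini, induction).
-/

set_option autoImplicit false

open Complex MeasureTheory Set Filter Topology

namespace VQ

private theorem pm_basic (m : ℕ) : Measurable (pm m) ∧ (∀ y, 0 ≤ pm m y) ∧ ∀ y, pm m y ≤ 1 := by
  induction m with
  | zero =>
    refine ⟨?_, fun y => ?_, fun y => ?_⟩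
    · have h : pm 0 = fun y : ℝ => if y ∈ Icc (1 : ℝ) 2 then 1 else 0 := rfl
      rw [h]
      exact Measurable.ite measurableSet_Icc measurable_const measurable_const
    · show 0 ≤ (if 1 ≤ y ∧ y ≤ 2 then (1 : ℝ) else 0)
      split_ifs <;> norm_num
    · show (if 1 ≤ y ∧ y ≤ 2 then (1 : ℝ) else 0) ≤ 1
      split_ifs <;> norm_num
  | succ m ih =>
    obtain ⟨h1, h2, h3⟩ := ih
    have hi : ∀ a b : ℝ, IntervalIntegrable (pm m) volume a b := by
      intro a b
      rw [intervalIntegrable_iff]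
      refine Measure.integrableOn_of_bounded (M := 1) (by simp) h1.aestronglyMeasurable ?_
      refine Filter.Eventually.of_forall fun t => ?_
      rw [Real.norm_eq_abs, abs_of_nonneg (h2 t)]
      exact h3 t
    have hdef : ∀ y, pm (m + 1) y = ∫ u in (y - 2)..(y - 1), pm m u := fun y => rfl
    refine ⟨?_, fun y => ?_, fun y => ?_⟩
    · have hc : Continuous fun t : ℝ => ∫ u in (0 : ℝ)..t, pm m u :=
        intervalIntegral.continuous_primitive hi 0
      have h : pm (m + 1) = fun y : ℝ => (∫ u in (0 : ℝ)..(y - 1), pm m u) -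
          ∫ u in (0 : ℝ)..(y - 2), pm m u := by
        funext y
        rw [hdef, intervalIntegral.integral_interval_sub_left (hi _ _) (hi _ _)]
      rw [h]
      exact ((hc.comp (continuous_id.sub continuous_const)).sub
        (hc.comp (continuous_id.sub continuous_const))).measurable
    · rw [hdef]
      exact intervalIntegral.integral_nonneg (by linarith) fun t _ => h2 t
    · rw [hdef]
      calc ∫ u in (y - 2)..(y - 1), pm m u ≤ ∫ _u in (y - 2)..(y - 1), (1 : ℝ) :=
            intervalIntegral.integral_mono_on (by linarith) (hi _ _) intervalIntegrable_const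
              fun t _ => h3 t
        _ = 1 := by simp; ring

theorem pm_meas (m : ℕ) : Measurable (pm m) := (pm_basic m).1

theorem pm_nonneg (m : ℕ) (y : ℝ) : 0 ≤ pm m y := (pm_basic m).2.1 y

theorem pm_le_one (m : ℕ) (y : ℝ) : pm m y ≤ 1 := (pm_basic m).2.2 y

theorem pm_eq_zero (m : ℕ) {y : ℝ} (h : y < (m : ℝ) + 1) : pm m y = 0 := by
  induction m generalizing y with
  | zero =>
    show (if 1 ≤ y ∧ y ≤ 2 then (1 : ℝ) else 0) = 0
    rw [if_neg]
    simp only [Nat.cast_zero, zero_add] at h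
    rintro ⟨h1, _⟩
    linarith
  | succ m ih =>
    show (∫ u in (y - 2)..(y - 1), pm m u) = 0
    push_cast at h
    rw [intervalIntegral.integral_zero_ae]
    refine Filter.Eventually.of_forall fun t ht => ?_
    rw [uIoc_of_le (by linarith)] at ht
    exact ih (by linarith [ht.2])

theorem pm_eq_zero_of_gt (m : ℕ) {y : ℝ} (h : 2 * ((m : ℝ) + 1) < y) : pm m y = 0 := by
  induction m generalizing y with
  | zero =>
    show (if 1 ≤ y ∧ y ≤ 2 then (1 : ℝ) else 0) = 0
    rw [if_neg]
    simp only [Nat.cast_zero, zero_add] at h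
    rintro ⟨_, h1⟩
    linarith
  | succ m ih =>
    show (∫ u in (y - 2)..(y - 1), pm m u) = 0
    push_cast at h
    rw [intervalIntegral.integral_zero_ae]
    refine Filter.Eventually.of_forall fun t ht => ?_
    rw [uIoc_of_le (by linarith)] at ht
    exact ih (by linarith [ht.1])

private theorem r1_support (y : ℝ) (m : ℕ) (hm : m ∉ Finset.range ⌊y⌋₊) :
    pm m y / ((m : ℝ) + 1) = 0 := by
  rw [Finset.mem_range, not_lt] at hm
  have h : y < (m : ℝ) + 1 := by
    have := Nat.lt_floor_add_one y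
    have h2 : ((⌊y⌋₊ : ℕ) : ℝ) ≤ m := by exact_mod_cast hm
    linarith
  rw [pm_eq_zero m h, zero_div]

private theorem r1_eq (y : ℝ) : r1 y = ∑ m ∈ Finset.range ⌊y⌋₊, pm m y / ((m : ℝ) + 1) :=
  tsum_eq_sum fun m hm => r1_support y m hm

theorem r1_meas : Measurable r1 := by
  refine measurable_of_tendsto_metrizable
    (f := fun n y => ∑ m ∈ Finset.range n, pm m y / ((m : ℝ) + 1)) (fun n => ?_) ?_
  · exact Finset.measurable_fun_sum _ fun m _ => (pm_meas m).div_const _
  · rw [tendsto_pi_nhds]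
    intro y
    exact (hasSum_sum_of_ne_finset_zero (s := Finset.range ⌊y⌋₊)
      (f := fun m => pm m y / ((m : ℝ) + 1)) fun m hm => r1_support y m hm).summable.hasSum.tendsto_sum_nat

theorem r1_nonneg (y : ℝ) : 0 ≤ r1 y :=
  tsum_nonneg fun m => div_nonneg (pm_nonneg m y) (by positivity)

theorem r1_le {y : ℝ} (hy : 0 ≤ y) : r1 y ≤ y := by
  rw [r1_eq]
  calc ∑ m ∈ Finset.range ⌊y⌋₊, pm m y / ((m : ℝ) + 1) ≤ ∑ _m ∈ Finset.range ⌊y⌋₊, (1 : ℝ) := by
        refine Finset.sum_le_sum fun m _ => ?_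
        rw [div_le_one (by positivity)]
        have h1 := pm_le_one m y
        have h2 : (0 : ℝ) ≤ m := Nat.cast_nonneg m
        linarith
    _ = (⌊y⌋₊ : ℝ) := by simp
    _ ≤ y := Nat.floor_le hy

theorem r1_eq_zero {y : ℝ} (h : y < 1) : r1 y = 0 := by
  rw [r1_eq]
  have : ⌊y⌋₊ = 0 := Nat.floor_eq_zero.2 h
  rw [this]
  simp

end VQ
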