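import Pool.Agent.H15.VQ.Ren

/-!
# RenL : the Laplace transform of `r1` is `- log (1 - D1)`

`∫ pm m y exp (- z y) dy = D1 z ^ (m + 1)` by induction and Fubini, `‖D1 z‖ < 1` for `0 < re z`, and
`- log (1 - D1 z) = ∑ D1 z ^ (m + 1) / (m + 1)`.
-/

set_option autoImplicit false

open Complex MeasureTheory Set Filter Topology

namespace VQ

private theorem pm_integrable (m : ℕ) (z : ℂ) :
    Integrable (fun y : ℝ => (pm m y : ℂ) * Complex.exp (-z * y)) := by
  have hsub : Function.support (fun y : ℝ => (pm m y : ℂ) * Complex.exp (-z * y)) ⊆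
      Icc ((m : ℝ) + 1) (2 * ((m : ℝ) + 1)) := by
    intro y hy
    by_contra hc
    apply hy
    rw [mem_Icc, not_and_or, not_le, not_le] at hc
    rcases hc with hc | hc
    · simp [pm_eq_zero m hc]
    · simp [pm_eq_zero_of_gt m hc]
  rw [← integrableOn_iff_integrable_of_support_subset hsub]
  refine Measure.integrableOn_of_bounded (M := Real.exp (|z.re| * (2 * ((m : ℝ) + 1)))) ?_ ?_ ?_
  · simp
  · refine AEStronglyMeasurable.mul ?_ ?_
    · exact (Complex.measurable_ofReal.comp (pm_meas m)).aestronglyMeasurable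
    · exact Continuous.aestronglyMeasurable (by fun_prop)
  · rw [ae_restrict_iff' measurableSet_Icc]
    refine Eventually.of_forall fun y hy => ?_
    have hy0 : 0 ≤ y := le_trans (by positivity) hy.1
    rw [norm_mul, Complex.norm_real, Real.norm_eq_abs, abs_of_nonneg (pm_nonneg m y),
      Complex.norm_exp]
    have h1 : (-z * (y : ℂ)).re = -z.re * y := by simp
    rw [h1]
    have h2 : Real.exp (-z.re * y) ≤ Real.exp (|z.re| * (2 * ((m : ℝ) + 1))) := by
      apply Real.exp_le_exp.2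
      have h3 : -z.re * y ≤ |z.re| * y := mul_le_mul_of_nonneg_right (neg_le_abs _) hy0
      exact h3.trans (mul_le_mul_of_nonneg_left hy.2 (abs_nonneg _))
    calc pm m y * Real.exp (-z.re * y) ≤ 1 * Real.exp (-z.re * y) :=
          mul_le_mul_of_nonneg_right (pm_le_one m y) (Real.exp_pos _).le
      _ ≤ Real.exp (|z.re| * (2 * ((m : ℝ) + 1))) := by rw [one_mul]; exact h2

private theorem pm_zero_off {m : ℕ} {y : ℝ} (hy : y ∉ Ioi (0 : ℝ)) : pm m y = 0 := by
  apply pm_eq_zero
  rw [mem_Ioi, not_lt] at hy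
  have : (0 : ℝ) ≤ m := Nat.cast_nonneg m
  linarith

private theorem pm_conv (m : ℕ) (y : ℝ) :
    pm (m + 1) y = ∫ u, pm m u * pm 0 (y - u) := by
  show ∫ u in (y - 2)..(y - 1), pm m u = _
  rw [intervalIntegral.integral_of_le (by linarith), ← integral_Icc_eq_integral_Ioc,
    ← integral_indicator measurableSet_Icc]
  congr 1
  funext u
  by_cases hu : u ∈ Icc (y - 2) (y - 1)
  · rw [indicator_of_mem hu]
    have h1 : pm 0 (y - u) = 1 := by
      show (if 1 ≤ y - u ∧ y - u ≤ 2 then (1 : ℝ) else 0) = 1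
      rw [if_pos ⟨by linarith [hu.2], by linarith [hu.1]⟩]
    rw [h1, mul_one]
  · rw [indicator_of_notMem hu]
    have h1 : pm 0 (y - u) = 0 := by
      show (if 1 ≤ y - u ∧ y - u ≤ 2 then (1 : ℝ) else 0) = 0
      rw [if_neg]
      rintro ⟨h2, h3⟩
      exact hu ⟨by linarith, by linarith⟩
    rw [h1, mul_zero]

private theorem pm_integral (m : ℕ) (z : ℂ) :
    ∫ y : ℝ, (pm m y : ℂ) * Complex.exp (-z * y) = D1 z ^ (m + 1) := by
  have h0 : ∫ y : ℝ, (pm 0 y : ℂ) * Complex.exp (-z * y) = D1 z := by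
    unfold D1
    rw [intervalIntegral.integral_of_le (by norm_num), ← integral_Icc_eq_integral_Ioc,
      ← integral_indicator measurableSet_Icc]
    congr 1
    funext y
    by_cases hy : y ∈ Icc (1 : ℝ) 2
    · rw [indicator_of_mem hy]
      have h1 : pm 0 y = 1 := by
        show (if 1 ≤ y ∧ y ≤ 2 then (1 : ℝ) else 0) = 1
        rw [if_pos ⟨hy.1, hy.2⟩]
      rw [h1]
      simp
    · rw [indicator_of_notMem hy]
      have h1 : pm 0 y = 0 := by
        show (if 1 ≤ y ∧ y ≤ 2 then (1 : ℝ) else 0) = 0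
        rw [if_neg]
        rintro ⟨h2, h3⟩
        exact hy ⟨h2, h3⟩
      rw [h1]
      simp
  induction m with
  | zero => rw [h0]; simp
  | succ m ih =>
    have hc := integral_convolution (ContinuousLinearMap.mul ℝ ℂ) (pm_integrable m z)
      (pm_integrable 0 z)
    rw [ih, h0] at hc
    have h1 : ∀ y : ℝ, (pm (m + 1) y : ℂ) * Complex.exp (-z * y) =
        convolution (fun y : ℝ => (pm m y : ℂ) * Complex.exp (-z * y))
          (fun y : ℝ => (pm 0 y : ℂ) * Complex.exp (-z * y)) (ContinuousLinearMap.mul ℝ ℂ)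
          volume y := by
      intro y
      rw [convolution_def, pm_conv m y, ← integral_complex_ofReal, ← integral_mul_const]
      congr 1
      funext u
      show ((pm m u * pm 0 (y - u) : ℝ) : ℂ) * Complex.exp (-z * y) =
        ((pm m u : ℂ) * Complex.exp (-z * u)) *
          ((pm 0 (y - u) : ℂ) * Complex.exp (-z * ((y - u : ℝ) : ℂ)))
      have h2 : Complex.exp (-z * (y : ℂ)) =
          Complex.exp (-z * (u : ℂ)) * Complex.exp (-z * ((y - u : ℝ) : ℂ)) := by
        rw [← Complex.exp_add]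
        congr 1
        push_cast
        ring
      rw [h2]
      push_cast
      ring
    calc ∫ y : ℝ, (pm (m + 1) y : ℂ) * Complex.exp (-z * y)
        = ∫ y : ℝ, convolution (fun y : ℝ => (pm m y : ℂ) * Complex.exp (-z * y))
          (fun y : ℝ => (pm 0 y : ℂ) * Complex.exp (-z * y)) (ContinuousLinearMap.mul ℝ ℂ)
          volume y := by
          congr 1
          funext y
          exact h1 y
      _ = (ContinuousLinearMap.mul ℝ ℂ) (D1 z ^ (m + 1)) (D1 z) := hc
      _ = D1 z ^ (m + 1 + 1) := by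
        show D1 z ^ (m + 1) * D1 z = _
        rw [pow_succ (D1 z) (m + 1)]

theorem pm_laplace (m : ℕ) (z : ℂ) :
    IntegrableOn (fun y : ℝ => (pm m y : ℂ) * Complex.exp (-z * y)) (Ioi 0) ∧
    ∫ y in Ioi (0 : ℝ), (pm m y : ℂ) * Complex.exp (-z * y) = D1 z ^ (m + 1) := by
  refine ⟨(pm_integrable m z).integrableOn, ?_⟩
  rw [setIntegral_eq_integral_of_forall_compl_eq_zero, pm_integral]
  intro y hy
  rw [pm_zero_off hy]
  simp

theorem norm_D1_lt_one {z : ℂ} (hz : 0 < z.re) : ‖D1 z‖ < 1 := by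
  have h1 : ‖D1 z‖ ≤ Real.exp (-z.re) * |(2 : ℝ) - 1| := by
    unfold D1
    apply intervalIntegral.norm_integral_le_of_norm_le_const
    intro y hy
    rw [uIoc_of_le (by norm_num)] at hy
    rw [Complex.norm_exp]
    apply Real.exp_le_exp.2
    have h2 : (-z * (y : ℂ)).re = -z.re * y := by simp
    rw [h2]
    nlinarith [hy.1]
  have h2 : Real.exp (-z.re) < 1 := by
    rw [Real.exp_lt_one_iff]
    linarith
  have h3 : |(2 : ℝ) - 1| = 1 := by norm_num
  rw [h3, mul_one] at h1
  exact lt_of_le_of_lt h1 h2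

theorem r1_laplace {z : ℂ} (hz : 0 < z.re) :
    IntegrableOn (fun y : ℝ => (r1 y : ℂ) * Complex.exp (-z * y)) (Ioi 0) ∧
    1 - D1 z = Complex.exp (-∫ y in Ioi (0 : ℝ), (r1 y : ℂ) * Complex.exp (-z * y)) := by
  have hint : IntegrableOn (fun y : ℝ => (r1 y : ℂ) * Complex.exp (-z * y)) (Ioi 0) := by
    have h1 : IntegrableOn (fun y : ℝ => y ^ (1 : ℝ) * Real.exp (-z.re * y ^ (1 : ℝ))) (Ioi 0) :=
      integrableOn_rpow_mul_exp_neg_mul_rpow (by norm_num) (by norm_num) hz
    refine Integrable.mono' h1 ?_ ?_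
    · refine AEStronglyMeasurable.mul ?_ ?_
      · exact (Complex.measurable_ofReal.comp r1_meas).aestronglyMeasurable
      · exact Continuous.aestronglyMeasurable (by fun_prop)
    · rw [ae_restrict_iff' measurableSet_Ioi]
      refine Eventually.of_forall fun y hy => ?_
      rw [norm_mul, Complex.norm_real, Real.norm_eq_abs, abs_of_nonneg (r1_nonneg y),
        Complex.norm_exp, Real.rpow_one]
      have h2 : (-z * (y : ℂ)).re = -z.re * y := by simp
      rw [h2]
      exact mul_le_mul_of_nonneg_right (r1_le (le_of_lt hy)) (Real.exp_pos _).le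
  refine ⟨hint, ?_⟩
  -- the terms
  have hF : ∀ m : ℕ, Integrable (fun y : ℝ => (pm m y : ℂ) * Complex.exp (-z * y) / ((m : ℂ) + 1))
      (volume.restrict (Ioi 0)) := fun m => (pm_laplace m z).1.div_const _
  have hre : 0 < ((z.re : ℝ) : ℂ).re := by simpa using hz
  have hD : ‖D1 ((z.re : ℝ) : ℂ)‖ < 1 := norm_D1_lt_one hre
  have hnorm : ∀ m : ℕ, ∫ y in Ioi (0 : ℝ),
      ‖(pm m y : ℂ) * Complex.exp (-z * y) / ((m : ℂ) + 1)‖ =
      ‖D1 ((z.re : ℝ) : ℂ) ^ (m + 1) / ((m : ℂ) + 1)‖ := by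
    intro m
    have e1 : ∀ y : ℝ, ‖(pm m y : ℂ) * Complex.exp (-z * y) / ((m : ℂ) + 1)‖ =
        pm m y * Real.exp (-z.re * y) / ((m : ℝ) + 1) := by
      intro y
      have h2 : (-z * (y : ℂ)).re = -z.re * y := by simp
      have h3 : ‖((m : ℂ) + 1)‖ = (m : ℝ) + 1 := by
        have : ((m : ℂ) + 1) = (((m : ℝ) + 1 : ℝ) : ℂ) := by push_cast; ring
        rw [this, Complex.norm_real, Real.norm_eq_abs, abs_of_nonneg (by positivity)]
      rw [norm_div, norm_mul, Complex.norm_real, Real.norm_eq_abs, abs_of_nonneg (pm_nonneg m y),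
        Complex.norm_exp, h2, h3]
    have e2 : ∫ y in Ioi (0 : ℝ), ((pm m y * Real.exp (-z.re * y) / ((m : ℝ) + 1) : ℝ) : ℂ) =
        D1 ((z.re : ℝ) : ℂ) ^ (m + 1) / ((m : ℂ) + 1) := by
      rw [← (pm_laplace m ((z.re : ℝ) : ℂ)).2, ← integral_div]
      congr 1
      funext y
      push_cast
      rfl
    have e3 : ((∫ y in Ioi (0 : ℝ), pm m y * Real.exp (-z.re * y) / ((m : ℝ) + 1) : ℝ) : ℂ) =
        D1 ((z.re : ℝ) : ℂ) ^ (m + 1) / ((m : ℂ) + 1) := by
      rw [← e2, ← integral_complex_ofReal]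
    have e4 : 0 ≤ ∫ y in Ioi (0 : ℝ), pm m y * Real.exp (-z.re * y) / ((m : ℝ) + 1) := by
      apply integral_nonneg
      intro y
      have := pm_nonneg m y
      positivity
    simp only [e1]
    rw [← e3, Complex.norm_real, Real.norm_eq_abs, abs_of_nonneg e4]
  have hsum : Summable fun m : ℕ => ∫ y in Ioi (0 : ℝ),
      ‖(pm m y : ℂ) * Complex.exp (-z * y) / ((m : ℂ) + 1)‖ := by
    simp only [hnorm]
    have := (Complex.hasSum_taylorSeries_neg_log' hD).summable
    exact this.norm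
  have hs := hasSum_integral_of_summable_integral_norm hF hsum
  have ht : ∀ y : ℝ, ∑' m : ℕ, (pm m y : ℂ) * Complex.exp (-z * y) / ((m : ℂ) + 1) =
      (r1 y : ℂ) * Complex.exp (-z * y) := by
    intro y
    have h4 : (r1 y : ℂ) = ∑' m : ℕ, ((pm m y / ((m : ℝ) + 1) : ℝ) : ℂ) := by
      unfold r1
      exact Complex.ofReal_tsum _
    rw [h4, ← tsum_mul_right]
    congr 1
    funext m
    push_cast
    ring
  have hl := Complex.hasSum_taylorSeries_neg_log' (norm_D1_lt_one hz)
  have he : ∀ m : ℕ, ∫ y in Ioi (0 : ℝ), (pm m y : ℂ) * Complex.exp (-z * y) / ((m : ℂ) + 1) =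
      D1 z ^ (m + 1) / ((m : ℂ) + 1) := by
    intro m
    rw [integral_div, (pm_laplace m z).2]
  simp only [he, ht] at hs
  have h5 := hs.unique hl
  rw [h5, neg_neg, Complex.exp_log]
  intro h0
  have h6 : D1 z = 1 := by
    have := sub_eq_zero.1 h0
    exact this.symm
  have h7 := norm_D1_lt_one hz
  rw [h6] at h7
  simp at h7

end VQ
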