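import Pool.Agent.H15.VQ.GreedyB
import Pool.Agent.H15.VQ.Part

/-!
# Sel : choice of the points `u j` (logarithms of the generalized primes)

Apply `greedy` to the probability measures `ν j = exp u f u du` on `S j = Icc (η j) (η (j + 1))`, to the functions
`cos (τ u)`, `sin (τ u)` with `τ = k / (N + 1)²`, `k : ℤ`, and the numbers of points `N`, with weights
`w = c (N + 1)^(-2) (|k| + 1)^(-2)` (countable index set `ℕ × ℤ × Bool`, encoded by `ℕ`). A real `t` is at distance at most
`(N + 1)^(-2)` from a grid point, and the change of the sum is at most `|t - τ| 2 N η N ≤ C` (`IsPart.le`).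
-/

set_option autoImplicit false

open Complex MeasureTheory Set Filter Topology

namespace VQ

/-- the exponential sum over the first `N` points minus the corresponding integrals -/
noncomputable def Vs (f : ℝ → ℝ) (η u : ℕ → ℝ) (N : ℕ) (t : ℝ) : ℂ :=
  ∑ j ∈ Finset.range N, (Complex.exp (-(Complex.I * t * u j)) -
    ∫ v in (η j)..(η (j + 1)), ((Real.exp v * f v : ℝ) : ℂ) * Complex.exp (-(Complex.I * t * v)))

/-- the points are in the intervals of the partition and the exponential sums are small -/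
structure IsSel (f : ℝ → ℝ) (η u : ℕ → ℝ) : Prop where
  ge : ∀ j, η j ≤ u j
  le : ∀ j, u j ≤ η (j + 1)
  bound : ∃ C : ℝ, 0 ≤ C ∧ ∀ (N : ℕ) (t : ℝ),
    ‖Vs f η u N t‖ ≤ C * Real.sqrt (N * (Real.log (N + 2) + Real.log (|t| + 3)))

private theorem sel_ii {f : ℝ → ℝ} (hf : Dens f) (a b : ℝ) :
    IntervalIntegrable (fun u => Real.exp u * f u) volume a b := by
  have h1 : IntervalIntegrable (fun u => 3 * Real.exp u) volume a b :=
    (continuous_const.mul Real.continuous_exp).intervalIntegrable a b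
  refine h1.mono_fun ((Real.measurable_exp.mul hf.meas).aestronglyMeasurable) ?_
  refine Eventually.of_forall fun u => ?_
  have h2 := hf.nonneg u
  have h3 := hf.le u
  have h4 := Real.exp_pos u
  show ‖Real.exp u * f u‖ ≤ ‖3 * Real.exp u‖
  rw [Real.norm_of_nonneg (by positivity), Real.norm_of_nonneg (by positivity)]
  nlinarith

private theorem sel_iig {f : ℝ → ℝ} (hf : Dens f) {g : ℝ → ℝ} (hg : Continuous g) (a b : ℝ) :
    IntervalIntegrable (fun u => Real.exp u * f u * g u) volume a b :=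
  (sel_ii hf a b).mul_continuousOn hg.continuousOn

/-- the density of the measures -/
private noncomputable def den (f : ℝ → ℝ) (u : ℝ) : NNReal := Real.toNNReal (Real.exp u * f u)

/-- the measures -/
private noncomputable def nu (f : ℝ → ℝ) (η : ℕ → ℝ) (j : ℕ) : Measure ℝ :=
  (volume.restrict (Ioc (η j) (η (j + 1)))).withDensity fun u => (den f u : ENNReal)

private theorem den_meas {f : ℝ → ℝ} (hf : Dens f) : Measurable (den f) :=
  (Real.measurable_exp.mul hf.meas).real_toNNReal

private theorem den_coe {f : ℝ → ℝ} (hf : Dens f) (u : ℝ) : ((den f u : NNReal) : ℝ) = Real.exp u * f u :=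
  Real.coe_toNNReal _ (mul_nonneg (Real.exp_pos u).le (hf.nonneg u))

private theorem nu_int {f : ℝ → ℝ} (hf : Dens f) {η : ℕ → ℝ} (hη : IsPart f η) (g : ℝ → ℝ) (j : ℕ) :
    ∫ v, g v ∂(nu f η j) = ∫ v in (η j)..(η (j + 1)), Real.exp v * f v * g v := by
  unfold nu
  rw [integral_withDensity_eq_integral_smul (den_meas hf), intervalIntegral.integral_of_le (hη.mono (Nat.lt_succ_self j)).le]
  refine integral_congr_ae (Eventually.of_forall fun v => ?_)
  show (den f v : NNReal) • g v = _
  rw [NNReal.smul_def, den_coe hf, smul_eq_mul]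

private theorem nu_prob {f : ℝ → ℝ} (hf : Dens f) {η : ℕ → ℝ} (hη : IsPart f η) (j : ℕ) :
    IsProbabilityMeasure (nu f η j) := by
  refine ⟨?_⟩
  have hle := (hη.mono (Nat.lt_succ_self j)).le
  have h1 : IntegrableOn (fun u => Real.exp u * f u) (Ioc (η j) (η (j + 1))) volume :=
    (intervalIntegrable_iff_integrableOn_Ioc_of_le hle).1 (sel_ii hf _ _)
  have h2 := ofReal_integral_eq_lintegral_ofReal (μ := volume.restrict (Ioc (η j) (η (j + 1)))) h1
    (Eventually.of_forall fun u => mul_nonneg (Real.exp_pos u).le (hf.nonneg u))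
  unfold nu
  rw [withDensity_apply _ MeasurableSet.univ, Measure.restrict_univ]
  have h3 : (fun u => ((den f u : NNReal) : ENNReal)) = fun u => ENNReal.ofReal (Real.exp u * f u) := rfl
  rw [h3, ← h2, ← intervalIntegral.integral_of_le hle, hη.mass, ENNReal.ofReal_one]

private theorem nu_null {f : ℝ → ℝ} {η : ℕ → ℝ} (j : ℕ) : nu f η j (Icc (η j) (η (j + 1)))ᶜ = 0 := by
  unfold nu
  have h1 : (volume.restrict (Ioc (η j) (η (j + 1)))) (Icc (η j) (η (j + 1)))ᶜ = 0 := by
    rw [Measure.restrict_apply measurableSet_Icc.compl]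
    have h2 : (Icc (η j) (η (j + 1)))ᶜ ∩ Ioc (η j) (η (j + 1)) = ∅ := by
      refine Set.eq_empty_iff_forall_notMem.2 ?_
      rintro x ⟨h3, h4⟩
      exact h3 ⟨h4.1.le, h4.2⟩
    rw [h2, measure_empty]
  exact withDensity_absolutelyContinuous _ _ h1

/-- the real sums -/
private noncomputable def Dg (f : ℝ → ℝ) (η u : ℕ → ℝ) (N : ℕ) (g : ℝ → ℝ) (t : ℝ) : ℝ :=
  ∑ j ∈ Finset.range N, (g (t * u j) - ∫ v in (η j)..(η (j + 1)), Real.exp v * f v * g (t * v))

private theorem vs_eq {f : ℝ → ℝ} (hf : Dens f) (η u : ℕ → ℝ) (N : ℕ) (t : ℝ) :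
    Vs f η u N t = ((Dg f η u N Real.cos t : ℝ) : ℂ) - Complex.I * ((Dg f η u N Real.sin t : ℝ) : ℂ) := by
  unfold Vs Dg
  rw [Complex.ofReal_sum, Complex.ofReal_sum, Finset.mul_sum, ← Finset.sum_sub_distrib]
  refine Finset.sum_congr rfl fun j _ => ?_
  have he : ∀ v : ℝ, Complex.exp (-(Complex.I * t * v)) = ((Real.cos (t * v) : ℝ) : ℂ) - Complex.I * ((Real.sin (t * v) : ℝ) : ℂ) := by
    intro v
    have h1 : -(Complex.I * t * v) = (((-(t * v) : ℝ)) : ℂ) * Complex.I := by push_cast; ring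
    rw [h1, Complex.exp_mul_I, ← Complex.ofReal_cos, ← Complex.ofReal_sin, Real.cos_neg, Real.sin_neg]
    push_cast
    ring
  have hint : ∫ v in (η j)..(η (j + 1)), ((Real.exp v * f v : ℝ) : ℂ) * Complex.exp (-(Complex.I * t * v)) =
      ((∫ v in (η j)..(η (j + 1)), Real.exp v * f v * Real.cos (t * v) : ℝ) : ℂ) -
      Complex.I * ((∫ v in (η j)..(η (j + 1)), Real.exp v * f v * Real.sin (t * v) : ℝ) : ℂ) := by
    have hc := sel_iig hf (g := fun v => Real.cos (t * v)) (by fun_prop) (η j) (η (j + 1))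
    have hs := sel_iig hf (g := fun v => Real.sin (t * v)) (by fun_prop) (η j) (η (j + 1))
    have hc' : IntervalIntegrable (fun v => ((Real.exp v * f v * Real.cos (t * v) : ℝ) : ℂ)) volume (η j) (η (j + 1)) :=
      ⟨Integrable.ofReal hc.1, Integrable.ofReal hc.2⟩
    have hs' : IntervalIntegrable (fun v => ((Real.exp v * f v * Real.sin (t * v) : ℝ) : ℂ)) volume (η j) (η (j + 1)) :=
      ⟨Integrable.ofReal hs.1, Integrable.ofReal hs.2⟩
    rw [← intervalIntegral.integral_ofReal, ← intervalIntegral.integral_ofReal, ← intervalIntegral.integral_const_mul,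
      ← intervalIntegral.integral_sub hc' (hs'.const_mul _)]
    refine intervalIntegral.integral_congr fun v _ => ?_
    show ((Real.exp v * f v : ℝ) : ℂ) * Complex.exp (-(Complex.I * t * v)) = _
    rw [he]
    push_cast
    ring
  rw [hint, he]
  push_cast
  ring

private theorem vs_norm {f : ℝ → ℝ} (hf : Dens f) (η u : ℕ → ℝ) (N : ℕ) (t : ℝ) :
    ‖Vs f η u N t‖ ≤ |Dg f η u N Real.cos t| + |Dg f η u N Real.sin t| := by
  rw [vs_eq hf]
  refine (norm_sub_le _ _).trans ?_
  rw [norm_mul, Complex.norm_I, one_mul, Complex.norm_real, Complex.norm_real]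
  exact le_rfl

private theorem dg_diff {f : ℝ → ℝ} (hf : Dens f) {η u : ℕ → ℝ} (hη : IsPart f η) (h1 : ∀ j, η j ≤ u j)
    (h2 : ∀ j, u j ≤ η (j + 1)) {g : ℝ → ℝ} (hg : Continuous g) (hl : ∀ x y, |g x - g y| ≤ |x - y|) (N : ℕ) (t τ : ℝ) :
    |Dg f η u N g t - Dg f η u N g τ| ≤ N * (2 * (|t - τ| * η N)) := by
  have hpos : ∀ j, 0 < η j := fun j => (Real.log_pos (by norm_num)).trans_le (hη.ge j)
  unfold Dg
  rw [← Finset.sum_sub_distrib]
  refine (Finset.abs_sum_le_sum_abs _ _).trans ?_
  have h3 : ∀ j ∈ Finset.range N, |(g (t * u j) - ∫ v in (η j)..(η (j + 1)), Real.exp v * f v * g (t * v)) -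
      (g (τ * u j) - ∫ v in (η j)..(η (j + 1)), Real.exp v * f v * g (τ * v))| ≤ 2 * (|t - τ| * η N) := by
    intro j hj
    rw [Finset.mem_range] at hj
    have hηN : η (j + 1) ≤ η N := hη.mono.monotone hj
    have hle := (hη.mono (Nat.lt_succ_self j)).le
    have e1 : |g (t * u j) - g (τ * u j)| ≤ |t - τ| * η N := by
      refine (hl _ _).trans ?_
      rw [← sub_mul, abs_mul]
      refine mul_le_mul_of_nonneg_left ?_ (abs_nonneg _)
      rw [abs_of_pos ((hpos j).trans_le (h1 j))]
      exact (h2 j).trans hηN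
    have ct := sel_iig hf (g := fun v => g (t * v)) (by fun_prop) (η j) (η (j + 1))
    have cτ := sel_iig hf (g := fun v => g (τ * v)) (by fun_prop) (η j) (η (j + 1))
    have e2 : |(∫ v in (η j)..(η (j + 1)), Real.exp v * f v * g (t * v)) -
        ∫ v in (η j)..(η (j + 1)), Real.exp v * f v * g (τ * v)| ≤ |t - τ| * η N := by
      rw [← intervalIntegral.integral_sub ct cτ]
      have h4 := intervalIntegral.norm_integral_le_of_norm_le (μ := volume)
        (f := fun v => Real.exp v * f v * g (t * v) - Real.exp v * f v * g (τ * v))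
        (g := fun v => (|t - τ| * η N) * (Real.exp v * f v)) hle (Eventually.of_forall fun v hv => by
          have hv0 : 0 < v := (hpos j).trans hv.1
          have hvN : v ≤ η N := hv.2.trans hηN
          have hef : 0 ≤ Real.exp v * f v := mul_nonneg (Real.exp_pos v).le (hf.nonneg v)
          show |Real.exp v * f v * g (t * v) - Real.exp v * f v * g (τ * v)| ≤ _
          rw [← mul_sub, abs_mul, abs_of_nonneg hef, mul_comm]
          refine mul_le_mul_of_nonneg_right ?_ hef
          refine (hl _ _).trans ?_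
          rw [← sub_mul, abs_mul, abs_of_pos hv0]
          exact mul_le_mul_of_nonneg_left hvN (abs_nonneg _)) ((sel_ii hf _ _).const_mul _)
      rw [intervalIntegral.integral_const_mul, hη.mass, mul_one] at h4
      exact h4
    calc |(g (t * u j) - ∫ v in (η j)..(η (j + 1)), Real.exp v * f v * g (t * v)) -
          (g (τ * u j) - ∫ v in (η j)..(η (j + 1)), Real.exp v * f v * g (τ * v))|
        = |(g (t * u j) - g (τ * u j)) - ((∫ v in (η j)..(η (j + 1)), Real.exp v * f v * g (t * v)) -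
          ∫ v in (η j)..(η (j + 1)), Real.exp v * f v * g (τ * v))| := by congr 1; ring
      _ ≤ |g (t * u j) - g (τ * u j)| + |(∫ v in (η j)..(η (j + 1)), Real.exp v * f v * g (t * v)) -
          ∫ v in (η j)..(η (j + 1)), Real.exp v * f v * g (τ * v)| := abs_sub _ _
      _ ≤ 2 * (|t - τ| * η N) := by linarith
  refine (Finset.sum_le_sum h3).trans ?_
  rw [Finset.sum_const, Finset.card_range, nsmul_eq_mul]

/-- the weights -/
private noncomputable def w0 (p : ℕ × ℤ × Bool) : ℝ := (1 / ((p.1 : ℝ) + 1) ^ 2) * (1 / (|(p.2.1 : ℝ)| + 1) ^ 2)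

private theorem w0_pos (p : ℕ × ℤ × Bool) : 0 < w0 p := by
  unfold w0
  positivity

private theorem w0_sum : Summable w0 := by
  have h1 : Summable fun n : ℕ => 1 / ((n : ℝ) + 1) ^ 2 := by
    have h := (summable_nat_add_iff 1).2 (Real.summable_one_div_nat_pow.2 (by norm_num : 1 < 2))
    refine h.congr fun n => ?_
    push_cast
    rfl
  have h2 : Summable fun k : ℤ => 1 / (|(k : ℝ)| + 1) ^ 2 := by
    refine Summable.of_nat_of_neg ?_ ?_
    · refine h1.congr fun n => ?_
      rw [Int.cast_natCast, abs_of_nonneg (Nat.cast_nonneg n)]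
    · refine h1.congr fun n => ?_
      rw [Int.cast_neg, Int.cast_natCast, abs_neg, abs_of_nonneg (Nat.cast_nonneg n)]
  have h3 : Summable fun _ : Bool => (1 : ℝ) := (hasSum_fintype _).summable
  have h4 : Summable fun p : ℤ × Bool => (1 / (|(p.1 : ℝ)| + 1) ^ 2) * (1 : ℝ) :=
    h2.mul_of_nonneg h3 (fun k => by positivity) (fun _ => zero_le_one)
  have h5 := h1.mul_of_nonneg h4 (fun n => by positivity) (fun p => by positivity)
  refine h5.congr fun p => ?_
  unfold w0
  rw [mul_one]

private theorem sqrt_bd {A B x : ℝ} (hA : 0 ≤ A) (hx : 1 ≤ x) (h : B ≤ A * x) (N : ℕ) :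
    Real.sqrt (N * B) ≤ Real.sqrt A * Real.sqrt (N * x) := by
  rw [← Real.sqrt_mul hA]
  apply Real.sqrt_le_sqrt
  have hN : (0 : ℝ) ≤ N := Nat.cast_nonneg N
  have _ := hx
  nlinarith [mul_le_mul_of_nonneg_left h hN]

theorem exists_sel {f : ℝ → ℝ} (hf : Dens f) {η : ℕ → ℝ} (hη : IsPart f η) :
    ∃ u : ℕ → ℝ, IsSel f η u := by
  classical
  obtain ⟨hden⟩ := nonempty_denumerable (ℕ × ℤ × Bool)
  let e : ℕ ≃ ℕ × ℤ × Bool := (Denumerable.eqv _).symm
  set S : ℝ := ∑' p, w0 p with hS
  have hS0 : 0 < S := w0_sum.tsum_pos (fun p => (w0_pos p).le) (0, 0, true) (w0_pos _)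
  let gg : Bool → ℝ → ℝ := fun b => if b then Real.cos else Real.sin
  have hgg : ∀ b, Continuous (gg b) := by
    intro b
    cases b
    · exact Real.continuous_sin
    · exact Real.continuous_cos
  have hgb : ∀ b x, |gg b x| ≤ 1 := by
    intro b x
    cases b
    · exact Real.abs_sin_le_one x
    · exact Real.abs_cos_le_one x
  have hprob := nu_prob hf hη
  obtain ⟨u, hu, hb⟩ := greedy (nu f η) (fun j => Icc (η j) (η (j + 1))) (fun j => measurableSet_Icc) (fun j => nu_null j)
    (fun i v => gg (e i).2.2 (((e i).2.1 : ℝ) / (((e i).1 : ℝ) + 1) ^ 2 * v))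
    (fun i => (hgg (e i).2.2).measurable.comp (measurable_const_mul _)) (fun i v => hgb _ _)
    (fun i => (e i).1) (fun i => w0 (e i) / S) (fun i => div_pos (w0_pos _) hS0) ((e.summable_iff.2 w0_sum).div_const S) (by
      rw [tsum_div_const, e.tsum_eq, div_self hS0.ne'])
  have h1 : ∀ j, η j ≤ u j := fun j => (hu j).1
  have h2 : ∀ j, u j ≤ η (j + 1) := fun j => (hu j).2
  refine ⟨u, h1, h2, 4 * Real.sqrt (|Real.log (2 * S)| + 6) + 88, by positivity, fun N t => ?_⟩
  -- the grid point
  set M : ℝ := ((N : ℝ) + 1) ^ 2 with hM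
  have hM1 : 1 ≤ M := by
    rw [hM]
    have : (0 : ℝ) ≤ N := Nat.cast_nonneg N
    nlinarith
  have hM0 : 0 < M := by linarith
  set k : ℤ := ⌊t * M⌋ with hk
  set τ : ℝ := (k : ℝ) / M with hτ
  have hkt1 : (k : ℝ) ≤ t * M := Int.floor_le _
  have hkt2 : t * M < k + 1 := Int.lt_floor_add_one _
  have htτ : |t - τ| ≤ 1 / M := by
    rw [hτ, abs_le]
    constructor
    · have : 0 ≤ t - k / M := by
        rw [sub_nonneg, div_le_iff₀ hM0]
        exact hkt1
      have h3 : 0 ≤ 1 / M := by positivity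
      linarith
    · rw [sub_le_iff_le_add, ← add_div, le_div_iff₀ hM0]
      linarith
  set x : ℝ := Real.log (N + 2) + Real.log (|t| + 3) with hx
  have hx1 : 1 ≤ x := by
    have h3 : 0 ≤ Real.log ((N : ℝ) + 2) := Real.log_nonneg (by
      have : (0 : ℝ) ≤ N := Nat.cast_nonneg N
      linarith)
    have h4 : Real.log 3 ≤ Real.log (|t| + 3) := Real.log_le_log (by norm_num) (by
      have := abs_nonneg t
      linarith)
    have h5 : 1 ≤ Real.log 3 := by
      rw [Real.le_log_iff_exp_le (by norm_num)]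
      exact (Real.exp_one_lt_d9.trans (by norm_num)).le
    linarith
  -- the discrepancy at the grid point
  have hgrid : ∀ b : Bool, |Dg f η u N (gg b) τ| ≤ 2 * (Real.sqrt (|Real.log (2 * S)| + 6) * Real.sqrt (N * x)) := by
    intro b
    have h3 := hb (e.symm (N, k, b))
    simp only [Equiv.apply_symm_apply] at h3
    have h4 : ∑ j ∈ Finset.range N, (gg b ((k : ℝ) / ((N : ℝ) + 1) ^ 2 * u j) -
        ∫ v, gg b ((k : ℝ) / ((N : ℝ) + 1) ^ 2 * v) ∂(nu f η j)) = Dg f η u N (gg b) τ := by
      unfold Dg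
      refine Finset.sum_congr rfl fun j _ => ?_
      rw [nu_int hf hη]
    rw [h4] at h3
    refine h3.trans ?_
    refine mul_le_mul_of_nonneg_left ?_ (by norm_num)
    refine sqrt_bd (by positivity) hx1 ?_ N
    have hk1 : |(k : ℝ)| + 1 ≤ (|t| + 3) * ((N : ℝ) + 2) ^ 2 := by
      have h5 : |(k : ℝ)| ≤ |t| * M + 1 := by
        rw [abs_le]
        have h6 : |t * M| = |t| * M := by rw [abs_mul, abs_of_pos hM0]
        have h7 := abs_le.1 (le_of_eq h6)
        constructor
        · linarith [h7.1]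
        · linarith [h7.2]
      have h8 := abs_nonneg t
      have hN : (0 : ℝ) ≤ N := Nat.cast_nonneg N
      rw [hM] at h5
      nlinarith [mul_nonneg h8 hN, mul_nonneg h8 (mul_nonneg hN hN)]
    have hw : 2 / (w0 (N, k, b) / S) = (2 * S) * (((N : ℝ) + 1) ^ 2 * (|(k : ℝ)| + 1) ^ 2) := by
      unfold w0
      field_simp
    rw [hw]
    have hN : (0 : ℝ) ≤ N := Nat.cast_nonneg N
    have hk0 := abs_nonneg (k : ℝ)
    have ht0 := abs_nonneg t
    have l1 : Real.log ((N : ℝ) + 1) ≤ Real.log ((N : ℝ) + 2) := Real.log_le_log (by linarith) (by linarith)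
    have l2 : Real.log (|(k : ℝ)| + 1) ≤ Real.log (|t| + 3) + 2 * Real.log ((N : ℝ) + 2) := by
      have h5 := Real.log_le_log (by linarith) hk1
      rw [Real.log_mul (by linarith) (by positivity), Real.log_pow] at h5
      push_cast at h5
      exact h5
    rw [Real.log_mul (x := 2 * S) (by positivity) (by positivity), Real.log_mul (x := ((N : ℝ) + 1) ^ 2) (by positivity) (by positivity),
      Real.log_pow, Real.log_pow]
    push_cast
    have l3 := le_abs_self (Real.log (2 * S))
    have l4 : 0 ≤ Real.log (|t| + 3) := Real.log_nonneg (by linarith)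
    have l5 : 0 ≤ |Real.log (2 * S)| := abs_nonneg _
    have l6 : |Real.log (2 * S)| ≤ |Real.log (2 * S)| * x := by nlinarith
    have l7 : (|Real.log (2 * S)| + 6) * x = |Real.log (2 * S)| * x + 6 * Real.log (N + 2) + 6 * Real.log (|t| + 3) := by
      rw [hx]
      ring
    rw [l7]
    linarith
  -- the difference
  have hdiff : ∀ b : Bool, |Dg f η u N (gg b) t - Dg f η u N (gg b) τ| ≤ 44 * Real.sqrt (N * x) := by
    intro b
    rcases Nat.eq_zero_or_pos N with h0 | h0
    · rw [h0]
      unfold Dg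
      simp
    have hl : ∀ y z, |gg b y - gg b z| ≤ |y - z| := by
      intro y z
      cases b
      · exact Real.abs_sin_sub_sin_le y z
      · exact Real.abs_cos_sub_cos_le y z
    refine (dg_diff hf hη h1 h2 (hgg b) hl N t τ).trans ?_
    have hN1 : (1 : ℝ) ≤ N := by exact_mod_cast h0
    have h3 : (1 : ℝ) ≤ Real.sqrt (N * x) := by
      rw [Real.one_le_sqrt]
      nlinarith
    have h4 : η N ≤ 11 * N := by
      have h5 := hη.le N
      have h6 : Real.log 2 ≤ 1 := by
        have := Real.log_two_lt_d9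
        linarith
      linarith
    have hη0 : 0 ≤ η N := (Real.log_nonneg (by norm_num)).trans (hη.ge N)
    have h7 : |t - τ| * η N ≤ (1 / M) * (11 * N) := mul_le_mul htτ h4 hη0 (by positivity)
    have h8 : (N : ℝ) * (2 * ((1 / M) * (11 * N))) ≤ 22 := by
      have h9 : (N : ℝ) * (2 * ((1 / M) * (11 * N))) = 22 * (N ^ 2) / M := by ring
      rw [h9, div_le_iff₀ hM0, hM]
      nlinarith
    have h10 : (N : ℝ) * (2 * (|t - τ| * η N)) ≤ (N : ℝ) * (2 * ((1 / M) * (11 * N))) :=
      mul_le_mul_of_nonneg_left (mul_le_mul_of_nonneg_left h7 (by norm_num)) (Nat.cast_nonneg N)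
    linarith
  have hall : ∀ b : Bool, |Dg f η u N (gg b) t| ≤
      2 * (Real.sqrt (|Real.log (2 * S)| + 6) * Real.sqrt (N * x)) + 44 * Real.sqrt (N * x) := by
    intro b
    have h3 := abs_sub_abs_le_abs_sub (Dg f η u N (gg b) t) (Dg f η u N (gg b) τ)
    linarith [hgrid b, hdiff b]
  refine (vs_norm hf η u N t).trans ?_
  have h3 := hall true
  have h4 := hall false
  have e1 : gg true = Real.cos := rfl
  have e2 : gg false = Real.sin := rfl
  rw [e1] at h3
  rw [e2] at h4
  linarith

end VQ
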