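import Pool.Agent.H15.VQ.FinA
import Pool.Agent.H15.VQ.Zeta
import Pool.Agent.H71.Lan

/-!
# Thm : the final form

`IsZeta p κ Z`: `Z` is the zeta function of the generalized primes `p`, continued to `re s > 1 / 2`. The positive half (Landau,
Richert) is in `Pool/Agent/H71/Lan`, the extremal systems are in `FinA`.
-/

set_option autoImplicit false

open Complex MeasureTheory Set Filter Topology

namespace VQ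

/-- `|N x - x| ≤ A x^θ` for every `θ > 1 / 2`, where `N x` is the number of generalized integers `≤ x` -/
def Counts (p : ℕ → ℝ) : Prop :=
  ∀ θ : ℝ, 1 / 2 < θ → ∃ A : ℝ, ∀ x : ℝ, 1 ≤ x → |(gN p x : ℝ) - x| ≤ A * x ^ θ

/-- the Lindelöf bound to the right of `re s = 1 / 2` -/
def Lindelof (Z : ℂ → ℂ) : Prop :=
  ∀ θ ε : ℝ, 1 / 2 < θ → 0 < ε → ∃ A : ℝ, ∀ σ t : ℝ, θ ≤ σ → 3 ≤ |t| → ‖Z (σ + t * I)‖ ≤ A * |t| ^ ε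

theorem landau {p : ℕ → ℝ} {κ : ℝ} {Z : ℂ → ℂ} (h : IsZeta p κ Z) {ω : ℝ → ℝ} (hm : MonotoneOn ω (Ici 3))
    (hw : ∀ᶠ t : ℝ in atTop, Real.log (Real.log t) * Real.log (Real.log (Real.log t)) ≤ ω t)
    (hg : Grows ω Z) :
    ∃ c T : ℝ, 0 < c ∧ ∀ ρ : ℂ, Z ρ = 0 → T ≤ |ρ.im| → c ≤ (1 - ρ.re) * ω (3 * |ρ.im|) := by
  obtain ⟨A, hA0, hA⟩ := hg (3 / 4) (by norm_num)
  exact Pool.Agent.H71.Lan.landau_w h.bz hm (θ := 3 / 4) (A := A) (by norm_num) hA hw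

theorem richert {p : ℕ → ℝ} {κ : ℝ} {Z : ℂ → ℂ} (h : IsZeta p κ Z) {B : ℝ} (hg : Richert B Z) :
    ∃ c : ℝ, 0 < c ∧ ∀ ρ : ℂ, Z ρ = 0 → 3 ≤ |ρ.im| → c ≤ (1 - ρ.re) * V |ρ.im| := by
  obtain ⟨A, hA⟩ := hg (3 / 4) (by norm_num)
  exact Pool.Agent.H71.Lan.landau_richert h.bz (θ := 3 / 4) (A := A) (B := B) (by norm_num) hA

theorem IsSystem.isZeta {p : ℕ → ℝ} {κ : ℝ} {Z : ℂ → ℂ} (h : IsSystem p κ Z) : IsZeta p κ Z :=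
  ⟨h.one_lt, h.mono, h.tendsto, h.pos, h.euler, h.diff, h.residue⟩

theorem IsSystem.counts {p : ℕ → ℝ} {Z : ℂ → ℂ} (h : IsSystem p 1 Z) : Counts p := by
  intro θ hθ
  obtain ⟨A, hA⟩ := h.count θ hθ
  refine ⟨A, fun x hx => ?_⟩
  have := hA x hx
  rwa [one_mul] at this

/-- the negation of Q1 -/
theorem Extremal.neg {ω : ℝ → ℝ} {p : ℕ → ℝ} {Z : ℂ → ℂ} (h : Extremal ω p Z) (ht : Tendsto ω atTop atTop) :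
    ∀ σ : ℝ, σ < 1 → ∃ ρ : ℂ, Z ρ = 0 ∧ σ < ρ.re ∧ ρ.re < 1 := by
  intro σ hσ
  have h1 : ∀ᶠ t in atTop, 8 / (5 * (1 - σ)) + 1 ≤ ω (t / 2) :=
    (ht.comp (tendsto_id.atTop_div_const (by norm_num))).eventually_ge_atTop _
  obtain ⟨X, hX⟩ := h1.exists_forall_of_atTop
  obtain ⟨β, γ, g1, g2, g3, g4, g5, -⟩ := h X
  have h2 := hX γ g1
  have h3 : 0 < 8 / (5 * (1 - σ)) := div_pos (by norm_num) (by linarith)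
  refine ⟨β + γ * I, g5, ?_, by simpa using g3⟩
  have h4 : 8 / (5 * ω (γ / 2)) < 1 - σ := by
    have h5 : 8 / (5 * (1 - σ)) < ω (γ / 2) := by linarith
    rw [div_lt_iff₀ (by linarith)] at h5 ⊢
    linarith
  have e : ((β : ℂ) + γ * I).re = β := by simp
  rw [e]
  linarith

theorem final :
    (∀ (p : ℕ → ℝ) (κ : ℝ) (Z : ℂ → ℂ), IsZeta p κ Z →
      (∀ ω : ℝ → ℝ, MonotoneOn ω (Ici 3) →
        (∀ᶠ t : ℝ in atTop, Real.log (Real.log t) * Real.log (Real.log (Real.log t)) ≤ ω t) → Grows ω Z →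
        ∃ c T : ℝ, 0 < c ∧ ∀ ρ : ℂ, Z ρ = 0 → T ≤ |ρ.im| → c ≤ (1 - ρ.re) * ω (3 * |ρ.im|)) ∧
      (∀ B : ℝ, Richert B Z →
        ∃ c : ℝ, 0 < c ∧ ∀ ρ : ℂ, Z ρ = 0 → 3 ≤ |ρ.im| → c ≤ (1 - ρ.re) * V |ρ.im|)) ∧
    (∀ ω : ℝ → ℝ, MonotoneOn ω (Ici 3) → Tendsto ω atTop atTop →
      Tendsto (fun t => ω t / Real.log t) atTop (𝓝 0) →
      ∃ (p : ℕ → ℝ) (Z : ℂ → ℂ), IsZeta p 1 Z ∧ Counts p ∧ Lindelof Z ∧ Grows ω Z ∧ LogFree ω Z ∧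
        Region ω Z ∧ Extremal ω p Z ∧ ∀ σ : ℝ, σ < 1 → ∃ ρ : ℂ, Z ρ = 0 ∧ σ < ρ.re ∧ ρ.re < 1) ∧
    (∀ B : ℝ, 0 < B →
      ∃ (p : ℕ → ℝ) (Z : ℂ → ℂ), IsZeta p 1 Z ∧ Counts p ∧ Lindelof Z ∧ Richert B Z ∧
        LogFree (fun t => 321 / 200 * B ^ (2 / 3 : ℝ) * V t) Z ∧
        (∀ ρ : ℂ, 1 / 2 < ρ.re → ρ ≠ 1 → Z ρ = 0 →
          3 ≤ |ρ.im| ∧ 99 / 100 * B ^ (-(2 / 3) : ℝ) / V |ρ.im| ≤ 1 - ρ.re) ∧
        (∀ X : ℝ, ∃ β γ : ℝ, X ≤ γ ∧ 1 / 2 < β ∧ β < 1 ∧ Z (β + γ * I) = 0 ∧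
          1 - β ≤ B ^ (-(2 / 3) : ℝ) / V γ) ∧
        (∀ X c : ℝ, (c = 1 ∨ c = -1) → ∃ x : ℝ, X ≤ x ∧
          x * Real.exp (-(12 / 5 * B ^ (-(2 / 5) : ℝ) *
            (Real.log x ^ (3 / 5 : ℝ) / Real.log (Real.log x) ^ (1 / 5 : ℝ)))) ≤ c * (gpsi p x - x))) := by
  refine ⟨fun p κ Z h => ⟨fun ω hm hw hg => landau h hm hw hg, fun B hB => richert h hB⟩, ?_, ?_⟩
  · intro ω hm ht ho
    obtain ⟨p, Z, h1, h2, h3, h4, h5⟩ := partA hm ht ho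
    exact ⟨p, Z, h1.isZeta, h1.counts, h1.lindelof, h2, h3, h4, h5, h5.neg ht⟩
  · intro B hB
    obtain ⟨p, Z, h1, h2, h3, h4, h5, h6⟩ := partB hB
    refine ⟨p, Z, h1.isZeta, h1.counts, h1.lindelof, h2, ?_, h4, h5, h6⟩
    have e : wV B = fun t => 321 / 200 * B ^ (2 / 3 : ℝ) * V t := by
      funext t
      unfold wV V
      ring
    rw [← e]
    exact h3

end VQ
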