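import Pool.Agent.H15.VQ.Thm
import Pool.Agent.H15.VQ.PnH
import Pool.Agent.H15.VQ.PnI
import Pool.Agent.H71.Lan.AbsD
import Pool.Agent.H71.Lan.AbsE

/-!
# Thm2 : the final form with explicit constants and the prime number theorem
-/

set_option autoImplicit false

open Complex MeasureTheory Set Filter Topology

namespace VQ

/-- the exponent of the Vinogradov-Korobov error term -/
noncomputable def W (x : ℝ) : ℝ := Real.log x ^ (3 / 5 : ℝ) / Real.log (Real.log x) ^ (1 / 5 : ℝ)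

theorem landau_abs {p : ℕ → ℝ} {κ : ℝ} {Z : ℂ → ℂ} (h : IsZeta p κ Z) {ω : ℝ → ℝ} (hm : MonotoneOn ω (Ici 3))
    (hw : Tendsto (fun t => ω t / (Real.log (Real.log t) * Real.log (Real.log (Real.log t)))) atTop atTop)
    (hg : Grows ω Z) :
    ∃ T : ℝ, ∀ ρ : ℂ, Z ρ = 0 → T ≤ |ρ.im| → 1 ≤ 35 * (1 - ρ.re) * ω (3 * |ρ.im|) := by
  obtain ⟨A, hA0, hA⟩ := hg (3 / 4) (by norm_num)
  exact Pool.Agent.H71.Lan.landau_w_abs h.bz hm (θ := 3 / 4) (A := A) (by norm_num) hA hw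

theorem richert_abs {p : ℕ → ℝ} {κ : ℝ} {Z : ℂ → ℂ} (h : IsZeta p κ Z) {B : ℝ} (hB : 0 < B) (hg : Richert B Z) :
    ∃ T : ℝ, ∀ ρ : ℂ, Z ρ = 0 → T ≤ |ρ.im| → B ^ (-(2 / 3) : ℝ) ≤ 100 * (1 - ρ.re) * V |ρ.im| := by
  obtain ⟨A, hA⟩ := hg (3 / 4) (by norm_num)
  exact Pool.Agent.H71.Lan.landau_richert_abs h.bz (θ := 3 / 4) (A := A) (B := B) (by norm_num) hB hA

theorem landau_four {p : ℕ → ℝ} {κ : ℝ} {Z : ℂ → ℂ} (h : IsZeta p κ Z) {ω : ℝ → ℝ} (hm : MonotoneOn ω (Ici 3))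
    (hw : Tendsto (fun t => ω t / (Real.log (Real.log t) * Real.log (Real.log (Real.log t)))) atTop atTop)
    (hg : Grows ω Z) :
    ∃ T : ℝ, ∀ ρ : ℂ, Z ρ = 0 → T ≤ |ρ.im| → 1 ≤ 35 / 2 * (1 - ρ.re) * ω (5 * |ρ.im|) := by
  obtain ⟨A, hA0, hA⟩ := hg (3 / 4) (by norm_num)
  exact Pool.Agent.H71.Lan.landau_w_four h.bz hm (θ := 3 / 4) (A := A) (by norm_num) hA hw

theorem richert_four {p : ℕ → ℝ} {κ : ℝ} {Z : ℂ → ℂ} (h : IsZeta p κ Z) {B : ℝ} (hB : 0 < B) (hg : Richert B Z) :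
    ∃ T : ℝ, ∀ ρ : ℂ, Z ρ = 0 → T ≤ |ρ.im| → B ^ (-(2 / 3) : ℝ) ≤ 50 * (1 - ρ.re) * V |ρ.im| := by
  obtain ⟨A, hA⟩ := hg (3 / 4) (by norm_num)
  exact Pool.Agent.H71.Lan.landau_richert_four h.bz (θ := 3 / 4) (A := A) (B := B) (by norm_num) hB hA

theorem final2 :
    (∀ (p : ℕ → ℝ) (κ : ℝ) (Z : ℂ → ℂ), IsZeta p κ Z →
      (∀ ω : ℝ → ℝ, MonotoneOn ω (Ici 3) →
        Tendsto (fun t => ω t / (Real.log (Real.log t) * Real.log (Real.log (Real.log t)))) atTop atTop →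
        Grows ω Z →
        ∃ T0 : ℝ, (∀ ρ : ℂ, Z ρ = 0 → T0 ≤ |ρ.im| → 1 ≤ 35 / 2 * (1 - ρ.re) * ω (5 * |ρ.im|)) ∧
          ∀ T x : ℝ, T0 ≤ T → 0 < x → 100 * ω (4 * T) * Real.log T ≤ Real.log x →
            Real.log x ≤ T ^ (1 / 4 : ℝ) → |gpsi p x - x| ≤ x / T ^ (1 / 3 : ℝ)) ∧
      (∀ B : ℝ, 0 < B → Richert B Z →
        ∃ T0 : ℝ, (∀ ρ : ℂ, Z ρ = 0 → T0 ≤ |ρ.im| → B ^ (-(2 / 3) : ℝ) ≤ 50 * (1 - ρ.re) * V |ρ.im|) ∧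
          ∀ x : ℝ, T0 ≤ x → |gpsi p x - x| ≤ x * Real.exp (-(1 / 50 * B ^ (-(2 / 5) : ℝ) * W x)))) ∧
    (∀ ω : ℝ → ℝ, MonotoneOn ω (Ici 3) → Tendsto ω atTop atTop →
      Tendsto (fun t => ω t / Real.log t) atTop (𝓝 0) →
      ∃ (p : ℕ → ℝ) (Z : ℂ → ℂ), IsZeta p 1 Z ∧ Counts p ∧ Lindelof Z ∧ Grows ω Z ∧ LogFree ω Z ∧
        Region ω Z ∧ Extremal ω p Z ∧ ∀ σ : ℝ, σ < 1 → ∃ ρ : ℂ, Z ρ = 0 ∧ σ < ρ.re ∧ ρ.re < 1) ∧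
    (∀ B : ℝ, 0 < B →
      ∃ (p : ℕ → ℝ) (Z : ℂ → ℂ), IsZeta p 1 Z ∧ Counts p ∧ Lindelof Z ∧ Richert B Z ∧
        LogFree (fun t => 321 / 200 * B ^ (2 / 3 : ℝ) * V t) Z ∧
        (∀ ρ : ℂ, 1 / 2 < ρ.re → ρ ≠ 1 → Z ρ = 0 →
          3 ≤ |ρ.im| ∧ 99 / 100 * B ^ (-(2 / 3) : ℝ) / V |ρ.im| ≤ 1 - ρ.re) ∧
        (∀ X : ℝ, ∃ β γ : ℝ, X ≤ γ ∧ 1 / 2 < β ∧ β < 1 ∧ Z (β + γ * I) = 0 ∧
          1 - β ≤ B ^ (-(2 / 3) : ℝ) / V γ) ∧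
        (∀ X c : ℝ, (c = 1 ∨ c = -1) → ∃ x : ℝ, X ≤ x ∧
          x * Real.exp (-(12 / 5 * B ^ (-(2 / 5) : ℝ) * W x)) ≤ c * (gpsi p x - x))) := by
  refine ⟨fun p κ Z h => ⟨fun ω hm hw hg => ?_, fun B hB hg => ?_⟩, final.2.1, final.2.2⟩
  · obtain ⟨T1, h1⟩ := landau_four h hm hw hg
    obtain ⟨T2, h2⟩ := pnt_grows h hm hw hg (landau_abs h hm hw hg)
    exact ⟨max T1 T2, fun ρ h3 h4 => h1 ρ h3 ((le_max_left _ _).trans h4),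
      fun T x h3 h4 h5 h6 => h2 T x ((le_max_right _ _).trans h3) h5 h6 h4⟩
  · obtain ⟨T1, h1⟩ := richert_four h hB hg
    obtain ⟨T2, h2⟩ := pnt_richert h hB hg (richert_abs h hB hg)
    exact ⟨max T1 T2, fun ρ h3 h4 => h1 ρ h3 ((le_max_left _ _).trans h4),
      fun x h3 => h2 x ((le_max_right _ _).trans h3)⟩

end VQ
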