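import Pool.Agent.H15.VQ.Zs

/-!
# ZsR : the residue of the zeta function at `1` is a positive real number

`(s - 1) Zt s = s FF s exp (Es s - Ss s + Qs s)` for `s ≠ 1`, the right side is continuous at `1` and not zero there (`FF_one`). For
real `s > 1` the value `Zt s` is a limit of products of positive reals (`Zt_prod`), and `{z | 0 ≤ z.re ∧ z.im = 0}` is closed.
-/

set_option autoImplicit false

open Complex MeasureTheory Set Filter Topology

namespace VQ

variable {P : ℕ → Blk} {η u : ℕ → ℝ}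

private theorem zr_closed : IsClosed {z : ℂ | 0 ≤ z.re ∧ z.im = 0} :=
  (isClosed_le continuous_const Complex.continuous_re).inter (isClosed_eq Complex.continuous_im continuous_const)

private theorem zr_real (hP : Sparse P) (hη : IsPart (fP P) η) (hu : IsSel (fP P) η u) {σ : ℝ} (hσ : 1 < σ) :
    Zt P η u σ ∈ {z : ℂ | 0 ≤ z.re ∧ z.im = 0} := by
  have h1 : Tendsto (fun T : Finset ℕ => ∏ j ∈ T, (1 - Complex.exp (-((σ : ℂ) * u j)))⁻¹) atTop (𝓝 (Zt P η u σ)) :=
    Zt_prod hP hη hu (by simpa using hσ)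
  refine zr_closed.mem_of_tendsto h1 (Eventually.of_forall fun T => ?_)
  have h2 : ∏ j ∈ T, (1 - Complex.exp (-((σ : ℂ) * u j)))⁻¹ =
      ((∏ j ∈ T, (1 - Real.exp (-(σ * u j)))⁻¹ : ℝ) : ℂ) := by
    push_cast
    rfl
  have h3 : 0 ≤ ∏ j ∈ T, (1 - Real.exp (-(σ * u j)))⁻¹ := by
    refine Finset.prod_nonneg fun j _ => inv_nonneg.2 ?_
    have h4 := u_ge hη hu j
    have h5 : 0 < Real.log 2 := Real.log_pos (by norm_num)
    have h6 : Real.exp (-(σ * u j)) ≤ 1 := by
      rw [Real.exp_le_one_iff]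
      have : 0 ≤ σ * u j := mul_nonneg (by linarith) (by linarith)
      linarith
    linarith
  change 0 ≤ (∏ j ∈ T, (1 - Complex.exp (-((σ : ℂ) * u j)))⁻¹).re ∧ (∏ j ∈ T, (1 - Complex.exp (-((σ : ℂ) * u j)))⁻¹).im = 0
  rw [h2, Complex.ofReal_re, Complex.ofReal_im]
  exact ⟨h3, rfl⟩

theorem Zt_res (hP : Sparse P) (hη : IsPart (fP P) η) (hu : IsSel (fP P) η u) :
    ∃ κ : ℝ, 0 < κ ∧ Tendsto (fun s => (s - 1) * Zt P η u s) (𝓝[≠] 1) (𝓝 (κ : ℂ)) := by
  have hf := fP_dens hP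
  set h : ℂ → ℂ := fun s => s * FF P s * Complex.exp (Es (fP P) η u s - Ss (fP P) s + Qs u s) with hh
  have hc : ContinuousAt h 1 := by
    have o1 : {s : ℂ | 0 < s.re} ∈ 𝓝 (1 : ℂ) :=
      (isOpen_lt continuous_const Complex.continuous_re).mem_nhds (by simp)
    have o2 : {s : ℂ | 1 / 2 < s.re} ∈ 𝓝 (1 : ℂ) :=
      (isOpen_lt continuous_const Complex.continuous_re).mem_nhds (by norm_num)
    have h2 : ContinuousAt (FF P) 1 := ((FF_diff hP).differentiableAt o1).continuousAt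
    have h3 : ContinuousAt (Es (fP P) η u) 1 := ((Es_diff hf hη hu).differentiableAt o1).continuousAt
    have h4 : ContinuousAt (Ss (fP P)) 1 := (Ss_diff hf).continuous.continuousAt
    have h5 : ContinuousAt (Qs u) 1 := ((Qs_diff (u_ge hη hu) (u_sum hη hu)).differentiableAt o2).continuousAt
    exact (continuousAt_id.mul h2).mul ((h3.sub h4).add h5).cexp
  have hne : h 1 ≠ 0 := by
    simp only [hh]
    exact mul_ne_zero (mul_ne_zero one_ne_zero (FF_one hP)) (Complex.exp_ne_zero _)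
  have hlim : Tendsto (fun s => (s - 1) * Zt P η u s) (𝓝[≠] 1) (𝓝 (h 1)) := by
    have h1 : Tendsto h (𝓝[≠] 1) (𝓝 (h 1)) := hc.tendsto.mono_left nhdsWithin_le_nhds
    refine h1.congr' ?_
    filter_upwards [self_mem_nhdsWithin] with s hs
    have hs1 : s - 1 ≠ 0 := sub_ne_zero.2 hs
    simp only [hh, Zt]
    field_simp
  have hreal : h 1 ∈ {z : ℂ | 0 ≤ z.re ∧ z.im = 0} := by
    have hφ : Tendsto (fun σ : ℝ => (σ : ℂ)) (𝓝[>] 1) (𝓝[≠] 1) := by
      refine tendsto_nhdsWithin_iff.2 ⟨?_, ?_⟩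
      · have h1 : Tendsto (fun σ : ℝ => (σ : ℂ)) (𝓝 1) (𝓝 ((1 : ℝ) : ℂ)) := Complex.continuous_ofReal.tendsto 1
        rw [Complex.ofReal_one] at h1
        exact h1.mono_left nhdsWithin_le_nhds
      · filter_upwards [self_mem_nhdsWithin] with σ hσ
        have hσ' : (1 : ℝ) < σ := hσ
        simp only [mem_compl_iff, mem_singleton_iff]
        intro hc
        have : σ = 1 := by exact_mod_cast hc
        linarith
    refine zr_closed.mem_of_tendsto (hlim.comp hφ) ?_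
    filter_upwards [self_mem_nhdsWithin] with σ hσ
    have hσ' : (1 : ℝ) < σ := hσ
    obtain ⟨h1, h2⟩ := zr_real hP hη hu hσ'
    have h3 : Zt P η u σ = ((Zt P η u σ).re : ℂ) := by
      apply Complex.ext
      · rw [Complex.ofReal_re]
      · rw [Complex.ofReal_im, h2]
    have h4 : ((σ : ℂ) - 1) * Zt P η u σ = (((σ - 1) * (Zt P η u σ).re : ℝ) : ℂ) := by
      rw [Complex.ofReal_mul, ← h3]
      push_cast
      rfl
    change 0 ≤ (((σ : ℂ) - 1) * Zt P η u σ).re ∧ (((σ : ℂ) - 1) * Zt P η u σ).im = 0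
    rw [h4, Complex.ofReal_re, Complex.ofReal_im]
    exact ⟨mul_nonneg (by linarith) h1, rfl⟩
  obtain ⟨h1, h2⟩ := hreal
  have h3 : h 1 = ((h 1).re : ℂ) := by
    apply Complex.ext
    · rw [Complex.ofReal_re]
    · rw [Complex.ofReal_im, h2]
  refine ⟨(h 1).re, lt_of_le_of_ne h1 ?_, ?_⟩
  · intro h4
    apply hne
    rw [h3, ← h4, Complex.ofReal_zero]
  · rw [← h3]
    exact hlim

end VQ
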