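import Pool.Agent.H15.VQ.Fprod

/-!
# ZwD : the zeros of `FF` lie near the points `i k g`

`FF s = ∏' H n s` with `∑ ‖H n s - 1‖ < ∞`: if no factor vanishes the product does not vanish. A zero of `H n` is a zero of a `Ph k`, and
`Ph_far` with `a = 1 / 2`, respectively `a = 1`, gives `|im z| ≤ 4 exp (2 R a)`.
-/

set_option autoImplicit false

open Complex MeasureTheory Set Filter Topology

namespace VQ

variable {P : ℕ → Blk}

private theorem one_le_K (B : Blk) : (1 : ℝ) ≤ B.K := by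
  have h1 := B.hK
  have h2 := B.hbR
  nlinarith

private theorem g_pos (hP : Sparse P) (n : ℕ) : 0 < (P n).g :=
  lt_of_lt_of_le (by positivity) (g_ge hP n)

private theorem err_le (hP : Sparse P) (n : ℕ) :
    64 * ((P n).K : ℝ) * Real.exp (2 * (P n).R) / (P n).g ≤ 1 / 16 * (1 / 2) ^ n := by
  rw [div_le_iff₀ (g_pos hP n)]
  have h1 := hP.g0 n
  have h2 : (1 / 2 : ℝ) ^ n * 2 ^ n = 1 := by
    rw [← mul_pow]; norm_num
  have h3 : (0 : ℝ) < (1 / 2) ^ n := by positivity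
  have h4 := mul_le_mul_of_nonneg_left h1 h3.le
  have h5 : (1 / 2 : ℝ) ^ n * (1024 * ((P n).K : ℝ) * Real.exp (2 * (P n).R) * 2 ^ n) =
      1024 * ((P n).K : ℝ) * Real.exp (2 * (P n).R) := by
    linear_combination (1024 * ((P n).K : ℝ) * Real.exp (2 * (P n).R)) * h2
  rw [h5] at h4
  linarith

private theorem summable_norm (hP : Sparse P) {s : ℂ} (hs : 0 ≤ s.re) :
    Summable fun n => ‖(P n).H s - 1‖ := by
  have hu : Summable fun n : ℕ => (1 / 16 : ℝ) * (1 / 2) ^ n :=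
    (summable_geometric_of_lt_one (by norm_num) (by norm_num)).mul_left _
  refine Summable.of_norm_bounded_eventually_nat hu ?_
  have h1 : Tendsto (fun n : ℕ => (2 : ℝ) ^ n) atTop atTop := tendsto_pow_atTop_atTop_of_one_lt one_lt_two
  filter_upwards [h1.eventually_ge_atTop |s.im|] with n hn
  rw [norm_norm]
  refine ((P n).H_far hs (Or.inl (hn.trans ?_))).trans (err_le hP n)
  have h2 := g_ge hP n
  have h3 : (0 : ℝ) < 2 ^ n := by positivity
  linarith

private theorem shift_re (B : Blk) (s : ℂ) (k : ℕ) (c : ℝ) (hs : 1 / 2 < s.re) :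
    -(1 / 2 : ℝ) ≤ (s - 1 + Complex.I * c + B.lam * (k : ℂ) ^ 2).re := by
  have h2 : (B.lam * (k : ℂ) ^ 2 : ℂ) = ((B.lam * (k : ℝ) ^ 2 : ℝ) : ℂ) := by push_cast; ring
  have h1 : (s - 1 + Complex.I * c + B.lam * (k : ℂ) ^ 2).re = s.re - 1 + B.lam * (k : ℝ) ^ 2 := by
    rw [h2, Complex.add_re, Complex.add_re, Complex.sub_re, Complex.one_re, Complex.I_mul_re, Complex.ofReal_im,
      Complex.ofReal_re]
    ring
  have h3 : 0 ≤ B.lam := by
    unfold Blk.lam
    have := B.hR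
    positivity
  rw [h1]
  have h4 : 0 ≤ B.lam * (k : ℝ) ^ 2 := mul_nonneg h3 (sq_nonneg _)
  linarith

private theorem shift_im (B : Blk) (s : ℂ) (k : ℕ) (c : ℝ) :
    (s - 1 + Complex.I * c + B.lam * (k : ℂ) ^ 2).im = s.im + c := by
  have h2 : (B.lam * (k : ℂ) ^ 2 : ℂ) = ((B.lam * (k : ℝ) ^ 2 : ℝ) : ℂ) := by push_cast; ring
  rw [h2, Complex.add_im, Complex.add_im, Complex.sub_im, Complex.one_im, Complex.I_mul_im, Complex.ofReal_im,
    Complex.ofReal_re]
  ring

private theorem zero_im (B : Blk) {s : ℂ} (k : ℕ) (c : ℝ) (hs : 1 / 2 < s.re)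
    (h : B.Ph k (s - 1 + Complex.I * c + B.lam * (k : ℂ) ^ 2) = 0) : |s.im + c| ≤ 4 * Real.exp B.R := by
  have h1 := B.Ph_far k (a := 1 / 2) (by norm_num) (shift_re B s k c hs)
  rw [h, shift_im, zero_sub, norm_neg, norm_one, one_mul] at h1
  have h2 : 2 * B.R * (1 / 2) = B.R := by ring
  rwa [h2] at h1

theorem FF_zero_loc (hP : Sparse P) {s : ℂ} (hs : 1 / 2 < s.re) (h : FF P s = 0) :
    ∃ n k : ℕ, 1 ≤ k ∧ k ≤ (P n).K ∧ |(|s.im| - k * (P n).g)| ≤ 4 * Real.exp (P n).R := by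
  have h1 : ∃ n, (P n).H s = 0 := by
    by_contra hne
    push Not at hne
    have h2 : (∏' n, (1 + ((P n).H s - 1))) ≠ 0 :=
      tprod_one_add_ne_zero_of_summable (fun n => by rw [add_sub_cancel]; exact hne n) (summable_norm hP (by linarith))
    apply h2
    rw [← h]
    unfold FF
    exact tprod_congr fun n => by ring
  obtain ⟨n, hn⟩ := h1
  unfold Blk.H at hn
  obtain ⟨k, hk, hk0⟩ := Finset.prod_eq_zero_iff.1 hn
  have hk' := Finset.mem_Icc.1 hk
  have hg := g_pos hP n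
  have hkg : 0 ≤ (k : ℝ) * (P n).g := mul_nonneg (Nat.cast_nonneg _) hg.le
  refine ⟨n, k, hk'.1, hk'.2, ?_⟩
  rcases mul_eq_zero.1 hk0 with h3 | h3
  · have e : s - 1 - Complex.I * (k * (P n).g) + (P n).lam * (k : ℂ) ^ 2 =
        s - 1 + Complex.I * ((-(k * (P n).g) : ℝ) : ℂ) + (P n).lam * (k : ℂ) ^ 2 := by
      push_cast
      ring
    rw [e] at h3
    have h4 := zero_im (P n) k _ hs h3
    refine le_trans ?_ h4
    have h5 := abs_abs_sub_abs_le s.im (k * (P n).g)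
    rw [abs_of_nonneg hkg] at h5
    rw [← sub_eq_add_neg]
    exact h5
  · have e : s - 1 + Complex.I * (k * (P n).g) + (P n).lam * (k : ℂ) ^ 2 =
        s - 1 + Complex.I * ((k * (P n).g : ℝ) : ℂ) + (P n).lam * (k : ℂ) ^ 2 := by
      push_cast
      ring
    rw [e] at h3
    have h4 := zero_im (P n) k _ hs h3
    refine le_trans ?_ h4
    have h5 := abs_abs_sub_abs_le s.im (-(k * (P n).g))
    rw [abs_neg, abs_of_nonneg hkg, sub_neg_eq_add] at h5
    exact h5

end VQ
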