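import Pool.Agent.H15.VQ.ZwN
import Pool.Agent.H15.VQ.ZwD

/-!
# ZwM : number of zeros of `FF` up to height `T`

`FF_zero_loc`: `||ρ.im| - k g| ≤ 4 exp R` with `k ≤ 64000`, so `g / 2 ≤ T` (`Blk.hg`) and `2 R = ω (g / 2) ≤ ω T`. Every block has `128000` windows of
length `8 exp R`, covered by `128000 (8 exp R / δ + 2)` intervals of `FF_local` (centres in the windows), in total at most
`C exp R * R ≤ C exp (2 R)` zeros; the sum over `n ≤ N` of `exp (2 R n)` is at most `2 exp (2 R N)` (`Sparse.R`).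
If no block satisfies `g / 2 ≤ T` there are no zeros.
-/

set_option autoImplicit false

open Complex MeasureTheory Set Filter Topology

namespace VQ

variable {P : ℕ → Blk} {ω : ℝ → ℝ}

private theorem zwm_R_ge (hP : Sparse P) (n : ℕ) : (n : ℝ) + 1 ≤ (P n).R := by
  induction n with
  | zero => simpa using (P 0).hR
  | succ n ih =>
    have h1 := hP.R n
    push_cast
    have h2 : (0 : ℝ) ≤ n := Nat.cast_nonneg n
    linarith

/-- the bound of `g` from below -/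
private theorem zwm_g (hc : ∀ n, ParW ω (P n)) (n : ℕ) : 1024 * 64000 * Real.exp (P n).R ≤ (P n).g := by
  have hK : ((P n).K : ℝ) = 64000 := by rw [(hc n).K]; norm_num
  have hg := (P n).hg
  rw [hK] at hg
  have hR := (P n).hR
  have he1 : 1 ≤ Real.exp (P n).R := Real.one_le_exp (by linarith)
  have he2 : Real.exp (2 * (P n).R) = Real.exp (P n).R * Real.exp (P n).R := by rw [← Real.exp_add]; ring_nf
  have he3 : Real.exp (P n).R ≤ Real.exp (2 * (P n).R) := by rw [he2]; nlinarith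
  linarith

/-- the block of a zero of height at most `T` is small -/
private theorem zwm_small (hm : MonotoneOn ω (Ici 3)) (hc : ∀ n, ParW ω (P n)) {T y : ℝ} {n k : ℕ} (hk : 1 ≤ k)
    (hy : |(y - k * (P n).g)| ≤ 4 * Real.exp (P n).R) (hyT : y ≤ T) : (P n).R ≤ ω T / 2 := by
  have hg := zwm_g hc n
  have hR := (P n).hR
  have he1 : 1 ≤ Real.exp (P n).R := Real.one_le_exp (by linarith)
  have hk1 : (1 : ℝ) ≤ k := by exact_mod_cast hk
  have hg0 : 0 < (P n).g := by linarith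
  have h1 := (abs_le.1 hy).1
  have h2 : (P n).g ≤ k * (P n).g := by nlinarith
  have h3 : (P n).g / 2 ≤ T := by linarith
  have h4 : 3 ≤ (P n).g / 2 := by linarith
  have h5 := hm (mem_Ici.2 h4) (mem_Ici.2 (h4.trans h3)) h3
  rw [(hc n).R]
  linarith

theorem FF_count (hm : MonotoneOn ω (Ici 3)) (hP : Sparse P) (hc : ∀ n, ParW ω (P n)) {θ : ℝ}
    (hθ : 1 / 2 < θ) :
    ∃ A : ℝ, 0 ≤ A ∧ ∀ T : ℝ, 3 ≤ T → ∀ S : Finset ℂ,
      (∀ ρ ∈ S, FF P ρ = 0 ∧ θ ≤ ρ.re ∧ |ρ.im| ≤ T) →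
      ∑ ρ ∈ S, (analyticOrderNatAt (FF P) ρ : ℝ) ≤ A * Real.exp (ω T) := by
  classical
  obtain ⟨A0, δ, hA0, hδ, hloc⟩ := FF_local hP hc hθ
  refine ⟨256000 * (8 / δ + 1) * A0, by positivity, fun T hT S hS => ?_⟩
  obtain ⟨x, hx⟩ : ∃ x : ℝ, x = ω T / 2 := ⟨_, rfl⟩
  have hpos : 0 ≤ 256000 * (8 / δ + 1) * A0 * Real.exp (ω T) := by positivity
  rcases S.eq_empty_or_nonempty with rfl | ⟨ρ0, hρ0⟩
  · simpa using hpos
  have hx1 : 1 ≤ x := by
    obtain ⟨h1, h2, h3⟩ := hS ρ0 hρ0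
    obtain ⟨n, k, hk1, hk2, hk3⟩ := FF_zero_loc hP (lt_of_lt_of_le hθ h2) h1
    have h4 := zwm_small hm hc hk1 hk3 h3
    rw [hx]
    exact (P n).hR.trans h4
  obtain ⟨f, hfd⟩ : ∃ f : ℂ → ℝ, f = fun ρ => (analyticOrderNatAt (FF P) ρ : ℝ) := ⟨_, rfl⟩
  have hf : ∀ ρ, 0 ≤ f ρ := fun ρ => by rw [hfd]; exact Nat.cast_nonneg _
  obtain ⟨M, hM⟩ : ∃ M : ℕ, M = ⌊x⌋₊ + 1 := ⟨_, rfl⟩
  obtain ⟨J, hJ⟩ : ∃ J : ℕ, J = ⌊8 * Real.exp x / δ⌋₊ + 1 := ⟨_, rfl⟩
  obtain ⟨I, hI⟩ : ∃ I : Finset (ℕ × ℕ × ℤ × ℕ),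
      I = (Finset.range M) ×ˢ (Finset.Icc 1 64000) ×ˢ ({1, -1} : Finset ℤ) ×ˢ (Finset.range J) := ⟨_, rfl⟩
  obtain ⟨t, ht⟩ : ∃ t : ℕ × ℕ × ℤ × ℕ → ℝ, t = fun i =>
      (i.2.2.1 : ℝ) * (i.2.1 * (P i.1).g - 4 * Real.exp (P i.1).R + δ * i.2.2.2) := ⟨_, rfl⟩
  obtain ⟨Q, hQ⟩ : ∃ Q : ℕ × ℕ × ℤ × ℕ → ℂ → Prop, Q = fun i ρ => |ρ.im - t i| ≤ δ ∧ (P i.1).R ≤ x ∧
      |(|t i| - i.2.1 * (P i.1).g)| ≤ 4 * Real.exp (P i.1).R + 1 := ⟨_, rfl⟩
  have hcov : ∀ ρ ∈ S, ∃ i ∈ I, Q i ρ := by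
    intro ρ hρ
    obtain ⟨h1, h2, h3⟩ := hS ρ hρ
    obtain ⟨n, k, hk1, hk2, hk3⟩ := FF_zero_loc hP (lt_of_lt_of_le hθ h2) h1
    have h4 : (P n).R ≤ x := by rw [hx]; exact zwm_small hm hc hk1 hk3 h3
    have hk1' : (1 : ℝ) ≤ k := by exact_mod_cast hk1
    have hg := zwm_g hc n
    have hR := (P n).hR
    have he1 : 1 ≤ Real.exp (P n).R := Real.one_le_exp (by linarith)
    have hex : Real.exp (P n).R ≤ Real.exp x := Real.exp_le_exp.2 h4
    have hg0 : 0 < (P n).g := by linarith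
    have hkg : (P n).g ≤ k * (P n).g := by nlinarith
    obtain ⟨h5, h6⟩ := abs_le.1 hk3
    -- the grid
    obtain ⟨u, hu⟩ : ∃ u : ℝ, u = |ρ.im| - k * (P n).g + 4 * Real.exp (P n).R := ⟨_, rfl⟩
    have hu0 : 0 ≤ u := by rw [hu]; linarith
    have hu1 : u ≤ 8 * Real.exp (P n).R := by rw [hu]; linarith
    obtain ⟨j, hj⟩ : ∃ j : ℕ, j = ⌊u / δ⌋₊ := ⟨_, rfl⟩
    have hj1 : (j : ℝ) ≤ u / δ := by rw [hj]; exact Nat.floor_le (by positivity)
    have hj2 : u / δ < (j : ℝ) + 1 := by rw [hj]; exact Nat.lt_floor_add_one _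
    have hj3 : δ * j ≤ u := by
      rw [le_div_iff₀ hδ] at hj1; linarith
    have hj4 : u < δ * j + δ := by
      rw [div_lt_iff₀ hδ] at hj2; linarith
    have hjJ : j < J := by
      rw [hJ, hj]
      apply Nat.lt_succ_of_le
      apply Nat.floor_le_floor
      gcongr
      linarith
    have hnM : n < M := by
      rw [hM]
      apply Nat.lt_succ_of_le
      apply Nat.le_floor
      have := zwm_R_ge hP n
      linarith
    have hk64 : k ∈ Finset.Icc 1 64000 := by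
      rw [Finset.mem_Icc]
      refine ⟨hk1, ?_⟩
      rw [← (hc n).K]
      exact hk2
    -- the centre
    obtain ⟨v, hv⟩ : ∃ v : ℝ, v = k * (P n).g - 4 * Real.exp (P n).R + δ * j := ⟨_, rfl⟩
    have hδj : 0 ≤ δ * j := by positivity
    have hv0 : 0 < v := by rw [hv]; linarith
    have hv1 : |(v - k * (P n).g)| ≤ 4 * Real.exp (P n).R + 1 := by
      rw [abs_le]; constructor
      · rw [hv]; linarith
      · rw [hv]; linarith
    have hv2 : |(|ρ.im| - v)| ≤ δ := by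
      rw [abs_le]; constructor
      · rw [hv]; linarith
      · rw [hv]; linarith
    rcases le_total 0 ρ.im with hs | hs
    · refine ⟨(n, k, 1, j), ?_, ?_⟩
      · rw [hI]
        simp only [Finset.mem_product, Finset.mem_range, Finset.mem_insert, Finset.mem_singleton]
        exact ⟨hnM, hk64, Or.inl (by trivial), hjJ⟩
      · have htv : t (n, k, 1, j) = v := by
          rw [ht, hv]; simp
        rw [hQ]
        simp only [htv]
        rw [abs_of_nonneg hs] at hv2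
        rw [abs_of_pos hv0]
        exact ⟨hv2, h4, hv1⟩
    · refine ⟨(n, k, -1, j), ?_, ?_⟩
      · rw [hI]
        simp only [Finset.mem_product, Finset.mem_range, Finset.mem_insert, Finset.mem_singleton]
        exact ⟨hnM, hk64, Or.inr (by trivial), hjJ⟩
      · have htv : t (n, k, -1, j) = -v := by
          rw [ht, hv]; simp
        rw [hQ]
        simp only [htv]
        rw [abs_of_nonpos hs] at hv2
        rw [abs_neg, abs_of_pos hv0]
        refine ⟨?_, h4, hv1⟩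
        rw [← abs_neg]
        have : -(ρ.im - -v) = -ρ.im - v := by ring
        rw [this]
        exact hv2
  have hx0 : 0 ≤ x := by linarith
  have hex1 : 1 ≤ Real.exp x := Real.one_le_exp hx0
  have hpart : ∀ i ∈ I, ∑ ρ ∈ S, (if Q i ρ then f ρ else 0) ≤ A0 * x := by
    rintro ⟨n, k, s, j⟩ hi
    rw [hI] at hi
    simp only [Finset.mem_product, Finset.mem_range, Finset.mem_Icc] at hi
    obtain ⟨hi1, ⟨hi2, hi3⟩, hi4, hi5⟩ := hi
    rw [← Finset.sum_filter]
    by_cases hw : (P n).R ≤ x ∧ |(|t (n, k, s, j)| - k * (P n).g)| ≤ 4 * Real.exp (P n).R + 1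
    · have hkK : k ≤ (P n).K := by rw [(hc n).K]; exact hi3
      have h1 := hloc n k (t (n, k, s, j)) hi2 hkK hw.2 (S.filter (Q (n, k, s, j))) (by
        intro ρ hρ
        rw [Finset.mem_filter] at hρ
        obtain ⟨hρ1, hρ2⟩ := hρ
        rw [hQ] at hρ2
        exact ⟨(hS ρ hρ1).1, (hS ρ hρ1).2.1, hρ2.1⟩)
      rw [hfd]
      exact h1.trans (mul_le_mul_of_nonneg_left hw.1 hA0)
    · have h1 : S.filter (Q (n, k, s, j)) = ∅ := by
        apply Finset.filter_eq_empty_iff.2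
        intro ρ _ h2
        rw [hQ] at h2
        exact hw h2.2
      rw [h1, Finset.sum_empty]
      positivity
  have hcard : (I.card : ℝ) = M * 128000 * J := by
    rw [hI]
    simp only [Finset.card_product, Finset.card_range, Nat.card_Icc]
    have : (({1, -1} : Finset ℤ)).card = 2 := by decide
    rw [this]
    push_cast
    ring
  have hMle : (M : ℝ) ≤ x + 1 := by
    rw [hM]; push_cast
    have := Nat.floor_le hx0
    linarith
  have hJle : (J : ℝ) ≤ (8 / δ + 1) * Real.exp x := by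
    rw [hJ]; push_cast
    have h1 : (⌊8 * Real.exp x / δ⌋₊ : ℝ) ≤ 8 * Real.exp x / δ := Nat.floor_le (by positivity)
    have h2 : (8 / δ + 1) * Real.exp x = 8 * Real.exp x / δ + Real.exp x := by ring
    rw [h2]
    linarith
  have hquad : x * (x + 1) ≤ 2 * Real.exp x := by
    have := Real.quadratic_le_exp_of_nonneg hx0
    nlinarith
  have hexp : Real.exp (ω T) = Real.exp x * Real.exp x := by
    rw [← Real.exp_add, hx]; ring_nf
  have hsum : ∑ ρ ∈ S, f ρ ≤ 256000 * (8 / δ + 1) * A0 * Real.exp (ω T) := by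
    calc ∑ ρ ∈ S, f ρ ≤ ∑ ρ ∈ S, ∑ i ∈ I, (if Q i ρ then f ρ else 0) := by
          apply Finset.sum_le_sum
          intro ρ hρ
          obtain ⟨i, hi, hq⟩ := hcov ρ hρ
          have h1 : (if Q i ρ then f ρ else 0) ≤ ∑ i ∈ I, (if Q i ρ then f ρ else 0) :=
            Finset.single_le_sum (f := fun i => if Q i ρ then f ρ else 0)
              (fun i _ => by split_ifs; exacts [hf ρ, le_refl 0]) hi
          rwa [if_pos hq] at h1
      _ = ∑ i ∈ I, ∑ ρ ∈ S, (if Q i ρ then f ρ else 0) := Finset.sum_comm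
      _ ≤ ∑ i ∈ I, A0 * x := Finset.sum_le_sum hpart
      _ = (M * 128000 * J) * (A0 * x) := by rw [Finset.sum_const, nsmul_eq_mul, hcard]
      _ ≤ ((x + 1) * 128000 * ((8 / δ + 1) * Real.exp x)) * (A0 * x) := by
          apply mul_le_mul_of_nonneg_right _ (by positivity)
          apply mul_le_mul _ hJle (by positivity) (by positivity)
          apply mul_le_mul_of_nonneg_right hMle (by norm_num)
      _ = 128000 * (8 / δ + 1) * A0 * Real.exp x * (x * (x + 1)) := by ring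
      _ ≤ 128000 * (8 / δ + 1) * A0 * Real.exp x * (2 * Real.exp x) :=
          mul_le_mul_of_nonneg_left hquad (by positivity)
      _ = 256000 * (8 / δ + 1) * A0 * Real.exp (ω T) := by rw [hexp]; ring
  rw [hfd] at hsum
  exact hsum

end VQ
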